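import Pool.Agent.Work.MP_055a27_an.Sg.Stmts
import Pool.Agent.Work.MP_055a27_an.DensitySets
import Pool.Agent.Work.MP_055a27_an.Pattern

/-!
# Wide cones `lam < b`: definitions and statements of the items

Main result of this part: for `0 < lam < b` and `1 < p` the inequality `Star lam b p U` holds if
and only if `CondV lam b U`: there are `C, ε > 0` such that for every superharmonic function `v`
on the upper half plane, bounded below, with `U([x - b y, x + b y]) ≤ exp (v (x, y))` for all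
`(x, y)`, one has `U(E) ≤ C (|E| / y) ^ ε exp (v (x, y))` for all `(x, y)` and all measurable
`E ⊆ [x - lam y, x + lam y]`.
-/

open MeasureTheory Set Filter Topology Complex Metric
open scoped ENNReal NNReal

namespace Pool.Agent.Work.MP_055a27_an.Wd

open Crit (NTc Nice NI)
open Fn (StarC)
open Sg (An)

/-! ### Definitions -/

/-- The cone of directions. -/
def Co (b : ℝ) : Set ℂ := {e : ℂ | |e.re| ≤ b * e.im}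

/-- The shadow of the point `z` with aperture `b`. -/
def Iv (b : ℝ) (z : ℂ) : Set ℝ := Icc (z.re - b * z.im) (z.re + b * z.im)

/-- Nondecreasing in the directions of the cone. -/
def MonoC (b : ℝ) (u : ℂ → ℝ) : Prop := ∀ z ∈ uhp, ∀ e ∈ Co b, u z ≤ u (z + e)

/-- Superharmonic functions of class `C ^ 2`. -/
def C2S (v : ℂ → ℝ) : Prop :=
  ContDiffOn ℝ 2 v uhp ∧ ∀ z ∈ uhp, Laplacian.laplacian v z ≤ 0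

/-- Bounded below on the upper half plane. -/
def BddB (u : ℂ → ℝ) : Prop := ∃ m : ℝ, ∀ z ∈ uhp, m ≤ u z

/-- The mass of the shadows is at most `exp v`. -/
def Dom (b : ℝ) (U : ℝ → ℝ) (v : ℂ → ℝ) : Prop :=
  ∀ z ∈ uhp, ∫ t in Iv b z, U t ≤ Real.exp (v z)

/-- The condition on the weight. -/
def CondV (lam b : ℝ) (U : ℝ → ℝ) : Prop := ∃ C ε : ℝ, 0 < C ∧ 0 < ε ∧
  ∀ v : ℂ → ℝ, C2S v → BddB v → Dom b U v → ∀ z ∈ uhp, ∀ E : Set ℝ, MeasurableSet E →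
    E ⊆ Iv lam z → ∫ t in E, U t ≤ C * (volume.real E / z.im) ^ ε * Real.exp (v z)

/-- Superharmonic functions (for discs of radius at most half of the height), bounded below and
nondecreasing in the directions of the cone. -/
structure SH (b : ℝ) (u : ℂ → ℝ) : Prop where
  usc : UpperSemicontinuousOn u uhp
  mono : MonoC b u
  bdd : BddB u
  mean : ∀ z ∈ uhp, ∀ r : ℝ, 0 < r → r ≤ z.im / 2 → ⨍ w in ball z r, u w ≤ u z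

/-- The infimum over the translated cone. -/
noncomputable def vst (b : ℝ) (v : ℂ → ℝ) (z : ℂ) : ℝ := ⨅ e : Co b, v (z + e)

/-- The boundary function: the infimum over the cone with vertex `x`. -/
noncomputable def bv (b : ℝ) (u : ℂ → ℝ) (x : ℝ) : ℝ :=
  ⨅ e : {e : ℂ // e ∈ Co b ∧ 0 < e.im}, u (x + e)

/-- The weight of the point `x` in the cost of the top `x0 + y I`; `d` is the difference of the
value at the top and the boundary value at `x`. -/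
noncomputable def Dk (k : ℕ) (c γ x0 y d x : ℝ) : ℝ :=
  (1 + |x - x0| / y) ^ (-(k : ℝ)) * Real.exp (-(c * (1 + |x - x0| / y) ^ (-(γ + 1)) * max d 0))

/-- The cost of the top `x0 + y I`. -/
noncomputable def kap (k : ℕ) (c γ b : ℝ) (u : ℂ → ℝ) (U : ℝ → ℝ) (x0 y : ℝ) : ℝ≥0∞ :=
  ∫⁻ x : ℝ, ENNReal.ofReal (Real.exp (-bv b u x) *
    Dk k c γ x0 y (u (x0 + y * I) - bv b u x) x) * ENNReal.ofReal (U x)

/-- The total cost. -/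
noncomputable def XX (b : ℝ) (u : ℂ → ℝ) (U : ℝ → ℝ) : ℝ≥0∞ :=
  ∫⁻ x : ℝ, ENNReal.ofReal (Real.exp (-bv b u x)) * ENNReal.ofReal (U x)

/-- The function is flat below the point `x + y I`. -/
def Fl (M : ℝ) (u : ℂ → ℝ) (x y : ℝ) : Prop := u (x + y * I) - 1 ≤ u (x + (y / M : ℝ) * I)

/-- Upper bound for the growth above flat points. -/
def Gro (M γ K : ℝ) (u : ℂ → ℝ) : Prop := ∀ x y s : ℝ, 0 < y → 0 ≤ s → Fl M u x y →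
  u (x + (y + s : ℝ) * I) ≤ u (x + y * I) + K * (1 + s / y) ^ γ

/-- The condition on the weight, for flat tops. -/
def Wp (lam b M : ℝ) (k : ℕ) (c γ C ε : ℝ) (u : ℂ → ℝ) (U : ℝ → ℝ) : Prop :=
  ∀ x0 y : ℝ, 0 < y → Fl M u x0 y → ∀ E : Set ℝ, MeasurableSet E →
    E ⊆ Icc (x0 - lam * y) (x0 + lam * y) →
    wm U E ≤ ENNReal.ofReal (C * (volume.real E / y) ^ ε * Real.exp (u (x0 + y * I))) *
      kap k c γ b u U x0 y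

/-- Dyadic intervals. -/
def dy (j k : ℤ) : Set ℝ := Ico ((k : ℝ) * (2 : ℝ) ^ j) (((k : ℝ) + 1) * (2 : ℝ) ^ j)

/-- The level of the top `(j, k, x)`, that is the point `x + L 2 ^ j I`. -/
noncomputable def lev (L : ℝ) (u : ℂ → ℝ) (t : ℤ × ℤ × ℝ) : ℤ :=
  ⌈-u ((t.2.2 : ℂ) + ((L * (2 : ℝ) ^ t.1 : ℝ) : ℂ) * I)⌉

/-- Admissible families of tops. -/
def Fam (L M : ℝ) (R : ℕ) (u : ℂ → ℝ) (T : Finset (ℤ × ℤ × ℝ)) : Prop :=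
  (∀ t ∈ T, -(R : ℤ) ≤ t.1 ∧ t.1 ≤ R ∧ t.2.2 ∈ dy t.1 t.2.1 ∧
    Fl M u t.2.2 (L * (2 : ℝ) ^ t.1)) ∧
  ∀ t ∈ T, ∀ t' ∈ T, t ≠ t' → lev L u t = lev L u t' →
    Disjoint (dy t.1 t.2.1) (dy t'.1 t'.2.1)

/-- The cost of a top of a family. -/
noncomputable def kt (k : ℕ) (c γ b L : ℝ) (u : ℂ → ℝ) (U : ℝ → ℝ) (t : ℤ × ℤ × ℝ) : ℝ≥0∞ :=
  kap k c γ b u U t.2.2 (L * (2 : ℝ) ^ t.1)

/-- Boxes. -/
def Bx (R : ℝ) : Set (ℝ × ℝ) := {q | |q.1| ≤ R ∧ 1 / R ≤ q.2 ∧ q.2 ≤ R}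

/-- The function `u` evaluated slightly below the point `q`. -/
noncomputable def ut (τ : ℝ) (u : ℂ → ℝ) (q : ℝ × ℝ) : ℝ :=
  u ((q.1 : ℂ) + (((1 - τ) * q.2 : ℝ) : ℂ) * I)

/-- The bound for the analytic function `F` by `exp (-u / p)` in a box. -/
def HB (τ p C R : ℝ) (u : ℂ → ℝ) (F : ℂ → ℂ) : Prop := ∀ q ∈ Bx R,
  |(F ((q.1 : ℂ) + (q.2 : ℂ) * I)).re| + q.2 * ‖deriv F ((q.1 : ℂ) + (q.2 : ℂ) * I)‖ ≤
    C * Real.exp (-ut τ u q / p)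

/-- The part of the square of the area function from the level `l` in a box. -/
noncomputable def Sl (lam τ R : ℝ) (u : ℂ → ℝ) (F : ℂ → ℂ) (l : ℤ) (x : ℝ) : ℝ≥0∞ :=
  ∫⁻ q in cone lam x ∩ Bx R ∩ {q | -(l : ℝ) ≤ ut τ u q ∧ ut τ u q < -(l : ℝ) + 1},
    ENNReal.ofReal (gsq F q)

/-- The Wirtinger derivatives. -/
noncomputable def dbar (f : ℂ → ℂ) (z : ℂ) : ℂ := (fderiv ℝ f z 1 + I * fderiv ℝ f z I) / 2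

/-- The derivative with respect to `z`. -/
noncomputable def dzz (f : ℂ → ℂ) (z : ℂ) : ℂ := (fderiv ℝ f z 1 - I * fderiv ℝ f z I) / 2

/-- The difference in the direction of the cone: `b Im e - |Re e|`. -/
noncomputable def dl (b : ℝ) (e : ℂ) : ℝ := b * e.im - |e.re|

/-- The decaying factor. -/
noncomputable def tau (R : ℝ) (z : ℂ) : ℂ := (I * R / (z + I * R)) ^ 4

/-- The gradient functional. -/
noncomputable def GG (b R : ℝ) (Φ : ℂ → ℂ) (z : ℂ) : ℝ :=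
  ⨆ e : Co b, dl b e * ‖Φ (z + e) * tau R (z + e)‖

/-- The logarithm of a positive harmonic function, nondecreasing along the cone. -/
noncomputable def pk (b x0 y : ℝ) (z : ℂ) : ℝ :=
  (Real.pi / (2 * Real.arctan b)) * Real.log
    ((((1 : ℂ) + (z - x0) / (y * I)) ^ ((2 / Real.pi * Real.arctan b : ℝ) : ℂ)).re)

/-! ### Superharmonic functions -/

/-- 1 SubM: the mean value inequality. -/
def StSubM : Prop := ∀ v : ℂ → ℝ, C2S v → ∀ z ∈ uhp, ∀ r : ℝ, 0 < r → r < z.im →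
  ⨍ w in ball z r, v w ≤ v z

/-- 2 LapN: the converse for functions of class `C ^ 2`. -/
def StLapN : Prop := ∀ (v : ℂ → ℝ) (z : ℂ), ContDiffAt ℝ 2 v z →
  (∃ r0 : ℝ, 0 < r0 ∧ ∀ r : ℝ, 0 < r → r < r0 → ⨍ w in ball z r, v w ≤ v z) →
  Laplacian.laplacian v z ≤ 0

/-- 3 Smo: regularisation in the directions of the cone. -/
def StSmo : Prop := ∀ (b : ℝ) (u : ℂ → ℝ), 0 < b → SH b u → ∀ t : ℝ, 0 < t → ∃ v : ℂ → ℝ,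
  C2S v ∧ MonoC b v ∧ (∀ m : ℝ, (∀ z ∈ uhp, m ≤ u z) → ∀ z ∈ uhp, m ≤ v z) ∧
  ∀ z ∈ uhp, u z ≤ v z ∧ v z ≤ u (z + 2 * t * I)

/-- 4 Vst: the infimum over the translated cones. -/
def StVst : Prop := ∀ (b : ℝ) (v : ℂ → ℝ), 0 < b → C2S v → BddB v → SH b (vst b v) ∧
  (∀ z ∈ uhp, vst b v z ≤ v z) ∧ ∀ U : ℝ → ℝ, IsWeight U → Dom b U v → Dom b U (vst b v)

/-- 5 SubL: the sub mean value property of the logarithm of an analytic function. -/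
def StSubL : Prop := ∀ (A : ℂ → ℂ) (z : ℂ) (r : ℝ) (g : ℂ → ℝ), 0 < r →
  DifferentiableOn ℂ A (closedBall z r) → IntegrableOn g (ball z r) →
  (∀ w ∈ ball z r, ‖A w‖ ≤ Real.exp (g w)) → ‖A z‖ ≤ Real.exp (⨍ w in ball z r, g w)

/-- 6 Pk: the peak exponent. -/
def StPk : Prop := ∀ b : ℝ, 0 < b → ∃ C : ℝ, 1 ≤ C ∧ ∀ x0 y : ℝ, 0 < y →
  C2S (pk b x0 y) ∧ MonoC b (pk b x0 y) ∧ ContinuousOn (pk b x0 y) uhp ∧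
  (∀ z ∈ uhp, Real.log (1 + ‖z - (x0 + y * I)‖ / y) - C ≤ pk b x0 y z) ∧
  (∀ s : ℝ, 0 < s → pk b x0 y (x0 + s * I) ≤ Real.log (1 + s / y)) ∧
  (∀ z ∈ uhp, -C ≤ pk b x0 y z) ∧
  ∀ (x : ℝ), ∀ z ∈ uhp, |x - z.re| ≤ b * z.im → Real.log (1 + |x - x0| / y) - C ≤ pk b x0 y z

/-! ### Necessity -/

/-- 11 Up: upper bound near a point where the function is nearly minimal. -/
def StUp : Prop := ∀ b : ℝ, 0 < b → ∃ c C : ℝ, 0 < c ∧ c ≤ 1 / 2 ∧ 1 ≤ C ∧ ∀ u : ℂ → ℝ, SH b u →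
  ∀ w ∈ uhp, ∀ r : ℝ, 0 < r → r ≤ w.im / 2 → (∀ z ∈ ball w r, u w - 1 ≤ u z) →
    ∀ z ∈ ball w (c * r), u z ≤ u w + C

/-- 12 HorI: the basic inequality of Hörmander in dimension one. -/
def StHorI : Prop := ∀ (φ : ℂ → ℝ) (α : ℂ → ℂ), ContDiffOn ℝ 2 φ uhp → ContDiff ℝ 2 α →
  HasCompactSupport α → tsupport α ⊆ uhp →
  ∫ z in uhp, Laplacian.laplacian φ z / 4 * ‖α z‖ ^ 2 * Real.exp (-φ z) ≤
    ∫ z in uhp, ‖dzz (fun w => (φ w : ℂ)) z * α z - dzz α z‖ ^ 2 * Real.exp (-φ z)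

/-- 13 HorE: weak solutions of the inhomogeneous Cauchy Riemann equation. -/
def StHorE : Prop := ∀ (φ : ℂ → ℝ) (g : ℂ → ℂ) (κ : ℝ), ContDiffOn ℝ 2 φ uhp →
  (∀ z ∈ uhp, 0 ≤ Laplacian.laplacian φ z) → Continuous g → HasCompactSupport g →
  tsupport g ⊆ uhp → 0 < κ → (∀ z ∈ tsupport g, 4 * κ ≤ Laplacian.laplacian φ z) →
  ∃ h : ℂ → ℂ, AEStronglyMeasurable h (volume.restrict uhp) ∧
    ∫⁻ z in uhp, ENNReal.ofReal (‖h z‖ ^ 2 * Real.exp (-φ z)) ≤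
      ENNReal.ofReal (1 / κ * ∫ z in uhp, ‖g z‖ ^ 2 * Real.exp (-φ z)) ∧
    ∀ β : ℂ → ℂ, ContDiff ℝ 2 β → HasCompactSupport β → tsupport β ⊆ uhp →
      ∫ z in uhp, h z * dbar β z = -∫ z in uhp, g z * β z

/-- 14 Weyl: weakly holomorphic functions are holomorphic. -/
def StWeyl : Prop := ∀ F : ℂ → ℂ, LocallyIntegrableOn F uhp →
  (∀ β : ℂ → ℂ, ContDiff ℝ 2 β → HasCompactSupport β → tsupport β ⊆ uhp →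
    ∫ z in uhp, F z * dbar β z = 0) →
  ∃ G : ℂ → ℂ, DifferentiableOn ℂ G uhp ∧ ∀ᵐ z ∂(volume.restrict uhp), F z = G z

/-- 15 Hor: analytic functions with modulus comparable to `exp (-v / p)`. -/
def StHor : Prop := ∀ b p : ℝ, 0 < b → 0 < p → ∃ C A : ℝ, 1 ≤ C ∧ 0 < A ∧
  ∀ v : ℂ → ℝ, C2S v → MonoC b v → BddB v → ∀ w ∈ uhp, ∀ r : ℝ, 0 < r → r ≤ w.im / 4 →
    (∀ z ∈ ball w r, v w - 1 ≤ v z) →
    ∃ F : ℂ → ℂ, DifferentiableOn ℂ F uhp ∧ F w = 1 ∧ ∀ z : ℂ, r ≤ z.im →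
      ‖F z‖ ^ p ≤ C * Real.exp (v w - v (z - (r / 4 : ℝ) * I)) * (1 + ‖z - w‖ / r) ^ A

/-- 16 Zb: the integral of the majorant. -/
def StZb : Prop := ∀ b : ℝ, 0 < b → ∃ C : ℝ, 0 < C ∧ ∀ (U : ℝ → ℝ) (v : ℂ → ℝ), IsWeight U →
  MonoC b v → ContinuousOn v uhp → Dom b U v → ∀ η r x0 : ℝ, 0 < r → r ≤ η →
    ∫⁻ x : ℝ, ENNReal.ofReal (Real.exp (-v (x + η * I)) * (1 + |x - x0| / r) ^ (-(2 : ℝ))) *
      ENNReal.ofReal (U x) ≤ ENNReal.ofReal C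

/-- The counting function of the complements of the sets `O 0, …, O m`. -/
noncomputable def cnt (O : ℕ → Set ℝ) (m : ℕ) (t : ℝ) : ℝ :=
  ∑ j ∈ Finset.range (m + 1), (O j)ᶜ.indicator (fun _ => (1 : ℝ)) t

/-- 17 Hfu: the Poisson integral of the counting function. -/
def StHfu : Prop := ∀ lam b : ℝ, 0 < lam → 0 < b → ∃ K0 C : ℝ, 3 ≤ K0 ∧ 1 ≤ C ∧
  ∀ (K τ : ℝ) (E : Set ℝ) (m : ℕ), K0 ≤ K → 0 < τ → τ * K ^ m < 1 → IsOpen E →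
    Bornology.IsBounded E →
    Admissible (cnt (fun j => dset E (τ * K ^ j)) m) ∧
    (∀ t, 0 ≤ cnt (fun j => dset E (τ * K ^ j)) m t ∧
      cnt (fun j => dset E (τ * K ^ j)) m t ≤ m + 1) ∧
    (∀ (j : ℕ) (x z y : ℝ), j ≤ m → x ∉ dset E (τ * K ^ j) → 0 < y → |x - z| ≤ b * y →
      ((m : ℝ) - j) / 2 ≤ poisson (cnt (fun j => dset E (τ * K ^ j)) m) z y) ∧
    ∀ (x z y : ℝ), x ∈ dset E (τ * K ^ m) → 0 < y → |x - z| ≤ lam * y →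
      y ≤ rho (dset E (τ * K ^ m)) x →
      poisson (cnt (fun j => dset E (τ * K ^ j)) m) z y ≤ C ∧
      ‖dschw (cnt (fun j => dset E (τ * K ^ j)) m) (z + y * I)‖ ≤
        C / rho (dset E (τ * K ^ m)) x

/-- 18 Stp: one step of the estimate for the nested sets. -/
def StStp : Prop := ∀ (C0 : ℝ≥0) (lam b p B : ℝ), 0 < lam → 0 < b → 0 < p → 1 ≤ B →
  ∀ η : ℝ, 0 < η → ∃ (K : ℝ) (N : ℕ), 3 ≤ K ∧ 1 ≤ N ∧ Real.exp (-(p / 4)) ≤ (1 / 2) ^ (1 / N : ℝ) ∧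
  ∀ (U : ℝ → ℝ) (G : ℂ → ℂ) (x0 r Z τ : ℝ) (E : Set ℝ) (n m : ℕ), IsWeight U →
    StarC C0 lam b p U → An G → 0 < r → 0 ≤ Z →
    (∀ x ∈ Icc (x0 - 3 * r) (x0 + 3 * r), ∀ z y : ℝ, 0 < y → |x - z| ≤ b * y →
      ‖G (z + y * I)‖ ≤ B) →
    (∀ z : ℂ, 0 ≤ z.im → ‖z - x0‖ ≤ 10 * (1 + lam) * r →
      1 / B ≤ ‖G z‖ ∧ ‖deriv G z‖ ≤ B / r) →
    NI U G b p ≤ ENNReal.ofReal Z →
    IsOpen E → E ⊆ Ioo (x0 - 2 * r) (x0 + 2 * r) → 0 < τ → volume.real E ≤ τ * r →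
    n = m + N → τ * K ^ n < 1 →
    wm U (dset E (τ * K ^ n)) ≤ ENNReal.ofReal η * (wm U (dset E (τ * K ^ m)) +
      ∑ j ∈ Finset.range m, ENNReal.ofReal (Real.exp (-(p / 2 * ((m : ℝ) - 1 - j)))) *
        wm U (dset E (τ * K ^ j)) + ENNReal.ofReal (Real.exp (-(p / 2 * m)) * Z))

/-- 19 Dec: power decay. -/
def StDec : Prop := ∀ (C0 : ℝ≥0) (lam b p B : ℝ), 0 < lam → 0 < b → 0 < p → 1 ≤ B →
  ∃ C ε : ℝ, 0 < C ∧ 0 < ε ∧ ∀ (U : ℝ → ℝ) (G : ℂ → ℂ) (x0 r Z : ℝ), IsWeight U →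
    StarC C0 lam b p U → An G → 0 < r → 0 ≤ Z →
    (∀ x ∈ Icc (x0 - 3 * r) (x0 + 3 * r), ∀ z y : ℝ, 0 < y → |x - z| ≤ b * y →
      ‖G (z + y * I)‖ ≤ B) →
    (∀ z : ℂ, 0 ≤ z.im → ‖z - x0‖ ≤ 10 * (1 + lam) * r →
      1 / B ≤ ‖G z‖ ∧ ‖deriv G z‖ ≤ B / r) →
    NI U G b p ≤ ENNReal.ofReal Z → wm U (Icc (x0 - 3 * r) (x0 + 3 * r)) ≤ ENNReal.ofReal Z →
    ∀ E : Set ℝ, MeasurableSet E → E ⊆ Icc (x0 - r) (x0 + r) →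
      wm U E ≤ ENNReal.ofReal (C * (volume.real E / r) ^ ε * Z)

/-- 20 Loc: the estimate near a point where `v` is nearly minimal. -/
def StLoc : Prop := ∀ (C0 : ℝ≥0) (lam b p : ℝ), 0 < lam → lam < b → 0 < p →
  ∃ c C ε : ℝ, 0 < c ∧ c ≤ 1 ∧ 0 < C ∧ 0 < ε ∧ ∀ (U : ℝ → ℝ) (v : ℂ → ℝ), IsWeight U →
    StarC C0 lam b p U → C2S v → MonoC b v → BddB v → Dom b U v → ∀ w ∈ uhp, ∀ r : ℝ,
    0 < r → r ≤ w.im / 8 → (∀ z ∈ ball w r, v w - 1 ≤ v z) → ∀ x0 : ℝ,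
    |x0 - w.re| ≤ (lam + b) / 2 * w.im → r ≤ c * w.im →
    ∀ E : Set ℝ, MeasurableSet E → E ⊆ Icc (x0 - c * r) (x0 + c * r) →
      wm U E ≤ ENNReal.ofReal (C * (volume.real E / r) ^ ε * Real.exp (v w))

/-- 21 NecM: necessity, functions nondecreasing along the cone. -/
def StNecM : Prop := ∀ (C0 : ℝ≥0) (lam b p : ℝ), 0 < lam → lam < b → 0 < p →
  ∃ C ε : ℝ, 0 < C ∧ 0 < ε ∧ ∀ (U : ℝ → ℝ) (v : ℂ → ℝ), IsWeight U → StarC C0 lam b p U →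
    C2S v → MonoC b v → BddB v → Dom b U v → ∀ z ∈ uhp, ∀ E : Set ℝ, MeasurableSet E →
    E ⊆ Iv lam z → wm U E ≤ ENNReal.ofReal (C * (volume.real E / z.im) ^ ε * Real.exp (v z))

/-- 22 Nec: necessity. -/
def StNec : Prop := ∀ (lam b p : ℝ) (U : ℝ → ℝ), 0 < lam → lam < b → 0 < p → IsWeight U →
  Star lam b p U → CondV lam b U

/-! ### The majorant of a real function -/

/-- 31 GR: properties of the gradient functional. -/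
def StGR : Prop := ∀ b : ℝ, 0 < b → ∀ (Φ : ℂ → ℂ) (K : ℝ), DifferentiableOn ℂ Φ {w | -K⁻¹ < w.im} →
  1 ≤ K → (∀ w : ℂ, 0 ≤ w.im → ‖Φ w‖ ≤ K * (1 + ‖w‖) ^ 2) → (∃ w ∈ uhp, Φ w ≠ 0) →
  (∀ R R' : ℝ, 1 ≤ R → R ≤ R' → ∀ z : ℂ, 0 ≤ z.im → GG b R Φ z ≤ GG b R' Φ z) ∧
  ∀ R : ℝ, 1 ≤ R →
    (∃ M : ℝ, ∀ z : ℂ, 0 ≤ z.im → (BddAbove (range fun e : Co b =>
      dl b e * ‖Φ (z + e) * tau R (z + e)‖)) ∧ GG b R Φ z ≤ M) ∧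
    (∀ z : ℂ, 0 ≤ z.im → 0 < GG b R Φ z) ∧
    (∀ z : ℂ, 0 ≤ z.im → ∀ e ∈ Co b, GG b R Φ (z + e) ≤ GG b R Φ z) ∧
    LowerSemicontinuousOn (GG b R Φ) {z | 0 ≤ z.im} ∧
    (∀ z : ℂ, 0 ≤ z.im → ∀ s : ℝ, 0 ≤ s →
      b * s * ‖Φ (z + s * I)‖ * ‖tau R (z + s * I)‖ ≤ GG b R Φ z) ∧
    ∀ z ∈ uhp, ∀ r : ℝ, 0 < r → r < z.im →
      Real.log (GG b R Φ z) ≤ ⨍ w in ball z r, Real.log (GG b R Φ w)

/-- 32 GRb: boundary values of the gradient functional. -/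
def StGRb : Prop := ∀ b : ℝ, 0 < b → ∃ C : ℝ, 1 ≤ C ∧ ∀ (f : ℝ → ℝ) (η R x : ℝ), Admissible f →
  0 < η → 1 ≤ R → ENNReal.ofReal (GG b R (fun w => dschw f (w + η * I)) x) ≤
    ENNReal.ofReal C * ntMax b f x

/-- 33 Slo: a height where the gradient functional is not small. -/
def StSlo : Prop := ∀ b τ : ℝ, 0 < b → 0 < τ → τ ≤ 1 / 2 → ∀ J : ℕ, ∃ c : ℝ, 0 < c ∧
  ∀ (f : ℝ → ℝ) (η R : ℝ) (w : ℂ) (j0 : ℕ), Admissible f → 0 < η → 1 ≤ R → 0 < w.im →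
    ‖w‖ + 2 ^ j0 * w.im ≤ R / 8 → 0 < |poisson f w.re (w.im + η)| →
    GG b R (fun w => dschw f (w + η * I)) (w - (τ * w.im : ℝ) * I) ≤
      c * |poisson f w.re (w.im + η)| →
    |poisson f w.re (w.im + 2 ^ j0 * w.im + η)| < |poisson f w.re (w.im + η)| / 2 →
    ∃ j : ℕ, J ≤ j ∧ j < j0 ∧
      |poisson f w.re (w.im + η)| / 2 ≤ |poisson f w.re (w.im + 2 ^ j * w.im + η)| ∧
      b / 64 * |poisson f w.re (w.im + η)| * (1 / 2) ^ j ≤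
        GG b R (fun w => dschw f (w + η * I)) (w + (2 ^ j * w.im : ℝ) * I)

/-- The glued function. -/
noncomputable def KK (b : ℝ) (G : ℂ → ℝ) (w : ℂ) (j : ℕ) (a : ℝ) (z : ℂ) : ℝ :=
  open Classical in
  if ‖z - w‖ < b / (1 + b) / 4 * 2 ^ j * w.im then
    max (G z) (4 * a * Real.exp (-2 * pk b w.re w.im z)) else G z

/-- 34 Glu: properties of the glued function. -/
def StGlu : Prop := ∀ b : ℝ, 0 < b → ∃ (J : ℕ) (C : ℝ), 1 ≤ C ∧ ∀ (G : ℂ → ℝ) (w : ℂ) (j : ℕ)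
  (a : ℝ), 0 < w.im → 0 < a → J ≤ j → (∀ z : ℂ, 0 < z.im → 0 < G z) →
    (∀ z : ℂ, 0 < z.im → ∀ e ∈ Co b, G (z + e) ≤ G z) → LowerSemicontinuousOn G uhp →
    (∀ z ∈ uhp, ∀ r : ℝ, 0 < r → r < z.im →
      Real.log (G z) ≤ ⨍ w in ball z r, Real.log (G w)) →
    b / 64 * a * (1 / 2) ^ j ≤ G (w + (2 ^ j * w.im : ℝ) * I) →
    a ≤ KK b G w j a w ∧ (∀ z ∈ uhp, G z ≤ KK b G w j a z) ∧
    (∀ z ∈ uhp, KK b G w j a z ≤ max (G z) (C * a)) ∧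
    (∀ z ∈ uhp, KK b G w j a z ≤ G z ∨ w + (2 ^ j * w.im : ℝ) * I - z ∈ Co b) ∧
    (∀ z ∈ uhp, ∀ e ∈ Co b, KK b G w j a (z + e) ≤ KK b G w j a z) ∧
    LowerSemicontinuousOn (KK b G w j a) uhp ∧
    ∀ z ∈ uhp, ∀ r : ℝ, 0 < r → r ≤ z.im / 2 → ∀ g : ℂ → ℝ, IntegrableOn g (ball z r) →
      (∀ w' ∈ ball z r, Real.log (KK b G w j a w') ≤ g w') →
      Real.log (KK b G w j a z) ≤ ⨍ w' in ball z r, g w'

/-- 35 HK: the majorant of a real function. -/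
def StHK : Prop := ∀ b τ p : ℝ, 0 < b → 0 < τ → τ ≤ 1 / 2 → 0 < p → ∃ C : ℝ, 1 ≤ C ∧
  ∀ (f : ℝ → ℝ) (η R : ℝ), Admissible f → 0 < η → 1 ≤ R →
    (∃ w ∈ uhp, dschw f (w + η * I) ≠ 0) → (∃ x, ntMax b f x ≠ ∞) →
    ∃ u : ℂ → ℝ, SH b u ∧ HB τ p C R u (fun w => schw f (w + η * I)) ∧
      ∀ x : ℝ, ENNReal.ofReal (Real.exp (-bv b u x)) ≤ ENNReal.ofReal C * (ntMax b f x) ^ p

/-! ### The cost of the tops -/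

/-- 41 Gro: growth above flat points. -/
def StGro : Prop := ∀ b : ℝ, 0 < b → ∃ (μ : ℕ) (γ K : ℝ), 1 ≤ μ ∧ 0 < γ ∧ 1 ≤ K ∧
  ∀ u : ℂ → ℝ, SH b u → Gro (2 ^ μ) γ K u

/-- 42 Bv: the boundary function. -/
def StBv : Prop := ∀ (b : ℝ) (u : ℂ → ℝ), 0 < b → SH b u → Measurable (bv b u) ∧
  (∀ x : ℝ, ∀ z ∈ uhp, |x - z.re| ≤ b * z.im → bv b u x ≤ u z) ∧
  ∀ x m : ℝ, (∀ z ∈ uhp, |x - z.re| ≤ b * z.im → m ≤ u z) → m ≤ bv b u x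

/-- 43 Wco: the condition on the weight gives the estimate for flat tops. -/
def StWco : Prop := ∀ (lam b γ K : ℝ) (μ : ℕ), 0 < lam → lam < b → 0 < γ → 1 ≤ K → 1 ≤ μ →
  ∃ c : ℝ, 0 < c ∧ ∀ k : ℕ, ∀ U : ℝ → ℝ, IsWeight U → CondV lam b U →
  ∃ C ε : ℝ, 0 < C ∧ 0 < ε ∧ ∀ u : ℂ → ℝ, SH b u → Gro (2 ^ μ) γ K u → XX b u U ≠ ∞ →
    Wp lam b (2 ^ μ) k c γ C ε u U

/-- 44 JN: the John Nirenberg inequality in abstract form. -/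
def StJN : Prop := ∀ (A : ℝ) (F F' : ℤ → ℤ → ℝ → ℝ≥0∞), 0 < A → (∀ j k, Measurable (F' j k)) →
  (∀ j k x, F j k x ≤ F' j k x) →
  (∀ j k, ∫⁻ x in dy j k, F' j k x ≤ ENNReal.ofReal A * volume (dy j k)) →
  (∀ (j k j' k' : ℤ) (x x' : ℝ), j' < j → dy j' k' ⊆ dy j k → x ∈ dy j' k' →
    x' ∈ dy (j' + 1) (k' / 2) → F j k x ≤ F' j k x' + F j' k' x + ENNReal.ofReal A) →
  ∀ (j k : ℤ) (t : ℝ), 0 ≤ t →
    volume {x | x ∈ dy j k ∧ ENNReal.ofReal t < F j k x} ≤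
      ENNReal.ofReal (2 * Real.exp (-(t / (8 * A)))) * volume (dy j k)

/-- 45 JNc: the counting function of dilated disjoint dyadic intervals. -/
def StJNc : Prop := ∃ c : ℝ, 0 < c ∧ ∀ (D : ℝ) (T : Finset (ℤ × ℤ × ℝ)), 1 ≤ D →
  (∀ t ∈ T, t.2.2 ∈ dy t.1 t.2.1) →
  (∀ t ∈ T, ∀ t' ∈ T, t ≠ t' → Disjoint (dy t.1 t.2.1) (dy t'.1 t'.2.1)) →
  ∀ (j k : ℤ) (n : ℝ), 0 ≤ n →
    volume {x | x ∈ dy j k ∧
      n < ((T.filter fun t => t.1 < j ∧ |x - t.2.2| < D * (2 : ℝ) ^ t.1).card : ℝ)} ≤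
      ENNReal.ofReal (2 * Real.exp (-(c * n / D ^ 2))) * volume (dy j k)

/-- 46 Cvr: covering of the points of high multiplicity by flat tops. -/
def StCvr : Prop := ∀ (b γ K L : ℝ) (μ : ℕ), 0 < b → 0 < γ → 1 ≤ K → 1 ≤ L → 1 ≤ μ →
  ∃ c C : ℝ, 0 < c ∧ 1 ≤ C ∧ ∀ u : ℂ → ℝ, MonoC b u → BddB u → Gro (2 ^ μ) γ K u →
  ∀ (R : ℕ) (l : ℤ) (T : Finset (ℤ × ℤ × ℝ)), Fam L (2 ^ μ) R u T → (∀ t ∈ T, lev L u t = l) →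
  ∀ m n : ℕ, C * (2 : ℝ) ^ ((γ + 3) * m) ≤ n →
  ∃ T' : Finset (ℤ × ℤ × ℝ),
    (∀ t ∈ T', -(R : ℤ) ≤ t.1 ∧ t.1 ≤ R ∧ t.2.2 ∈ dy t.1 t.2.1 ∧
      Fl (2 ^ μ) u t.2.2 (L * (2 : ℝ) ^ t.1)) ∧
    (∀ t ∈ T', ∀ t' ∈ T', t ≠ t' → Disjoint (dy t.1 t.2.1) (dy t'.1 t'.2.1)) ∧
    {x : ℝ | n < (T.filter fun t => |x - t.2.2| < 2 ^ m * (L * (2 : ℝ) ^ t.1)).card} ⊆
      ⋃ t ∈ T', dy t.1 t.2.1 ∧
    (∀ t ∈ T', -(l : ℝ) ≤ u ((t.2.2 : ℂ) + ((L * (2 : ℝ) ^ t.1 : ℝ) : ℂ) * I) ∧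
      u ((t.2.2 : ℂ) + ((L * (2 : ℝ) ^ t.1 : ℝ) : ℂ) * I) ≤ -(l : ℝ) + C * (2 : ℝ) ^ (γ * m)) ∧
    ∀ t ∈ T', volume.real ({x : ℝ | n < (T.filter fun t =>
        |x - t.2.2| < 2 ^ m * (L * (2 : ℝ) ^ t.1)).card} ∩ dy t.1 t.2.1) ≤
      C * Real.exp (-(c * n / 4 ^ m)) * (2 : ℝ) ^ t.1

/-- 47 Fin: the a priori bound for families of tops with bounded heights. -/
def StFin : Prop := ∀ (b γ K c L : ℝ) (μ k : ℕ), 0 < b → 0 < γ → 1 ≤ K → 0 < c → 1 ≤ L →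
  1 ≤ μ → 2 ≤ k → ∃ C : ℝ, 0 < C ∧ ∀ (u : ℂ → ℝ) (U : ℝ → ℝ), SH b u → Gro (2 ^ μ) γ K u →
  ∀ (R : ℕ) (T : Finset (ℤ × ℤ × ℝ)), Fam L (2 ^ μ) R u T →
    ∑ t ∈ T, kt k c γ b L u U t ≤ ENNReal.ofReal (C * (2 * R + 1)) * XX b u U

/-- 48 Ksu: the sum of the costs. -/
def StKsu : Prop := ∀ (lam b γ K c : ℝ) (μ : ℕ), 0 < lam → lam < b → 0 < γ → 1 ≤ K → 0 < c →
  1 ≤ μ → ∃ k : ℕ, 2 ≤ k ∧ ∀ L Cw ε : ℝ, 1 ≤ L → 1 ≤ lam * L → 0 < Cw → 0 < ε →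
  ∃ C : ℝ, 0 < C ∧ ∀ (u : ℂ → ℝ) (U : ℝ → ℝ), IsWeight U → SH b u → Gro (2 ^ μ) γ K u →
    Wp lam b (2 ^ μ) k c γ Cw ε u U → XX b u U ≠ ∞ →
    ∀ (R : ℕ) (T : Finset (ℤ × ℤ × ℝ)), Fam L (2 ^ μ) R u T →
      ∑ t ∈ T, kt k c γ b L u U t ≤ ENNReal.ofReal C * XX b u U

/-! ### The square function -/

/-- 51 SawG: the sawtooth estimate above Lipschitz graphs. -/
def StSawG : Prop := ∀ lam b : ℝ, 0 < lam → lam < b → ∃ K M : ℝ, 0 < K ∧ 1 ≤ M ∧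
  ∀ F : ℂ → ℂ, DifferentiableOn ℂ F uhp → ∀ (d : ℝ → ℝ) (x r T σ : ℝ), LipschitzWith 1 d →
    (∀ z, 0 ≤ d z) → 0 < r → 0 < T → 0 ≤ σ →
    (∀ z y : ℝ, 0 < y → y ≤ M * (r + T) → |z - x| ≤ M * (r + T) → d z < b * y →
      |(F (z + y * I)).re| ≤ σ) →
    ∫⁻ q in {q : ℝ × ℝ | 0 < q.2 ∧ q.2 < T ∧ |q.1 - x| ≤ r ∧ d q.1 ≤ lam * q.2},
      ENNReal.ofReal (q.2 * gsq F q) ≤ ENNReal.ofReal (K * σ ^ 2 * (r + T))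

/-- 52 LE2: the quadratic estimate in the region `-l ≤ ut`. -/
def StLE2 : Prop := ∀ lam b τ p C8 Λ : ℝ, 0 < lam → 0 < τ → τ < 1 → lam < b * (1 - τ) → 0 < p →
  1 ≤ C8 → 1 ≤ Λ → ∃ Cb C : ℝ, 1 ≤ Cb ∧ 1 ≤ C ∧ ∀ (u : ℂ → ℝ) (F : ℂ → ℂ) (R : ℝ), MonoC b u →
    UpperSemicontinuousOn u uhp → DifferentiableOn ℂ F uhp → 1 ≤ R → HB τ p C8 (Cb * R) u F →
    ∀ (l j k : ℤ), ∫⁻ x in dy j k, (∫⁻ q in cone lam x ∩ Bx R ∩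
        {q : ℝ × ℝ | -(l : ℝ) ≤ ut τ u q ∧ q.2 ≤ Λ * (2 : ℝ) ^ j}, ENNReal.ofReal (gsq F q)) ≤
      ENNReal.ofReal (C * Real.exp (2 * l / p)) * volume (dy j k)

/-- 53 LE: the exponential estimate. -/
def StLE : Prop := ∀ lam b τ p C8 Λ : ℝ, 0 < lam → 0 < τ → τ < 1 → lam < b * (1 - τ) → 0 < p →
  1 ≤ C8 → 1 ≤ Λ → ∃ Cb C c : ℝ, 1 ≤ Cb ∧ 1 ≤ C ∧ 0 < c ∧ ∀ (u : ℂ → ℝ) (F : ℂ → ℂ) (R : ℝ),
    MonoC b u → UpperSemicontinuousOn u uhp → DifferentiableOn ℂ F uhp → 1 ≤ R →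
    HB τ p C8 (Cb * R) u F →
    ∀ (l j k : ℤ) (a : ℝ), 0 ≤ a → volume {x | x ∈ dy j k ∧
      ENNReal.ofReal (a * Real.exp (2 * l / p)) < ∫⁻ q in cone lam x ∩ Bx R ∩
        {q : ℝ × ℝ | -(l : ℝ) ≤ ut τ u q ∧ q.2 ≤ Λ * (2 : ℝ) ^ j}, ENNReal.ofReal (gsq F q)} ≤
      ENNReal.ofReal (C * Real.exp (-(c * a))) * volume (dy j k)

/-- 54 CvE: covering of the points with large square function by flat tops. -/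
def StCvE : Prop := ∀ (lam b τ p C8 L : ℝ) (μ : ℕ), 0 < lam → 0 < b → 0 < τ → τ < 1 →
  lam < b * (1 - 2 * τ) → 0 < p → 1 ≤ C8 → 1 ≤ L → 1 ≤ μ → ∃ A0 Λ : ℝ, 1 ≤ A0 ∧ 1 ≤ Λ ∧
  ∀ (u : ℂ → ℝ) (F : ℂ → ℂ) (R : ℝ), MonoC b u → UpperSemicontinuousOn u uhp →
    DifferentiableOn ℂ F uhp → 1 ≤ R → HB τ p C8 R u F → ∀ (l : ℤ) (a : ℝ), A0 ≤ a →
    ∃ (N : ℕ) (T : Finset (ℤ × ℤ × ℝ)), Fam L (2 ^ μ) N u T ∧ (∀ t ∈ T, lev L u t = l) ∧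
      {x | ENNReal.ofReal (a * Real.exp (2 * l / p)) < Sl lam τ R u F l x} ⊆
        ⋃ t ∈ T, dy t.1 t.2.1 ∧
      ∀ t ∈ T, ∀ x ∈ dy t.1 t.2.1,
        ENNReal.ofReal (a * Real.exp (2 * l / p)) < Sl lam τ R u F l x →
        ∀ q ∈ cone lam x ∩ Bx R ∩ {q | -(l : ℝ) ≤ ut τ u q ∧ ut τ u q < -(l : ℝ) + 1},
          q.2 ≤ Λ * (2 : ℝ) ^ t.1

/-- 55 SlM: measurability and finiteness of the levels. -/
def StSlM : Prop := ∀ (lam b τ R : ℝ) (u : ℂ → ℝ) (F : ℂ → ℂ), 0 < lam → 0 < τ → τ < 1 →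
  lam ≤ b * (1 - τ) → 1 ≤ R → SH b u → DifferentiableOn ℂ F uhp →
  (∀ l, Measurable (Sl lam τ R u F l)) ∧
  (∀ l x, Sl lam τ R u F l x ≠ 0 → (l : ℝ) ≤ -bv b u x + 1) ∧
  ∀ x, ∫⁻ q in cone lam x ∩ Bx R, ENNReal.ofReal (gsq F q) = ∑' l : ℤ, Sl lam τ R u F l x

/-- 56 Int: integration of the estimate. -/
def StInt : Prop := ∀ p C c A0 : ℝ, 0 < p → 0 < C → 0 < c → 1 ≤ A0 → ∃ C' : ℝ≥0,
  ∀ (ν : Measure ℝ) (S : ℤ → ℝ → ℝ≥0∞) (ℓ : ℝ → ℝ), (∀ l, Measurable (S l)) → Measurable ℓ →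
    (∀ l x, S l x ≠ 0 → (l : ℝ) ≤ ℓ x) →
    (∀ (s : Finset ℤ) (a : ℝ), A0 ≤ a → ∑ l ∈ s, ENNReal.ofReal (Real.exp l) *
      ν {x | ENNReal.ofReal (a * Real.exp (2 * l / p)) < S l x} ≤
        ENNReal.ofReal (C * Real.exp (-(c * a))) * ∫⁻ x, ENNReal.ofReal (Real.exp (ℓ x)) ∂ν) →
    ∫⁻ x, (∑' l : ℤ, S l x) ^ (p / 2) ∂ν ≤ C' * ∫⁻ x, ENNReal.ofReal (Real.exp (ℓ x)) ∂ν

/-- 57 SuE: the estimate for a majorant. -/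
def StSuE : Prop := ∀ (lam b τ p C8 : ℝ) (U : ℝ → ℝ), 0 < lam → 0 < τ → τ < 1 →
  lam < b * (1 - 2 * τ) → 0 < p → 1 ≤ C8 → IsWeight U → CondV lam b U → ∃ (C : ℝ≥0) (Cb : ℝ),
  1 ≤ Cb ∧ ∀ (u : ℂ → ℝ) (F : ℂ → ℂ) (R : ℝ), SH b u → DifferentiableOn ℂ F uhp → 1 ≤ R →
    HB τ p C8 (Cb * R) u F → XX b u U ≠ ∞ →
    ∫⁻ x, (∫⁻ q in cone lam x ∩ Bx R, ENNReal.ofReal (gsq F q)) ^ (p / 2) *
      ENNReal.ofReal (U x) ≤ C * XX b u U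

/-- 58 Suf: sufficiency. -/
def StSuf : Prop := ∀ (lam b p : ℝ) (U : ℝ → ℝ), 0 < lam → lam < b → 0 < p → IsWeight U →
  CondV lam b U → Star lam b p U

/-- The main theorem. -/
def StMainW : Prop := ∀ (lam b p : ℝ) (U : ℝ → ℝ), 0 < lam → lam < b → 0 < p → IsWeight U →
  (Star lam b p U ↔ CondV lam b U)

end Pool.Agent.Work.MP_055a27_an.Wd
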