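import Pool.Agent.Work.MP_055a27_an.Wd.Stmts

/-!
# Item Cvr: covering of the points of high multiplicity by flat tops
-/

set_option autoImplicit false

open MeasureTheory Set Filter Topology Complex Metric
open scoped ENNReal NNReal

namespace Pool.Agent.Work.MP_055a27_an.Wd

namespace Cvr

lemma two_zpow_pos (i : ℤ) : (0 : ℝ) < (2 : ℝ) ^ i := by positivity

lemma two_zpow_mono {i j : ℤ} (h : i ≤ j) : (2 : ℝ) ^ i ≤ (2 : ℝ) ^ j :=
  zpow_le_zpow_right₀ (by norm_num) h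

lemma mem_dy {x : ℝ} {j k : ℤ} : x ∈ dy j k ↔ ⌊x / (2 : ℝ) ^ j⌋ = k := by
  have h := two_zpow_pos j
  rw [Int.floor_eq_iff]
  unfold dy
  rw [mem_Ico, le_div_iff₀ h, div_lt_iff₀ h]

lemma dy_nonempty (j k : ℤ) : (dy j k).Nonempty := by
  have h := two_zpow_pos j
  refine ⟨(k : ℝ) * 2 ^ j, ?_⟩
  unfold dy
  constructor
  · exact le_rfl
  · nlinarith

lemma floor_nested {x y : ℝ} {j j' : ℤ} (hj : j ≤ j')
    (h : ⌊x / (2 : ℝ) ^ j⌋ = ⌊y / (2 : ℝ) ^ j⌋) : ⌊x / (2 : ℝ) ^ j'⌋ = ⌊y / (2 : ℝ) ^ j'⌋ := by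
  obtain ⟨n, rfl⟩ : ∃ n : ℕ, j' = j + n := ⟨(j' - j).toNat, by omega⟩
  have e : ∀ z : ℝ, z / (2 : ℝ) ^ (j + (n : ℤ)) = z / (2 : ℝ) ^ j / ((2 ^ n : ℕ) : ℝ) := by
    intro z
    rw [zpow_add₀ (by norm_num), zpow_natCast]
    push_cast
    rw [div_div]
  rw [e x, e y, Int.floor_div_natCast, Int.floor_div_natCast, h]

lemma dy_nested {x : ℝ} {j j' k k' : ℤ} (hj : j ≤ j') (hx : x ∈ dy j k) (hx' : x ∈ dy j' k') :
    dy j k ⊆ dy j' k' := by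
  intro y hy
  rw [mem_dy] at *
  rw [← hx']
  exact floor_nested hj (hy.trans hx.symm)

lemma dy_diam {x y : ℝ} {j k : ℤ} (hx : x ∈ dy j k) (hy : y ∈ dy j k) :
    |x - y| < (2 : ℝ) ^ j := by
  unfold dy at hx hy
  rw [abs_lt]
  constructor <;> nlinarith [hx.1, hx.2, hy.1, hy.2]

/-- Number of the tops of one scale which see a point. -/
lemma count_scale {T : Finset (ℤ × ℤ × ℝ)} (hT1 : ∀ t ∈ T, t.2.2 ∈ dy t.1 t.2.1)
    (hT2 : ∀ t ∈ T, ∀ t' ∈ T, t ≠ t' → Disjoint (dy t.1 t.2.1) (dy t'.1 t'.2.1))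
    {D : ℝ} (hD : 0 ≤ D) (x : ℝ) (i : ℤ) :
    ((T.filter fun t => t.1 = i ∧ |x - t.2.2| < D * (2 : ℝ) ^ t.1).card : ℝ) ≤ 2 * D + 2 := by
  have h2 := two_zpow_pos i
  set a : ℤ := ⌈x / 2 ^ i - D - 1⌉ with ha
  set b : ℤ := ⌊x / 2 ^ i + D⌋ with hb
  have hcard : (T.filter fun t => t.1 = i ∧ |x - t.2.2| < D * (2 : ℝ) ^ t.1).card ≤
      (Finset.Icc a b).card := by
    apply Finset.card_le_card_of_injOn (fun t => t.2.1)
    · intro t ht
      rw [Finset.mem_coe, Finset.mem_filter] at ht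
      obtain ⟨htT, hti, htx⟩ := ht
      have hk := hT1 t htT
      rw [mem_dy] at hk
      rw [hti] at hk htx
      have h3 : |x / 2 ^ i - t.2.2 / 2 ^ i| < D := by
        rw [← sub_div, abs_div, abs_of_pos h2, div_lt_iff₀ h2]
        exact htx
      rw [abs_lt] at h3
      rw [Finset.mem_coe, Finset.mem_Icc]
      simp only
      constructor
      · rw [ha, Int.ceil_le, ← hk]
        have := Int.lt_floor_add_one (t.2.2 / 2 ^ i)
        linarith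
      · rw [hb, Int.le_floor, ← hk]
        have := Int.floor_le (t.2.2 / 2 ^ i)
        linarith
    · intro t ht t' ht' he
      rw [Finset.mem_coe, Finset.mem_filter] at ht ht'
      by_contra hne
      have hd := hT2 t ht.1 t' ht'.1 hne
      simp only at he
      rw [ht.2.1, ht'.2.1, he] at hd
      obtain ⟨z, hz⟩ := dy_nonempty i t'.2.1
      exact Set.disjoint_left.1 hd hz hz
  have h4 : ((Finset.Icc a b).card : ℝ) ≤ 2 * D + 2 := by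
    rw [Int.card_Icc]
    have h5 : ((b : ℤ) : ℝ) ≤ x / 2 ^ i + D := Int.floor_le _
    have h6 : x / 2 ^ i - D - 1 ≤ (a : ℝ) := Int.le_ceil _
    rcases le_total (b + 1 - a) 0 with h | h
    · rw [Int.toNat_of_nonpos h]
      push_cast
      linarith
    · have : (((b + 1 - a).toNat : ℤ) : ℝ) = ((b + 1 - a : ℤ) : ℝ) := by
        rw [Int.toNat_of_nonneg h]
      have h7 : (((b + 1 - a).toNat : ℕ) : ℝ) = (b : ℝ) + 1 - a := by
        have h8 : (((b + 1 - a).toNat : ℕ) : ℝ) = (((b + 1 - a).toNat : ℤ) : ℝ) := by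
          push_cast; rfl
        rw [h8, this]
        push_cast
        ring
      rw [h7]
      linarith
  exact le_trans (by exact_mod_cast hcard) h4

/-- Number of the tops with scales in a finite set which see a point. -/
lemma count_scales {T : Finset (ℤ × ℤ × ℝ)} (hT1 : ∀ t ∈ T, t.2.2 ∈ dy t.1 t.2.1)
    (hT2 : ∀ t ∈ T, ∀ t' ∈ T, t ≠ t' → Disjoint (dy t.1 t.2.1) (dy t'.1 t'.2.1))
    {D : ℝ} (hD : 0 ≤ D) (x : ℝ) (Z : Finset ℤ) :
    ((T.filter fun t => t.1 ∈ Z ∧ |x - t.2.2| < D * (2 : ℝ) ^ t.1).card : ℝ) ≤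
      Z.card * (2 * D + 2) := by
  have h1 : (T.filter fun t => t.1 ∈ Z ∧ |x - t.2.2| < D * (2 : ℝ) ^ t.1) ⊆
      Z.biUnion fun i => T.filter fun t => t.1 = i ∧ |x - t.2.2| < D * (2 : ℝ) ^ t.1 := by
    intro t ht
    rw [Finset.mem_filter] at ht
    rw [Finset.mem_biUnion]
    exact ⟨t.1, ht.2.1, Finset.mem_filter.2 ⟨ht.1, rfl, ht.2.2⟩⟩
  have h2 := (Finset.card_le_card h1).trans Finset.card_biUnion_le
  calc ((T.filter fun t => t.1 ∈ Z ∧ |x - t.2.2| < D * (2 : ℝ) ^ t.1).card : ℝ)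
      ≤ ((∑ i ∈ Z, (T.filter fun t => t.1 = i ∧ |x - t.2.2| < D * (2 : ℝ) ^ t.1).card : ℕ) : ℝ) := by
        exact_mod_cast h2
    _ = ∑ i ∈ Z, ((T.filter fun t => t.1 = i ∧ |x - t.2.2| < D * (2 : ℝ) ^ t.1).card : ℝ) := by
        push_cast; rfl
    _ ≤ ∑ _i ∈ Z, (2 * D + 2) := Finset.sum_le_sum fun i _ => count_scale hT1 hT2 hD x i
    _ = Z.card * (2 * D + 2) := by rw [Finset.sum_const, nsmul_eq_mul]

/-- Monotonicity in coordinates. -/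
lemma mono' {b : ℝ} {u : ℂ → ℝ} (hu : MonoC b u) {x y x' y' : ℝ} (hy : 0 < y)
    (h : |x' - x| ≤ b * (y' - y)) : u ((x : ℂ) + (y : ℂ) * I) ≤ u ((x' : ℂ) + (y' : ℂ) * I) := by
  have hz : (x : ℂ) + (y : ℂ) * I ∈ uhp := mem_uhp hy
  have he : (((x' - x : ℝ) : ℂ) + ((y' - y : ℝ) : ℂ) * I) ∈ Co b := by
    unfold Co
    simp only [mem_setOf_eq]
    simpa using h
  have h1 := hu _ hz _ he
  have h2 : (x : ℂ) + (y : ℂ) * I + (((x' - x : ℝ) : ℂ) + ((y' - y : ℝ) : ℂ) * I) =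
      (x' : ℂ) + (y' : ℂ) * I := by
    push_cast
    ring
  rwa [h2] at h1

/-- The value at a top of level `l`. -/
lemma lev_val {L : ℝ} {u : ℂ → ℝ} {t : ℤ × ℤ × ℝ} {l : ℤ} (h : lev L u t = l) :
    -(l : ℝ) ≤ u ((t.2.2 : ℂ) + ((L * (2 : ℝ) ^ t.1 : ℝ) : ℂ) * I) ∧
    u ((t.2.2 : ℂ) + ((L * (2 : ℝ) ^ t.1 : ℝ) : ℂ) * I) < -(l : ℝ) + 1 := by
  unfold lev at h
  rw [Int.ceil_eq_iff] at h
  constructor <;> linarith [h.1, h.2]

/-- Upper bound through a top which sees the point, with scale at least `i`. -/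
lemma upper {b γ K L : ℝ} {μ m Cb : ℕ} {u : ℂ → ℝ} (hb : 0 < b) (hL : 1 ≤ L)
    (hCb : 1 + 2 / b ≤ 2 ^ Cb) (hmono : MonoC b u) (hG : Gro (2 ^ μ) γ K u) {l : ℤ}
    {t : ℤ × ℤ × ℝ} (hFl : Fl (2 ^ μ) u t.2.2 (L * (2 : ℝ) ^ t.1)) (hl : lev L u t = l)
    {x : ℝ} {i : ℤ} (hi : i ≤ t.1) (hx : |x - t.2.2| < (2 ^ m * L + 1) * (2 : ℝ) ^ t.1) :
    u ((x : ℂ) + ((L * (2 : ℝ) ^ i : ℝ) : ℂ) * I) ≤ -(l : ℝ) + 1 + K * (2 ^ (m + Cb) : ℝ) ^ γ := by
  have h2 := two_zpow_pos t.1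
  have h2i := two_zpow_pos i
  have hP : (1 : ℝ) ≤ 2 ^ m := one_le_pow₀ (by norm_num)
  have hL0 : 0 < L := by linarith
  set Y : ℝ := L * (2 : ℝ) ^ t.1 with hY
  have hY0 : 0 < Y := by positivity
  have hYi : L * (2 : ℝ) ^ i ≤ Y := by
    rw [hY]; gcongr; norm_num
  have hpow : (1 : ℝ) ≤ 2 ^ (m + Cb) := one_le_pow₀ (by norm_num)
  have h3 := hG t.2.2 Y ((2 ^ (m + Cb) - 1) * Y) hY0 (by nlinarith) hFl
  have e1 : Y + (2 ^ (m + Cb) - 1) * Y = 2 ^ (m + Cb) * Y := by ring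
  have e2 : 1 + (2 ^ (m + Cb) - 1) * Y / Y = (2 : ℝ) ^ (m + Cb) := by
    field_simp
    ring
  rw [e1, e2] at h3
  have h4 := (lev_val hl).2
  rw [← hY] at h4
  have h5 : u ((x : ℂ) + ((L * (2 : ℝ) ^ i : ℝ) : ℂ) * I) ≤
      u ((t.2.2 : ℂ) + ((2 ^ (m + Cb) * Y : ℝ) : ℂ) * I) := by
    apply mono' hmono (by positivity)
    rw [abs_sub_comm]
    have h6 : (2 ^ m * L + 1) * (2 : ℝ) ^ t.1 ≤ 2 * 2 ^ m * Y := by
      rw [hY]
      have : (1 : ℝ) ≤ 2 ^ m * L := by nlinarith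
      nlinarith
    have h7 : 2 * 2 ^ m * Y ≤ b * (2 ^ (m + Cb) * Y - L * (2 : ℝ) ^ i) := by
      have h8 : b * (2 ^ (m + Cb) * Y - Y) ≤ b * (2 ^ (m + Cb) * Y - L * (2 : ℝ) ^ i) := by
        gcongr
      refine le_trans ?_ h8
      rw [pow_add]
      have h9 : b + 2 ≤ b * 2 ^ Cb := by
        have : b * (1 + 2 / b) ≤ b * 2 ^ Cb := by gcongr
        have e3 : b * (1 + 2 / b) = b + 2 := by field_simp
        linarith
      have h10 : 2 * 2 ^ m ≤ 2 ^ m * (b * 2 ^ Cb) - b := by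
        nlinarith
      calc 2 * 2 ^ m * Y ≤ (2 ^ m * (b * 2 ^ Cb) - b) * Y := by gcongr
        _ = b * (2 ^ m * 2 ^ Cb * Y - Y) := by ring
    linarith
  linarith

/-- Lower bound through a lower top which sees the point. -/
lemma lower {b L : ℝ} {m Cb : ℕ} {u : ℂ → ℝ} (hb : 0 < b) (hL : 1 ≤ L)
    (hCb : 1 + 2 / b ≤ 2 ^ Cb) (hmono : MonoC b u) {l : ℤ}
    {t : ℤ × ℤ × ℝ} (hl : lev L u t = l)
    {x : ℝ} {i : ℤ} (hi : t.1 + (m + Cb : ℕ) ≤ i) (hx : |x - t.2.2| < 2 ^ m * L * (2 : ℝ) ^ t.1) :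
    -(l : ℝ) ≤ u ((x : ℂ) + ((L * (2 : ℝ) ^ i : ℝ) : ℂ) * I) := by
  have h2 := two_zpow_pos t.1
  have h2i := two_zpow_pos i
  have hP : (1 : ℝ) ≤ 2 ^ m := one_le_pow₀ (by norm_num)
  have hL0 : 0 < L := by linarith
  set Y : ℝ := L * (2 : ℝ) ^ t.1 with hY
  have hY0 : 0 < Y := by positivity
  have hYi : 2 ^ (m + Cb) * Y ≤ L * (2 : ℝ) ^ i := by
    have h3 := two_zpow_mono hi
    rw [zpow_add₀ (by norm_num), zpow_natCast] at h3
    rw [hY]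
    nlinarith
  refine (lev_val hl).1.trans ?_
  rw [← hY]
  apply mono' hmono hY0
  have h8 : b * (2 ^ (m + Cb) * Y - Y) ≤ b * (L * (2 : ℝ) ^ i - Y) := by
    gcongr
  refine le_trans ?_ h8
  rw [pow_add]
  have h9 : b + 2 ≤ b * 2 ^ Cb := by
    have : b * (1 + 2 / b) ≤ b * 2 ^ Cb := by gcongr
    have e3 : b * (1 + 2 / b) = b + 2 := by field_simp
    linarith
  have h10 : 2 * 2 ^ m ≤ 2 ^ m * (b * 2 ^ Cb) - b := by
    nlinarith
  have h11 : |x - t.2.2| < 2 ^ m * Y := by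
    rw [hY]; linarith
  calc |x - t.2.2| ≤ 2 * 2 ^ m * Y := by nlinarith
    _ ≤ (2 ^ m * (b * 2 ^ Cb) - b) * Y := by gcongr
    _ = b * (2 ^ m * 2 ^ Cb * Y - Y) := by ring

/-- Number of the tops of scale at least `i` which see the point with factor `D + 1`. -/
noncomputable def g (T : Finset (ℤ × ℤ × ℝ)) (D x : ℝ) (i : ℤ) : ℕ :=
  (T.filter fun t => i ≤ t.1 ∧ |x - t.2.2| < (D + 1) * (2 : ℝ) ^ t.1).card

lemma g_anti (T : Finset (ℤ × ℤ × ℝ)) (D x : ℝ) {i j : ℤ} (h : i ≤ j) : g T D x j ≤ g T D x i := by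
  unfold g
  apply Finset.card_le_card
  intro t ht
  rw [Finset.mem_filter] at ht ⊢
  exact ⟨ht.1, h.trans ht.2.1, ht.2.2⟩

lemma g_step {T : Finset (ℤ × ℤ × ℝ)} (hT1 : ∀ t ∈ T, t.2.2 ∈ dy t.1 t.2.1)
    (hT2 : ∀ t ∈ T, ∀ t' ∈ T, t ≠ t' → Disjoint (dy t.1 t.2.1) (dy t'.1 t'.2.1))
    {D : ℝ} (hD : 1 ≤ D) (x : ℝ) (i : ℤ) :
    (g T D x i : ℝ) ≤ g T D x (i + 1) + 6 * D := by
  have h1 : (T.filter fun t => i ≤ t.1 ∧ |x - t.2.2| < (D + 1) * (2 : ℝ) ^ t.1) ⊆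
      (T.filter fun t => i + 1 ≤ t.1 ∧ |x - t.2.2| < (D + 1) * (2 : ℝ) ^ t.1) ∪
      (T.filter fun t => t.1 = i ∧ |x - t.2.2| < (D + 1) * (2 : ℝ) ^ t.1) := by
    intro t ht
    rw [Finset.mem_filter] at ht
    rw [Finset.mem_union, Finset.mem_filter, Finset.mem_filter]
    rcases eq_or_lt_of_le ht.2.1 with h | h
    · exact Or.inr ⟨ht.1, h.symm, ht.2.2⟩
    · exact Or.inl ⟨ht.1, h, ht.2.2⟩
  have h2 := (Finset.card_le_card h1).trans (Finset.card_union_le _ _)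
  have h3 := count_scale hT1 hT2 (by linarith : (0 : ℝ) ≤ D + 1) x i
  have h4 : (g T D x i : ℝ) ≤ g T D x (i + 1) +
      ((T.filter fun t => t.1 = i ∧ |x - t.2.2| < (D + 1) * (2 : ℝ) ^ t.1).card : ℝ) := by
    unfold g
    exact_mod_cast h2
  linarith

lemma g_steps {T : Finset (ℤ × ℤ × ℝ)} (hT1 : ∀ t ∈ T, t.2.2 ∈ dy t.1 t.2.1)
    (hT2 : ∀ t ∈ T, ∀ t' ∈ T, t ≠ t' → Disjoint (dy t.1 t.2.1) (dy t'.1 t'.2.1))
    {D : ℝ} (hD : 1 ≤ D) (x : ℝ) (i : ℤ) (s : ℕ) :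
    (g T D x (i - s) : ℝ) ≤ g T D x (i + 1) + (s + 1) * (6 * D) := by
  induction s with
  | zero =>
    have := g_step hT1 hT2 hD x i
    simpa using this
  | succ s ih =>
    have h := g_step hT1 hT2 hD x (i - (s + 1 : ℕ))
    have e : i - ((s + 1 : ℕ) : ℤ) + 1 = i - s := by push_cast; ring
    rw [e] at h
    push_cast at h ⊢
    linarith

/-- A flat scale for a point which is seen by many tops. -/
lemma flat_scale {b γ K L : ℝ} {μ m Cb n R q : ℕ} {u : ℂ → ℝ} {l : ℤ}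
    {T : Finset (ℤ × ℤ × ℝ)} (hb : 0 < b) (hL : 1 ≤ L)
    (hCb : 1 + 2 / b ≤ 2 ^ Cb) (hmono : MonoC b u) (hG : Gro (2 ^ μ) γ K u)
    (hT1 : ∀ t ∈ T, -(R : ℤ) ≤ t.1 ∧ t.1 ≤ R ∧ t.2.2 ∈ dy t.1 t.2.1 ∧
      Fl (2 ^ μ) u t.2.2 (L * (2 : ℝ) ^ t.1))
    (hT2 : ∀ t ∈ T, ∀ t' ∈ T, t ≠ t' → Disjoint (dy t.1 t.2.1) (dy t'.1 t'.2.1))
    (hl : ∀ t ∈ T, lev L u t = l) (hq : 1 + K * (2 ^ (m + Cb) : ℝ) ^ γ < q)
    (hc1 : ((μ * q : ℕ) + 1) * (24 * (2 ^ m * L)) ≤ (n : ℝ))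
    (hc2 : 4 * (((m + Cb : ℕ) : ℝ) * (2 * (2 ^ m * L) + 2)) < (n : ℝ)) {x : ℝ}
    (hx : n < (T.filter fun t => |x - t.2.2| < 2 ^ m * (L * (2 : ℝ) ^ t.1)).card) :
    ∃ i : ℤ, -(R : ℤ) ≤ i ∧ i ≤ R ∧ Fl (2 ^ μ) u x (L * (2 : ℝ) ^ i) ∧
      (-(l : ℝ) ≤ u ((x : ℂ) + ((L * (2 : ℝ) ^ i : ℝ) : ℂ) * I) ∧
        u ((x : ℂ) + ((L * (2 : ℝ) ^ i : ℝ) : ℂ) * I) ≤
          -(l : ℝ) + 1 + K * (2 ^ (m + Cb) : ℝ) ^ γ) ∧
      4 * (g T (2 ^ m * L) x i) ≤ 3 * n := by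
  have hP : (1 : ℝ) ≤ 2 ^ m := one_le_pow₀ (by norm_num)
  set D : ℝ := 2 ^ m * L with hD
  have hD1 : 1 ≤ D := by rw [hD]; nlinarith
  have hT1' : ∀ t ∈ T, t.2.2 ∈ dy t.1 t.2.1 := fun t ht => (hT1 t ht).2.2.1
  have hn0 : 0 < n := by
    rcases Nat.eq_zero_or_pos n with h | h
    · exfalso
      rw [h] at hc1
      have : (0 : ℝ) < ((μ * q : ℕ) + 1) * (24 * D) := by positivity
      push_cast at hc1 this
      linarith
    · exact h
  have hg0 : ∀ i : ℤ, (R : ℤ) < i → g T D x i = 0 := by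
    intro i hi
    unfold g
    rw [Finset.card_eq_zero, Finset.filter_eq_empty_iff]
    rintro t ht ⟨h1, -⟩
    have := (hT1 t ht).2.1
    omega
  have hgn : ∀ i : ℤ, i ≤ -(R : ℤ) → n < g T D x i := by
    intro i hi
    refine lt_of_lt_of_le hx ?_
    unfold g
    apply Finset.card_le_card
    intro t ht
    rw [Finset.mem_filter] at ht ⊢
    refine ⟨ht.1, hi.trans (hT1 t ht.1).1, ?_⟩
    have h2 := two_zpow_pos t.1
    calc |x - t.2.2| < 2 ^ m * (L * (2 : ℝ) ^ t.1) := ht.2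
      _ = D * (2 : ℝ) ^ t.1 := by rw [hD]; ring
      _ ≤ (D + 1) * (2 : ℝ) ^ t.1 := by gcongr; linarith
  obtain ⟨i2, hi2, hmax⟩ := Int.exists_greatest_of_bdd (P := fun i => n ≤ 2 * g T D x i)
    ⟨R, fun z hz => by
      by_contra hcon
      push Not at hcon
      rw [hg0 z hcon] at hz
      omega⟩ ⟨-(R : ℤ), by have := hgn (-(R : ℤ)) le_rfl; omega⟩
  have hi2R : i2 ≤ R := by
    by_contra hcon
    push Not at hcon
    rw [hg0 i2 hcon] at hi2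
    omega
  have hnext : 2 * g T D x (i2 + 1) < n := by
    by_contra hcon
    push Not at hcon
    have := hmax (i2 + 1) hcon
    omega
  have hgood : ∀ s : ℕ, s ≤ μ * q → 4 * g T D x (i2 - s) ≤ 3 * n := by
    intro s hs
    have h1 := g_steps hT1' hT2 hD1 x i2 s
    have h2 : ((s : ℝ) + 1) * (24 * D) ≤ n := by
      refine le_trans ?_ hc1
      gcongr
    have h3 : (2 : ℝ) * g T D x (i2 + 1) < n := by exact_mod_cast hnext
    have h4 : (4 : ℝ) * g T D x (i2 - s) ≤ 3 * n := by nlinarith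
    exact_mod_cast h4
  have hval : ∀ s : ℕ, s ≤ μ * q → -(R : ℤ) ≤ i2 - s ∧
      (-(l : ℝ) ≤ u ((x : ℂ) + ((L * (2 : ℝ) ^ (i2 - s) : ℝ) : ℂ) * I) ∧
        u ((x : ℂ) + ((L * (2 : ℝ) ^ (i2 - s) : ℝ) : ℂ) * I) ≤
          -(l : ℝ) + 1 + K * (2 ^ (m + Cb) : ℝ) ^ γ) := by
    intro s hs
    have hg := hgood s hs
    refine ⟨?_, ?_, ?_⟩
    · by_contra hcon
      push Not at hcon
      have := hgn (i2 - s) hcon.le
      omega
    · -- a lower top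
      by_contra hcon
      push Not at hcon
      have hno : ∀ t ∈ T, |x - t.2.2| < 2 ^ m * (L * (2 : ℝ) ^ t.1) →
          i2 - s < t.1 + (m + Cb : ℕ) := by
        intro t ht hxt
        by_contra hc
        push Not at hc
        have := lower (m := m) hb hL hCb hmono (hl t ht) hc (by rw [mul_assoc]; exact hxt)
        linarith
      have hsub : (T.filter fun t => |x - t.2.2| < 2 ^ m * (L * (2 : ℝ) ^ t.1)) ⊆
          (T.filter fun t => i2 - s ≤ t.1 ∧ |x - t.2.2| < (D + 1) * (2 : ℝ) ^ t.1) ∪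
          (T.filter fun t => t.1 ∈ Finset.Ico (i2 - s - (m + Cb : ℕ)) (i2 - s) ∧
            |x - t.2.2| < D * (2 : ℝ) ^ t.1) := by
        intro t ht
        rw [Finset.mem_filter] at ht
        have h2 := two_zpow_pos t.1
        have h3 : |x - t.2.2| < D * (2 : ℝ) ^ t.1 := by
          have := ht.2
          rw [hD, mul_assoc]; exact this
        rw [Finset.mem_union, Finset.mem_filter, Finset.mem_filter, Finset.mem_Ico]
        rcases le_or_gt (i2 - s) t.1 with h | h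
        · refine Or.inl ⟨ht.1, h, h3.trans_le ?_⟩
          gcongr
          linarith
        · refine Or.inr ⟨ht.1, ⟨?_, h⟩, h3⟩
          have := hno t ht.1 ht.2
          omega
      have h4 := (Finset.card_le_card hsub).trans (Finset.card_union_le _ _)
      have h5 := count_scales hT1' hT2 (by linarith : 0 ≤ D) x
        (Finset.Ico (i2 - s - (m + Cb : ℕ)) (i2 - s))
      have h6 : (Finset.Ico (i2 - s - (m + Cb : ℕ)) (i2 - (s : ℤ))).card = m + Cb := by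
        rw [Int.card_Ico]
        have : i2 - (s : ℤ) - (i2 - s - ((m + Cb : ℕ) : ℤ)) = ((m + Cb : ℕ) : ℤ) := by ring
        rw [this, Int.toNat_natCast]
      rw [h6] at h5
      have h7 : (n : ℝ) < g T D x (i2 - s) + ((T.filter fun t =>
          t.1 ∈ Finset.Ico (i2 - s - (m + Cb : ℕ)) (i2 - s) ∧
            |x - t.2.2| < D * (2 : ℝ) ^ t.1).card : ℝ) := by
        have h8 : n < g T D x (i2 - s) + (T.filter fun t =>
          t.1 ∈ Finset.Ico (i2 - s - (m + Cb : ℕ)) (i2 - s) ∧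
            |x - t.2.2| < D * (2 : ℝ) ^ t.1).card := lt_of_lt_of_le hx h4
        exact_mod_cast h8
      have h9 : (4 : ℝ) * g T D x (i2 - s) ≤ 3 * n := by exact_mod_cast hg
      linarith
    · -- an upper top
      have h1 : 0 < g T D x (i2 - s) := by
        have := g_anti T D x (show i2 - s ≤ i2 by omega)
        omega
      unfold g at h1
      rw [Finset.card_pos] at h1
      obtain ⟨t, ht⟩ := h1
      rw [Finset.mem_filter] at ht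
      exact upper (m := m) hb hL hCb hmono hG (hT1 t ht.1).2.2.2 (hl t ht.1) ht.2.1 ht.2.2
  -- flatness
  by_contra hcon
  push Not at hcon
  have hstep : ∀ s : ℕ, s < q →
      u ((x : ℂ) + ((L * (2 : ℝ) ^ (i2 - (μ * (s + 1) : ℕ)) : ℝ) : ℂ) * I) + 1 <
      u ((x : ℂ) + ((L * (2 : ℝ) ^ (i2 - (μ * s : ℕ)) : ℝ) : ℂ) * I) := by
    intro s hs
    have hsq : μ * s ≤ μ * q := Nat.mul_le_mul_left _ hs.le
    obtain ⟨h1, h2⟩ := hval (μ * s) hsq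
    have hnf : ¬ Fl (2 ^ μ) u x (L * (2 : ℝ) ^ (i2 - (μ * s : ℕ))) := by
      intro hf
      have := hcon _ h1 (by omega) hf h2
      have := hgood (μ * s) hsq
      omega
    unfold Fl at hnf
    push Not at hnf
    have e : L * (2 : ℝ) ^ (i2 - ((μ * s : ℕ) : ℤ)) / 2 ^ μ =
        L * (2 : ℝ) ^ (i2 - ((μ * (s + 1) : ℕ) : ℤ)) := by
      have e2 : i2 - ((μ * (s + 1) : ℕ) : ℤ) = i2 - ((μ * s : ℕ) : ℤ) - (μ : ℕ) := by
        push_cast; ring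
      rw [e2, zpow_sub₀ (by norm_num) _ (μ : ℤ), zpow_natCast]
      ring
    rw [e] at hnf
    linarith
  have hind : ∀ s : ℕ, s ≤ q →
      u ((x : ℂ) + ((L * (2 : ℝ) ^ (i2 - (μ * s : ℕ)) : ℝ) : ℂ) * I) + s ≤
      u ((x : ℂ) + ((L * (2 : ℝ) ^ (i2 - (μ * 0 : ℕ)) : ℝ) : ℂ) * I) := by
    intro s
    induction s with
    | zero => intro _; simp
    | succ s ih =>
      intro hs
      have h1 := ih (by omega)
      have h2 := hstep s (by omega)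
      push_cast at h1 h2 ⊢
      linarith
  have h1 := hind q le_rfl
  have h2 := (hval (μ * q) le_rfl).2.1
  have h3 := (hval (μ * 0) (by simp)).2.2
  linarith

lemma volume_dy (j k : ℤ) : volume (dy j k) = ENNReal.ofReal ((2 : ℝ) ^ j) := by
  unfold dy
  rw [Real.volume_Ico]
  congr 1
  ring

/-- The measure of the points seen by many tops in a good interval. -/
lemma meas_good {L cJ : ℝ} {m n : ℕ} {T : Finset (ℤ × ℤ × ℝ)} (hL : 1 ≤ L)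
    (hJ : ∀ (D : ℝ) (T : Finset (ℤ × ℤ × ℝ)), 1 ≤ D →
      (∀ t ∈ T, t.2.2 ∈ dy t.1 t.2.1) →
      (∀ t ∈ T, ∀ t' ∈ T, t ≠ t' → Disjoint (dy t.1 t.2.1) (dy t'.1 t'.2.1)) →
      ∀ (j k : ℤ) (n : ℝ), 0 ≤ n →
        volume {x | x ∈ dy j k ∧
          n < ((T.filter fun t => t.1 < j ∧ |x - t.2.2| < D * (2 : ℝ) ^ t.1).card : ℝ)} ≤
          ENNReal.ofReal (2 * Real.exp (-(cJ * n / D ^ 2))) * volume (dy j k))
    (hT1 : ∀ t ∈ T, t.2.2 ∈ dy t.1 t.2.1)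
    (hT2 : ∀ t ∈ T, ∀ t' ∈ T, t ≠ t' → Disjoint (dy t.1 t.2.1) (dy t'.1 t'.2.1))
    {x : ℝ} {i k : ℤ} (hxk : x ∈ dy i k) (hg : 4 * (g T (2 ^ m * L) x i) ≤ 3 * n) :
    volume.real ({x : ℝ | n < (T.filter fun t =>
        |x - t.2.2| < 2 ^ m * (L * (2 : ℝ) ^ t.1)).card} ∩ dy i k) ≤
      2 * Real.exp (-(cJ / (4 * L ^ 2) * n / 4 ^ m)) * (2 : ℝ) ^ i := by
  have hP : (1 : ℝ) ≤ 2 ^ m := one_le_pow₀ (by norm_num)
  set D : ℝ := 2 ^ m * L with hD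
  have hD1 : 1 ≤ D := by rw [hD]; nlinarith
  have h1 := hJ D T hD1 hT1 hT2 i k (n / 4) (by positivity)
  have hsub : ({x : ℝ | n < (T.filter fun t =>
        |x - t.2.2| < 2 ^ m * (L * (2 : ℝ) ^ t.1)).card} ∩ dy i k) ⊆ {x | x ∈ dy i k ∧
          (n : ℝ) / 4 <
            ((T.filter fun t => t.1 < i ∧ |x - t.2.2| < D * (2 : ℝ) ^ t.1).card : ℝ)} := by
    rintro x' ⟨hx', hx'k⟩
    refine ⟨hx'k, ?_⟩
    have hx'1 : n < (T.filter fun t => |x' - t.2.2| < 2 ^ m * (L * (2 : ℝ) ^ t.1)).card := hx'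
    have hs : (T.filter fun t => |x' - t.2.2| < 2 ^ m * (L * (2 : ℝ) ^ t.1)) ⊆
        (T.filter fun t => i ≤ t.1 ∧ |x - t.2.2| < (D + 1) * (2 : ℝ) ^ t.1) ∪
        (T.filter fun t => t.1 < i ∧ |x' - t.2.2| < D * (2 : ℝ) ^ t.1) := by
      intro t ht
      rw [Finset.mem_filter] at ht
      have h2 := two_zpow_pos t.1
      have h3 : |x' - t.2.2| < D * (2 : ℝ) ^ t.1 := by
        have := ht.2
        rw [hD, mul_assoc]; exact this
      rw [Finset.mem_union, Finset.mem_filter, Finset.mem_filter]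
      rcases le_or_gt i t.1 with h | h
      · refine Or.inl ⟨ht.1, h, ?_⟩
        have h4 := dy_diam hxk hx'k
        have h5 := two_zpow_mono h
        calc |x - t.2.2| = |(x - x') + (x' - t.2.2)| := by ring_nf
          _ ≤ |x - x'| + |x' - t.2.2| := abs_add_le _ _
          _ < (D + 1) * (2 : ℝ) ^ t.1 := by linarith
      · exact Or.inr ⟨ht.1, h, h3⟩
    have h4 := (Finset.card_le_card hs).trans (Finset.card_union_le _ _)
    have h5 : n < g T D x i + (T.filter fun t => t.1 < i ∧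
        |x' - t.2.2| < D * (2 : ℝ) ^ t.1).card := lt_of_lt_of_le hx'1 h4
    have h6 : (n : ℝ) < g T D x i + ((T.filter fun t => t.1 < i ∧
        |x' - t.2.2| < D * (2 : ℝ) ^ t.1).card : ℝ) := by exact_mod_cast h5
    have h7 : (4 : ℝ) * g T D x i ≤ 3 * n := by exact_mod_cast hg
    linarith
  have h2 := (measure_mono hsub).trans h1
  rw [volume_dy, ← ENNReal.ofReal_mul (by positivity)] at h2
  have h3 : volume.real ({x : ℝ | n < (T.filter fun t =>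
        |x - t.2.2| < 2 ^ m * (L * (2 : ℝ) ^ t.1)).card} ∩ dy i k) ≤
      2 * Real.exp (-(cJ * (n / 4) / D ^ 2)) * (2 : ℝ) ^ i := by
    apply ENNReal.toReal_le_of_le_ofReal _ h2
    have := two_zpow_pos i
    positivity
  refine h3.trans (le_of_eq ?_)
  have hL0 : L ≠ 0 := by linarith
  have e : cJ * ((n : ℝ) / 4) / D ^ 2 = cJ / (4 * L ^ 2) * n / 4 ^ m := by
    rw [hD, mul_pow, ← pow_mul, mul_comm m 2, pow_mul]
    norm_num
    field_simp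
  rw [e]

end Cvr

open Cvr in
/-- Item Cvr. -/
theorem stCvr (hJNc : StJNc) : StCvr := by
  intro b γ K L μ hb hγ hK hL hμ
  obtain ⟨cJ, hcJ, hJ⟩ := hJNc
  obtain ⟨Cb, hCb⟩ : ∃ Cb : ℕ, 1 + 2 / b ≤ (2 : ℝ) ^ Cb := pow_unbounded_of_one_lt _ (by norm_num)
    |>.imp fun _ h => h.le
  have hL0 : 0 < L := by linarith
  set C1 : ℝ := 1 + K * ((2 : ℝ) ^ (γ * Cb)) with hC1
  have hpCb : (1 : ℝ) ≤ (2 : ℝ) ^ (γ * Cb) := Real.one_le_rpow (by norm_num) (by positivity)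
  have hC11 : 1 ≤ C1 := by rw [hC1]; nlinarith
  set C : ℝ := 24 * L * (μ * (C1 + 3) + 1) + 16 * L * (Cb + 2) + C1 + 2 with hC
  have hCpos : 2 ≤ C := by
    rw [hC]
    have : 0 ≤ 24 * L * (μ * (C1 + 3) + 1) := by positivity
    have : 0 ≤ 16 * L * (Cb + 2) := by positivity
    linarith
  refine ⟨cJ / (4 * L ^ 2), C, by positivity, by linarith, ?_⟩
  intro u hmono _ hG R l T hFam hl m n hn
  obtain ⟨hT1, hT2'⟩ := hFam
  have hT2 : ∀ t ∈ T, ∀ t' ∈ T, t ≠ t' → Disjoint (dy t.1 t.2.1) (dy t'.1 t'.2.1) :=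
    fun t ht t' ht' hne => hT2' t ht t' ht' hne (by rw [hl t ht, hl t' ht'])
  -- the numbers
  set P : ℝ := (2 : ℝ) ^ m with hP
  have hP1 : 1 ≤ P := one_le_pow₀ (by norm_num)
  set G : ℝ := (2 : ℝ) ^ (γ * m) with hGdef
  have hG1 : 1 ≤ G := Real.one_le_rpow (by norm_num) (by positivity)
  have hn2 : C * (G * P ^ 3) ≤ n := by
    refine le_trans (le_of_eq ?_) hn
    rw [hGdef, hP]
    have : (γ + 3) * (m : ℝ) = γ * m + m * (3 : ℕ) := by push_cast; ring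
    rw [this, Real.rpow_add (by norm_num), Real.rpow_mul (by norm_num) (m : ℝ),
      Real.rpow_natCast, Real.rpow_natCast]
  have hup : K * (2 ^ (m + Cb) : ℝ) ^ γ = K * (2 : ℝ) ^ (γ * Cb) * G := by
    rw [← Real.rpow_natCast 2 (m + Cb), ← Real.rpow_mul (by norm_num)]
    have : ((m + Cb : ℕ) : ℝ) * γ = γ * Cb + γ * m := by push_cast; ring
    rw [this, Real.rpow_add (by norm_num), hGdef]
    ring
  set q : ℕ := ⌈C1 * G⌉₊ + 1 with hq
  have hq1 : 1 + K * (2 ^ (m + Cb) : ℝ) ^ γ < q := by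
    rw [hup, hq]
    push_cast
    have h1 : C1 * G ≤ ⌈C1 * G⌉₊ := Nat.le_ceil _
    have h2 : C1 * G = G + K * (2 : ℝ) ^ (γ * Cb) * G := by rw [hC1]; ring
    linarith
  have hq2 : (q : ℝ) ≤ (C1 + 2) * G := by
    rw [hq]
    push_cast
    have h1 : (⌈C1 * G⌉₊ : ℝ) < C1 * G + 1 := Nat.ceil_lt_add_one (by positivity)
    nlinarith
  have hPm : (m : ℝ) + 1 ≤ P := by
    have : m + 1 ≤ 2 ^ m := Nat.lt_two_pow_self
    rw [hP]
    exact_mod_cast this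
  have hμ0 : (0 : ℝ) ≤ μ := Nat.cast_nonneg _
  have hc1 : ((μ * q : ℕ) + 1) * (24 * (P * L)) ≤ (n : ℝ) := by
    refine le_trans ?_ hn2
    push_cast
    have h1 : (μ : ℝ) * q + 1 ≤ (μ * (C1 + 3) + 1) * G := by
      have : (μ : ℝ) * q ≤ μ * ((C1 + 2) * G) := by gcongr
      nlinarith
    have hP3 : P ≤ P ^ 3 := by
      calc P = P ^ 1 := (pow_one P).symm
        _ ≤ P ^ 3 := pow_le_pow_right₀ hP1 (by norm_num)
    calc ((μ : ℝ) * q + 1) * (24 * (P * L)) ≤ ((μ * (C1 + 3) + 1) * G) * (24 * (P ^ 3 * L)) := by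
          gcongr
      _ = 24 * L * (μ * (C1 + 3) + 1) * (G * P ^ 3) := by ring
      _ ≤ C * (G * P ^ 3) := by
          gcongr
          rw [hC]
          have : 0 ≤ 16 * L * (Cb + 2) := by positivity
          linarith
  have hc2 : 4 * (((m + Cb : ℕ) : ℝ) * (2 * (P * L) + 2)) < (n : ℝ) := by
    refine lt_of_lt_of_le ?_ hn2
    push_cast
    have hPL : 1 ≤ P * L := by nlinarith
    have h1 : (m : ℝ) + Cb ≤ (Cb + 1) * P := by nlinarith [Nat.cast_nonneg (α := ℝ) Cb]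
    have hP3 : P ^ 2 ≤ P ^ 3 := pow_le_pow_right₀ hP1 (by norm_num)
    calc 4 * (((m : ℝ) + Cb) * (2 * (P * L) + 2)) ≤ 4 * (((Cb + 1) * P) * (4 * (P * L))) := by
          gcongr
          linarith
      _ = 16 * L * (Cb + 1) * P ^ 2 := by ring
      _ ≤ 16 * L * (Cb + 1) * (G * P ^ 3) := by
          gcongr
          nlinarith
      _ < C * (G * P ^ 3) := by
          apply mul_lt_mul_of_pos_right _ (by positivity)
          rw [hC]
          have : 0 ≤ 24 * L * (μ * (C1 + 3) + 1) := by positivity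
          nlinarith
  set S : Set ℝ := {x : ℝ | n < (T.filter fun t => |x - t.2.2| < 2 ^ m * (L * (2 : ℝ) ^ t.1)).card}
    with hS
  set 𝒬 : Set (ℤ × ℤ) := {q | ∃ x : ℝ, x ∈ S ∧ x ∈ dy q.1 q.2 ∧ -(R : ℤ) ≤ q.1 ∧ q.1 ≤ R ∧
    Fl (2 ^ μ) u x (L * (2 : ℝ) ^ q.1) ∧
      (-(l : ℝ) ≤ u ((x : ℂ) + ((L * (2 : ℝ) ^ q.1 : ℝ) : ℂ) * I) ∧
        u ((x : ℂ) + ((L * (2 : ℝ) ^ q.1 : ℝ) : ℂ) * I) ≤
          -(l : ℝ) + 1 + K * (2 ^ (m + Cb) : ℝ) ^ γ) ∧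
      4 * (g T (2 ^ m * L) x q.1) ≤ 3 * n} with h𝒬
  -- finiteness
  have hfin : 𝒬.Finite := by
    set B : ℝ := ∑ t ∈ T, (|t.2.2| + 2 ^ m * (L * (2 : ℝ) ^ t.1)) with hB
    set N0 : ℤ := ⌈B * 2 ^ R⌉ + 1 with hN0
    apply Set.Finite.subset (((Finset.Icc (-(R : ℤ)) R) ×ˢ (Finset.Icc (-N0) N0)).finite_toSet)
    rintro ⟨i, k⟩ ⟨x, hxS, hxk, h1, h2, -⟩
    simp only at hxk h1 h2
    rw [Finset.mem_coe, Finset.mem_product, Finset.mem_Icc, Finset.mem_Icc]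
    refine ⟨⟨h1, h2⟩, ?_⟩
    simp only
    have hxB : |x| ≤ B := by
      have h3 : 0 < (T.filter fun t => |x - t.2.2| < 2 ^ m * (L * (2 : ℝ) ^ t.1)).card :=
        lt_of_le_of_lt (Nat.zero_le _) hxS
      rw [Finset.card_pos] at h3
      obtain ⟨t, ht⟩ := h3
      rw [Finset.mem_filter] at ht
      have h4 : |x| ≤ |t.2.2| + 2 ^ m * (L * (2 : ℝ) ^ t.1) := by
        calc |x| = |t.2.2 + (x - t.2.2)| := by ring_nf
          _ ≤ |t.2.2| + |x - t.2.2| := abs_add_le _ _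
          _ ≤ _ := by linarith [ht.2]
      refine h4.trans ?_
      rw [hB]
      apply Finset.single_le_sum (f := fun t : ℤ × ℤ × ℝ =>
        |t.2.2| + 2 ^ m * (L * (2 : ℝ) ^ t.1)) _ ht.1
      intro t _
      have := two_zpow_pos t.1
      positivity
    have h2i := two_zpow_pos i
    have h5 : |x / 2 ^ i| ≤ B * 2 ^ R := by
      rw [abs_div, abs_of_pos h2i, div_le_iff₀ h2i]
      have h6 : (1 : ℝ) ≤ 2 ^ R * (2 : ℝ) ^ i := by
        rw [← zpow_natCast, ← zpow_add₀ (by norm_num)]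
        exact one_le_zpow₀ (by norm_num) (by omega)
      have hB0 : 0 ≤ B := (abs_nonneg x).trans hxB
      calc |x| ≤ B := hxB
        _ ≤ B * (2 ^ R * (2 : ℝ) ^ i) := le_mul_of_one_le_right hB0 h6
        _ = B * 2 ^ R * 2 ^ i := by ring
    rw [abs_le] at h5
    rw [mem_dy] at hxk
    have h7 : (B * 2 ^ R : ℝ) ≤ (⌈B * 2 ^ R⌉ : ℝ) := Int.le_ceil _
    constructor
    · have : (-(N0 : ℝ)) ≤ (k : ℝ) := by
        rw [← hxk]
        have h8 := Int.lt_floor_add_one (x / 2 ^ i)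
        rw [hN0]
        push_cast
        linarith [h5.1]
      exact_mod_cast this
    · have : (k : ℝ) ≤ (N0 : ℝ) := by
        rw [← hxk]
        have h8 := Int.floor_le (x / 2 ^ i)
        rw [hN0]
        push_cast
        linarith [h5.2]
      exact_mod_cast this
  set ℳ : Set (ℤ × ℤ) := {q | q ∈ 𝒬 ∧ ∀ q' ∈ 𝒬, q.1 < q'.1 → ¬ dy q.1 q.2 ⊆ dy q'.1 q'.2} with hℳ
  have hℳfin : ℳ.Finite := hfin.subset fun q hq => hq.1
  have hex : ∀ q : ℤ × ℤ, q ∈ 𝒬 → ∃ x : ℝ, x ∈ S ∧ x ∈ dy q.1 q.2 ∧ -(R : ℤ) ≤ q.1 ∧ q.1 ≤ R ∧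
    Fl (2 ^ μ) u x (L * (2 : ℝ) ^ q.1) ∧
      (-(l : ℝ) ≤ u ((x : ℂ) + ((L * (2 : ℝ) ^ q.1 : ℝ) : ℂ) * I) ∧
        u ((x : ℂ) + ((L * (2 : ℝ) ^ q.1 : ℝ) : ℂ) * I) ≤
          -(l : ℝ) + 1 + K * (2 ^ (m + Cb) : ℝ) ^ γ) ∧
      4 * (g T (2 ^ m * L) x q.1) ≤ 3 * n := fun q hq => hq
  choose! pt hpt using hex
  refine ⟨hℳfin.toFinset.image (fun q => (q.1, q.2, pt q)), ?_, ?_, ?_, ?_, ?_⟩
  · intro t ht
    rw [Finset.mem_image] at ht
    obtain ⟨q, hq, rfl⟩ := ht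
    rw [Set.Finite.mem_toFinset] at hq
    obtain ⟨-, h2, h3, h4, h5, -⟩ := hpt q hq.1
    exact ⟨h3, h4, h2, h5⟩
  · intro t ht t' ht' hne
    rw [Finset.mem_image] at ht ht'
    obtain ⟨q, hq, rfl⟩ := ht
    obtain ⟨q', hq', rfl⟩ := ht'
    rw [Set.Finite.mem_toFinset] at hq hq'
    have hqq : q ≠ q' := fun h => hne (by rw [h])
    rw [Set.disjoint_left]
    intro z hz hz'
    simp only at hz hz'
    rcases lt_trichotomy q.1 q'.1 with h | h | h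
    · exact hq.2 q' hq'.1 h (dy_nested h.le hz hz')
    · apply hqq
      refine Prod.ext h ?_
      rw [mem_dy] at hz hz'
      rw [← hz, ← hz', h]
    · exact hq'.2 q hq.1 h (dy_nested h.le hz' hz)
  · intro x hx
    obtain ⟨i, h1, h2, h3, h4, h5⟩ := flat_scale (m := m) (n := n) hb hL hCb hmono hG hT1 hT2 hl
      hq1 hc1 hc2 hx
    have hq0 : (i, ⌊x / (2 : ℝ) ^ i⌋) ∈ {q | q ∈ 𝒬 ∧ x ∈ dy q.1 q.2} := by
      have hxd : x ∈ dy i ⌊x / (2 : ℝ) ^ i⌋ := mem_dy.2 rfl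
      exact ⟨⟨x, hx, hxd, h1, h2, h3, h4, h5⟩, hxd⟩
    obtain ⟨q, hq, hmax⟩ := Set.exists_max_image {q | q ∈ 𝒬 ∧ x ∈ dy q.1 q.2} (fun q => q.1)
      (hfin.subset fun q hq => hq.1) ⟨_, hq0⟩
    rw [mem_iUnion₂]
    refine ⟨(q.1, q.2, pt q), ?_, hq.2⟩
    rw [Finset.mem_image]
    refine ⟨q, ?_, rfl⟩
    rw [Set.Finite.mem_toFinset]
    refine ⟨hq.1, fun q' hq' hlt hsub => ?_⟩
    have := hmax q' ⟨hq', hsub hq.2⟩
    omega
  · intro t ht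
    rw [Finset.mem_image] at ht
    obtain ⟨q, hq, rfl⟩ := ht
    rw [Set.Finite.mem_toFinset] at hq
    obtain ⟨-, -, -, -, -, ⟨h6, h7⟩, -⟩ := hpt q hq.1
    refine ⟨h6, h7.trans ?_⟩
    rw [hup]
    have h8 : C1 * G = G + K * (2 : ℝ) ^ (γ * Cb) * G := by rw [hC1]; ring
    have h9 : C1 * G ≤ C * G := by
      gcongr
      rw [hC]
      have : 0 ≤ 24 * L * (μ * (C1 + 3) + 1) := by positivity
      have : 0 ≤ 16 * L * (Cb + 2) := by positivity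
      linarith
    linarith
  · intro t ht
    rw [Finset.mem_image] at ht
    obtain ⟨q, hq, rfl⟩ := ht
    rw [Set.Finite.mem_toFinset] at hq
    obtain ⟨-, h2, -, -, -, -, h8⟩ := hpt q hq.1
    refine (meas_good hL hJ (fun t ht => (hT1 t ht).2.2.1) hT2 h2 h8).trans ?_
    have := two_zpow_pos q.1
    gcongr

end Pool.Agent.Work.MP_055a27_an.Wd
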