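import Pool.Agent.Work.MP_055a27_an.Wd.Stmts
import Pool.Agent.Work.MP_055a27_an.Schwarz
import Pool.Agent.Work.MP_055a27_an.Thr.Stmts

/-!
# The majorant of a real function
-/

set_option autoImplicit false

open MeasureTheory Set Filter Topology Complex Metric
open scoped ENNReal NNReal

namespace Pool.Agent.Work.MP_055a27_an.Wd

namespace HK

/-! ### Families of functions whose logarithm has the sub mean value property -/

/-- The members of the families. -/
structure Good (b : ℝ) (m : ℂ → ℝ) : Prop where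
  pos : ∀ z ∈ uhp, 0 < m z
  anti : ∀ z ∈ uhp, ∀ e ∈ Co b, m (z + e) ≤ m z
  lsc : LowerSemicontinuousOn m uhp
  sub : ∀ z ∈ uhp, ∀ r : ℝ, 0 < r → r ≤ z.im / 2 → ∀ g : ℂ → ℝ, IntegrableOn g (ball z r) →
    (∀ w ∈ ball z r, Real.log (m w) ≤ g w) → Real.log (m z) ≤ ⨍ w in ball z r, g w

lemma ball_vol_ne_zero (z : ℂ) {r : ℝ} (hr : 0 < r) : volume (ball z r) ≠ 0 :=
  (measure_ball_pos volume z hr).ne'

lemma ball_vol_ne_top (z : ℂ) (r : ℝ) : volume (ball z r) ≠ ∞ := measure_ball_lt_top.ne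

lemma avg_mono {z : ℂ} {r : ℝ} {g₁ g₂ : ℂ → ℝ} (h₁ : IntegrableOn g₁ (ball z r))
    (h₂ : IntegrableOn g₂ (ball z r)) (h : ∀ w ∈ ball z r, g₁ w ≤ g₂ w) :
    ⨍ w in ball z r, g₁ w ≤ ⨍ w in ball z r, g₂ w := by
  rw [setAverage_eq, setAverage_eq, smul_eq_mul, smul_eq_mul]
  exact mul_le_mul_of_nonneg_left (setIntegral_mono_on h₁ h₂ measurableSet_ball h) (by positivity)

lemma const_le_avg {z : ℂ} {r c : ℝ} {g : ℂ → ℝ} (hr : 0 < r) (h₁ : IntegrableOn g (ball z r))
    (h : ∀ w ∈ ball z r, c ≤ g w) : c ≤ ⨍ w in ball z r, g w := by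
  have h2 : ⨍ _w in ball z r, c = c :=
    setAverage_const (ball_vol_ne_zero z hr) (ball_vol_ne_top z r) c
  rw [← h2]
  exact avg_mono (integrableOn_const (ball_vol_ne_top z r)) h₁ h

lemma im_add_Co {b : ℝ} (hb : 0 < b) {e : ℂ} (he : e ∈ Co b) : 0 ≤ e.im := by
  have h : |e.re| ≤ b * e.im := he
  have := (abs_nonneg e.re).trans h
  nlinarith

lemma add_mem_uhp {b : ℝ} (hb : 0 < b) {z e : ℂ} (hz : z ∈ uhp) (he : e ∈ Co b) : z + e ∈ uhp := by
  have h1 := im_add_Co hb he
  have h2 : 0 < z.im := hz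
  change 0 < (z + e).im
  rw [Complex.add_im]
  linarith

lemma ball_uhp {z : ℂ} {r : ℝ} (hz : z ∈ uhp) (hr : r ≤ z.im / 2) : ball z r ⊆ uhp := by
  intro w hw
  have h1 : ‖w - z‖ < r := by simpa [dist_eq_norm] using hw
  have h2 := (abs_le.mp ((Complex.abs_im_le_norm (w - z)))).1
  have h3 : 0 < z.im := hz
  rw [Complex.sub_im] at h2
  change 0 < w.im
  linarith

/-- a point above all points of a ball -/
lemma top_ball {b : ℝ} (hb : 0 < b) (z : ℂ) (r : ℝ) {w : ℂ} (hw : w ∈ ball z r) :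
    z + ((r + r / b : ℝ) : ℂ) * I - w ∈ Co b := by
  have h1 : ‖w - z‖ < r := by simpa [dist_eq_norm] using hw
  have h2 := Complex.abs_im_le_norm (w - z)
  have h3 := Complex.abs_re_le_norm (w - z)
  rw [Complex.sub_im] at h2
  rw [Complex.sub_re] at h3
  change |(z + ((r + r / b : ℝ) : ℂ) * I - w).re| ≤ b * (z + ((r + r / b : ℝ) : ℂ) * I - w).im
  have e1 : (z + ((r + r / b : ℝ) : ℂ) * I - w).re = z.re - w.re := by simp
  have e2 : (z + ((r + r / b : ℝ) : ℂ) * I - w).im = z.im + (r + r / b) - w.im := by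
    rw [Complex.sub_im, Complex.add_im, Complex.mul_im, Complex.ofReal_re, Complex.ofReal_im]
    simp
  rw [e1, e2, abs_sub_comm]
  have h4 : b * (r / b) = r := by field_simp
  have h5 := (abs_le.mp h2).2
  have h6 : b * (z.im + (r + r / b) - w.im) = b * (z.im + r - w.im) + r := by
    rw [← h4]
    field_simp
    ring
  rw [h6]
  have h7 : 0 ≤ b * (z.im + r - w.im) := by
    apply mul_nonneg hb.le
    linarith
  linarith

lemma log_int {b M : ℝ} {m : ℂ → ℝ} (hb : 0 < b) (hpos : ∀ z ∈ uhp, 0 < m z)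
    (hanti : ∀ z ∈ uhp, ∀ e ∈ Co b, m (z + e) ≤ m z) (hlsc : LowerSemicontinuousOn m uhp)
    (hM : ∀ z ∈ uhp, m z ≤ M) {z : ℂ} (hz : z ∈ uhp) {r : ℝ} (hr : 0 < r) (hr2 : r ≤ z.im / 2) :
    IntegrableOn (fun w => Real.log (m w)) (ball z r) := by
  have hsub := ball_uhp hz hr2
  have hlsc' : LowerSemicontinuous (uhp.indicator m) := by
    rw [lowerSemicontinuous_iff]
    intro x
    rw [lowerSemicontinuousAt_iff]
    intro y hy
    by_cases hx : x ∈ uhp
    · rw [indicator_of_mem hx] at hy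
      have h1 := hlsc x hx y hy
      rw [isOpen_uhp.nhdsWithin_eq hx] at h1
      filter_upwards [h1, isOpen_uhp.mem_nhds hx] with x' hx' hx''
      rw [indicator_of_mem hx'']
      exact hx'
    · rw [indicator_of_notMem hx] at hy
      refine Eventually.of_forall fun x' => ?_
      by_cases hx' : x' ∈ uhp
      · rw [indicator_of_mem hx']
        exact hy.trans (hpos x' hx')
      · rw [indicator_of_notMem hx']
        exact hy
  have hmeas : Measurable (fun w => Real.log (uhp.indicator m w)) :=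
    Real.measurable_log.comp hlsc'.measurable
  set z₀ : ℂ := z + ((r + r / b : ℝ) : ℂ) * I with hz0
  have hz0u : z₀ ∈ uhp := by
    have h1 : 0 < z.im := hz
    change 0 < z₀.im
    rw [hz0, Complex.add_im, Complex.mul_im, Complex.ofReal_re, Complex.ofReal_im]
    have : 0 < r + r / b := by positivity
    simp only [Complex.I_im, Complex.I_re, mul_one, mul_zero, add_zero]
    linarith
  have hlow : ∀ w ∈ ball z r, m z₀ ≤ m w := by
    intro w hw
    have h1 := hanti w (hsub hw) (z₀ - w) (top_ball hb z r hw)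
    rwa [add_sub_cancel] at h1
  have h1 : IntegrableOn (fun w => Real.log (uhp.indicator m w)) (ball z r) := by
    apply Measure.integrableOn_of_bounded (ball_vol_ne_top z r) hmeas.aestronglyMeasurable
      (M := |Real.log (m z₀)| + |Real.log M|)
    rw [ae_restrict_iff' measurableSet_ball]
    refine Eventually.of_forall fun w hw => ?_
    rw [indicator_of_mem (hsub hw), Real.norm_eq_abs, abs_le]
    have h2 : Real.log (m z₀) ≤ Real.log (m w) := Real.log_le_log (hpos _ hz0u) (hlow w hw)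
    have h3 : Real.log (m w) ≤ Real.log M :=
      Real.log_le_log (hpos _ (hsub hw)) (hM _ (hsub hw))
    have h4 := neg_abs_le (Real.log (m z₀))
    have h5 := le_abs_self (Real.log M)
    have h6 := abs_nonneg (Real.log (m z₀))
    have h7 := abs_nonneg (Real.log M)
    constructor <;> linarith
  refine h1.congr_fun (fun w hw => ?_) measurableSet_ball
  change Real.log (uhp.indicator m w) = Real.log (m w)
  rw [indicator_of_mem (hsub hw)]

/-- the maximum with a constant -/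
lemma good_max {b : ℝ} {m : ℂ → ℝ} (hm : Good b m) (a : ℝ) : Good b (fun z => max a (m z)) where
  pos z hz := lt_max_of_lt_right (hm.pos z hz)
  anti z hz e he := max_le_max le_rfl (hm.anti z hz e he)
  lsc := by
    intro x hx y hy
    rcases lt_max_iff.mp hy with h | h
    · exact Eventually.of_forall fun x' => lt_max_of_lt_left h
    · filter_upwards [hm.lsc x hx y h] with x' hx'
      exact lt_max_of_lt_right hx'
  sub z hz r hr hr2 g hg hgm := by
    rcases le_or_gt a (m z) with h | h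
    · rw [max_eq_right h]
      refine hm.sub z hz r hr hr2 g hg fun w hw => ?_
      exact (Real.log_le_log (hm.pos w (ball_uhp hz hr2 hw)) (le_max_right _ _)).trans (hgm w hw)
    · rw [max_eq_left h.le]
      refine const_le_avg hr hg fun w hw => ?_
      exact (Real.log_le_log ((hm.pos z hz).trans h) (le_max_left _ _)).trans (hgm w hw)

/-- the supremum of a family -/
lemma sup_SH {ι : Type} [Nonempty ι] {b p M : ℝ} (hb : 0 < b) (hp : 0 < p) (m : ι → ℂ → ℝ)
    (hm : ∀ i, Good b (m i)) (hM : ∀ i, ∀ z ∈ uhp, m i z ≤ M) :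
    (∀ z ∈ uhp, 0 < ⨆ i, m i z) ∧ (∀ i, ∀ z ∈ uhp, m i z ≤ ⨆ i, m i z) ∧
    (∀ z ∈ uhp, ∀ e ∈ Co b, ⨆ i, m i (z + e) ≤ ⨆ i, m i z) ∧
    SH b (fun z => -(p * Real.log (⨆ i, m i z))) := by
  have hbdd : ∀ z ∈ uhp, BddAbove (range fun i => m i z) := by
    intro z hz
    refine ⟨M, ?_⟩
    rintro _ ⟨i, rfl⟩
    exact hM i z hz
  have hle : ∀ i, ∀ z ∈ uhp, m i z ≤ ⨆ i, m i z := fun i z hz => le_ciSup (hbdd z hz) i
  have hpos : ∀ z ∈ uhp, 0 < ⨆ i, m i z := fun z hz =>
    ((hm (Classical.arbitrary ι)).pos z hz).trans_le (hle _ z hz)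
  have hanti : ∀ z ∈ uhp, ∀ e ∈ Co b, ⨆ i, m i (z + e) ≤ ⨆ i, m i z := fun z hz e he =>
    ciSup_le fun i => ((hm i).anti z hz e he).trans (hle i z hz)
  have hlsc : LowerSemicontinuousOn (fun z => ⨆ i, m i z) uhp :=
    lowerSemicontinuousOn_ciSup hbdd fun i => (hm i).lsc
  have hHM : ∀ z ∈ uhp, ⨆ i, m i z ≤ M := fun z hz => ciSup_le fun i => hM i z hz
  refine ⟨hpos, hle, hanti, ?_, ?_, ?_, ?_⟩
  · intro x hx y hy
    have hy' : -(p * Real.log (⨆ i, m i x)) < y := hy
    have h1 : Real.exp (-y / p) < ⨆ i, m i x := by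
      rw [← Real.lt_log_iff_exp_lt (hpos x hx), div_lt_iff₀ hp]
      linarith
    filter_upwards [hlsc x hx _ h1, self_mem_nhdsWithin] with x' hx' hx''
    change -(p * Real.log (⨆ i, m i x')) < y
    have h2 : Real.exp (-y / p) < ⨆ i, m i x' := hx'
    rw [← Real.lt_log_iff_exp_lt (hpos x' hx''), div_lt_iff₀ hp] at h2
    linarith
  · intro z hz e he
    have h1 := Real.log_le_log (hpos _ (add_mem_uhp hb hz he)) (hanti z hz e he)
    have h2 := mul_le_mul_of_nonneg_left h1 hp.le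
    change -(p * Real.log (⨆ i, m i z)) ≤ -(p * Real.log (⨆ i, m i (z + e)))
    linarith
  · refine ⟨-(p * Real.log M), fun z hz => ?_⟩
    have h1 := Real.log_le_log (hpos z hz) (hHM z hz)
    have h2 := mul_le_mul_of_nonneg_left h1 hp.le
    change -(p * Real.log M) ≤ -(p * Real.log (⨆ i, m i z))
    linarith
  · intro z hz r hr hr2
    have hint := log_int hb hpos hanti hlsc hHM hz hr hr2
    have h1 : ⨍ w in ball z r, -(p * Real.log (⨆ i, m i w)) =
        -(p * ⨍ w in ball z r, Real.log (⨆ i, m i w)) := by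
      rw [setAverage_eq, setAverage_eq, integral_neg, integral_const_mul, smul_eq_mul, smul_eq_mul]
      ring
    rw [h1]
    have h2 : Real.log (⨆ i, m i z) ≤ ⨍ w in ball z r, Real.log (⨆ i, m i w) := by
      apply le_of_forall_lt_imp_le_of_dense
      intro t ht
      rw [Real.lt_log_iff_exp_lt (hpos z hz)] at ht
      obtain ⟨i, hi⟩ := exists_lt_of_lt_ciSup ht
      rw [← Real.lt_log_iff_exp_lt ((hm i).pos z hz)] at hi
      refine hi.le.trans ((hm i).sub z hz r hr hr2 _ hint fun w hw => ?_)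
      have hw' := ball_uhp hz hr2 hw
      exact Real.log_le_log ((hm i).pos w hw') (hle i w hw')
    have h3 := mul_le_mul_of_nonneg_left h2 hp.le
    linarith

/-! ### The data -/

lemma P_le {b η x : ℝ} (hb : 0 < b) (hη : 0 < η) (f : ℝ → ℝ) {w : ℂ} (hw : 0 ≤ w.im)
    (hx : |x - w.re| ≤ b * w.im) :
    ENNReal.ofReal |poisson f w.re (w.im + η)| ≤ ntMax b f x := by
  have h1 : 0 < w.im + η := by linarith
  have h2 : |x - w.re| ≤ b * (w.im + η) := hx.trans (by nlinarith)
  have h3 : x - (x - w.re) = w.re := by ring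
  calc ENNReal.ofReal |poisson f w.re (w.im + η)|
      = ENNReal.ofReal |poisson f (x - (x - w.re)) (w.im + η)| := by rw [h3]
    _ ≤ ntMax b f x := by
      unfold ntMax
      exact le_iSup_of_le (x - w.re) (le_iSup_of_le (w.im + η) (le_iSup_of_le ⟨h1, h2⟩ le_rfl))

lemma P_le' {b η x : ℝ} (hb : 0 < b) (hη : 0 < η) (f : ℝ → ℝ) {w : ℂ} (hw : 0 ≤ w.im)
    (hx : |x - w.re| ≤ b * w.im) (hn : ntMax b f x ≠ ∞) :
    |poisson f w.re (w.im + η)| ≤ (ntMax b f x).toReal :=
  (ENNReal.ofReal_le_iff_le_toReal hn).mp (P_le hb hη f hw hx)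

lemma im_add_I (w : ℂ) (s : ℝ) : (w + (s : ℂ) * I).im = w.im + s := by
  rw [Complex.add_im, Complex.mul_im, Complex.ofReal_re, Complex.ofReal_im]
  simp

lemma re_add_I (w : ℂ) (s : ℝ) : (w + (s : ℂ) * I).re = w.re := by
  rw [Complex.add_re, Complex.mul_re, Complex.ofReal_re, Complex.ofReal_im]
  simp

lemma im_sub_I (w : ℂ) (s : ℝ) : (w - (s : ℂ) * I).im = w.im - s := by
  rw [Complex.sub_im, Complex.mul_im, Complex.ofReal_re, Complex.ofReal_im]
  simp

lemma re_sub_I (w : ℂ) (s : ℝ) : (w - (s : ℂ) * I).re = w.re := by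
  rw [Complex.sub_re, Complex.mul_re, Complex.ofReal_re, Complex.ofReal_im]
  simp

lemma schw_re_eq {f : ℝ → ℝ} {η : ℝ} (hf : Admissible f) {w : ℂ} (hw : 0 < w.im) (hη : 0 < η) :
    (schw f (w + η * I)).re = poisson f w.re (w.im + η) := by
  have h4 : w + η * I = (w.re : ℂ) + ((w.im + η : ℝ) : ℂ) * I := by
    apply Complex.ext
    · rw [re_add_I, re_add_I, Complex.ofReal_re]
    · rw [im_add_I, im_add_I, Complex.ofReal_im, zero_add]
  rw [h4, schw_re hf (by linarith)]

lemma phi_props {f : ℝ → ℝ} {η : ℝ} (hGrow : Thr.StGrow) (hf : Admissible f) (hη : 0 < η) :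
    ∃ K : ℝ, 1 ≤ K ∧ DifferentiableOn ℂ (fun w => dschw f (w + η * I)) {w | -K⁻¹ < w.im} ∧
      ∀ w : ℂ, 0 ≤ w.im → ‖dschw f (w + η * I)‖ ≤ K * (1 + ‖w‖) ^ 2 := by
  obtain ⟨K₀, hK₀⟩ := hGrow f hf η hη
  set K : ℝ := max (max 1 η⁻¹) (|K₀| * (1 + η) ^ 2) with hK
  have hK1 : 1 ≤ K := (le_max_left _ _).trans (le_max_left _ _)
  have hK2 : η⁻¹ ≤ K := (le_max_right _ _).trans (le_max_left _ _)
  have hK3 : |K₀| * (1 + η) ^ 2 ≤ K := le_max_right _ _
  refine ⟨K, hK1, ?_, ?_⟩
  · have h0 : DifferentiableOn ℂ (dschw f) uhp := by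
      have h1 : DifferentiableOn ℂ (schw f) uhp := fun w hw =>
        (hasDerivAt_schw hf hw).differentiableAt.differentiableWithinAt
      have h2 := h1.deriv isOpen_uhp
      exact h2.congr fun w hw => (hasDerivAt_schw hf hw).deriv.symm
    refine h0.comp (by fun_prop) ?_
    intro w hw
    have h3 : -K⁻¹ < w.im := hw
    change 0 < (w + η * I).im
    rw [im_add_I]
    have h4 : K⁻¹ ≤ η := by
      rw [inv_le_comm₀ (by linarith) hη]
      exact hK2
    linarith
  · intro w hw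
    have h1 := hK₀ (w + η * I) (by rw [im_add_I]; linarith)
    have h2 : ‖w + η * I‖ ≤ ‖w‖ + η := by
      calc ‖w + η * I‖ ≤ ‖w‖ + ‖(η : ℂ) * I‖ := norm_add_le _ _
        _ = ‖w‖ + η := by
          rw [norm_mul, Complex.norm_I, mul_one, Complex.norm_real, Real.norm_eq_abs,
            abs_of_pos hη]
    have h3 : (1 + ‖w + η * I‖) ^ 2 ≤ ((1 + η) * (1 + ‖w‖)) ^ 2 := by
      apply pow_le_pow_left₀ (by positivity)
      have := mul_nonneg hη.le (norm_nonneg w)
      nlinarith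
    calc ‖dschw f (w + η * I)‖ ≤ K₀ * (1 + ‖w + η * I‖) ^ 2 := h1
      _ ≤ |K₀| * ((1 + η) * (1 + ‖w‖)) ^ 2 :=
        mul_le_mul (le_abs_self _) h3 (by positivity) (abs_nonneg _)
      _ = |K₀| * (1 + η) ^ 2 * (1 + ‖w‖) ^ 2 := by ring
      _ ≤ K * (1 + ‖w‖) ^ 2 := mul_le_mul_of_nonneg_right hK3 (by positivity)

lemma tau_ge {R : ℝ} {w : ℂ} (hR : 0 < R) (hw : ‖w‖ ≤ R / 8) (hw0 : 0 < w.im) :
    1 / 2 ≤ ‖tau R w‖ := by
  unfold tau
  rw [norm_pow, norm_div, norm_mul, Complex.norm_I, one_mul, Complex.norm_real,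
    Real.norm_eq_abs, abs_of_pos hR]
  have h1 : ‖w + I * R‖ ≤ 9 / 8 * R := by
    calc ‖w + I * R‖ ≤ ‖w‖ + ‖I * (R : ℂ)‖ := norm_add_le _ _
      _ = ‖w‖ + R := by
        rw [norm_mul, Complex.norm_I, one_mul, Complex.norm_real, Real.norm_eq_abs,
          abs_of_pos hR]
      _ ≤ 9 / 8 * R := by linarith
  have h0 : 0 < ‖w + I * R‖ := by
    have h3 : (w + I * R).im = w.im + R := by
      rw [mul_comm I, im_add_I]
    have h4 := Complex.abs_im_le_norm (w + I * R)
    rw [h3, abs_of_pos (by linarith)] at h4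
    linarith
  have h2 : 8 / 9 ≤ R / ‖w + I * R‖ := by
    rw [le_div_iff₀ h0]
    linarith
  calc (1 : ℝ) / 2 ≤ (8 / 9) ^ 4 := by norm_num
    _ ≤ (R / ‖w + I * R‖) ^ 4 := pow_le_pow_left₀ (by norm_num) h2 4

/-- the choice of the radius and of the heights -/
lemma choice {b τ c : ℝ} {J : ℕ} (hb : 0 < b) (hτ : 0 < τ) (hτ2 : τ ≤ 1 / 2) (hc : 0 < c)
    (hGR : StGR) (hGrow : Thr.StGrow)
    (hslo : ∀ (f : ℝ → ℝ) (η R : ℝ) (w : ℂ) (j0 : ℕ), Admissible f → 0 < η → 1 ≤ R → 0 < w.im →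
      ‖w‖ + 2 ^ j0 * w.im ≤ R / 8 → 0 < |poisson f w.re (w.im + η)| →
      GG b R (fun w => dschw f (w + η * I)) (w - (τ * w.im : ℝ) * I) ≤
        c * |poisson f w.re (w.im + η)| →
      |poisson f w.re (w.im + 2 ^ j0 * w.im + η)| < |poisson f w.re (w.im + η)| / 2 →
      ∃ j : ℕ, J ≤ j ∧ j < j0 ∧
        |poisson f w.re (w.im + η)| / 2 ≤ |poisson f w.re (w.im + 2 ^ j * w.im + η)| ∧
        b / 64 * |poisson f w.re (w.im + η)| * (1 / 2) ^ j ≤
          GG b R (fun w => dschw f (w + η * I)) (w + (2 ^ j * w.im : ℝ) * I))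
    {f : ℝ → ℝ} {η R : ℝ} (hf : Admissible f) (hη : 0 < η) (hR : 1 ≤ R)
    (hne : ∃ w ∈ uhp, dschw f (w + η * I) ≠ 0) (hfin : ∃ x, ntMax b f x ≠ ∞) :
    ∃ (a₀ R' : ℝ), 0 ≤ a₀ ∧ 8 * (2 * R) ≤ R' ∧ (∀ x, ENNReal.ofReal a₀ ≤ ntMax b f x) ∧
      ∀ w : ℂ, |w.re| ≤ R → 1 / R ≤ w.im → w.im ≤ R →
        GG b R' (fun w => dschw f (w + η * I)) (w - (τ * w.im : ℝ) * I) <
          c * |poisson f w.re (w.im + η)| → 4 * a₀ < |poisson f w.re (w.im + η)| →
        ∃ j : ℕ, J ≤ j ∧
          |poisson f w.re (w.im + η)| / 2 ≤ |poisson f w.re (w.im + 2 ^ j * w.im + η)| ∧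
          b / 64 * |poisson f w.re (w.im + η)| * (1 / 2) ^ j ≤
            GG b R' (fun w => dschw f (w + η * I)) (w + (2 ^ j * w.im : ℝ) * I) := by
  obtain ⟨x₁, hx₁⟩ := hfin
  obtain ⟨K, hK1, hKd, hKg⟩ := phi_props hGrow hf hη
  obtain ⟨hRmono, hRprop⟩ := hGR b hb _ K hKd hK1 hKg hne
  have hR0 : 0 < R := by linarith
  set a₀ : ℝ := (⨅ x, ntMax b f x).toReal with ha₀
  have ha0 : 0 ≤ a₀ := ENNReal.toReal_nonneg
  have hinf : (⨅ x, ntMax b f x) ≠ ∞ := ne_top_of_le_ne_top hx₁ (iInf_le _ _)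
  have ha0N : ∀ x, ENNReal.ofReal a₀ ≤ ntMax b f x := by
    intro x
    rw [ha₀, ENNReal.ofReal_toReal hinf]
    exact iInf_le _ _
  set am : ℝ := GG b 1 (fun w => dschw f (w + η * I)) (((R + R / b : ℝ) : ℂ) * I) with ham
  have ham0 : 0 < am := by
    apply (hRprop 1 le_rfl).2.1
    have := im_add_I 0 (R + R / b)
    rw [zero_add] at this
    rw [this]
    have : 0 < R / b := by positivity
    simp only [Complex.zero_im]
    linarith
  have hamle : ∀ w : ℂ, |w.re| ≤ R → 0 ≤ w.im → w.im ≤ R →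
      am ≤ GG b 1 (fun w => dschw f (w + η * I)) (w - (τ * w.im : ℝ) * I) := by
    intro w h1 h2 h3
    have h4 : 0 ≤ (w - (τ * w.im : ℝ) * I).im := by
      rw [im_sub_I]
      nlinarith
    have h5 := (hRprop 1 le_rfl).2.2.1 (w - (τ * w.im : ℝ) * I) h4
      (((R + R / b : ℝ) : ℂ) * I - (w - (τ * w.im : ℝ) * I)) ?_
    · rwa [add_sub_cancel] at h5
    · have e0 := im_add_I 0 (R + R / b)
      have e0' := re_add_I 0 (R + R / b)
      rw [zero_add] at e0 e0'
      change |(((R + R / b : ℝ) : ℂ) * I - (w - (τ * w.im : ℝ) * I)).re| ≤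
        b * (((R + R / b : ℝ) : ℂ) * I - (w - (τ * w.im : ℝ) * I)).im
      rw [Complex.sub_re, Complex.sub_im, re_sub_I, im_sub_I, e0, e0']
      simp only [Complex.zero_re, Complex.zero_im, zero_sub, zero_add, abs_neg]
      have h6 : b * (R / b) = R := by field_simp
      have h7 : b * (R + R / b - (w.im - τ * w.im)) = R + b * (R - w.im + τ * w.im) := by
        calc b * (R + R / b - (w.im - τ * w.im)) = b * (R / b) + b * (R - w.im + τ * w.im) := by
              ring
          _ = _ := by rw [h6]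
      rw [h7]
      have h8 : 0 ≤ b * (R - w.im + τ * w.im) := by
        apply mul_nonneg hb.le
        have := mul_nonneg hτ.le h2
        linarith
      linarith
  have hlt : (⨅ x, ntMax b f x) < ENNReal.ofReal (max (am / c / 2) (2 * a₀)) := by
    rw [← ENNReal.ofReal_toReal hinf, ← ha₀, ENNReal.ofReal_lt_ofReal_iff_of_nonneg ha0]
    rcases ha0.lt_or_eq with h | h
    · apply lt_max_of_lt_right
      linarith
    · apply lt_max_of_lt_left
      rw [← h]
      positivity
  obtain ⟨xs, hxs⟩ := iInf_lt_iff.mp hlt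
  have hxs' : ntMax b f xs ≠ ∞ := (hxs.trans ENNReal.ofReal_lt_top).ne
  have hxsr : (ntMax b f xs).toReal < max (am / c / 2) (2 * a₀) := by
    rwa [← ENNReal.lt_ofReal_iff_toReal_lt hxs']
  obtain ⟨j0, hj0⟩ := pow_unbounded_of_one_lt (R * (R + |xs|) / b) (one_lt_two (α := ℝ))
  have hj0' : R + |xs| ≤ b * (2 ^ j0 * (1 / R)) := by
    rw [div_lt_iff₀ hb] at hj0
    have h1 : b * (2 ^ j0 * (1 / R)) = 2 ^ j0 * b / R := by ring
    rw [h1, le_div_iff₀ hR0]
    linarith
  set R' : ℝ := 8 * (2 * R + 2 ^ j0 * R) + 1 with hR'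
  have h2j : (0 : ℝ) < 2 ^ j0 := by positivity
  have hR'1 : 1 ≤ R' := by
    have : 0 ≤ 8 * (2 * R + 2 ^ j0 * R) := by positivity
    linarith
  refine ⟨a₀, R', ha0, ?_, ha0N, ?_⟩
  · have : 0 < 2 ^ j0 * R := by positivity
    linarith
  intro w hw1 hw2 hw3 hw4 hw5
  have hwim : 0 < w.im := lt_of_lt_of_le (by positivity) hw2
  have hPpos : 0 < |poisson f w.re (w.im + η)| := by linarith
  have hw6 : am / c < |poisson f w.re (w.im + η)| := by
    rw [div_lt_iff₀ hc]
    have h1 := hamle w hw1 hwim.le hw3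
    have h2 : GG b 1 (fun w => dschw f (w + η * I)) (w - (τ * w.im : ℝ) * I) ≤
        GG b R' (fun w => dschw f (w + η * I)) (w - (τ * w.im : ℝ) * I) := by
      apply hRmono 1 R' le_rfl hR'1
      rw [im_sub_I]
      nlinarith
    linarith
  have hsmall : (ntMax b f xs).toReal < |poisson f w.re (w.im + η)| / 2 := by
    refine hxsr.trans_le (max_le ?_ ?_) <;> linarith
  have hlow : |poisson f w.re (w.im + 2 ^ j0 * w.im + η)| < |poisson f w.re (w.im + η)| / 2 := by
    refine lt_of_le_of_lt ?_ hsmall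
    have h1 := P_le' (x := xs) (w := w + ((2 ^ j0 * w.im : ℝ) : ℂ) * I) hb hη f ?_ ?_ hxs'
    · rwa [re_add_I, im_add_I] at h1
    · rw [im_add_I]
      positivity
    · rw [re_add_I, im_add_I]
      have h2 : 2 ^ j0 * (1 / R) ≤ 2 ^ j0 * w.im := mul_le_mul_of_nonneg_left hw2 h2j.le
      have h3 : b * (2 ^ j0 * (1 / R)) ≤ b * (w.im + 2 ^ j0 * w.im) := by
        apply mul_le_mul_of_nonneg_left _ hb.le
        linarith
      have h4 : |xs - w.re| ≤ |xs| + |w.re| := by
        exact abs_sub _ _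
      linarith
  have hnorm : ‖w‖ + 2 ^ j0 * w.im ≤ R' / 8 := by
    have h1 : ‖w‖ ≤ |w.re| + |w.im| := Complex.norm_le_abs_re_add_abs_im w
    rw [abs_of_pos hwim] at h1
    have h2 : 2 ^ j0 * w.im ≤ 2 ^ j0 * R := mul_le_mul_of_nonneg_left hw3 h2j.le
    rw [hR']
    linarith
  obtain ⟨j, hj1, -, hj2, hj3⟩ := hslo f η R' w j0 hf hη hR'1 hwim hnorm hPpos hw4.le hlow
  exact ⟨j, hj1, hj2, hj3⟩

end HK

open HK in
theorem stHK (hGR : StGR) (hGRb : StGRb) (hSlo : StSlo) (hGlu : StGlu) (hGrow : Thr.StGrow) :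
    StHK := by
  intro b τ p hb hτ hτ2 hp
  obtain ⟨J, CG, hCG, hglu⟩ := hGlu b hb
  obtain ⟨c, hc, hslo⟩ := hSlo b τ hb hτ hτ2 J
  obtain ⟨CB, hCB, hgrb⟩ := hGRb b hb
  set C' : ℝ := CB + 1 + 2 * CG with hC'
  have hC'1 : 1 ≤ C' := by linarith
  have hc1 : 0 < 1 / c := by positivity
  have hc2 : 0 < 2 / (b * τ) := by positivity
  have hc3 : 0 < C' ^ p := by positivity
  refine ⟨1 + (1 / c + 5 + 2 / (b * τ)) + C' ^ p, by linarith, ?_⟩
  intro f η R hf hη hR hne hfin
  obtain ⟨a₀, R', ha0, hR'R, ha0N, hsel⟩ := choice hb hτ hτ2 hc hGR hGrow hslo hf hη hR hne hfin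
  have hR0 : 0 < R := by linarith
  have hR'1 : 1 ≤ R' := by linarith
  obtain ⟨K, hK1, hKd, hKg⟩ := phi_props hGrow hf hη
  obtain ⟨-, hRprop⟩ := hGR b hb _ K hKd hK1 hKg hne
  obtain ⟨⟨MG, hMG⟩, hGpos, hGanti, hGlsc, hG5, hG6⟩ := hRprop R' hR'1
  clear hRprop
  set Φ : ℂ → ℂ := fun w => dschw f (w + η * I) with hΦ
  set G : ℂ → ℝ := GG b R' Φ with hG
  set P : ℂ → ℝ := fun w => poisson f w.re (w.im + η) with hP
  have huim : ∀ z ∈ uhp, 0 < z.im := fun z hz => hz
  have hGlsc' : LowerSemicontinuousOn G uhp := hGlsc.mono fun z hz => (huim z hz).le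
  have hGgood : Good b G := by
    refine ⟨fun z hz => hGpos z (huim z hz).le, fun z hz e he => hGanti z (huim z hz).le e he,
      hGlsc', ?_⟩
    intro z hz r hr hr2 g hg hgm
    have h0 := huim z hz
    have h1 := hG6 z hz r hr (by linarith)
    refine h1.trans (avg_mono ?_ hg hgm)
    exact log_int hb (fun z hz => hGpos z (huim z hz).le)
      (fun z hz e he => hGanti z (huim z hz).le e he) hGlsc'
      (fun z hz => (hMG z (huim z hz).le).2) hz hr hr2
  -- the set of the points with large values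
  let S : Set ℂ := {w : ℂ | |w.re| ≤ R ∧ 1 / R ≤ w.im ∧ w.im ≤ R ∧
    G (w - (τ * w.im : ℝ) * I) < c * |P w| ∧ 4 * a₀ < |P w|}
  have hsel' : ∀ w ∈ S, ∃ j : ℕ, J ≤ j ∧
      |P w| / 2 ≤ |poisson f w.re (w.im + 2 ^ j * w.im + η)| ∧
      b / 64 * |P w| * (1 / 2) ^ j ≤ G (w + (2 ^ j * w.im : ℝ) * I) := by
    rintro w ⟨h1, h2, h3, h4, h5⟩
    exact hsel w h1 h2 h3 h4 h5
  choose! jj hj1 hj2 hj3 using hsel'
  have hSim : ∀ w ∈ S, 0 < w.im := fun w hw => lt_of_lt_of_le (by positivity) hw.2.1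
  have hSP : ∀ w ∈ S, 0 < |P w| := fun w hw => by
    have := hw.2.2.2.2
    linarith
  set Kf : ℂ → ℂ → ℝ := fun w => KK b G w (jj w) |P w| with hKf
  have hglue : ∀ w ∈ S, |P w| ≤ Kf w w ∧ (∀ z ∈ uhp, G z ≤ Kf w z) ∧
      (∀ z ∈ uhp, Kf w z ≤ max (G z) (CG * |P w|)) ∧
      (∀ z ∈ uhp, Kf w z ≤ G z ∨ w + (2 ^ jj w * w.im : ℝ) * I - z ∈ Co b) ∧
      (∀ z ∈ uhp, ∀ e ∈ Co b, Kf w (z + e) ≤ Kf w z) ∧
      LowerSemicontinuousOn (Kf w) uhp ∧
      ∀ z ∈ uhp, ∀ r : ℝ, 0 < r → r ≤ z.im / 2 → ∀ g : ℂ → ℝ, IntegrableOn g (ball z r) →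
        (∀ w' ∈ ball z r, Real.log (Kf w w') ≤ g w') →
        Real.log (Kf w z) ≤ ⨍ w' in ball z r, g w' := by
    intro w hw
    exact hglu G w (jj w) |P w| (hSim w hw) (hSP w hw) (hj1 w hw)
      (fun z hz => hGpos z hz.le) (fun z hz e he => hGanti z hz.le e he) hGlsc' hG6 (hj3 w hw)
  have hKgood : ∀ w ∈ S, Good b (Kf w) := by
    intro w hw
    obtain ⟨-, h2, -, -, h5, h6, h7⟩ := hglue w hw
    exact ⟨fun z hz => (hGgood.pos z hz).trans_le (h2 z hz), h5, h6, h7⟩
  -- the family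
  let m : Option S → ℂ → ℝ := fun i z => max a₀ (i.elim (G z) fun w => Kf w z)
  have hm : ∀ i, Good b (m i) := by
    rintro (_ | ⟨w, hw⟩)
    · exact good_max hGgood a₀
    · exact good_max (hKgood w hw) a₀
  -- the bound
  obtain ⟨B, hB⟩ : ∃ B : ℝ, ∀ w ∈ S, |P w| ≤ B := by
    have hcomp : IsCompact (Icc (-R) R ×ℂ Icc (1 / R) R) := isCompact_Icc.reProdIm isCompact_Icc
    have hcont : ContinuousOn (fun w : ℂ => schw f (w + η * I)) (Icc (-R) R ×ℂ Icc (1 / R) R) := by
      intro w hw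
      have h1 : 1 / R ≤ w.im := (mem_reProdIm.mp hw).2.1
      have h2 : 0 < 1 / R := by positivity
      have h3 : 0 < (w + η * I).im := by rw [im_add_I]; linarith
      exact ((hasDerivAt_schw hf h3).comp_add_const w (η * I)).continuousAt.continuousWithinAt
    obtain ⟨B, hB⟩ := hcomp.exists_bound_of_continuousOn hcont
    refine ⟨B, fun w hw => ?_⟩
    have h0 := hSim w hw
    have h1 : w ∈ Icc (-R) R ×ℂ Icc (1 / R) R :=
      mem_reProdIm.mpr ⟨abs_le.mp hw.1, ⟨hw.2.1, hw.2.2.1⟩⟩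
    have h2 := hB w h1
    have h3 : (schw f (w + η * I)).re = P w := schw_re_eq hf h0 hη
    rw [← h3]
    exact (Complex.abs_re_le_norm _).trans h2
  have hM : ∀ i, ∀ z ∈ uhp, m i z ≤ max a₀ (max MG (CG * B)) := by
    rintro (_ | ⟨w, hw⟩) z hz
    · exact max_le_max le_rfl (((hMG z (huim z hz).le).2).trans (le_max_left _ _))
    · refine max_le_max le_rfl (((hglue w hw).2.2.1 z hz).trans (max_le_max ?_ ?_))
      · exact (hMG z (huim z hz).le).2
      · exact mul_le_mul_of_nonneg_left (hB w hw) (by linarith)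
  obtain ⟨hHpos, hHle, hHanti, hSH⟩ := sup_SH hb hp m hm hM
  set H : ℂ → ℝ := fun z => ⨆ i, m i z with hH
  have hHG : ∀ z ∈ uhp, G z ≤ H z := fun z hz => (le_max_right _ _).trans (hHle none z hz)
  have hHa : ∀ z ∈ uhp, a₀ ≤ H z := fun z hz => (le_max_left _ _).trans (hHle none z hz)
  have hHK : ∀ w ∈ S, ∀ z ∈ uhp, Kf w z ≤ H z := fun w hw z hz =>
    (le_max_right _ _).trans (hHle (some ⟨w, hw⟩) z hz)
  refine ⟨fun z => -(p * Real.log (H z)), hSH, ?_, ?_⟩
  · -- the bound in the box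
    rintro ⟨q1, q2⟩ ⟨hq1, hq2, hq3⟩
    change |q1| ≤ R at hq1
    change 1 / R ≤ q2 at hq2
    change q2 ≤ R at hq3
    have hq0 : 0 < q2 := lt_of_lt_of_le (by positivity) hq2
    set w : ℂ := (q1 : ℂ) + (q2 : ℂ) * I with hw
    have hwre : w.re = q1 := by rw [hw, re_add_I, Complex.ofReal_re]
    have hwim : w.im = q2 := by rw [hw, im_add_I, Complex.ofReal_im, zero_add]
    set w' : ℂ := w - (τ * w.im : ℝ) * I with hw'
    have hw'im : w'.im = (1 - τ) * q2 := by rw [hw', im_sub_I, hwim]; ring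
    have hw'0 : 0 < w'.im := by
      rw [hw'im]
      apply mul_pos _ hq0
      linarith
    have hw'u : w' ∈ uhp := hw'0
    have hww : w' + (τ * w.im : ℝ) * I = w := by rw [hw']; ring
    have hτw : (0 : ℝ) ≤ τ * w.im := by rw [hwim]; positivity
    have hut : Real.exp (-ut τ (fun z => -(p * Real.log (H z))) (q1, q2) / p) = H w' := by
      have h1 : (q1 : ℂ) + (((1 - τ) * q2 : ℝ) : ℂ) * I = w' := by
        rw [hw', hwim, hw]
        push_cast
        ring
      unfold ut
      simp only []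
      rw [h1]
      have h2 : -(-(p * Real.log (H w'))) / p = Real.log (H w') := by
        field_simp
      rw [h2, Real.exp_log (hHpos w' hw'u)]
    rw [hut]
    have hre : (schw f (w + η * I)).re = P w :=
      schw_re_eq hf (by rw [hwim]; exact hq0) hη
    have hder : deriv (fun w => schw f (w + η * I)) w = Φ w := by
      have h3 : 0 < (w + η * I).im := by rw [im_add_I]; linarith
      exact ((hasDerivAt_schw hf h3).comp_add_const w (η * I)).deriv
    change |(schw f (w + η * I)).re| + q2 * ‖deriv (fun w => schw f (w + η * I)) w‖ ≤ _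
    rw [hre, hder]
    have hHw' := hHpos w' hw'u
    have hPb : |P w| ≤ (1 / c + 5) * H w' := by
      by_cases hwS : w ∈ S
      · have h1 := (hglue w hwS).1
        have h2 := (hglue w hwS).2.2.2.2.1 w' hw'u ((τ * w.im : ℝ) * I) (by
          change |(((τ * w.im : ℝ) : ℂ) * I).re| ≤ b * (((τ * w.im : ℝ) : ℂ) * I).im
          have e0 := im_add_I 0 (τ * w.im)
          have e0' := re_add_I 0 (τ * w.im)
          rw [zero_add] at e0 e0'
          rw [e0, e0']
          simp only [Complex.zero_re, Complex.zero_im, abs_zero, zero_add]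
          positivity)
        rw [hww] at h2
        have h3 := hHK w hwS w' hw'u
        have h4 : 0 ≤ (1 / c + 4) * H w' := by positivity
        linarith
      · have h1 : ¬ (G w' < c * |P w| ∧ 4 * a₀ < |P w|) := by
          intro h
          apply hwS
          refine ⟨by rw [hwre]; exact hq1, by rw [hwim]; exact hq2, by rw [hwim]; exact hq3,
            h.1, h.2⟩
        rw [not_and_or, not_lt, not_lt] at h1
        rcases h1 with h1 | h1
        · have h2 : |P w| ≤ 1 / c * G w' := by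
            rw [one_div, ← div_eq_inv_mul, le_div_iff₀ hc]
            linarith
          have h3 : 1 / c * G w' ≤ 1 / c * H w' := mul_le_mul_of_nonneg_left (hHG w' hw'u) hc1.le
          linarith
        · have h2 := hHa w' hw'u
          have h3 : 0 ≤ 1 / c * H w' := by positivity
          linarith
    have hgr : q2 * ‖Φ w‖ ≤ 2 / (b * τ) * H w' := by
      have h1 := hG5 w' hw'0.le (τ * w.im) hτw
      rw [hww] at h1
      have hnw : ‖w‖ ≤ R' / 8 := by
        have h2 : ‖w‖ ≤ |w.re| + |w.im| := Complex.norm_le_abs_re_add_abs_im w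
        rw [hwre, hwim, abs_of_pos hq0] at h2
        linarith
      have h2 := tau_ge (R := R') (by linarith) hnw (by rw [hwim]; exact hq0)
      have h3 : b * (τ * w.im) * ‖Φ w‖ * (1 / 2) ≤ b * (τ * w.im) * ‖Φ w‖ * ‖tau R' w‖ :=
        mul_le_mul_of_nonneg_left h2 (by positivity)
      have h4 := hHG w' hw'u
      rw [hwim] at h1 h3
      rw [div_mul_eq_mul_div, le_div_iff₀ (by positivity)]
      have h5 : q2 * ‖Φ w‖ * (b * τ) = 2 * (b * (τ * q2) * ‖Φ w‖ * (1 / 2)) := by ring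
      rw [h5]
      linarith
    have h6 : 0 ≤ (1 + C' ^ p) * H w' := by positivity
    have h7 : (1 + (1 / c + 5 + 2 / (b * τ)) + C' ^ p) * H w' =
        (1 / c + 5) * H w' + 2 / (b * τ) * H w' + (1 + C' ^ p) * H w' := by ring
    rw [h7]
    linarith
  · -- the boundary values
    intro x
    by_cases hx : ntMax b f x = ∞
    · rw [hx, ENNReal.top_rpow_of_pos hp, ENNReal.mul_top]
      · exact le_top
      · rw [Ne, ENNReal.ofReal_eq_zero, not_le]
        linarith
    set n : ℝ := (ntMax b f x).toReal with hn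
    have hn0 : 0 ≤ n := ENNReal.toReal_nonneg
    have ha0n : a₀ ≤ n := (ENNReal.ofReal_le_iff_le_toReal hx).mp (ha0N x)
    have hGx : G x ≤ CB * n := by
      have h1 := hgrb f η R' x hf hη hR'1
      have h2 : ENNReal.ofReal CB * ntMax b f x ≠ ∞ :=
        ENNReal.mul_ne_top ENNReal.ofReal_ne_top hx
      have h3 := (ENNReal.ofReal_le_iff_le_toReal h2).mp h1
      rwa [ENNReal.toReal_mul, ENNReal.toReal_ofReal (by linarith)] at h3
    have key : ∀ z ∈ uhp, |x - z.re| ≤ b * z.im → H z ≤ C' * n := by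
      intro z hz hxz
      have hGz : G z ≤ CB * n := by
        have h1 := hGanti (x : ℂ) (by simp) (z - x) (by
          change |(z - (x : ℂ)).re| ≤ b * (z - (x : ℂ)).im
          rw [Complex.sub_re, Complex.sub_im, Complex.ofReal_re, Complex.ofReal_im, sub_zero,
            abs_sub_comm]
          exact hxz)
        rw [add_sub_cancel] at h1
        exact h1.trans hGx
      have hCBn : CB * n ≤ C' * n := by
        apply mul_le_mul_of_nonneg_right _ hn0
        linarith
      have hnn : n ≤ C' * n := by nlinarith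
      apply ciSup_le
      rintro (_ | ⟨w, hw⟩)
      · exact max_le (ha0n.trans hnn) (hGz.trans hCBn)
      · refine max_le (ha0n.trans hnn) ?_
        change Kf w z ≤ C' * n
        rcases (hglue w hw).2.2.2.1 z hz with h | h
        · exact h.trans (hGz.trans hCBn)
        · refine ((hglue w hw).2.2.1 z hz).trans (max_le (hGz.trans hCBn) ?_)
          have h1 := hj2 w hw
          have hwim := hSim w hw
          have h2 := P_le' (x := x) (w := w + ((2 ^ jj w * w.im : ℝ) : ℂ) * I) hb hη f ?_ ?_ hx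
          · rw [re_add_I, im_add_I] at h2
            have h3 : |P w| ≤ 2 * n := by linarith
            calc CG * |P w| ≤ CG * (2 * n) := mul_le_mul_of_nonneg_left h3 (by linarith)
              _ = 2 * CG * n := by ring
              _ ≤ C' * n := mul_le_mul_of_nonneg_right (by linarith) hn0
          · rw [im_add_I]
            positivity
          · have h3 : |(w + ((2 ^ jj w * w.im : ℝ) : ℂ) * I - z).re| ≤
                b * (w + ((2 ^ jj w * w.im : ℝ) : ℂ) * I - z).im := h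
            rw [Complex.sub_re, Complex.sub_im] at h3
            have h4 : |x - (w + ((2 ^ jj w * w.im : ℝ) : ℂ) * I).re| ≤
                |x - z.re| + |(w + ((2 ^ jj w * w.im : ℝ) : ℂ) * I).re - z.re| := by
              rw [abs_sub_comm ((w + ((2 ^ jj w * w.im : ℝ) : ℂ) * I).re) z.re]
              exact abs_sub_le _ _ _
            have h5 : b * (w + ((2 ^ jj w * w.im : ℝ) : ℂ) * I).im = b * z.im +
                b * ((w + ((2 ^ jj w * w.im : ℝ) : ℂ) * I).im - z.im) := by ring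
            rw [h5]
            linarith
    have hn1 : 0 < n := by
      have h1 : (x : ℂ) + ((1 : ℝ) : ℂ) * I ∈ uhp := mem_uhp one_pos
      have h2 := key _ h1 (by
        rw [re_add_I, im_add_I, Complex.ofReal_re, Complex.ofReal_im]
        simp only [sub_self, abs_zero]
        positivity)
      have h3 := (hHpos _ h1).trans_le h2
      by_contra h4
      have h5 : n = 0 := le_antisymm (not_lt.mp h4) hn0
      rw [h5, mul_zero] at h3
      exact lt_irrefl _ h3
    have hbv : -(p * Real.log (C' * n)) ≤ bv b (fun z => -(p * Real.log (H z))) x := by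
      unfold bv
      have hne' : Nonempty {e : ℂ // e ∈ Co b ∧ 0 < e.im} := by
        refine ⟨⟨I, ?_, ?_⟩⟩
        · change |I.re| ≤ b * I.im
          simp only [Complex.I_re, Complex.I_im, abs_zero, mul_one]
          exact hb.le
        · simp
      apply le_ciInf
      rintro ⟨e, he, he0⟩
      have h1 : (x : ℂ) + e ∈ uhp := by
        change 0 < ((x : ℂ) + e).im
        rw [Complex.add_im, Complex.ofReal_im, zero_add]
        exact he0
      have h2 := key _ h1 (by
        rw [Complex.add_re, Complex.add_im, Complex.ofReal_re, Complex.ofReal_im, zero_add]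
        have h3 : x - (x + e.re) = -e.re := by ring
        rw [h3, abs_neg]
        exact he)
      have h3 := Real.log_le_log (hHpos _ h1) h2
      have h4 := mul_le_mul_of_nonneg_left h3 hp.le
      change -(p * Real.log (C' * n)) ≤ -(p * Real.log (H ((x : ℂ) + e)))
      linarith
    have hexp : Real.exp (-bv b (fun z => -(p * Real.log (H z))) x) ≤ C' ^ p * n ^ p := by
      have h1 : 0 < C' * n := by positivity
      calc Real.exp (-bv b (fun z => -(p * Real.log (H z))) x)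
          ≤ Real.exp (Real.log (C' * n) * p) := by
            apply Real.exp_le_exp.mpr
            linarith
        _ = (C' * n) ^ p := by rw [Real.rpow_def_of_pos h1]
        _ = C' ^ p * n ^ p := Real.mul_rpow (by linarith) hn0
    calc ENNReal.ofReal (Real.exp (-bv b (fun z => -(p * Real.log (H z))) x))
        ≤ ENNReal.ofReal (C' ^ p * n ^ p) := ENNReal.ofReal_le_ofReal hexp
      _ = ENNReal.ofReal (C' ^ p) * (ntMax b f x) ^ p := by
        rw [ENNReal.ofReal_mul hc3.le, ← ENNReal.ofReal_rpow_of_pos hn1, hn,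
          ENNReal.ofReal_toReal hx]
      _ ≤ ENNReal.ofReal (1 + (1 / c + 5 + 2 / (b * τ)) + C' ^ p) * (ntMax b f x) ^ p := by
        gcongr
        linarith

end Pool.Agent.Work.MP_055a27_an.Wd
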