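import Pool.Agent.Work.MP_055a27_an.Wd.Stmts

/-!
# Analytic functions with modulus comparable to `exp (-v / p)`

The theorem `stHor`: solution of the inhomogeneous Cauchy Riemann equation with the weight
`-(2 / p) v + log (|z - w| ^ 2 + a ^ 2) + 2 log (|z - w| ^ 2 + s ^ 2)` and the derivative of a
cut-off function as the right hand side.
-/

set_option autoImplicit false

open MeasureTheory Set Filter Topology Complex Metric
open scoped ENNReal NNReal

namespace Pool.Agent.Work.MP_055a27_an.Wd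
namespace Hor

/-! ### The logarithmic weights -/

/-- The function `log (|z - w| ^ 2 + a ^ 2)`. -/
noncomputable def lg (w : ℂ) (a : ℝ) (z : ℂ) : ℝ := Real.log (‖z - w‖ ^ 2 + a ^ 2)

lemma nsq_eq (z w : ℂ) : ‖z - w‖ ^ 2 = (z.re - w.re) ^ 2 + (z.im - w.im) ^ 2 := by
  rw [← Complex.normSq_eq_norm_sq, Complex.normSq_apply]
  simp only [sub_re, sub_im]
  ring

lemma q_pos (w : ℂ) {a : ℝ} (ha : 0 < a) (z : ℂ) : 0 < ‖z - w‖ ^ 2 + a ^ 2 := by positivity

/-- The derivative of `|z - w| ^ 2 + a ^ 2`. -/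
noncomputable def dq (w z : ℂ) : ℂ →L[ℝ] ℝ :=
  (2 * (z.re - w.re)) • Complex.reCLM + (2 * (z.im - w.im)) • Complex.imCLM

lemma hasFDerivAt_q (w : ℂ) (a : ℝ) (z : ℂ) :
    HasFDerivAt (fun z : ℂ => ‖z - w‖ ^ 2 + a ^ 2) (dq w z) z := by
  have h1 : HasFDerivAt (fun z : ℂ => z.re - w.re) Complex.reCLM z :=
    (Complex.reCLM.hasFDerivAt).sub_const _
  have h2 : HasFDerivAt (fun z : ℂ => z.im - w.im) Complex.imCLM z :=
    (Complex.imCLM.hasFDerivAt).sub_const _
  have h3 := ((h1.pow 2).add (h2.pow 2)).add_const (a ^ 2)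
  have h4 : (fun z : ℂ => ‖z - w‖ ^ 2 + a ^ 2) =
      fun z : ℂ => (z.re - w.re) ^ 2 + (z.im - w.im) ^ 2 + a ^ 2 := by
    funext z; rw [nsq_eq]
  rw [h4]
  refine h3.congr_fderiv ?_
  ext
  simp [dq]

lemma contDiff_lg (w : ℂ) {a : ℝ} (ha : 0 < a) (n : ℕ∞) : ContDiff ℝ n (lg w a) := by
  unfold lg
  have h4 : (fun z : ℂ => ‖z - w‖ ^ 2 + a ^ 2) =
      fun z : ℂ => (z.re - w.re) ^ 2 + (z.im - w.im) ^ 2 + a ^ 2 := by
    funext z; rw [nsq_eq]
  refine ContDiff.log ?_ (fun z => (q_pos w ha z).ne')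
  rw [h4]
  have h1 : ContDiff ℝ n (fun z : ℂ => z.re - w.re) :=
    (Complex.reCLM.contDiff).sub contDiff_const
  have h2 : ContDiff ℝ n (fun z : ℂ => z.im - w.im) :=
    (Complex.imCLM.contDiff).sub contDiff_const
  exact ((h1.pow 2).add (h2.pow 2)).add contDiff_const

lemma fderiv_lg (w : ℂ) {a : ℝ} (ha : 0 < a) (z : ℂ) :
    fderiv ℝ (lg w a) z = (‖z - w‖ ^ 2 + a ^ 2)⁻¹ • dq w z :=
  ((hasFDerivAt_q w a z).log (q_pos w ha z).ne').fderiv

lemma snd_lg (w : ℂ) {a : ℝ} (ha : 0 < a) (z v : ℂ) :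
    fderiv ℝ (fderiv ℝ (lg w a)) z v v =
      2 * ‖v‖ ^ 2 / (‖z - w‖ ^ 2 + a ^ 2) - (dq w z v) ^ 2 / (‖z - w‖ ^ 2 + a ^ 2) ^ 2 := by
  have hC : ContDiff ℝ 2 (lg w a) := contDiff_lg w ha 2
  have hd : DifferentiableAt ℝ (fderiv ℝ (lg w a)) z :=
    (hC.fderiv_right (m := 1) (by norm_num)).differentiable (by norm_num) z
  have h1 : fderiv ℝ (fun z => fderiv ℝ (lg w a) z v) z v =
      fderiv ℝ (fderiv ℝ (lg w a)) z v v := by
    rw [fderiv_clm_apply hd (differentiableAt_const v)]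
    simp
  rw [← h1]
  have h2 : (fun z => fderiv ℝ (lg w a) z v) =
      fun z => (‖z - w‖ ^ 2 + a ^ 2)⁻¹ * (dq w z v) := by
    funext z
    rw [fderiv_lg w ha]; simp
  rw [h2]
  have h3 : HasFDerivAt (fun z : ℂ => dq w z v)
      ((2 * v.re) • Complex.reCLM + (2 * v.im) • Complex.imCLM) z := by
    have h1 : HasFDerivAt (fun z : ℂ => z.re - w.re) Complex.reCLM z :=
      (Complex.reCLM.hasFDerivAt).sub_const _
    have h2 : HasFDerivAt (fun z : ℂ => z.im - w.im) Complex.imCLM z :=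
      (Complex.imCLM.hasFDerivAt).sub_const _
    have h3 := (h1.const_mul (2 * v.re)).add (h2.const_mul (2 * v.im))
    refine (h3.congr_of_eventuallyEq (Eventually.of_forall fun z => ?_))
    simp [dq]; ring
  have h40 : HasFDerivAt (fun z : ℂ => (‖z - w‖ ^ 2 + a ^ 2)⁻¹)
      ((-((‖z - w‖ ^ 2 + a ^ 2) ^ 2)⁻¹) • dq w z) z :=
    (hasDerivAt_inv (q_pos w ha z).ne').comp_hasFDerivAt z (hasFDerivAt_q w a z)
  have h4 := h40.mul h3
  have h5 : fderiv ℝ (fun z => (‖z - w‖ ^ 2 + a ^ 2)⁻¹ * (dq w z v)) z = _ := h4.fderiv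
  rw [h5]
  have hq := (q_pos w ha z).ne'
  have hv : ‖v‖ ^ 2 = v.re ^ 2 + v.im ^ 2 := by
    rw [← Complex.normSq_eq_norm_sq, Complex.normSq_apply]; ring
  simp only [add_apply, smul_apply, smul_eq_mul,
    Complex.reCLM_apply, Complex.imCLM_apply]
  rw [hv]
  field_simp
  ring

lemma laplacian_lg (w : ℂ) {a : ℝ} (ha : 0 < a) (z : ℂ) :
    Laplacian.laplacian (lg w a) z = 4 * a ^ 2 / (‖z - w‖ ^ 2 + a ^ 2) ^ 2 := by
  rw [InnerProductSpace.laplacian_eq_iteratedFDeriv_complexPlane]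
  simp only [iteratedFDeriv_two_apply, Fin.isValue, Matrix.cons_val_zero, Matrix.cons_val_one,
    Matrix.cons_val_fin_one]
  rw [snd_lg w ha, snd_lg w ha]
  have hq := (q_pos w ha z).ne'
  simp only [dq, add_apply, smul_apply, smul_eq_mul,
    Complex.reCLM_apply, Complex.imCLM_apply, Complex.one_re, Complex.one_im, Complex.I_re,
    Complex.I_im, norm_one, Complex.norm_I]
  rw [nsq_eq] at hq ⊢
  field_simp
  ring


/-! ### Mean values of analytic functions -/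

lemma c2s_re {f : ℂ → ℂ} (hf : DifferentiableOn ℂ f uhp) : C2S (fun z => (f z).re) := by
  have h1 : ∀ z ∈ uhp, AnalyticAt ℂ f z := fun z hz => hf.analyticAt (isOpen_uhp.mem_nhds hz)
  refine ⟨fun z hz => ((h1 z hz).harmonicAt_re).1.contDiffWithinAt, fun z hz => ?_⟩
  rw [((h1 z hz).harmonicAt_re).2.eq_of_nhds]
  exact le_refl _

lemma ball_sub_uhp {z : ℂ} {t : ℝ} (ht : t < z.im) : closedBall z t ⊆ uhp := by
  intro w hw
  have h1 : |(w - z).im| ≤ t :=
    (Complex.abs_im_le_norm _).trans (by simpa [dist_eq_norm] using hw)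
  have h2 := (abs_le.mp h1).1
  simp only [sub_im] at h2
  change 0 < w.im
  linarith

lemma intOn_ball {E : Type*} [NormedAddCommGroup E] {f : ℂ → E} (hf : ContinuousOn f uhp) {z : ℂ}
    {t : ℝ} (ht : t < z.im) : IntegrableOn f (ball z t) := by
  have h1 : IntegrableOn f (closedBall z t) :=
    (hf.mono (ball_sub_uhp ht)).integrableOn_compact (isCompact_closedBall z t)
  exact h1.mono_set ball_subset_closedBall

lemma vol_ball (z : ℂ) {t : ℝ} (ht : 0 < t) : volume.real (ball z t) = Real.pi * t ^ 2 := by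
  rw [Measure.real, Complex.volume_ball, ENNReal.toReal_mul, ENNReal.toReal_pow,
    ENNReal.toReal_ofReal ht.le, mul_comm]
  rfl

lemma mean_re (hSubM : StSubM) {f : ℂ → ℂ} (hf : DifferentiableOn ℂ f uhp) {z : ℂ} (hz : z ∈ uhp)
    {t : ℝ} (ht : 0 < t) (ht' : t < z.im) : ⨍ w in ball z t, (f w).re = (f z).re := by
  refine le_antisymm (hSubM _ (c2s_re hf) z hz t ht ht') ?_
  have h1 := hSubM _ (c2s_re hf.neg) z hz t ht ht'
  simp only [Pi.neg_apply, neg_re, average_eq, integral_neg, smul_neg, neg_le_neg_iff] at h1 ⊢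
  exact h1

lemma mean_eq (hSubM : StSubM) {f : ℂ → ℂ} (hf : DifferentiableOn ℂ f uhp) {z : ℂ} (hz : z ∈ uhp)
    {t : ℝ} (ht : 0 < t) (ht' : t < z.im) : ⨍ w in ball z t, f w = f z := by
  have hi : IntegrableOn f (ball z t) := intOn_ball hf.continuousOn ht'
  have h1 := mean_re hSubM hf hz ht ht'
  have h2 := mean_re hSubM (f := fun z => -I * f z) (hf.const_mul (-I)) hz ht ht'
  rw [setAverage_eq] at h1 h2 ⊢
  have e1 : ∫ w in ball z t, (f w).re = (∫ w in ball z t, f w).re := by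
    have := Complex.reCLM.integral_comp_comm hi
    simpa using this
  have e2 : ∫ w in ball z t, (f w).im = (∫ w in ball z t, f w).im := by
    have := Complex.imCLM.integral_comp_comm hi
    simpa using this
  have e3 : (fun w => (-I * f w).re) = fun w => (f w).im := by
    funext w; simp
  rw [e3] at h2
  rw [e1] at h1
  rw [e2] at h2
  apply Complex.ext
  · rw [← h1]; simp
  · have e4 : (-I * f z).re = (f z).im := by simp
    rw [← e4, ← h2]; simp

lemma sq_mean (hSubM : StSubM) {f : ℂ → ℂ} (hf : DifferentiableOn ℂ f uhp) {z : ℂ} (hz : z ∈ uhp)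
    {t : ℝ} (ht : 0 < t) (ht' : t < z.im) :
    Real.pi * t ^ 2 * ‖f z‖ ^ 2 ≤ ∫ w in ball z t, ‖f w‖ ^ 2 := by
  have hi : IntegrableOn f (ball z t) := intOn_ball hf.continuousOn ht'
  have hi2 : IntegrableOn (fun w => ‖f w‖ ^ 2) (ball z t) :=
    intOn_ball (hf.continuousOn.norm.pow 2) ht'
  have hconv : ConvexOn ℝ univ (fun x : ℂ => ‖x‖ ^ 2) :=
    (convexOn_univ_norm (E := ℂ)).pow (fun _ _ => norm_nonneg _) 2
  have h1 := hconv.map_set_average_le (μ := volume) (t := ball z t) (f := f)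
    (by fun_prop) isClosed_univ (measure_ball_pos _ _ ht).ne' measure_ball_lt_top.ne
    (Eventually.of_forall fun _ => mem_univ _) hi hi2
  rw [mean_eq hSubM hf hz ht ht', setAverage_eq, vol_ball z ht, smul_eq_mul,
    ← div_eq_inv_mul, le_div_iff₀ (by positivity)] at h1
  linarith

lemma sq_mean_l (hSubM : StSubM) {f : ℂ → ℂ} (hf : DifferentiableOn ℂ f uhp) {z : ℂ}
    (hz : z ∈ uhp) {t : ℝ} (ht : 0 < t) (ht' : t < z.im) :
    ENNReal.ofReal (Real.pi * t ^ 2 * ‖f z‖ ^ 2) ≤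
      ∫⁻ w in ball z t, ENNReal.ofReal (‖f w‖ ^ 2) := by
  have hi2 : IntegrableOn (fun w => ‖f w‖ ^ 2) (ball z t) :=
    intOn_ball (hf.continuousOn.norm.pow 2) ht'
  rw [← ofReal_integral_eq_lintegral_ofReal hi2 (Eventually.of_forall fun _ => by positivity)]
  exact ENNReal.ofReal_le_ofReal (sq_mean hSubM hf hz ht ht')


/-! ### The derivative `dbar` -/

lemma continuous_dbar {f : ℂ → ℂ} (hf : ContDiff ℝ 1 f) : Continuous (dbar f) := by
  have h1 : Continuous (fderiv ℝ f) := hf.continuous_fderiv (by norm_num)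
  unfold dbar
  fun_prop

lemma dbar_zero {f : ℂ → ℂ} {z : ℂ} (hz : z ∉ tsupport f) : dbar f z = 0 := by
  have h1 : fderiv ℝ f z = 0 := by
    by_contra h
    exact hz (support_fderiv_subset ℝ h)
  simp [dbar, h1]

lemma tsupport_dbar {f : ℂ → ℂ} : tsupport (dbar f) ⊆ tsupport f := by
  refine closure_minimal (fun z hz => ?_) (isClosed_tsupport f)
  by_contra h
  exact hz (dbar_zero h)

lemma hcs_dbar {f : ℂ → ℂ} (hf : HasCompactSupport f) : HasCompactSupport (dbar f) :=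
  hf.of_isClosed_subset (isClosed_tsupport _) tsupport_dbar

lemma parts_v {f g : ℂ → ℂ} (hf : ContDiff ℝ 1 f) (hg : ContDiff ℝ 1 g)
    (hfc : HasCompactSupport f) (hgc : HasCompactSupport g) (v : ℂ) :
    ∫ z, f z * fderiv ℝ g z v = -∫ z, fderiv ℝ f z v * g z := by
  have h1 : Continuous (fderiv ℝ f) := hf.continuous_fderiv (by norm_num)
  have h2 : Continuous (fderiv ℝ g) := hg.continuous_fderiv (by norm_num)
  have h3 := hf.continuous
  have h4 := hg.continuous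
  refine integral_mul_fderiv_eq_neg_fderiv_mul_of_integrable ?_ ?_ ?_
    (fun z _ => (hf.differentiable (by norm_num)) z) (fun z _ => (hg.differentiable (by norm_num)) z)
  · refine Continuous.integrable_of_hasCompactSupport (by fun_prop) ?_
    exact hgc.mul_left
  · refine Continuous.integrable_of_hasCompactSupport (by fun_prop) ?_
    exact hfc.mul_right
  · refine Continuous.integrable_of_hasCompactSupport (by fun_prop) ?_
    exact hgc.mul_left

lemma parts {f g : ℂ → ℂ} (hf : ContDiff ℝ 1 f) (hg : ContDiff ℝ 1 g)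
    (hfc : HasCompactSupport f) (hgc : HasCompactSupport g) :
    ∫ z, f z * dbar g z = -∫ z, dbar f z * g z := by
  have h1 : Continuous (fderiv ℝ f) := hf.continuous_fderiv (by norm_num)
  have h2 : Continuous (fderiv ℝ g) := hg.continuous_fderiv (by norm_num)
  have h3 := hf.continuous
  have h4 := hg.continuous
  have a1 : ∀ v : ℂ, Integrable (fun z => f z * fderiv ℝ g z v) := fun v =>
    Continuous.integrable_of_hasCompactSupport (by fun_prop) hfc.mul_right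
  have a2 : ∀ v : ℂ, Integrable (fun z => fderiv ℝ f z v * g z) := fun v =>
    Continuous.integrable_of_hasCompactSupport (by fun_prop) hgc.mul_left
  have e1 : (fun z => f z * dbar g z) =
      fun z => (1 / 2 : ℂ) * (f z * fderiv ℝ g z 1) + (I / 2) * (f z * fderiv ℝ g z I) := by
    funext z; unfold dbar; ring
  have e2 : (fun z => dbar f z * g z) =
      fun z => (1 / 2 : ℂ) * (fderiv ℝ f z 1 * g z) + (I / 2) * (fderiv ℝ f z I * g z) := by
    funext z; unfold dbar; ring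
  rw [e1, e2, integral_add ((a1 1).const_mul _) ((a1 I).const_mul _),
    integral_add ((a2 1).const_mul _) ((a2 I).const_mul _), integral_const_mul,
    integral_const_mul, integral_const_mul, integral_const_mul, parts_v hf hg hfc hgc,
    parts_v hf hg hfc hgc]
  ring

lemma setInt_uhp {f : ℂ → ℂ} (hf : ∀ z, z ∉ uhp → f z = 0) : ∫ z in uhp, f z = ∫ z, f z :=
  setIntegral_eq_integral_of_forall_compl_eq_zero hf

/-! ### The cut-off function -/

/-- The fixed bump. -/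
noncomputable def bmp : ContDiffBump (0 : ℂ) := ⟨1 / 4, 1 / 2, by norm_num, by norm_num⟩

/-- The fixed bump, complex valued. -/
noncomputable def psi (z : ℂ) : ℂ := ((bmp z : ℝ) : ℂ)

lemma contDiff_psi : ContDiff ℝ 2 psi :=
  Complex.ofRealCLM.contDiff.comp bmp.contDiff

lemma hcs_psi : HasCompactSupport psi := by
  have h := bmp.hasCompactSupport
  exact h.comp_left (g := fun x : ℝ => (x : ℂ)) (by simp)

lemma exists_M0 : ∃ M0 : ℝ, 0 < M0 ∧ ∀ z, ‖dbar psi z‖ ≤ M0 := by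
  obtain ⟨C, hC⟩ := (continuous_dbar (contDiff_psi.of_le (by norm_num))).bounded_above_of_compact_support
    (hcs_dbar hcs_psi)
  exact ⟨max C 1, by positivity, fun z => (hC z).trans (le_max_left _ _)⟩

/-- The cut-off function. -/
noncomputable def chi (w : ℂ) (s : ℝ) (z : ℂ) : ℂ := psi (s⁻¹ • (z - w))

lemma contDiff_chi (w : ℂ) (s : ℝ) : ContDiff ℝ 2 (chi w s) := by
  unfold chi
  refine contDiff_psi.comp ?_
  fun_prop

lemma chi_one {w : ℂ} {s : ℝ} (hs : 0 < s) {z : ℂ} (hz : ‖z - w‖ ≤ s / 4) : chi w s z = 1 := by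
  have h1 : s⁻¹ • (z - w) ∈ closedBall (0 : ℂ) bmp.rIn := by
    rw [mem_closedBall, dist_zero_right, norm_smul, norm_inv, Real.norm_of_nonneg hs.le]
    change s⁻¹ * ‖z - w‖ ≤ 1 / 4
    rw [inv_mul_le_iff₀ hs]; linarith
  change ((bmp (s⁻¹ • (z - w)) : ℝ) : ℂ) = 1
  rw [bmp.one_of_mem_closedBall h1]; simp

lemma chi_zero {w : ℂ} {s : ℝ} (hs : 0 < s) {z : ℂ} (hz : s / 2 ≤ ‖z - w‖) : chi w s z = 0 := by
  have h1 : bmp.rOut ≤ dist (s⁻¹ • (z - w)) 0 := by
    rw [dist_zero_right, norm_smul, norm_inv, Real.norm_of_nonneg hs.le]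
    change 1 / 2 ≤ s⁻¹ * ‖z - w‖
    rw [le_inv_mul_iff₀ hs]; linarith
  change ((bmp (s⁻¹ • (z - w)) : ℝ) : ℂ) = 0
  rw [bmp.zero_of_le_dist h1]; simp

lemma chi_le (w : ℂ) (s : ℝ) (z : ℂ) : ‖chi w s z‖ ≤ 1 := by
  unfold chi psi
  rw [Complex.norm_real, Real.norm_of_nonneg bmp.nonneg]
  exact bmp.le_one

lemma tsupport_chi (w : ℂ) {s : ℝ} (hs : 0 < s) : tsupport (chi w s) ⊆ closedBall w (s / 2) := by
  refine closure_minimal (fun z hz => ?_) isClosed_closedBall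
  rw [mem_closedBall, dist_eq_norm]
  by_contra h
  exact hz (chi_zero hs (not_le.mp h).le)

lemma hcs_chi (w : ℂ) {s : ℝ} (hs : 0 < s) : HasCompactSupport (chi w s) :=
  (isCompact_closedBall w (s / 2)).of_isClosed_subset (isClosed_tsupport _) (tsupport_chi w hs)

lemma dbar_chi {w : ℂ} {s : ℝ} (z : ℂ) :
    dbar (chi w s) z = (s⁻¹ : ℝ) * dbar psi (s⁻¹ • (z - w)) := by
  have h1 : HasFDerivAt (fun z : ℂ => s⁻¹ • (z - w)) (s⁻¹ • ContinuousLinearMap.id ℝ ℂ) z :=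
    ((hasFDerivAt_id z).sub_const w).const_smul s⁻¹
  have h2 : HasFDerivAt psi (fderiv ℝ psi (s⁻¹ • (z - w))) (s⁻¹ • (z - w)) :=
    (contDiff_psi.differentiable (by norm_num) _).hasFDerivAt
  have h3 : HasFDerivAt (chi w s) _ z := h2.comp z h1
  have h4 : ∀ v : ℂ, (fderiv ℝ psi (s⁻¹ • (z - w)) ∘SL (s⁻¹ • ContinuousLinearMap.id ℝ ℂ)) v =
      (s⁻¹ : ℝ) * fderiv ℝ psi (s⁻¹ • (z - w)) v := by
    intro v
    change fderiv ℝ psi (s⁻¹ • (z - w)) (s⁻¹ • v) = _
    rw [ContinuousLinearMap.map_smul, real_smul]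
  unfold dbar
  rw [h3.fderiv, h4, h4]
  ring

lemma dbar_chi_le {M0 : ℝ} (hM : ∀ z, ‖dbar psi z‖ ≤ M0) {w : ℂ} {s : ℝ} (hs : 0 < s) (z : ℂ) :
    ‖dbar (chi w s) z‖ ≤ M0 / s := by
  rw [dbar_chi, norm_mul, Complex.norm_real, norm_inv, Real.norm_of_nonneg hs.le,
    ← div_eq_inv_mul]
  gcongr
  exact hM _


/-! ### The lower bound with the kernel -/

lemma sh_of (hSubM : StSubM) {b : ℝ} {v : ℂ → ℝ} (h1 : C2S v) (h2 : MonoC b v) (h3 : BddB v) :
    SH b v where
  usc := h1.1.continuousOn.upperSemicontinuousOn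
  mono := h2
  bdd := h3
  mean := fun z hz r hr hr' => hSubM v h1 z hz r hr (by
    have h4 : 0 < z.im := hz
    linarith)

lemma geo_sum (J : ℕ) : ∑ j ∈ Finset.range (J + 1), (4 : ℝ) ^ j ≤ 4 / 3 * 4 ^ J := by
  induction J with
  | zero => norm_num
  | succ J ih =>
    rw [Finset.sum_range_succ, pow_succ]
    have : (0 : ℝ) < 4 ^ J := by positivity
    linarith

lemma kern {s R : ℝ} (hs : 0 ≤ s) (hR : 0 < R) (J : ℕ) :
    (∑ j ∈ Finset.range J, if s * 4 ^ j < R then (4 : ℝ) ^ j else 0) * (s + R / 4 ^ J) ≤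
      8 / 3 * R := by
  induction J with
  | zero => simp; positivity
  | succ J ih =>
    by_cases h : s * 4 ^ J < R
    · have h4 : (0 : ℝ) < 4 ^ J := by positivity
      have h1 : (∑ j ∈ Finset.range (J + 1), if s * 4 ^ j < R then (4 : ℝ) ^ j else 0) ≤
          4 / 3 * 4 ^ J := by
        refine le_trans (Finset.sum_le_sum fun j _ => ?_) (geo_sum J)
        split_ifs
        · exact le_refl _
        · positivity
      have h2 : s + R / 4 ^ (J + 1) ≤ 2 * (R / 4 ^ J) := by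
        have h3 : s ≤ R / 4 ^ J := by
          rw [le_div_iff₀ h4]; exact h.le
        have h5 : R / 4 ^ (J + 1) ≤ R / 4 ^ J := by
          gcongr
          · norm_num
          · omega
        linarith
      calc _ ≤ (4 / 3 * 4 ^ J) * (2 * (R / 4 ^ J)) := by
            gcongr
        _ = 8 / 3 * R := by
            field_simp; norm_num
    · rw [Finset.sum_range_succ, if_neg h, add_zero]
      refine le_trans ?_ ih
      have h0 : 0 ≤ ∑ j ∈ Finset.range J, if s * 4 ^ j < R then (4 : ℝ) ^ j else 0 := by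
        refine Finset.sum_nonneg fun j _ => ?_
        split_ifs
        · positivity
        · exact le_refl _
      gcongr
      · norm_num
      · omega

lemma lower (hSubM : StSubM) {f : ℂ → ℂ} (hf : DifferentiableOn ℂ f uhp) {w : ℂ} (hw : w ∈ uhp)
    {ρ : ℝ} (hρ : 0 < ρ) (hρ' : ρ < w.im) (J : ℕ) :
    3 / 8 * Real.pi * J * ‖f w‖ ^ 2 ≤
      ∫ z in ball w ρ, ‖f z‖ ^ 2 / (‖z - w‖ ^ 2 + (ρ / 2 ^ J) ^ 2) := by
  have hf2 : ContinuousOn (fun z => ‖f z‖ ^ 2) uhp := hf.continuousOn.norm.pow 2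
  have ha : 0 < ρ / 2 ^ J := by positivity
  have hpt : ∀ z, ∑ j ∈ Finset.range J, (3 / 8 * (4 ^ j / ρ ^ 2)) *
      (ball w (ρ / 2 ^ j)).indicator (fun z => ‖f z‖ ^ 2) z ≤
        ‖f z‖ ^ 2 / (‖z - w‖ ^ 2 + (ρ / 2 ^ J) ^ 2) := by
    intro z
    have e1 : ∀ j ∈ Finset.range J, (3 / 8 * (4 ^ j / ρ ^ 2)) *
        (ball w (ρ / 2 ^ j)).indicator (fun z => ‖f z‖ ^ 2) z =
        (3 / 8 / ρ ^ 2 * ‖f z‖ ^ 2) * (if ‖z - w‖ ^ 2 * 4 ^ j < ρ ^ 2 then (4 : ℝ) ^ j else 0) := by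
      intro j _
      have h2 : (0 : ℝ) < 2 ^ j := by positivity
      have e2 : z ∈ ball w (ρ / 2 ^ j) ↔ ‖z - w‖ ^ 2 * 4 ^ j < ρ ^ 2 := by
        rw [mem_ball, dist_eq_norm, lt_div_iff₀ h2]
        have e3 : ‖z - w‖ ^ 2 * 4 ^ j = (‖z - w‖ * 2 ^ j) ^ 2 := by
          rw [mul_pow, ← pow_mul, mul_comm j 2, pow_mul]; norm_num
        rw [e3]
        exact (pow_lt_pow_iff_left₀ (by positivity) hρ.le (by norm_num)).symm
      by_cases hz : z ∈ ball w (ρ / 2 ^ j)
      · rw [indicator_of_mem hz, if_pos (e2.mp hz)]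
        field_simp
      · rw [indicator_of_notMem hz, if_neg (fun h => hz (e2.mpr h))]
        simp
    rw [Finset.sum_congr rfl e1, ← Finset.mul_sum]
    have hk := kern (s := ‖z - w‖ ^ 2) (R := ρ ^ 2) (by positivity) (by positivity) J
    have e4 : (ρ / 2 ^ J) ^ 2 = ρ ^ 2 / 4 ^ J := by
      rw [div_pow, ← pow_mul, mul_comm J 2, pow_mul]; norm_num
    rw [e4, le_div_iff₀ (by positivity)]
    calc _ = (3 / 8 / ρ ^ 2 * ‖f z‖ ^ 2) * ((∑ j ∈ Finset.range J,
          if ‖z - w‖ ^ 2 * 4 ^ j < ρ ^ 2 then (4 : ℝ) ^ j else 0) *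
            (‖z - w‖ ^ 2 + ρ ^ 2 / 4 ^ J)) := by ring
      _ ≤ (3 / 8 / ρ ^ 2 * ‖f z‖ ^ 2) * (8 / 3 * ρ ^ 2) := by gcongr
      _ = ‖f z‖ ^ 2 := by field_simp
  have hint : ∀ j ∈ Finset.range J, Integrable (fun z => (3 / 8 * (4 ^ j / ρ ^ 2)) *
      (ball w (ρ / 2 ^ j)).indicator (fun z => ‖f z‖ ^ 2) z) (volume.restrict (ball w ρ)) := by
    intro j _
    have h1 : IntegrableOn (fun z => ‖f z‖ ^ 2) (ball w ρ) := intOn_ball hf2 hρ'
    exact (h1.indicator measurableSet_ball).const_mul _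
  have hint2 : IntegrableOn (fun z => ‖f z‖ ^ 2 / (‖z - w‖ ^ 2 + (ρ / 2 ^ J) ^ 2)) (ball w ρ) := by
    refine intOn_ball ?_ hρ'
    refine hf2.div (by fun_prop) (fun z _ => by positivity)
  calc 3 / 8 * Real.pi * J * ‖f w‖ ^ 2
      = ∑ j ∈ Finset.range J, (3 / 8 * (4 ^ j / ρ ^ 2)) *
          (Real.pi * (ρ / 2 ^ j) ^ 2 * ‖f w‖ ^ 2) := by
        have e5 : ∀ j ∈ Finset.range J, (3 / 8 * ((4 : ℝ) ^ j / ρ ^ 2)) *
          (Real.pi * (ρ / 2 ^ j) ^ 2 * ‖f w‖ ^ 2) = 3 / 8 * Real.pi * ‖f w‖ ^ 2 := by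
          intro j _
          have e6 : ((2 : ℝ) ^ j) ^ 2 = 4 ^ j := by
            rw [← pow_mul, mul_comm j 2, pow_mul]; norm_num
          rw [div_pow, e6]
          field_simp
        rw [Finset.sum_congr rfl e5, Finset.sum_const, Finset.card_range, nsmul_eq_mul]
        ring
    _ ≤ ∑ j ∈ Finset.range J, ∫ z in ball w ρ, (3 / 8 * (4 ^ j / ρ ^ 2)) *
          (ball w (ρ / 2 ^ j)).indicator (fun z => ‖f z‖ ^ 2) z := by
        refine Finset.sum_le_sum fun j _ => ?_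
        have h2 : (1 : ℝ) ≤ 2 ^ j := one_le_pow₀ (by norm_num)
        have h3 : ρ / 2 ^ j ≤ ρ := div_le_self hρ.le h2
        rw [integral_const_mul, integral_indicator measurableSet_ball,
          Measure.restrict_restrict measurableSet_ball,
          inter_eq_left.mpr (ball_subset_ball h3)]
        gcongr
        exact sq_mean hSubM hf hw (by positivity) (h3.trans_lt hρ')
    _ = ∫ z in ball w ρ, ∑ j ∈ Finset.range J, (3 / 8 * (4 ^ j / ρ ^ 2)) *
          (ball w (ρ / 2 ^ j)).indicator (fun z => ‖f z‖ ^ 2) z :=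
        (integral_finsetSum _ hint).symm
    _ ≤ _ := integral_mono (integrable_finsetSum _ hint) hint2 hpt


/-! ### The weight -/

/-- The weight. -/
noncomputable def ph (p : ℝ) (v : ℂ → ℝ) (w : ℂ) (a s : ℝ) (z : ℂ) : ℝ :=
  -(2 / p) * v z + (lg w a z + 2 * lg w s z)

lemma exp_lg (w : ℂ) {a : ℝ} (ha : 0 < a) (z : ℂ) :
    Real.exp (lg w a z) = ‖z - w‖ ^ 2 + a ^ 2 := Real.exp_log (q_pos w ha z)

lemma exp_ph (p : ℝ) (v : ℂ → ℝ) (w : ℂ) {a s : ℝ} (ha : 0 < a) (hs : 0 < s) (z : ℂ) :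
    Real.exp (ph p v w a s z) = Real.exp (-(2 / p * v z)) *
      ((‖z - w‖ ^ 2 + a ^ 2) * (‖z - w‖ ^ 2 + s ^ 2) ^ 2) := by
  unfold ph
  rw [Real.exp_add, Real.exp_add, exp_lg w ha, mul_comm 2 (lg w s z),
    show Real.exp (lg w s z * 2) = (‖z - w‖ ^ 2 + s ^ 2) ^ 2 from by
      rw [← exp_lg w hs, ← Real.exp_nat_mul]; congr 1; push_cast; ring]
  congr 2
  ring

lemma exp_neg_ph (p : ℝ) (v : ℂ → ℝ) (w : ℂ) {a s : ℝ} (ha : 0 < a) (hs : 0 < s) (z : ℂ) :
    Real.exp (-ph p v w a s z) = Real.exp (2 / p * v z) /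
      ((‖z - w‖ ^ 2 + a ^ 2) * (‖z - w‖ ^ 2 + s ^ 2) ^ 2) := by
  rw [Real.exp_neg, exp_ph p v w ha hs, mul_inv, Real.exp_neg, inv_inv]
  rfl

lemma contDiffOn_ph {p : ℝ} {v : ℂ → ℝ} (hv : C2S v) (w : ℂ) {a s : ℝ} (ha : 0 < a)
    (hs : 0 < s) : ContDiffOn ℝ 2 (ph p v w a s) uhp := by
  unfold ph
  have h1 : ContDiff ℝ 2 (lg w a) := contDiff_lg w ha 2
  have h2 : ContDiff ℝ 2 (lg w s) := contDiff_lg w hs 2
  exact (contDiffOn_const.mul hv.1).add (h1.add (contDiff_const.mul h2)).contDiffOn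

lemma laplacian_ph {p : ℝ} {v : ℂ → ℝ} (hv : C2S v) (w : ℂ) {a s : ℝ} (ha : 0 < a)
    (hs : 0 < s) {z : ℂ} (hz : z ∈ uhp) : Laplacian.laplacian (ph p v w a s) z =
      -(2 / p) * Laplacian.laplacian v z + (4 * a ^ 2 / (‖z - w‖ ^ 2 + a ^ 2) ^ 2 +
        2 * (4 * s ^ 2 / (‖z - w‖ ^ 2 + s ^ 2) ^ 2)) := by
  have h0 : ContDiffAt ℝ 2 v z := hv.1.contDiffAt (isOpen_uhp.mem_nhds hz)
  have h1 : ContDiffAt ℝ 2 (lg w a) z := (contDiff_lg w ha 2).contDiffAt
  have h2 : ContDiffAt ℝ 2 (lg w s) z := (contDiff_lg w hs 2).contDiffAt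
  have h3 : ContDiffAt ℝ 2 (-(2 / p) • v) z := contDiffAt_const.smul h0
  have h4 : ContDiffAt ℝ 2 ((2 : ℝ) • lg w s) z := contDiffAt_const.smul h2
  have e1 : ph p v w a s = (-(2 / p)) • v + (lg w a + (2 : ℝ) • lg w s) := by
    funext z; simp [ph]
  have h5 : ContDiffAt ℝ 2 (lg w a + (2 : ℝ) • lg w s) z := h1.add h4
  rw [e1, h3.laplacian_add h5, h1.laplacian_add h4,
    InnerProductSpace.laplacian_smul _ h0, InnerProductSpace.laplacian_smul _ h2,
    laplacian_lg w ha, laplacian_lg w hs]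
  simp

lemma laplacian_ph_nonneg {p : ℝ} (hp : 0 < p) {v : ℂ → ℝ} (hv : C2S v) (w : ℂ) {a s : ℝ}
    (ha : 0 < a) (hs : 0 < s) {z : ℂ} (hz : z ∈ uhp) :
    0 ≤ Laplacian.laplacian (ph p v w a s) z := by
  rw [laplacian_ph hv w ha hs hz]
  have h1 := hv.2 z hz
  have h2 : 0 ≤ -(2 / p) * Laplacian.laplacian v z :=
    mul_nonneg_of_nonpos_of_nonpos (by
      have : 0 < 2 / p := by positivity
      linarith) h1
  positivity

lemma laplacian_ph_ge {p : ℝ} (hp : 0 < p) {v : ℂ → ℝ} (hv : C2S v) (w : ℂ) {a s : ℝ}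
    (ha : 0 < a) (hs : 0 < s) {z : ℂ} (hz : z ∈ uhp) (hzw : ‖z - w‖ ≤ s / 2) :
    4 * (1 / s ^ 2) ≤ Laplacian.laplacian (ph p v w a s) z := by
  rw [laplacian_ph hv w ha hs hz]
  have h1 := hv.2 z hz
  have h2 : 0 ≤ -(2 / p) * Laplacian.laplacian v z :=
    mul_nonneg_of_nonpos_of_nonpos (by
      have : 0 < 2 / p := by positivity
      linarith) h1
  have h3 : 0 ≤ 4 * a ^ 2 / (‖z - w‖ ^ 2 + a ^ 2) ^ 2 := by positivity
  have h4 : 4 * (1 / s ^ 2) ≤ 2 * (4 * s ^ 2 / (‖z - w‖ ^ 2 + s ^ 2) ^ 2) := by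
    have h5 : ‖z - w‖ ^ 2 + s ^ 2 ≤ 5 / 4 * s ^ 2 := by
      have : ‖z - w‖ ^ 2 ≤ (s / 2) ^ 2 := by gcongr
      nlinarith
    have h6 : (‖z - w‖ ^ 2 + s ^ 2) ^ 2 ≤ 2 * s ^ 4 := by
      calc _ ≤ (5 / 4 * s ^ 2) ^ 2 := by gcongr
        _ ≤ 2 * s ^ 4 := by nlinarith [pow_pos hs 4]
    have h7 : 2 * (4 * s ^ 2 / (2 * s ^ 4)) ≤ 2 * (4 * s ^ 2 / (‖z - w‖ ^ 2 + s ^ 2) ^ 2) := by
      gcongr
    refine le_trans (le_of_eq ?_) h7
    field_simp
  linarith

lemma dbar_chi_zero {w : ℂ} {s : ℝ} (hs : 0 < s) {z : ℂ} (hz : ‖z - w‖ < s / 4) :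
    dbar (chi w s) z = 0 := by
  have h1 : chi w s =ᶠ[𝓝 z] fun _ => (1 : ℂ) := by
    have h2 : ball w (s / 4) ∈ 𝓝 z := isOpen_ball.mem_nhds (by
      rw [mem_ball, dist_eq_norm]; exact hz)
    filter_upwards [h2] with y hy
    rw [mem_ball, dist_eq_norm] at hy
    exact chi_one hs hy.le
  have h3 : fderiv ℝ (chi w s) z = 0 := by
    rw [h1.fderiv_eq]; simp
  simp [dbar, h3]

/-- The estimate of the right hand side. -/
lemma rhs_le {p Cb M0 : ℝ} (hp : 0 < p) (hM : ∀ z, ‖dbar psi z‖ ≤ M0) {v : ℂ → ℝ} {w : ℂ}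
    {a s : ℝ} (ha : 0 < a) (hs : 0 < s) (hsw : s / 2 < w.im)
    (hup : ∀ z ∈ ball w s, v z ≤ v w + Cb) :
    1 / (1 / s ^ 2) * ∫ z in uhp, ‖dbar (chi w s) z‖ ^ 2 * Real.exp (-ph p v w a s z) ≤
      4 * Real.pi * M0 ^ 2 * Real.exp (2 / p * Cb) * Real.exp (2 / p * v w) / s ^ 4 := by
  have hsub : closedBall w (s / 2) ⊆ uhp := ball_sub_uhp hsw
  have hM0 : 0 ≤ M0 := (norm_nonneg _).trans (hM 0)
  have e1 : ∫ z in uhp, ‖dbar (chi w s) z‖ ^ 2 * Real.exp (-ph p v w a s z) =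
      ∫ z in closedBall w (s / 2), ‖dbar (chi w s) z‖ ^ 2 * Real.exp (-ph p v w a s z) := by
    refine setIntegral_eq_of_subset_of_forall_sdiff_eq_zero isOpen_uhp.measurableSet hsub ?_
    intro z hz
    have h1 : z ∉ tsupport (chi w s) := fun h => hz.2 (tsupport_chi w hs h)
    rw [dbar_zero h1]; simp
  have h2 : ∀ z ∈ closedBall w (s / 2), ‖‖dbar (chi w s) z‖ ^ 2 * Real.exp (-ph p v w a s z)‖ ≤
      (M0 / s) ^ 2 * (Real.exp (2 / p * (v w + Cb)) * 16 / s ^ 6) := by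
    intro z hz
    have hz' : ‖z - w‖ ≤ s / 2 := by simpa [dist_eq_norm] using hz
    rw [Real.norm_of_nonneg (by positivity)]
    by_cases h3 : ‖z - w‖ < s / 4
    · rw [dbar_chi_zero hs h3]; simp; positivity
    · have h3' : s / 4 ≤ ‖z - w‖ := not_lt.mp h3
      have h4 : Real.exp (-ph p v w a s z) ≤ Real.exp (2 / p * (v w + Cb)) * 16 / s ^ 6 := by
        rw [exp_neg_ph p v w ha hs]
        have h5 : v z ≤ v w + Cb := hup z (by
          rw [mem_ball, dist_eq_norm]; linarith)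
        have h6 : s ^ 2 / 16 ≤ ‖z - w‖ ^ 2 + a ^ 2 := by
          have : (s / 4) ^ 2 ≤ ‖z - w‖ ^ 2 := by gcongr
          nlinarith [sq_nonneg a]
        have h7 : s ^ 4 ≤ (‖z - w‖ ^ 2 + s ^ 2) ^ 2 := by
          have h8 : s ^ 2 ≤ ‖z - w‖ ^ 2 + s ^ 2 := by nlinarith [sq_nonneg ‖z - w‖]
          calc s ^ 4 = (s ^ 2) ^ 2 := by ring
            _ ≤ _ := by gcongr
        calc Real.exp (2 / p * v z) / ((‖z - w‖ ^ 2 + a ^ 2) * (‖z - w‖ ^ 2 + s ^ 2) ^ 2)
            ≤ Real.exp (2 / p * (v w + Cb)) / (s ^ 2 / 16 * s ^ 4) := by gcongr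
          _ = _ := by field_simp
      have h9 := dbar_chi_le hM (w := w) hs z
      gcongr
  have h3 := norm_setIntegral_le_of_norm_le_const (μ := volume)
    (isCompact_closedBall w (s / 2)).measure_lt_top h2
  have e2 : volume.real (closedBall w (s / 2)) = Real.pi * (s / 2) ^ 2 := by
    rw [← vol_ball w (by positivity : 0 < s / 2), Measure.real, Measure.real,
      Complex.volume_closedBall, Complex.volume_ball]
  rw [e2] at h3
  have h4 := (Real.le_norm_self _).trans h3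
  rw [e1]
  have e3 : (1 : ℝ) / (1 / s ^ 2) = s ^ 2 := by simp
  rw [e3]
  calc _ ≤ s ^ 2 * ((M0 / s) ^ 2 * (Real.exp (2 / p * (v w + Cb)) * 16 / s ^ 6) *
        (Real.pi * (s / 2) ^ 2)) := by gcongr
    _ = _ := by
      rw [show 2 / p * (v w + Cb) = 2 / p * Cb + 2 / p * v w from by ring, Real.exp_add]
      field_simp
      ring


/-! ### The solution -/

lemma locInt_of_weight {φ : ℂ → ℝ} (hφ : ContinuousOn φ uhp) {h : ℂ → ℂ}
    (hm : AEStronglyMeasurable h (volume.restrict uhp)) {A : ℝ≥0∞} (hA : A ≠ ∞)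
    (hh : ∫⁻ z in uhp, ENNReal.ofReal (‖h z‖ ^ 2 * Real.exp (-φ z)) ≤ A) :
    LocallyIntegrableOn h uhp := by
  rw [locallyIntegrableOn_iff isOpen_uhp.isLocallyClosed]
  intro k hk hkc
  obtain ⟨C, hC⟩ := hkc.exists_bound_of_continuousOn (hφ.mono hk)
  have hmk : AEStronglyMeasurable h (volume.restrict k) :=
    hm.mono_measure (Measure.restrict_mono hk le_rfl)
  have h1 : IntegrableOn (fun z => ‖h z‖ ^ 2) k := by
    refine ⟨hmk.norm.pow 2, ?_⟩
    rw [hasFiniteIntegral_iff_ofReal (Eventually.of_forall fun _ => by positivity)]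
    have h2 : ∫⁻ z in k, ENNReal.ofReal (‖h z‖ ^ 2) ≤
        ∫⁻ z in k, ENNReal.ofReal (Real.exp C) *
          ENNReal.ofReal (‖h z‖ ^ 2 * Real.exp (-φ z)) := by
      refine setLIntegral_mono' hkc.measurableSet fun z hz => ?_
      rw [← ENNReal.ofReal_mul (Real.exp_pos _).le]
      refine ENNReal.ofReal_le_ofReal ?_
      have h3 : φ z ≤ C := (Real.le_norm_self _).trans (hC z hz)
      have h4 : 1 ≤ Real.exp C * Real.exp (-φ z) := by
        rw [← Real.exp_add]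
        exact Real.one_le_exp (by linarith)
      nlinarith [sq_nonneg ‖h z‖]
    refine h2.trans_lt ?_
    rw [lintegral_const_mul' _ _ ENNReal.ofReal_ne_top]
    refine ENNReal.mul_lt_top ENNReal.ofReal_lt_top ?_
    exact ((lintegral_mono_set hk).trans hh).trans_lt hA.lt_top
  have h2 : IntegrableOn (fun _ : ℂ => (1 : ℝ)) k := by
    rw [integrableOn_const_iff]
    exact Or.inr hkc.measure_lt_top
  refine Integrable.mono' (h1.add h2) hmk (Eventually.of_forall fun z => ?_)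
  simp only [Pi.add_apply]
  nlinarith [sq_nonneg (‖h z‖ - 1), norm_nonneg (h z)]

lemma pair_int {h β : ℂ → ℂ} (hh : LocallyIntegrableOn h uhp) (hβ : ContDiff ℝ 2 β)
    (hβc : HasCompactSupport β) (hβs : tsupport β ⊆ uhp) :
    IntegrableOn (fun z => h z * dbar β z) uhp := by
  have h1 : IntegrableOn h (tsupport β) := hh.integrableOn_compact_subset hβs hβc
  have h2 : Continuous (dbar β) := continuous_dbar (hβ.of_le (by norm_num))
  have h3 : IntegrableOn (fun z => h z * dbar β z) (tsupport β) :=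
    h1.mul_continuousOn h2.continuousOn hβc
  refine h3.of_forall_sdiff_eq_zero isOpen_uhp.measurableSet fun z hz => ?_
  rw [dbar_zero hz.2, mul_zero]

lemma sol (hHorE : StHorE) (hWeyl : StWeyl) {p Cb M0 : ℝ} (hp : 0 < p)
    (hM : ∀ z, ‖dbar psi z‖ ≤ M0) {v : ℂ → ℝ} (hv : C2S v) {w : ℂ}
    {a s : ℝ} (ha : 0 < a) (hs : 0 < s) (hsw : s / 2 < w.im)
    (hup : ∀ z ∈ ball w s, v z ≤ v w + Cb) :
    ∃ G : ℂ → ℂ, DifferentiableOn ℂ G uhp ∧
      ∫⁻ z in uhp, ENNReal.ofReal (‖chi w s z - G z‖ ^ 2 * Real.exp (-ph p v w a s z)) ≤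
        ENNReal.ofReal
          (4 * Real.pi * M0 ^ 2 * Real.exp (2 / p * Cb) * Real.exp (2 / p * v w) / s ^ 4) := by
  have hsub : closedBall w (s / 2) ⊆ uhp := ball_sub_uhp hsw
  have hchi : ContDiff ℝ 2 (chi w s) := contDiff_chi w s
  have hchi1 : ContDiff ℝ 1 (chi w s) := hchi.of_le (by norm_num)
  have htsc : tsupport (chi w s) ⊆ closedBall w (s / 2) := tsupport_chi w hs
  have hts : tsupport (dbar (chi w s)) ⊆ closedBall w (s / 2) := tsupport_dbar.trans htsc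
  obtain ⟨h, hm, hle, hw⟩ := hHorE (ph p v w a s) (dbar (chi w s)) (1 / s ^ 2)
    (contDiffOn_ph hv w ha hs) (fun z hz => laplacian_ph_nonneg hp hv w ha hs hz)
    (continuous_dbar hchi1) (hcs_dbar (hcs_chi w hs)) (hts.trans hsub) (by positivity)
    (fun z hz => laplacian_ph_ge hp hv w ha hs (hsub (hts hz))
      (by simpa [dist_eq_norm] using hts hz))
  have hloc : LocallyIntegrableOn h uhp :=
    locInt_of_weight (contDiffOn_ph hv w ha hs).continuousOn hm ENNReal.ofReal_ne_top hle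
  have hlocc : LocallyIntegrableOn (chi w s) uhp :=
    (hchi.continuous.locallyIntegrable).locallyIntegrableOn uhp
  obtain ⟨G, hG, hae⟩ := hWeyl (chi w s - h) (hlocc.sub hloc) (by
    intro β hβ hβc hβs
    have hβ1 : ContDiff ℝ 1 β := hβ.of_le (by norm_num)
    have e1 : ∀ z, (chi w s - h) z * dbar β z = chi w s z * dbar β z - h z * dbar β z := by
      intro z; simp only [Pi.sub_apply]; ring
    simp only [e1]
    rw [integral_sub (pair_int hlocc hβ hβc hβs) (pair_int hloc hβ hβc hβs), hw β hβ hβc hβs]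
    have e2 : ∫ z in uhp, chi w s z * dbar β z = ∫ z, chi w s z * dbar β z := by
      refine setInt_uhp fun z hz => ?_
      rw [dbar_zero (fun h => hz (hβs h)), mul_zero]
    have e3 : ∫ z in uhp, dbar (chi w s) z * β z = ∫ z, dbar (chi w s) z * β z := by
      refine setInt_uhp fun z hz => ?_
      rw [image_eq_zero_of_notMem_tsupport (fun h => hz (hβs h)), mul_zero]
    rw [e2, e3, parts hchi1 hβ1 (hcs_chi w hs) hβc]
    ring)
  refine ⟨G, hG, ?_⟩
  have e4 : ∫⁻ z in uhp, ENNReal.ofReal (‖chi w s z - G z‖ ^ 2 * Real.exp (-ph p v w a s z)) =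
      ∫⁻ z in uhp, ENNReal.ofReal (‖h z‖ ^ 2 * Real.exp (-ph p v w a s z)) := by
    refine lintegral_congr_ae ?_
    filter_upwards [hae] with z hz
    rw [← hz, Pi.sub_apply, sub_sub_cancel]
  rw [e4]
  exact hle.trans (ENNReal.ofReal_le_ofReal (rhs_le hp hM ha hs hsw hup))


/-! ### The bound at the centre -/

lemma centre (hSubM : StSubM) {p K : ℝ} (hK : 0 ≤ K) {v : ℂ → ℝ} {w : ℂ}
    (hw : w ∈ uhp) {s : ℝ} (hs : 0 < s) (hsw : s / 4 < w.im) (hp : 0 < p)
    (hlow : ∀ z ∈ ball w (s / 4), v w - 1 ≤ v z) {G : ℂ → ℂ} (hG : DifferentiableOn ℂ G uhp)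
    {J : ℕ} (hJ : 1 ≤ J) (hJ' : 2 * K * Real.exp (2 / p) ≤ 3 / 8 * Real.pi * J / 4)
    (hle : ∫⁻ z in uhp, ENNReal.ofReal (‖chi w s z - G z‖ ^ 2 *
      Real.exp (-ph p v w (s / 4 / 2 ^ J) s z)) ≤
        ENNReal.ofReal (K * Real.exp (2 / p * v w) / s ^ 4)) :
    1 / 2 ≤ ‖G w‖ := by
  have ha : 0 < s / 4 / 2 ^ J := by positivity
  have hρ : 0 < s / 4 := by positivity
  have hf : DifferentiableOn ℂ (fun z => 1 - G z) uhp := (differentiableOn_const 1).sub hG
  have h1 := lower hSubM hf hw hρ hsw J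
  set X : ℝ := ∫ z in ball w (s / 4), ‖1 - G z‖ ^ 2 / (‖z - w‖ ^ 2 + (s / 4 / 2 ^ J) ^ 2) with hX
  have hsub : ball w (s / 4) ⊆ uhp := ball_subset_closedBall.trans (ball_sub_uhp hsw)
  have h2 : X ≤ 2 * K * Real.exp (2 / p) := by
    have hi : IntegrableOn (fun z => ‖1 - G z‖ ^ 2 / (‖z - w‖ ^ 2 + (s / 4 / 2 ^ J) ^ 2))
        (ball w (s / 4)) := by
      refine intOn_ball ?_ hsw
      refine (hf.continuousOn.norm.pow 2).div (by fun_prop) (fun z _ => by positivity)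
    have h3 : ENNReal.ofReal X ≤ ENNReal.ofReal (2 * K * Real.exp (2 / p)) := by
      rw [hX, ofReal_integral_eq_lintegral_ofReal hi (Eventually.of_forall fun _ => by positivity)]
      have h4 : ∫⁻ z in ball w (s / 4), ENNReal.ofReal
          (‖1 - G z‖ ^ 2 / (‖z - w‖ ^ 2 + (s / 4 / 2 ^ J) ^ 2)) ≤
          ∫⁻ z in ball w (s / 4), ENNReal.ofReal (2 * s ^ 4 * Real.exp (-(2 / p * (v w - 1)))) *
            ENNReal.ofReal (‖chi w s z - G z‖ ^ 2 *
              Real.exp (-ph p v w (s / 4 / 2 ^ J) s z)) := by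
        refine setLIntegral_mono' measurableSet_ball fun z hz => ?_
        have hz' : ‖z - w‖ < s / 4 := by simpa [dist_eq_norm] using hz
        rw [← ENNReal.ofReal_mul (by positivity)]
        refine ENNReal.ofReal_le_ofReal ?_
        rw [chi_one hs hz'.le, exp_neg_ph p v w ha hs]
        have h5 : (‖z - w‖ ^ 2 + s ^ 2) ^ 2 ≤ 2 * s ^ 4 := by
          have h6 : ‖z - w‖ ^ 2 + s ^ 2 ≤ 17 / 16 * s ^ 2 := by
            have : ‖z - w‖ ^ 2 ≤ (s / 4) ^ 2 := by gcongr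
            nlinarith
          calc _ ≤ (17 / 16 * s ^ 2) ^ 2 := by gcongr
            _ ≤ 2 * s ^ 4 := by nlinarith [pow_pos hs 4]
        have h7 : Real.exp (2 / p * (v w - 1)) ≤ Real.exp (2 / p * v z) := by
          have := hlow z hz
          gcongr
        have h8 : 1 ≤ Real.exp (-(2 / p * (v w - 1))) * Real.exp (2 / p * v z) := by
          rw [Real.exp_neg, ← div_eq_inv_mul, one_le_div (Real.exp_pos _)]
          exact h7
        rw [div_le_iff₀ (by positivity)]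
        have hq : 0 < ‖z - w‖ ^ 2 + (s / 4 / 2 ^ J) ^ 2 := by positivity
        have hq2 : 0 < ‖z - w‖ ^ 2 + s ^ 2 := by positivity
        calc ‖1 - G z‖ ^ 2 = ‖1 - G z‖ ^ 2 * 1 := by ring
          _ ≤ ‖1 - G z‖ ^ 2 * ((2 * s ^ 4 / (‖z - w‖ ^ 2 + s ^ 2) ^ 2) *
              (Real.exp (-(2 / p * (v w - 1))) * Real.exp (2 / p * v z))) := by
            have h9 : 1 ≤ 2 * s ^ 4 / (‖z - w‖ ^ 2 + s ^ 2) ^ 2 := by
              rw [one_le_div (by positivity)]; exact h5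
            gcongr
            exact one_le_mul_of_one_le_of_one_le h9 h8
          _ = _ := by
            field_simp
      refine h4.trans ?_
      rw [lintegral_const_mul' _ _ ENNReal.ofReal_ne_top]
      refine (mul_le_mul_right ((lintegral_mono_set hsub).trans hle) _).trans ?_
      rw [← ENNReal.ofReal_mul (by positivity)]
      refine ENNReal.ofReal_le_ofReal (le_of_eq ?_)
      have e1 : Real.exp (-(2 / p * (v w - 1))) * Real.exp (2 / p * v w) = Real.exp (2 / p) := by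
        rw [← Real.exp_add]; congr 1; ring
      calc _ = 2 * K * (Real.exp (-(2 / p * (v w - 1))) * Real.exp (2 / p * v w)) := by
            field_simp
        _ = _ := by rw [e1]
    exact (ENNReal.ofReal_le_ofReal_iff (by positivity)).mp h3
  have h3 : ‖1 - G w‖ ^ 2 ≤ (1 / 2) ^ 2 := by
    have h4 : 0 < 3 / 8 * Real.pi * J := by
      have : (1 : ℝ) ≤ J := by exact_mod_cast hJ
      positivity
    have h5 : 3 / 8 * Real.pi * J * ‖1 - G w‖ ^ 2 ≤ 3 / 8 * Real.pi * J * (1 / 2) ^ 2 := by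
      refine (h1.trans (h2.trans hJ')).trans (le_of_eq (by ring))
    exact le_of_mul_le_mul_left h5 h4
  have h4 : ‖1 - G w‖ ≤ 1 / 2 := (pow_le_pow_iff_left₀ (norm_nonneg _) (by norm_num)
    (by norm_num)).mp h3
  have h5 : ‖(1 : ℂ)‖ ≤ ‖1 - G w‖ + ‖G w‖ := by
    calc ‖(1 : ℂ)‖ = ‖(1 - G w) + G w‖ := by simp
      _ ≤ _ := norm_add_le _ _
  rw [norm_one] at h5
  linarith

/-! ### The pointwise bound -/

lemma sq_split (x y : ℂ) : ‖y‖ ^ 2 ≤ 2 * ‖x‖ ^ 2 + 2 * ‖x - y‖ ^ 2 := by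
  have h1 : ‖y‖ ≤ ‖x‖ + ‖x - y‖ := by
    calc ‖y‖ = ‖x - (x - y)‖ := by simp
      _ ≤ _ := norm_sub_le _ _
  have h2 : ‖y‖ ^ 2 ≤ (‖x‖ + ‖x - y‖) ^ 2 := by gcongr
  nlinarith [sq_nonneg (‖x‖ - ‖x - y‖)]

lemma pw (hSubM : StSubM) {b p K Cb cb : ℝ} (hb : 0 < b) (hp : 0 < p) (hK : 0 ≤ K)
    (hcb : 0 < cb) (hcb' : cb ≤ 1 / 2)
    {v : ℂ → ℝ} (hmono : MonoC b v) {w : ℂ} {r : ℝ} (hr : 0 < r)
    (hup : ∀ z ∈ ball w (cb * r), v z ≤ v w + Cb) {G : ℂ → ℂ} (hG : DifferentiableOn ℂ G uhp)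
    {a : ℝ} (ha : 0 < a) (ha' : a ≤ cb * r)
    (hle : ∫⁻ z in uhp, ENNReal.ofReal (‖chi w (cb * r) z - G z‖ ^ 2 *
      Real.exp (-ph p v w a (cb * r) z)) ≤
        ENNReal.ofReal (K * Real.exp (2 / p * v w) / (cb * r) ^ 4))
    {z : ℂ} (hz : r ≤ z.im) :
    ‖G z‖ ^ 2 ≤ (2 * Real.exp (2 / p * Cb) +
      16 * K / (Real.pi * (b / (4 * (1 + b))) ^ 2 * cb ^ 4)) *
        (Real.exp (2 / p * (v w - v (z - (r / 4 : ℝ) * I))) * (1 + ‖z - w‖ / r) ^ 6) := by
  set s : ℝ := cb * r with hsdef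
  have hs : 0 < s := by positivity
  have hsr : s ≤ r / 2 := by rw [hsdef]; nlinarith
  set c3 : ℝ := b / (4 * (1 + b)) with hc3
  have hc3pos : 0 < c3 := by positivity
  have hc3lt : c3 < 1 / 4 := by
    rw [hc3, div_lt_iff₀ (by positivity)]; linarith
  set t : ℝ := c3 * r with ht
  have htpos : 0 < t := by positivity
  have htr : t < r / 4 := by rw [ht]; nlinarith
  have hzu : z ∈ uhp := by
    change 0 < z.im
    linarith
  have htz : t < z.im := by linarith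
  have hsub : ball z t ⊆ uhp := ball_subset_closedBall.trans (ball_sub_uhp htz)
  set z0 : ℂ := z - (r / 4 : ℝ) * I with hz0
  have hz0u : z0 ∈ uhp := by
    change 0 < z0.im
    rw [hz0]
    simp only [sub_im, mul_im, ofReal_re, I_im, mul_one, ofReal_im, I_re, mul_zero, add_zero]
    linarith
  set D : ℝ := 1 + ‖z - w‖ / r with hD
  have hD1 : 1 ≤ D := by
    have : 0 ≤ ‖z - w‖ / r := by positivity
    linarith
  set E : ℝ := Real.exp (2 / p * (v w - v z0)) with hE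
  have hEpos : 0 < E := Real.exp_pos _
  have hv0 : ∀ z' ∈ ball z t, v z0 ≤ v z' := by
    intro z' hz'
    have h1 : ‖z' - z‖ < t := by simpa [dist_eq_norm] using hz'
    have h2 : z' - z0 ∈ Co b := by
      change |(z' - z0).re| ≤ b * (z' - z0).im
      have e1 : (z' - z0).re = (z' - z).re := by
        rw [hz0]; simp
      have e2 : (z' - z0).im = (z' - z).im + r / 4 := by
        rw [hz0]; simp; ring
      rw [e1, e2]
      have h3 : |(z' - z).re| ≤ t := (Complex.abs_re_le_norm _).trans h1.le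
      have h4 : |(z' - z).im| ≤ t := (Complex.abs_im_le_norm _).trans h1.le
      have h5 := (abs_le.mp h4).1
      have h6 : t = b * (r / 4 - t) := by
        rw [ht, hc3]; field_simp; ring
      calc |(z' - z).re| ≤ t := h3
        _ = b * (r / 4 - t) := h6
        _ ≤ b * ((z' - z).im + r / 4) := by
          gcongr; linarith
    have h3 := hmono z0 hz0u _ h2
    rwa [add_sub_cancel] at h3
  -- the pointwise estimate on the ball
  have hpt : ∀ z' ∈ ball z t, ‖G z'‖ ^ 2 ≤ 2 * (Real.exp (2 / p * Cb) * E) +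
      (16 * (r ^ 6 * D ^ 6) * Real.exp (-(2 / p * v z0))) *
        (‖chi w s z' - G z'‖ ^ 2 * Real.exp (-ph p v w a s z')) := by
    intro z' hz'
    have h1 : ‖z' - z‖ < t := by simpa [dist_eq_norm] using hz'
    have h2 : ‖chi w s z'‖ ^ 2 ≤ Real.exp (2 / p * Cb) * E := by
      by_cases hc : chi w s z' = 0
      · rw [hc]; simp; positivity
      · have h3 : ‖z' - w‖ < s / 2 := by
          by_contra h
          exact hc (chi_zero hs (not_lt.mp h))
        have h4 : v z' ≤ v w + Cb := hup z' (by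
          rw [mem_ball, dist_eq_norm]; linarith)
        have h5 := hv0 z' hz'
        have h6 : 1 ≤ Real.exp (2 / p * Cb) * E := by
          rw [hE, ← Real.exp_add]
          refine Real.one_le_exp ?_
          have : 0 < 2 / p := by positivity
          have h7 : 0 ≤ 2 / p * (Cb + (v w - v z0)) := by
            refine mul_nonneg this.le (by linarith)
          linarith
        calc ‖chi w s z'‖ ^ 2 ≤ 1 ^ 2 := by
              gcongr; exact chi_le w s z'
          _ ≤ _ := by linarith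
    have h3 : ‖chi w s z' - G z'‖ ^ 2 ≤ (8 * (r ^ 6 * D ^ 6) * Real.exp (-(2 / p * v z0))) *
        (‖chi w s z' - G z'‖ ^ 2 * Real.exp (-ph p v w a s z')) := by
      have h4 : Real.exp (ph p v w a s z') ≤
          8 * (r ^ 6 * D ^ 6) * Real.exp (-(2 / p * v z0)) := by
        rw [exp_ph p v w ha hs]
        have h5 : ‖z' - w‖ ≤ r * D := by
          calc ‖z' - w‖ = ‖(z' - z) + (z - w)‖ := by congr 1; ring
            _ ≤ ‖z' - z‖ + ‖z - w‖ := norm_add_le _ _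
            _ ≤ r + ‖z - w‖ := by linarith
            _ = r * D := by rw [hD]; field_simp
        have hrD : r ≤ r * D := le_mul_of_one_le_right hr.le hD1
        have h6 : ‖z' - w‖ ^ 2 + a ^ 2 ≤ 2 * (r * D) ^ 2 := by
          have i1 : ‖z' - w‖ ^ 2 ≤ (r * D) ^ 2 := by gcongr
          have i2 : a ^ 2 ≤ (r * D) ^ 2 := by
            gcongr
            linarith
          linarith
        have h7 : ‖z' - w‖ ^ 2 + s ^ 2 ≤ 2 * (r * D) ^ 2 := by
          have i1 : ‖z' - w‖ ^ 2 ≤ (r * D) ^ 2 := by gcongr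
          have i2 : s ^ 2 ≤ (r * D) ^ 2 := by
            gcongr
            linarith
          linarith
        have h8 : Real.exp (-(2 / p * v z')) ≤ Real.exp (-(2 / p * v z0)) := by
          have := hv0 z' hz'
          gcongr
        calc _ ≤ Real.exp (-(2 / p * v z0)) * ((2 * (r * D) ^ 2) * (2 * (r * D) ^ 2) ^ 2) := by
              gcongr
          _ = _ := by ring
      have h5 : 1 ≤ 8 * (r ^ 6 * D ^ 6) * Real.exp (-(2 / p * v z0)) *
          Real.exp (-ph p v w a s z') := by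
        calc (1 : ℝ) = Real.exp (ph p v w a s z') * Real.exp (-ph p v w a s z') := by
              rw [← Real.exp_add]; simp
          _ ≤ _ := by gcongr
      calc ‖chi w s z' - G z'‖ ^ 2 = ‖chi w s z' - G z'‖ ^ 2 * 1 := by ring
        _ ≤ ‖chi w s z' - G z'‖ ^ 2 * (8 * (r ^ 6 * D ^ 6) * Real.exp (-(2 / p * v z0)) *
          Real.exp (-ph p v w a s z')) := by gcongr
        _ = _ := by ring
    calc ‖G z'‖ ^ 2 ≤ 2 * ‖chi w s z'‖ ^ 2 + 2 * ‖chi w s z' - G z'‖ ^ 2 := sq_split _ _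
      _ ≤ 2 * (Real.exp (2 / p * Cb) * E) + 2 * ((8 * (r ^ 6 * D ^ 6) *
          Real.exp (-(2 / p * v z0))) *
        (‖chi w s z' - G z'‖ ^ 2 * Real.exp (-ph p v w a s z'))) := by gcongr
      _ = _ := by ring
  have h1 := sq_mean_l hSubM hG hzu htpos htz
  have h2 : ∫⁻ z' in ball z t, ENNReal.ofReal (‖G z'‖ ^ 2) ≤
      ENNReal.ofReal (2 * (Real.exp (2 / p * Cb) * E) * (Real.pi * t ^ 2)) +
      ENNReal.ofReal (16 * (r ^ 6 * D ^ 6) * Real.exp (-(2 / p * v z0)) *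
        (K * Real.exp (2 / p * v w) / s ^ 4)) := by
    calc _ ≤ ∫⁻ z' in ball z t, (ENNReal.ofReal (2 * (Real.exp (2 / p * Cb) * E)) +
          ENNReal.ofReal (16 * (r ^ 6 * D ^ 6) * Real.exp (-(2 / p * v z0))) *
          ENNReal.ofReal (‖chi w s z' - G z'‖ ^ 2 * Real.exp (-ph p v w a s z'))) := by
          refine setLIntegral_mono' measurableSet_ball fun z' hz' => ?_
          rw [← ENNReal.ofReal_mul (by positivity), ← ENNReal.ofReal_add (by positivity)
            (by positivity)]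
          exact ENNReal.ofReal_le_ofReal (hpt z' hz')
      _ = ENNReal.ofReal (2 * (Real.exp (2 / p * Cb) * E)) * volume (ball z t) +
          ENNReal.ofReal (16 * (r ^ 6 * D ^ 6) * Real.exp (-(2 / p * v z0))) *
          ∫⁻ z' in ball z t,
            ENNReal.ofReal (‖chi w s z' - G z'‖ ^ 2 * Real.exp (-ph p v w a s z')) := by
          rw [lintegral_add_left measurable_const, setLIntegral_const,
            lintegral_const_mul' _ _ ENNReal.ofReal_ne_top]
      _ ≤ _ := by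
          refine add_le_add ?_ ?_
          · have e1 : volume (ball z t) = ENNReal.ofReal (Real.pi * t ^ 2) := by
              rw [← vol_ball z htpos, Measure.real, ENNReal.ofReal_toReal measure_ball_lt_top.ne]
            rw [e1, ← ENNReal.ofReal_mul (by positivity)]
          · rw [ENNReal.ofReal_mul (by positivity) (p := 16 * (r ^ 6 * D ^ 6) *
              Real.exp (-(2 / p * v z0)))]
            gcongr
            exact (lintegral_mono_set hsub).trans hle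
  have h3 := h1.trans h2
  rw [← ENNReal.ofReal_add (by positivity) (by positivity),
    ENNReal.ofReal_le_ofReal_iff (by positivity)] at h3
  have e1 : Real.exp (-(2 / p * v z0)) * Real.exp (2 / p * v w) = E := by
    rw [hE, ← Real.exp_add]; congr 1; ring
  have h4 : ‖G z‖ ^ 2 ≤ 2 * Real.exp (2 / p * Cb) * E +
      16 * K / (Real.pi * c3 ^ 2 * cb ^ 4) * (E * D ^ 6) := by
    have h5 : 0 < Real.pi * t ^ 2 := by positivity
    refine le_of_mul_le_mul_left (h3.trans (le_of_eq ?_)) h5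
    have e2 : 16 * (r ^ 6 * D ^ 6) * Real.exp (-(2 / p * v z0)) *
        (K * Real.exp (2 / p * v w) / s ^ 4) = 16 * K * r ^ 6 * D ^ 6 *
        (Real.exp (-(2 / p * v z0)) * Real.exp (2 / p * v w)) / s ^ 4 := by
      field_simp
    rw [e2, e1, ht, hsdef]
    field_simp
  refine h4.trans ?_
  have h6 : E ≤ E * D ^ 6 := le_mul_of_one_le_right hEpos.le (one_le_pow₀ hD1)
  have h7 : 2 * Real.exp (2 / p * Cb) * E ≤ 2 * Real.exp (2 / p * Cb) * (E * D ^ 6) := by
    gcongr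
  linarith


end Hor

theorem stHor (hSubM : StSubM) (hUp : StUp) (hHorE : StHorE) (hWeyl : StWeyl) : StHor := by
  intro b p hb hp
  obtain ⟨cb, Cb, hcb, hcb', -, hup⟩ := hUp b hb
  obtain ⟨M0, hM0, hM⟩ := Hor.exists_M0
  set K : ℝ := 4 * Real.pi * M0 ^ 2 * Real.exp (2 / p * Cb) with hK
  have hKpos : 0 < K := by positivity
  obtain ⟨J0, hJ0⟩ := exists_nat_ge (2 * K * Real.exp (2 / p) / (3 / 8 * Real.pi / 4))
  set J : ℕ := J0 + 1 with hJdef
  have hJ : 1 ≤ J := by omega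
  have hJ' : 2 * K * Real.exp (2 / p) ≤ 3 / 8 * Real.pi * J / 4 := by
    rw [div_le_iff₀ (by positivity)] at hJ0
    have h1 : (J0 : ℝ) ≤ J := by rw [hJdef]; push_cast; linarith
    have h2 : (J0 : ℝ) * (3 / 8 * Real.pi / 4) ≤ J * (3 / 8 * Real.pi / 4) := by gcongr
    linarith
  set K2 : ℝ := 2 * Real.exp (2 / p * Cb) +
    16 * K / (Real.pi * (b / (4 * (1 + b))) ^ 2 * cb ^ 4) with hK2
  have hK2pos : 0 < K2 := by positivity
  refine ⟨max 1 ((4 * K2) ^ (p / 2)), 3 * p, le_max_left _ _, by positivity, ?_⟩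
  intro v hv hmono hbdd w hw r hr hrw hlow
  have hwpos : 0 < w.im := hw
  have hSH : SH b v := Hor.sh_of hSubM hv hmono hbdd
  have hup' := hup v hSH w hw r hr (by linarith) hlow
  set s : ℝ := cb * r with hsdef
  have hs : 0 < s := by positivity
  have hsr : s ≤ r / 2 := by rw [hsdef]; nlinarith
  set a : ℝ := s / 4 / 2 ^ J with hadef
  have ha : 0 < a := by positivity
  have ha' : a ≤ s := by
    have h1 : (1 : ℝ) ≤ 2 ^ J := one_le_pow₀ (by norm_num)
    rw [hadef]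
    calc s / 4 / 2 ^ J ≤ s / 4 := div_le_self (by positivity) h1
      _ ≤ s := by linarith
  obtain ⟨G, hG, hle⟩ := Hor.sol hHorE hWeyl (Cb := Cb) hp hM hv ha hs (by linarith) hup'
  rw [← hK] at hle
  have hGw : 1 / 2 ≤ ‖G w‖ := Hor.centre hSubM hKpos.le hw hs (by linarith) hp
    (fun z hz => hlow z (ball_subset_ball (by linarith) hz)) hG hJ hJ' hle
  have hGw0 : G w ≠ 0 := by
    intro h; rw [h, norm_zero] at hGw; linarith
  refine ⟨fun z => G z / G w, hG.div_const _, div_self hGw0, ?_⟩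
  intro z hz
  have h1 := Hor.pw hSubM hb hp hKpos.le hcb hcb' hmono hr hup' hG ha ha' hle hz
  rw [← hK2] at h1
  set E : ℝ := v w - v (z - (r / 4 : ℝ) * I) with hE
  set D : ℝ := 1 + ‖z - w‖ / r with hD
  have hD1 : 0 < D := by positivity
  have h2 : ‖G z / G w‖ ^ 2 ≤ 4 * K2 * (Real.exp (2 / p * E) * D ^ 6) := by
    rw [norm_div, div_pow, div_le_iff₀ (by positivity)]
    have h3 : (1 / 2 : ℝ) ^ 2 ≤ ‖G w‖ ^ 2 := by gcongr
    calc ‖G z‖ ^ 2 ≤ K2 * (Real.exp (2 / p * E) * D ^ 6) := h1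
      _ = 4 * K2 * (Real.exp (2 / p * E) * D ^ 6) * (1 / 2) ^ 2 := by ring
      _ ≤ _ := by gcongr
  have h3 : ‖G z / G w‖ ^ p = (‖G z / G w‖ ^ 2) ^ (p / 2) := by
    rw [← Real.rpow_natCast, ← Real.rpow_mul (norm_nonneg _)]
    congr 1; push_cast; ring
  have h4 : (Real.exp (2 / p * E)) ^ (p / 2) = Real.exp E := by
    rw [← Real.exp_mul]; congr 1; field_simp
  have h5 : (D ^ 6) ^ (p / 2) = D ^ (3 * p) := by
    rw [← Real.rpow_natCast, ← Real.rpow_mul hD1.le]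
    congr 1; push_cast; ring
  calc ‖G z / G w‖ ^ p = (‖G z / G w‖ ^ 2) ^ (p / 2) := h3
    _ ≤ (4 * K2 * (Real.exp (2 / p * E) * D ^ 6)) ^ (p / 2) := by gcongr
    _ = (4 * K2) ^ (p / 2) * Real.exp E * D ^ (3 * p) := by
      rw [Real.mul_rpow (x := 4 * K2) (by positivity) (by positivity),
        Real.mul_rpow (x := Real.exp (2 / p * E)) (by positivity) (by positivity), h4, h5]
      ring
    _ ≤ max 1 ((4 * K2) ^ (p / 2)) * Real.exp E * D ^ (3 * p) := by
      gcongr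
      exact le_max_right _ _

end Pool.Agent.Work.MP_055a27_an.Wd
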