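import Pool.Agent.Work.MP_055a27_an.Wd.Stmts

/-! Item 13 (HorE): weak solutions of the inhomogeneous Cauchy Riemann equation. -/

set_option autoImplicit false

open MeasureTheory Set Filter Topology Complex Metric
open scoped ENNReal NNReal ComplexConjugate

namespace Pool.Agent.Work.MP_055a27_an.Wd

namespace HorE

theorem isOpen_uhp : IsOpen uhp := isOpen_lt continuous_const Complex.continuous_im

/-- Functions continuous on the half plane and zero off a compact subset. -/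
theorem cont_of {E : Type*} [NormedAddCommGroup E] (f : ℂ → E) (K : Set ℂ) (hK : IsCompact K)
    (hKU : K ⊆ uhp) (hf : ContinuousOn f uhp) (h0 : ∀ z, z ∉ K → f z = 0) :
    Continuous f ∧ HasCompactSupport f := by
  refine ⟨?_, HasCompactSupport.intro hK fun z hz => h0 z hz⟩
  rw [continuous_iff_continuousAt]
  intro z
  by_cases hz : z ∈ uhp
  · exact hf.continuousAt (isOpen_uhp.mem_nhds hz)
  · have hzK : z ∉ K := fun h => hz (hKU h)
    have he : f =ᶠ[𝓝 z] fun _ => 0 := by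
      filter_upwards [hK.isClosed.isOpen_compl.mem_nhds hzK] with w hw
      exact h0 w hw
    exact (continuousAt_const).congr he.symm

/-- the measure -/
noncomputable abbrev μ : Measure ℂ := volume.restrict uhp

/-- the Hilbert space -/
abbrev H : Type := Lp ℂ 2 μ

theorem norm_sq_eq (f : H) : ‖f‖ ^ 2 = ∫ a, ‖f a‖ ^ 2 ∂μ := by
  have h1 : inner ℂ f f = ∫ a, inner ℂ (f a) (f a) ∂μ := L2.inner_def f f
  have h2 : ∫ a, inner ℂ (f a) (f a) ∂μ = ∫ a, ((‖f a‖ ^ 2 : ℝ) : ℂ) ∂μ := by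
    refine integral_congr_ae (ae_of_all _ fun a => ?_)
    simp only [inner_self_eq_norm_sq_to_K]
    norm_cast
  have h3 : ∫ a, ((‖f a‖ ^ 2 : ℝ) : ℂ) ∂μ = ((∫ a, ‖f a‖ ^ 2 ∂μ : ℝ) : ℂ) := integral_ofReal
  have h4 : ((‖f‖ ^ 2 : ℝ) : ℂ) = ((∫ a, ‖f a‖ ^ 2 ∂μ : ℝ) : ℂ) := by
    rw [← h3, ← h2, ← h1, inner_self_eq_norm_sq_to_K]
    push_cast
    rfl
  exact Complex.ofReal_injective h4

/-- the twisted derivative -/
noncomputable def T (φ : ℂ → ℝ) (α : ℂ → ℂ) (z : ℂ) : ℂ :=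
  dzz (fun w => (φ w : ℂ)) z * α z - dzz α z

/-- the weighted twisted derivative -/
noncomputable def Lf (φ : ℂ → ℝ) (α : ℂ → ℂ) (z : ℂ) : ℂ :=
  (Real.exp (-(φ z) / 2) : ℂ) * T φ α z

theorem dzz_zero_off {α : ℂ → ℂ} {z : ℂ} (hz : z ∉ tsupport α) : dzz α z = 0 := by
  unfold dzz
  rw [fderiv_of_notMem_tsupport (𝕜 := ℝ) hz]
  simp

theorem T_zero_off {φ : ℂ → ℝ} {α : ℂ → ℂ} {z : ℂ} (hz : z ∉ tsupport α) : T φ α z = 0 := by
  unfold T
  rw [dzz_zero_off hz, image_eq_zero_of_notMem_tsupport hz]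
  simp

theorem cont_dzz_phi {φ : ℂ → ℝ} (hφ : ContDiffOn ℝ 2 φ uhp) :
    ContinuousOn (fun z => dzz (fun w => (φ w : ℂ)) z) uhp := by
  have h1 : ContDiffOn ℝ 2 (fun w => (φ w : ℂ)) uhp :=
    Complex.ofRealCLM.contDiff.comp_contDiffOn hφ
  have h2 : ContinuousOn (fderiv ℝ (fun w => (φ w : ℂ))) uhp :=
    h1.continuousOn_fderiv_of_isOpen isOpen_uhp (by norm_num)
  unfold dzz
  exact ((h2.clm_apply continuousOn_const).sub
    (continuousOn_const.mul (h2.clm_apply continuousOn_const))).div_const 2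

theorem cont_dzz {α : ℂ → ℂ} (hα : ContDiff ℝ 2 α) : Continuous (dzz α) := by
  have h2 : Continuous (fderiv ℝ α) := hα.continuous_fderiv (by norm_num)
  unfold dzz
  exact ((h2.clm_apply continuous_const).sub
    (continuous_const.mul (h2.clm_apply continuous_const))).div_const 2

theorem cont_T {φ : ℂ → ℝ} (hφ : ContDiffOn ℝ 2 φ uhp) {α : ℂ → ℂ} (hα : ContDiff ℝ 2 α) :
    ContinuousOn (T φ α) uhp :=
  ((cont_dzz_phi hφ).mul hα.continuous.continuousOn).sub (cont_dzz hα).continuousOn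

theorem cont_exp {φ : ℂ → ℝ} (hφ : ContDiffOn ℝ 2 φ uhp) (c : ℝ) :
    ContinuousOn (fun z => Real.exp (c * φ z)) uhp :=
  Real.continuous_exp.comp_continuousOn (continuousOn_const.mul hφ.continuousOn)

theorem Lf_cont {φ : ℂ → ℝ} (hφ : ContDiffOn ℝ 2 φ uhp) {α : ℂ → ℂ} (hα : ContDiff ℝ 2 α)
    (hc : HasCompactSupport α) (hs : tsupport α ⊆ uhp) :
    Continuous (Lf φ α) ∧ HasCompactSupport (Lf φ α) := by
  refine cont_of _ (tsupport α) hc hs ?_ ?_
  · have h := (Complex.continuous_ofReal.comp_continuousOn (cont_exp hφ (-1 / 2))).mul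
      (cont_T hφ hα)
    refine h.congr fun z _ => ?_
    simp only [Lf]
    congr 3
    ring
  · intro z hz
    simp [Lf, T_zero_off hz]

theorem Lf_memLp {φ : ℂ → ℝ} (hφ : ContDiffOn ℝ 2 φ uhp) {α : ℂ → ℂ} (hα : ContDiff ℝ 2 α)
    (hc : HasCompactSupport α) (hs : tsupport α ⊆ uhp) : MemLp (Lf φ α) 2 μ :=
  (Lf_cont hφ hα hc hs).1.memLp_of_hasCompactSupport (Lf_cont hφ hα hc hs).2

/-- the space of test functions -/
def D : Submodule ℂ (ℂ → ℂ) where
  carrier := {α | ContDiff ℝ 2 α ∧ HasCompactSupport α ∧ tsupport α ⊆ uhp}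
  add_mem' := by
    intro a b ha hb
    refine ⟨ha.1.add hb.1, ha.2.1.add hb.2.1, ?_⟩
    exact (tsupport_add a b).trans (union_subset ha.2.2 hb.2.2)
  zero_mem' := by
    refine ⟨contDiff_const, HasCompactSupport.zero, ?_⟩
    simp [tsupport]
  smul_mem' := by
    intro c a ha
    refine ⟨contDiff_const.smul ha.1, ha.2.1.smul_left, ?_⟩
    exact (tsupport_smul_subset_right (fun _ => c) a).trans ha.2.2

theorem dzz_add {a b : ℂ → ℂ} (ha : ContDiff ℝ 2 a) (hb : ContDiff ℝ 2 b) (z : ℂ) :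
    dzz (a + b) z = dzz a z + dzz b z := by
  unfold dzz
  rw [fderiv_add (ha.differentiable (by norm_num) z) (hb.differentiable (by norm_num) z)]
  simp only [add_apply]
  ring

theorem dzz_smul (c : ℂ) {a : ℂ → ℂ} (ha : ContDiff ℝ 2 a) (z : ℂ) :
    dzz (c • a) z = c * dzz a z := by
  unfold dzz
  rw [fderiv_const_smul (ha.differentiable (by norm_num) z)]
  simp only [smul_apply, smul_eq_mul]
  ring

theorem Lf_add (φ : ℂ → ℝ) {a b : ℂ → ℂ} (ha : ContDiff ℝ 2 a) (hb : ContDiff ℝ 2 b) :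
    Lf φ (a + b) = Lf φ a + Lf φ b := by
  funext z
  simp only [Lf, T, Pi.add_apply, dzz_add ha hb]
  ring

theorem Lf_smul (φ : ℂ → ℝ) (c : ℂ) {a : ℂ → ℂ} (ha : ContDiff ℝ 2 a) :
    Lf φ (c • a) = c • Lf φ a := by
  funext z
  simp only [Lf, T, Pi.smul_apply, smul_eq_mul, dzz_smul c ha]
  ring

/-- the operator -/
noncomputable def L {φ : ℂ → ℝ} (hφ : ContDiffOn ℝ 2 φ uhp) : D →ₗ[ℂ] H where
  toFun α := (Lf_memLp hφ α.2.1 α.2.2.1 α.2.2.2).toLp (Lf φ α)
  map_add' := by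
    intro a b
    rw [← MemLp.toLp_add]
    exact MemLp.toLp_congr _ _ (ae_of_all _ fun z => congrFun (Lf_add φ a.2.1 b.2.1) z)
  map_smul' := by
    intro c a
    rw [RingHom.id_apply, ← MemLp.toLp_const_smul]
    exact MemLp.toLp_congr _ _ (ae_of_all _ fun z => congrFun (Lf_smul φ c a.2.1) z)

theorem L_coe {φ : ℂ → ℝ} (hφ : ContDiffOn ℝ 2 φ uhp) (α : D) :
    (L hφ α : ℂ → ℂ) =ᵐ[μ] Lf φ α :=
  MemLp.coeFn_toLp (Lf_memLp hφ α.2.1 α.2.2.1 α.2.2.2)

theorem L_norm_sq {φ : ℂ → ℝ} (hφ : ContDiffOn ℝ 2 φ uhp) (α : D) :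
    ‖L hφ α‖ ^ 2 = ∫ z in uhp, ‖T φ α z‖ ^ 2 * Real.exp (-φ z) := by
  rw [norm_sq_eq]
  refine integral_congr_ae ?_
  filter_upwards [L_coe hφ α] with z hz
  rw [hz]
  simp only [Lf]
  rw [norm_mul, mul_pow, Complex.norm_real, Real.norm_eq_abs, abs_of_pos (Real.exp_pos _),
    ← Real.exp_nat_mul, mul_comm]
  congr 2
  push_cast
  ring

/-- integrability of products with `g` -/
theorem g_int {φ : ℂ → ℝ} (hφ : ContDiffOn ℝ 2 φ uhp) {g a : ℂ → ℂ} (hg : Continuous g)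
    (ha : Continuous a) (hc : HasCompactSupport g) (hs : tsupport g ⊆ uhp) :
    Integrable (fun z => conj (g z) * a z * (Real.exp (-φ z) : ℂ)) μ := by
  have h : Continuous (fun z => conj (g z) * a z * (Real.exp (-φ z) : ℂ)) ∧
      HasCompactSupport (fun z => conj (g z) * a z * (Real.exp (-φ z) : ℂ)) := by
    refine cont_of _ (tsupport g) hc hs ?_ ?_
    · refine ((Complex.continuous_conj.comp hg).mul ha).continuousOn.mul ?_
      refine (Complex.continuous_ofReal.comp_continuousOn (cont_exp hφ (-1))).congr fun z _ => ?_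
      simp
    · intro z hz
      simp [image_eq_zero_of_notMem_tsupport hz]
  exact (h.1.integrable_of_hasCompactSupport h.2).restrict

/-- the functional -/
noncomputable def ell {φ : ℂ → ℝ} (hφ : ContDiffOn ℝ 2 φ uhp) {g : ℂ → ℂ} (hg : Continuous g)
    (hc : HasCompactSupport g) (hs : tsupport g ⊆ uhp) : D →ₗ[ℂ] ℂ where
  toFun α := ∫ z, conj (g z) * (α : ℂ → ℂ) z * (Real.exp (-φ z) : ℂ) ∂μ
  map_add' := by
    intro a b
    rw [← integral_add (g_int hφ hg a.2.1.continuous hc hs) (g_int hφ hg b.2.1.continuous hc hs)]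
    refine integral_congr_ae (ae_of_all _ fun z => ?_)
    simp only [Submodule.coe_add, Pi.add_apply]
    ring
  map_smul' := by
    intro c a
    rw [RingHom.id_apply, smul_eq_mul, ← integral_const_mul]
    refine integral_congr_ae (ae_of_all _ fun z => ?_)
    simp only [Submodule.coe_smul, Pi.smul_apply, smul_eq_mul]
    ring

theorem cont_lap {φ : ℂ → ℝ} (hφ : ContDiffOn ℝ 2 φ uhp) :
    ContinuousOn (Laplacian.laplacian φ) uhp := by
  have h : ContinuousOn (iteratedFDeriv ℝ 2 φ) uhp :=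
    (hφ.continuousOn_iteratedFDerivWithin (m := 2) (by norm_num)
      isOpen_uhp.uniqueDiffOn).congr fun z hz => (iteratedFDerivWithin_of_isOpen 2 isOpen_uhp hz).symm
  rw [InnerProductSpace.laplacian_eq_iteratedFDeriv_complexPlane]
  have h1 : ∀ m : Fin 2 → ℂ, ContinuousOn (fun x => iteratedFDeriv ℝ 2 φ x m) uhp := fun m =>
    (ContinuousMultilinearMap.apply ℝ (fun _ : Fin 2 => ℂ) ℝ m).continuous.comp_continuousOn h
  exact (h1 _).add (h1 _)

/-- the Cauchy Schwarz inequality -/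
theorem cs {A B : ℂ → ℝ} (hA : MemLp A 2 μ) (hB : MemLp B 2 μ) (hA0 : ∀ z, 0 ≤ A z)
    (hB0 : ∀ z, 0 ≤ B z) :
    (∫ z, A z * B z ∂μ) ^ 2 ≤ (∫ z, A z ^ 2 ∂μ) * ∫ z, B z ^ 2 ∂μ := by
  have h := integral_mul_le_Lp_mul_Lq_of_nonneg (μ := μ) Real.HolderConjugate.two_two
    (ae_of_all _ hA0) (ae_of_all _ hB0) (by simpa using hA) (by simpa using hB)
  simp only [Real.rpow_two] at h
  rw [← Real.sqrt_eq_rpow, ← Real.sqrt_eq_rpow] at h
  have h0 : 0 ≤ ∫ z, A z * B z ∂μ := integral_nonneg fun z => mul_nonneg (hA0 z) (hB0 z)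
  calc (∫ z, A z * B z ∂μ) ^ 2
      ≤ (Real.sqrt (∫ z, A z ^ 2 ∂μ) * Real.sqrt (∫ z, B z ^ 2 ∂μ)) ^ 2 :=
        pow_le_pow_left₀ h0 h 2
    _ = (∫ z, A z ^ 2 ∂μ) * ∫ z, B z ^ 2 ∂μ := by
        rw [mul_pow, Real.sq_sqrt (integral_nonneg fun z => sq_nonneg _),
          Real.sq_sqrt (integral_nonneg fun z => sq_nonneg _)]

/-- weighted functions -/
theorem wt_cont {φ : ℂ → ℝ} (hφ : ContDiffOn ℝ 2 φ uhp) {a : ℂ → ℂ} (ha : Continuous a)
    (hc : HasCompactSupport a) (hs : tsupport a ⊆ uhp) :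
    Continuous (fun z => ‖a z‖ * Real.exp (-1 / 2 * φ z)) ∧
      HasCompactSupport (fun z => ‖a z‖ * Real.exp (-1 / 2 * φ z)) := by
  refine cont_of _ (tsupport a) hc hs (ha.norm.continuousOn.mul (cont_exp hφ _)) ?_
  intro z hz
  simp [image_eq_zero_of_notMem_tsupport hz]

theorem wt_sq (x y : ℝ) : (x * Real.exp (-1 / 2 * y)) ^ 2 = x ^ 2 * Real.exp (-y) := by
  rw [mul_pow, ← Real.exp_nat_mul]
  congr 2
  push_cast
  ring

theorem ell_bound (hHorI : StHorI) {φ : ℂ → ℝ} (hφ : ContDiffOn ℝ 2 φ uhp)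
    (hΔ : ∀ z ∈ uhp, 0 ≤ Laplacian.laplacian φ z) {g : ℂ → ℂ} (hg : Continuous g)
    (hc : HasCompactSupport g) (hs : tsupport g ⊆ uhp) {κ : ℝ} (hκ : 0 < κ)
    (hκΔ : ∀ z ∈ tsupport g, 4 * κ ≤ Laplacian.laplacian φ z) (α : D) :
    ‖ell hφ hg hc hs α‖ ^ 2 ≤
      (1 / κ * ∫ z in uhp, ‖g z‖ ^ 2 * Real.exp (-φ z)) * ‖L hφ α‖ ^ 2 := by
  set a : ℂ → ℂ := (α : ℂ → ℂ) with ha
  have hac : ContDiff ℝ 2 a := α.2.1
  have hmt : MeasurableSet (tsupport g) := (isClosed_tsupport g).measurableSet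
  have cA := wt_cont hφ hg hc hs
  have cB := wt_cont hφ hac.continuous α.2.2.1 α.2.2.2
  set A : ℂ → ℝ := fun z => ‖g z‖ * Real.exp (-1 / 2 * φ z) with hA
  set B0 : ℂ → ℝ := fun z => ‖a z‖ * Real.exp (-1 / 2 * φ z) with hB0
  set B : ℂ → ℝ := (tsupport g).indicator B0 with hB
  have mA : MemLp A 2 μ := cA.1.memLp_of_hasCompactSupport cA.2
  have mB0 : MemLp B0 2 μ := cB.1.memLp_of_hasCompactSupport cB.2
  have mB : MemLp B 2 μ := mB0.indicator hmt
  have hB00 : ∀ z, 0 ≤ B0 z := fun z => by positivity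
  have hBn : ∀ z, 0 ≤ B z := fun z => indicator_nonneg (fun w _ => hB00 w) z
  have hAn : ∀ z, 0 ≤ A z := fun z => by positivity
  -- step 1
  have s1 : ‖ell hφ hg hc hs α‖ ≤ ∫ z, A z * B z ∂μ := by
    refine (norm_integral_le_integral_norm _).trans (le_of_eq ?_)
    refine integral_congr_ae (ae_of_all _ fun z => ?_)
    by_cases hz : z ∈ tsupport g
    · simp only [hB, indicator_of_mem hz, hA, hB0, norm_mul, Complex.norm_real,
        Real.norm_eq_abs, abs_of_pos (Real.exp_pos _), RCLike.norm_conj]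
      have : Real.exp (-φ z) = Real.exp (-1 / 2 * φ z) * Real.exp (-1 / 2 * φ z) := by
        rw [← Real.exp_add]
        congr 1
        ring
      rw [this]
      ring
    · simp [hB, indicator_of_notMem hz, hA, image_eq_zero_of_notMem_tsupport hz]
  -- step 2
  have s2 : ∫ z, A z ^ 2 ∂μ = ∫ z in uhp, ‖g z‖ ^ 2 * Real.exp (-φ z) :=
    integral_congr_ae (ae_of_all _ fun z => wt_sq _ _)
  -- step 3
  have cR : Continuous (fun z => Laplacian.laplacian φ z / 4 * ‖a z‖ ^ 2 * Real.exp (-φ z)) ∧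
      HasCompactSupport
        (fun z => Laplacian.laplacian φ z / 4 * ‖a z‖ ^ 2 * Real.exp (-φ z)) := by
    refine cont_of _ (tsupport a) α.2.2.1 α.2.2.2 ?_ ?_
    · refine (((cont_lap hφ).div_const 4).mul
        (hac.continuous.norm.pow 2).continuousOn).mul ?_
      refine (cont_exp hφ (-1)).congr fun z _ => ?_
      simp
    · intro z hz
      simp [image_eq_zero_of_notMem_tsupport hz]
  have s3 : κ * ∫ z, B z ^ 2 ∂μ ≤ ‖L hφ α‖ ^ 2 := by
    rw [L_norm_sq]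
    refine le_trans ?_ (hHorI φ a hφ hac α.2.2.1 α.2.2.2)
    rw [← integral_const_mul]
    refine integral_mono_ae (mB.integrable_sq.const_mul κ)
      (cR.1.integrable_of_hasCompactSupport cR.2).restrict ?_
    filter_upwards [ae_restrict_mem isOpen_uhp.measurableSet] with z hz
    have hp : 0 ≤ ‖a z‖ ^ 2 * Real.exp (-φ z) := by positivity
    by_cases hzg : z ∈ tsupport g
    · simp only [hB, indicator_of_mem hzg, hB0]
      rw [wt_sq, mul_assoc]
      exact mul_le_mul_of_nonneg_right (by linarith [hκΔ z hzg]) hp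
    · simp only [hB, indicator_of_notMem hzg]
      rw [mul_assoc]
      have := hΔ z hz
      simp only [ne_eq, OfNat.ofNat_ne_zero, not_false_eq_true, zero_pow, mul_zero]
      positivity
  have s4 := cs mA mB hAn hBn
  have hX : 0 ≤ ∫ z in uhp, ‖g z‖ ^ 2 * Real.exp (-φ z) :=
    integral_nonneg fun z => by positivity
  calc ‖ell hφ hg hc hs α‖ ^ 2 ≤ (∫ z, A z * B z ∂μ) ^ 2 :=
        pow_le_pow_left₀ (norm_nonneg _) s1 2
    _ ≤ (∫ z, A z ^ 2 ∂μ) * ∫ z, B z ^ 2 ∂μ := s4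
    _ ≤ (∫ z in uhp, ‖g z‖ ^ 2 * Real.exp (-φ z)) * (1 / κ * ‖L hφ α‖ ^ 2) := by
        rw [s2]
        refine mul_le_mul_of_nonneg_left ?_ hX
        rw [one_div, ← div_eq_inv_mul, le_div_iff₀ hκ, mul_comm]
        exact s3
    _ = _ := by ring

/-- Riesz representation on the range of an operator. -/
theorem riesz {V K : Type*} [AddCommGroup V] [Module ℂ V] [NormedAddCommGroup K]
    [InnerProductSpace ℂ K] [CompleteSpace K] (T : V →ₗ[ℂ] K) (l : V →ₗ[ℂ] ℂ) (C : ℝ)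
    (hC : 0 ≤ C) (h : ∀ v, ‖l v‖ ^ 2 ≤ C * ‖T v‖ ^ 2) :
    ∃ k : K, ‖k‖ ^ 2 ≤ C ∧ ∀ v, inner ℂ k (T v) = l v := by
  have h' : ∀ v, ‖l v‖ ≤ Real.sqrt C * ‖T v‖ := by
    intro v
    have h1 := Real.sqrt_le_sqrt (h v)
    rwa [Real.sqrt_sq (norm_nonneg _), Real.sqrt_mul hC, Real.sqrt_sq (norm_nonneg _)] at h1
  have hker : LinearMap.ker T ≤ LinearMap.ker l := by
    intro v hv
    rw [LinearMap.mem_ker] at hv ⊢
    have := h' v
    rw [hv, norm_zero, mul_zero] at this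
    exact norm_le_zero_iff.mp this
  let f0 : LinearMap.range T →ₗ[ℂ] ℂ :=
    ((LinearMap.ker T).liftQ l hker) ∘ₗ (T.quotKerEquivRange.symm : LinearMap.range T →ₗ[ℂ] _)
  have hf0 : ∀ v, f0 ⟨T v, LinearMap.mem_range_self T v⟩ = l v := by
    intro v
    simp only [f0, LinearMap.comp_apply, LinearEquiv.coe_coe]
    rw [LinearMap.quotKerEquivRange_symm_apply_image]
    rfl
  let f : LinearMap.range T →L[ℂ] ℂ := f0.mkContinuous (Real.sqrt C) (by
    rintro ⟨_, v, rfl⟩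
    rw [hf0 v]
    exact h' v)
  obtain ⟨G, hG, hGn⟩ := exists_extension_norm_eq (𝕜 := ℂ) (LinearMap.range T) f
  refine ⟨(InnerProductSpace.toDual ℂ K).symm G, ?_, ?_⟩
  · rw [LinearIsometryEquiv.norm_map, hGn]
    have h1 : ‖f‖ ≤ Real.sqrt C := LinearMap.mkContinuous_norm_le _ (Real.sqrt_nonneg _) _
    have h2 : 0 ≤ ‖f‖ := f.opNorm_nonneg
    have h3 := Real.sq_sqrt hC
    nlinarith [mul_le_mul h1 h1 h2 (Real.sqrt_nonneg C)]
  · intro v
    rw [InnerProductSpace.toDual_symm_apply]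
    have := hG ⟨T v, LinearMap.mem_range_self T v⟩
    rw [this]
    exact hf0 v

/-- the test function attached to `β` -/
noncomputable def al (φ : ℂ → ℝ) (β : ℂ → ℂ) (z : ℂ) : ℂ := conj (β z) * (Real.exp (φ z) : ℂ)

theorem al_off {φ : ℂ → ℝ} {β : ℂ → ℂ} {z : ℂ} (hz : z ∉ tsupport β) : al φ β z = 0 := by
  simp [al, image_eq_zero_of_notMem_tsupport hz]

theorem tsupport_al (φ : ℂ → ℝ) (β : ℂ → ℂ) : tsupport (al φ β) ⊆ tsupport β := by
  refine closure_minimal ?_ (isClosed_tsupport β)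
  intro z hz
  by_contra h
  exact hz (al_off h)

theorem hasF_exp {φ : ℂ → ℝ} (hφ : ContDiffOn ℝ 2 φ uhp) {z : ℂ} (hz : z ∈ uhp) :
    HasFDerivAt (fun w => (Real.exp (φ w) : ℂ))
      ((Real.exp (φ z) : ℂ) • fderiv ℝ (fun w => (φ w : ℂ)) z) z := by
  have h1 : ContDiffOn ℝ 2 (fun w => (φ w : ℂ)) uhp :=
    Complex.ofRealCLM.contDiff.comp_contDiffOn hφ
  have h2 : DifferentiableAt ℝ (fun w => (φ w : ℂ)) z :=
    (h1.contDiffAt (isOpen_uhp.mem_nhds hz)).differentiableAt (by norm_num)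
  have h3 : HasFDerivAt (fun w => Complex.exp (φ w : ℂ))
      (Complex.exp (φ z : ℂ) • fderiv ℝ (fun w => (φ w : ℂ)) z) z :=
    (h2.hasFDerivAt).cexp
  simpa only [Complex.ofReal_exp] using h3

theorem al_contDiff {φ : ℂ → ℝ} (hφ : ContDiffOn ℝ 2 φ uhp) {β : ℂ → ℂ} (hβ : ContDiff ℝ 2 β)
    (hs : tsupport β ⊆ uhp) : ContDiff ℝ 2 (al φ β) := by
  rw [contDiff_iff_contDiffAt]
  intro z
  by_cases hz : z ∈ uhp
  · have h1 : ContDiffAt ℝ 2 (fun w => (Real.exp (φ w) : ℂ)) z :=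
      Complex.ofRealCLM.contDiff.contDiffAt.comp z
        ((Real.contDiff_exp.contDiffAt).comp z (hφ.contDiffAt (isOpen_uhp.mem_nhds hz)))
    have h2 : ContDiffAt ℝ 2 (fun w => conj (β w)) z :=
      Complex.conjCLE.contDiff.contDiffAt.comp z hβ.contDiffAt
    exact h2.mul h1
  · have hz' : z ∉ tsupport β := fun h => hz (hs h)
    have he : al φ β =ᶠ[𝓝 z] fun _ => 0 := by
      filter_upwards [(isClosed_tsupport β).isOpen_compl.mem_nhds hz'] with w hw
      exact al_off hw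
    exact contDiffAt_const.congr_of_eventuallyEq he

theorem T_al {φ : ℂ → ℝ} (hφ : ContDiffOn ℝ 2 φ uhp) {β : ℂ → ℂ} (hβ : ContDiff ℝ 2 β)
    {z : ℂ} (hz : z ∈ uhp) : T φ (al φ β) z = -((Real.exp (φ z) : ℂ) * conj (dbar β z)) := by
  have h1 := hasF_exp hφ hz
  have h2 : HasFDerivAt (fun w => conj (β w))
      ((Complex.conjCLE : ℂ →L[ℝ] ℂ).comp (fderiv ℝ β z)) z :=
    (Complex.conjCLE : ℂ →L[ℝ] ℂ).hasFDerivAt.comp z
      (hβ.differentiable (by norm_num) z).hasFDerivAt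
  have h3 := h2.mul h1
  have h4 : fderiv ℝ (al φ β) z = _ := h3.fderiv
  unfold T dzz dbar
  rw [h4]
  simp only [al, add_apply, smul_apply, ContinuousLinearMap.comp_apply, smul_eq_mul, map_div₀,
    map_add, map_mul, Complex.conj_I, ContinuousLinearEquiv.coe_coe, Complex.conjCLE_apply,
    map_ofNat]
  ring

end HorE

theorem stHorE (hHorI : StHorI) : StHorE := by
  intro φ g κ hφ hΔ hg hc hs hκ hκΔ
  have hX : 0 ≤ ∫ z in uhp, ‖g z‖ ^ 2 * Real.exp (-φ z) :=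
    integral_nonneg fun z => by positivity
  have hC : 0 ≤ 1 / κ * ∫ z in uhp, ‖g z‖ ^ 2 * Real.exp (-φ z) := by positivity
  obtain ⟨k, hk, hkv⟩ := HorE.riesz (HorE.L hφ) (HorE.ell hφ hg hc hs) _ hC
    (HorE.ell_bound hHorI hφ hΔ hg hc hs hκ hκΔ)
  have hmeas : MeasurableSet uhp := HorE.isOpen_uhp.measurableSet
  have hexp : AEStronglyMeasurable (fun z => (Real.exp (1 / 2 * φ z) : ℂ))
      (volume.restrict uhp) :=
    (Complex.continuous_ofReal.comp_continuousOn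
      (HorE.cont_exp hφ (1 / 2))).aestronglyMeasurable hmeas
  have hkm : AEStronglyMeasurable (k : ℂ → ℂ) (volume.restrict uhp) := Lp.aestronglyMeasurable k
  refine ⟨fun z => k z * (Real.exp (1 / 2 * φ z) : ℂ), hkm.mul hexp, ?_, ?_⟩
  · have h1 : ∫⁻ z in uhp, ENNReal.ofReal
        (‖k z * (Real.exp (1 / 2 * φ z) : ℂ)‖ ^ 2 * Real.exp (-φ z)) =
        ∫⁻ z in uhp, ENNReal.ofReal (‖k z‖ ^ 2) := by
      refine lintegral_congr fun z => ?_
      rw [norm_mul, Complex.norm_real, Real.norm_eq_abs, abs_of_pos (Real.exp_pos _), mul_pow,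
        ← Real.exp_nat_mul, mul_assoc, ← Real.exp_add]
      congr 1
      have : ((2 : ℕ) : ℝ) * (1 / 2 * φ z) + -φ z = 0 := by
        push_cast
        ring
      rw [this, Real.exp_zero, mul_one]
    have hint : Integrable (fun z => ‖k z‖ ^ 2) (volume.restrict uhp) :=
      (memLp_two_iff_integrable_sq_norm hkm).1 (Lp.memLp k)
    rw [h1, ← ofReal_integral_eq_lintegral_ofReal hint (ae_of_all _ fun z => sq_nonneg _)]
    rw [HorE.norm_sq_eq] at hk
    exact ENNReal.ofReal_le_ofReal hk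
  · intro β hβ hβc hβs
    have hα : HorE.al φ β ∈ HorE.D := by
      refine ⟨HorE.al_contDiff hφ hβ hβs, ?_, (HorE.tsupport_al φ β).trans hβs⟩
      exact HasCompactSupport.intro hβc fun z hz => HorE.al_off hz
    have h1 := hkv ⟨HorE.al φ β, hα⟩
    rw [L2.inner_def] at h1
    have h2 : ∫ a, inner ℂ (k a) ((HorE.L hφ ⟨HorE.al φ β, hα⟩ : HorE.H) a) ∂HorE.μ =
        ∫ z in uhp, conj (-(k z * (Real.exp (1 / 2 * φ z) : ℂ) * dbar β z)) := by
      refine integral_congr_ae ?_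
      filter_upwards [HorE.L_coe hφ ⟨HorE.al φ β, hα⟩,
        ae_restrict_mem HorE.isOpen_uhp.measurableSet] with z hz hzu
      rw [hz]
      simp only [HorE.Lf]
      rw [HorE.T_al hφ hβ hzu]
      have he : (Real.exp (-(φ z) / 2) : ℂ) * (Real.exp (φ z) : ℂ) =
          (Real.exp (1 / 2 * φ z) : ℂ) := by
        rw [← Complex.ofReal_mul, ← Real.exp_add]
        congr 2
        ring
      rw [RCLike.inner_apply, map_neg, map_mul, map_mul, Complex.conj_ofReal, ← he]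
      ring
    have h3 : HorE.ell hφ hg hc hs ⟨HorE.al φ β, hα⟩ = ∫ z in uhp, conj (g z * β z) := by
      change ∫ z, conj (g z) * HorE.al φ β z * (Real.exp (-φ z) : ℂ) ∂HorE.μ = _
      refine integral_congr_ae (ae_of_all _ fun z => ?_)
      simp only [HorE.al, map_mul]
      have he : (Real.exp (φ z) : ℂ) * (Real.exp (-φ z) : ℂ) = 1 := by
        rw [← Complex.ofReal_mul, ← Real.exp_add]
        simp
      calc conj (g z) * (conj (β z) * (Real.exp (φ z) : ℂ)) * (Real.exp (-φ z) : ℂ)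
          = conj (g z) * conj (β z) * ((Real.exp (φ z) : ℂ) * (Real.exp (-φ z) : ℂ)) := by ring
        _ = conj (g z) * conj (β z) := by rw [he, mul_one]
    rw [h2, h3, integral_conj, integral_conj, integral_neg] at h1
    have h4 := (starRingEnd ℂ).injective h1
    rw [← h4, neg_neg]

end Pool.Agent.Work.MP_055a27_an.Wd
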