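import Pool.Agent.Work.MP_055a27_an.Wd.Stmts

open MeasureTheory Set Filter Topology Complex Metric
open scoped ENNReal NNReal

set_option autoImplicit false

namespace Pool.Agent.Work.MP_055a27_an.Wd

namespace Ksu

lemma inv_one_sub_exp {q : ℝ} (hq : 0 < q) : (1 - Real.exp (-q))⁻¹ ≤ 1 + 1 / q := by
  have h1 : 1 + q ≤ Real.exp q := by linarith [Real.add_one_le_exp q]
  have h2 : Real.exp (-q) ≤ 1 / (1 + q) := by
    rw [Real.exp_neg, ← one_div]
    exact one_div_le_one_div_of_le (by linarith) h1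
  have h3 : q / (1 + q) ≤ 1 - Real.exp (-q) := by
    have : q / (1 + q) = 1 - 1 / (1 + q) := by
      have h4 : (1 + q) ≠ 0 := by linarith
      field_simp
      ring
    linarith
  calc (1 - Real.exp (-q))⁻¹ ≤ (q / (1 + q))⁻¹ := inv_anti₀ (by positivity) h3
    _ = 1 + 1 / q := by
      rw [inv_div]
      field_simp
      ring

/-- sums over integers of an exponential -/
lemma geo (q A β : ℝ) (hq : 0 < q) (Λ : Finset ℤ) (hΛ : ∀ l ∈ Λ, -A ≤ -(l : ℝ) - β) :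
    ∑ l ∈ Λ, Real.exp (-(q * max (-(l : ℝ) - β) 0)) ≤ Real.exp (q * A) * (1 + 1 / q) := by
  set r := Real.exp (-q) with hr
  have hr0 : 0 ≤ r := (Real.exp_pos _).le
  have hr1 : r < 1 := Real.exp_lt_one_iff.2 (by linarith)
  set j : ℤ → ℕ := fun l => (-l + ⌊A - β⌋).toNat with hj
  have hnn : ∀ l ∈ Λ, 0 ≤ -l + ⌊A - β⌋ := by
    intro l hl
    have h1 := hΛ l hl
    have h2 : l ≤ ⌊A - β⌋ := Int.le_floor.2 (by linarith)
    linarith
  have hinj : Set.InjOn j Λ := by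
    intro l hl l' hl' h
    have h1 := hnn l hl
    have h2 := hnn l' hl'
    have h3 : ((j l : ℕ) : ℤ) = ((j l' : ℕ) : ℤ) := by rw [h]
    rw [hj] at h3
    simp only at h3
    rw [Int.toNat_of_nonneg h1, Int.toNat_of_nonneg h2] at h3
    linarith
  have hterm : ∀ l ∈ Λ, Real.exp (-(q * max (-(l : ℝ) - β) 0)) ≤ Real.exp (q * A) * r ^ j l := by
    intro l hl
    have h1 := hnn l hl
    have h3 : ((j l : ℕ) : ℝ) = -(l : ℝ) + (⌊A - β⌋ : ℝ) := by
      have : ((j l : ℕ) : ℤ) = -l + ⌊A - β⌋ := Int.toNat_of_nonneg h1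
      have h4 : (((j l : ℕ) : ℤ) : ℝ) = ((-l + ⌊A - β⌋ : ℤ) : ℝ) := by rw [this]
      push_cast at h4
      exact h4
    have h5 : (⌊A - β⌋ : ℝ) ≤ A - β := Int.floor_le _
    rw [hr, ← Real.exp_nat_mul, ← Real.exp_add]
    apply Real.exp_le_exp.2
    rw [h3]
    have h6 : -(l : ℝ) - β ≤ max (-(l : ℝ) - β) 0 := le_max_left _ _
    nlinarith
  calc ∑ l ∈ Λ, Real.exp (-(q * max (-(l : ℝ) - β) 0))
      ≤ ∑ l ∈ Λ, Real.exp (q * A) * r ^ j l := Finset.sum_le_sum hterm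
    _ = Real.exp (q * A) * ∑ n ∈ Λ.image j, r ^ n := by
        rw [← Finset.mul_sum, Finset.sum_image hinj]
    _ ≤ Real.exp (q * A) * (1 + 1 / q) := by
        refine mul_le_mul_of_nonneg_left ?_ (Real.exp_pos _).le
        calc ∑ n ∈ Λ.image j, r ^ n ≤ ∑' n : ℕ, r ^ n :=
              (summable_geometric_of_lt_one hr0 hr1).sum_le_tsum _ (fun n _ => pow_nonneg hr0 n)
          _ = (1 - r)⁻¹ := tsum_geometric_of_lt_one hr0 hr1
          _ ≤ 1 + 1 / q := inv_one_sub_exp hq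

/-- splitting of the multiplicity -/
lemma count (N n0 NT : ℕ) (d q κ : ℝ) (hN : N ≤ NT) (hκ : 0 < κ) (hq : 0 < q) :
    (N : ℝ≥0∞) * ENNReal.ofReal (Real.exp (-(q * max d 0))) ≤
      (if N = 0 then 0 else
        ENNReal.ofReal ((n0 + 1 + 2 / (κ * q)) * Real.exp (-(q / 2 * max d 0)))) +
      ∑ n ∈ Finset.range NT, if n0 ≤ n ∧ n < N ∧ d ≤ κ * n then 1 else 0 := by
  by_cases hN0 : N = 0
  · subst hN0
    simp
  rw [if_neg hN0]
  set d' := max d 0 with hd'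
  have hd0 : 0 ≤ d' := le_max_right _ _
  set n2 := ⌈d' / κ⌉₊ with hn2
  set F := (Finset.range NT).filter (fun n => n0 ≤ n ∧ n < N ∧ d ≤ κ * n) with hF
  have hsum : (∑ n ∈ Finset.range NT, if n0 ≤ n ∧ n < N ∧ d ≤ κ * n then (1 : ℝ≥0∞) else 0) =
      (F.card : ℝ≥0∞) := by
    rw [hF, Finset.sum_boole]
  rw [hsum]
  have hcard : N ≤ (n0 + n2) + F.card := by
    have h1 : Finset.range N ⊆ Finset.range (n0 + n2) ∪ F := by
      intro n hn
      rw [Finset.mem_range] at hn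
      by_cases h2 : n < n0 + n2
      · exact Finset.mem_union_left _ (Finset.mem_range.2 h2)
      · push Not at h2
        refine Finset.mem_union_right _ ?_
        rw [hF, Finset.mem_filter, Finset.mem_range]
        refine ⟨lt_of_lt_of_le hn hN, by omega, hn, ?_⟩
        have h3 : d' / κ ≤ n2 := Nat.le_ceil _
        have h4 : (n2 : ℝ) ≤ n := by exact_mod_cast (by omega : n2 ≤ n)
        have h5 : d' ≤ κ * n := by
          rw [div_le_iff₀ hκ] at h3
          nlinarith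
        exact (le_max_left _ _).trans h5
    calc N = (Finset.range N).card := (Finset.card_range N).symm
      _ ≤ (Finset.range (n0 + n2) ∪ F).card := Finset.card_le_card h1
      _ ≤ (Finset.range (n0 + n2)).card + F.card := Finset.card_union_le _ _
      _ = _ := by rw [Finset.card_range]
  have hreal : ((n0 + n2 : ℕ) : ℝ) * Real.exp (-(q * d')) ≤
      (n0 + 1 + 2 / (κ * q)) * Real.exp (-(q / 2 * d')) := by
    have h3 : (n2 : ℝ) ≤ d' / κ + 1 := (Nat.ceil_lt_add_one (by positivity)).le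
    have h4 : Real.exp (-(q * d')) = Real.exp (-(q / 2 * d')) * Real.exp (-(q / 2 * d')) := by
      rw [← Real.exp_add]
      congr 1
      ring
    have h5 : (n0 : ℝ) + n2 ≤ (n0 + 1 + 2 / (κ * q)) * Real.exp (q / 2 * d') := by
      have h6 : q / 2 * d' ≤ Real.exp (q / 2 * d') := by
        linarith [Real.add_one_le_exp (q / 2 * d')]
      have h7 : 1 ≤ Real.exp (q / 2 * d') := Real.one_le_exp (by positivity)
      have h8 : d' / κ = 2 / (κ * q) * (q / 2 * d') := by field_simp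
      have h9 : (n0 : ℝ) + 1 ≤ (n0 + 1) * Real.exp (q / 2 * d') :=
        le_mul_of_one_le_right (by positivity) h7
      have h10 : 2 / (κ * q) * (q / 2 * d') ≤ 2 / (κ * q) * Real.exp (q / 2 * d') :=
        mul_le_mul_of_nonneg_left h6 (by positivity)
      linarith
    have h11 : Real.exp (q / 2 * d') * Real.exp (-(q / 2 * d')) = 1 := by
      rw [← Real.exp_add]
      simp
    push_cast
    calc ((n0 : ℝ) + n2) * Real.exp (-(q * d'))
        ≤ ((n0 + 1 + 2 / (κ * q)) * Real.exp (q / 2 * d')) * Real.exp (-(q * d')) :=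
          mul_le_mul_of_nonneg_right h5 (Real.exp_pos _).le
      _ = (n0 + 1 + 2 / (κ * q)) * (Real.exp (q / 2 * d') * Real.exp (-(q / 2 * d'))) *
          Real.exp (-(q / 2 * d')) := by rw [h4]; ring
      _ = _ := by rw [h11, mul_one]
  calc (N : ℝ≥0∞) * ENNReal.ofReal (Real.exp (-(q * d')))
      ≤ (((n0 + n2 : ℕ) : ℝ≥0∞) + (F.card : ℝ≥0∞)) * ENNReal.ofReal (Real.exp (-(q * d'))) := by
        gcongr
        exact_mod_cast hcard
    _ = ((n0 + n2 : ℕ) : ℝ≥0∞) * ENNReal.ofReal (Real.exp (-(q * d'))) +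
        (F.card : ℝ≥0∞) * ENNReal.ofReal (Real.exp (-(q * d'))) := add_mul _ _ _
    _ ≤ _ := by
        refine add_le_add ?_ ?_
        · rw [← ENNReal.ofReal_natCast, ← ENNReal.ofReal_mul (Nat.cast_nonneg _)]
          exact ENNReal.ofReal_le_ofReal hreal
        · calc (F.card : ℝ≥0∞) * ENNReal.ofReal (Real.exp (-(q * d')))
              ≤ (F.card : ℝ≥0∞) * 1 := by
                gcongr
                rw [← ENNReal.ofReal_one]
                exact ENNReal.ofReal_le_ofReal (Real.exp_le_one_iff.2 (by nlinarith))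
            _ = _ := mul_one _

/-- the level of a family of tops -/
lemma lev_spec (L : ℝ) (u : ℂ → ℝ) (t : ℤ × ℤ × ℝ) :
    -(lev L u t : ℝ) ≤ u ((t.2.2 : ℂ) + ((L * (2 : ℝ) ^ t.1 : ℝ) : ℂ) * I) ∧
    u ((t.2.2 : ℂ) + ((L * (2 : ℝ) ^ t.1 : ℝ) : ℂ) * I) < -(lev L u t : ℝ) + 1 := by
  have h1 := Int.le_ceil (-u ((t.2.2 : ℂ) + ((L * (2 : ℝ) ^ t.1 : ℝ) : ℂ) * I))
  have h2 := Int.ceil_lt_add_one (-u ((t.2.2 : ℂ) + ((L * (2 : ℝ) ^ t.1 : ℝ) : ℂ) * I))
  rw [lev]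
  constructor <;> linarith


/-- the points near a top -/
def near (L : ℝ) (m : ℕ) (t : ℤ × ℤ × ℝ) : Set ℝ :=
  {x | |x - t.2.2| < 2 ^ m * (L * (2 : ℝ) ^ t.1)}

/-- the multiplicity -/
noncomputable def mult (L : ℝ) (m : ℕ) (T : Finset (ℤ × ℤ × ℝ)) (x : ℝ) : ℕ :=
  (T.filter fun t => |x - t.2.2| < 2 ^ m * (L * (2 : ℝ) ^ t.1)).card

/-- the exponential factor -/
noncomputable def ef (b : ℝ) (u : ℂ → ℝ) (q : ℝ) (l : ℤ) (x : ℝ) : ℝ≥0∞ :=
  ENNReal.ofReal (Real.exp (-(q * max (-(l : ℝ) - bv b u x) 0)))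

/-- the cost density -/
noncomputable def bf (b : ℝ) (u : ℂ → ℝ) (x : ℝ) : ℝ≥0∞ := ENNReal.ofReal (Real.exp (-bv b u x))

lemma near_meas (L : ℝ) (m : ℕ) (t : ℤ × ℤ × ℝ) : MeasurableSet (near L m t) :=
  measurableSet_lt (by fun_prop) measurable_const

lemma ef_meas {b : ℝ} {u : ℂ → ℝ} (hb : Measurable (bv b u)) (q : ℝ) (l : ℤ) :
    Measurable (ef b u q l) := by
  unfold ef
  fun_prop

lemma bf_meas {b : ℝ} {u : ℂ → ℝ} (hb : Measurable (bv b u)) : Measurable (bf b u) := by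
  unfold bf
  fun_prop

lemma mult_eq (L : ℝ) (m : ℕ) (T : Finset (ℤ × ℤ × ℝ)) (x : ℝ) :
    (mult L m T x : ℝ≥0∞) = ∑ t ∈ T, (near L m t).indicator (fun _ => (1 : ℝ≥0∞)) x := by
  classical
  rw [mult, Finset.card_filter]
  push_cast
  refine Finset.sum_congr rfl fun t _ => ?_
  by_cases h : |x - t.2.2| < 2 ^ m * (L * (2 : ℝ) ^ t.1)
  · rw [if_pos h, Set.indicator_of_mem (show x ∈ near L m t from h)]
  · rw [if_neg h, Set.indicator_of_notMem (show x ∉ near L m t from h)]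

lemma mult_meas (L : ℝ) (m : ℕ) (T : Finset (ℤ × ℤ × ℝ)) : Measurable (mult L m T) := by
  classical
  have h : mult L m T = fun x => ∑ t ∈ T, (near L m t).indicator (fun _ => 1) x := by
    funext x
    rw [mult, Finset.card_filter]
    refine Finset.sum_congr rfl fun t _ => ?_
    by_cases h : |x - t.2.2| < 2 ^ m * (L * (2 : ℝ) ^ t.1)
    · rw [if_pos h, Set.indicator_of_mem (show x ∈ near L m t from h)]
    · rw [if_neg h, Set.indicator_of_notMem (show x ∉ near L m t from h)]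
  rw [h]
  exact Finset.measurable_sum _ fun t _ => measurable_const.indicator (near_meas L m t)

/-- the density of the cost of a top -/
lemma dens_le {k : ℕ} {c γ b L : ℝ} {u : ℂ → ℝ} (hc : 0 < c) (hγ : 0 < γ) (hL : 1 ≤ L)
    (t : ℤ × ℤ × ℝ) (x : ℝ) :
    ENNReal.ofReal (Real.exp (-bv b u x) * Dk k c γ t.2.2 (L * (2 : ℝ) ^ t.1)
      (u ((t.2.2 : ℂ) + ((L * (2 : ℝ) ^ t.1 : ℝ) : ℂ) * I) - bv b u x) x) ≤
    ∑' m : ℕ, ENNReal.ofReal ((((2 : ℝ) ^ k)⁻¹) ^ m) * (near L (m + 1) t).indicator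
      (fun x => ef b u (c * ((2 * (2 : ℝ) ^ γ) ^ (m + 1))⁻¹) (lev L u t) x * bf b u x) x := by
  have hy : 0 < L * (2 : ℝ) ^ t.1 := by positivity
  set y := L * (2 : ℝ) ^ t.1 with hy'
  set r := |x - t.2.2| / y with hr
  have hr0 : 0 ≤ r := by positivity
  obtain ⟨m, hm1, hm2⟩ := exists_nat_pow_near (by linarith : (1 : ℝ) ≤ 1 + r)
    (by norm_num : (1 : ℝ) < 2)
  have hmem : x ∈ near L (m + 1) t := by
    show |x - t.2.2| < 2 ^ (m + 1) * (L * (2 : ℝ) ^ t.1)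
    rw [← hy']
    have h1 : |x - t.2.2| / y < 2 ^ (m + 1) := by
      rw [← hr]
      linarith
    rwa [div_lt_iff₀ hy] at h1
  refine le_trans ?_ (ENNReal.le_tsum m)
  rw [Set.indicator_of_mem hmem, ef, bf, ← ENNReal.ofReal_mul (Real.exp_pos _).le,
    ← ENNReal.ofReal_mul (by positivity)]
  apply ENNReal.ofReal_le_ofReal
  have h1 : (1 + r) ^ (-(k : ℝ)) ≤ (((2 : ℝ) ^ k)⁻¹) ^ m := by
    rw [Real.rpow_neg (by linarith), Real.rpow_natCast, inv_pow]
    apply inv_anti₀ (by positivity)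
    rw [← pow_mul, mul_comm k m, pow_mul]
    exact pow_le_pow_left₀ (by positivity) hm1 k
  have h2 : c * ((2 * (2 : ℝ) ^ γ) ^ (m + 1))⁻¹ ≤ c * (1 + r) ^ (-(γ + 1)) := by
    refine mul_le_mul_of_nonneg_left ?_ hc.le
    have h3 : ((2 * (2 : ℝ) ^ γ) ^ (m + 1))⁻¹ = ((2 : ℝ) ^ (m + 1)) ^ (-(γ + 1)) := by
      rw [Real.rpow_neg (by positivity)]
      congr 1
      rw [← Real.rpow_natCast, ← Real.rpow_natCast 2 (m + 1), ← Real.rpow_mul (by norm_num)]
      have h4 : (2 * (2 : ℝ) ^ γ) = (2 : ℝ) ^ (γ + 1) := by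
        rw [Real.rpow_add (by norm_num), Real.rpow_one, mul_comm]
      rw [h4, ← Real.rpow_mul (by norm_num), mul_comm]
    rw [h3]
    exact Real.rpow_le_rpow_of_nonpos (by linarith) hm2.le (by linarith)
  have h5 := (lev_spec L u t).1
  rw [← hy'] at h5
  have h6 : c * ((2 * (2 : ℝ) ^ γ) ^ (m + 1))⁻¹ * max (-(lev L u t : ℝ) - bv b u x) 0 ≤
      c * (1 + r) ^ (-(γ + 1)) * max (u ((t.2.2 : ℂ) + ((y : ℝ) : ℂ) * I) - bv b u x) 0 := by
    refine mul_le_mul h2 (max_le_max_right _ (by linarith)) (le_max_right _ _) (by positivity)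
  rw [Dk]
  calc Real.exp (-bv b u x) * ((1 + |x - t.2.2| / y) ^ (-(k : ℝ)) *
        Real.exp (-(c * (1 + |x - t.2.2| / y) ^ (-(γ + 1)) *
          max (u ((t.2.2 : ℂ) + ((y : ℝ) : ℂ) * I) - bv b u x) 0)))
      ≤ Real.exp (-bv b u x) * ((((2 : ℝ) ^ k)⁻¹) ^ m *
        Real.exp (-(c * ((2 * (2 : ℝ) ^ γ) ^ (m + 1))⁻¹ *
          max (-(lev L u t : ℝ) - bv b u x) 0))) := by
        refine mul_le_mul_of_nonneg_left ?_ (Real.exp_pos _).le
        refine mul_le_mul h1 ?_ (Real.exp_pos _).le (by positivity)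
        exact Real.exp_le_exp.2 (by linarith)
    _ = _ := by ring

/-- the cost of a top -/
lemma kt_le {k : ℕ} {c γ b L : ℝ} {u : ℂ → ℝ} {U : ℝ → ℝ} (hU : IsWeight U)
    (hβ : Measurable (bv b u)) (hc : 0 < c) (hγ : 0 < γ) (hL : 1 ≤ L) (t : ℤ × ℤ × ℝ) :
    kt k c γ b L u U t ≤ ∑' m : ℕ, ENNReal.ofReal ((((2 : ℝ) ^ k)⁻¹) ^ m) *
      ∫⁻ x in near L (m + 1) t, ef b u (c * ((2 * (2 : ℝ) ^ γ) ^ (m + 1))⁻¹) (lev L u t) x *
        bf b u x ∂(wm U) := by
  rw [kt, kap, lintegral_mul_weight_univ hU]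
  calc _ ≤ ∫⁻ x, ∑' m : ℕ, ENNReal.ofReal ((((2 : ℝ) ^ k)⁻¹) ^ m) *
        (near L (m + 1) t).indicator (fun x => ef b u (c * ((2 * (2 : ℝ) ^ γ) ^ (m + 1))⁻¹)
          (lev L u t) x * bf b u x) x ∂(wm U) :=
        lintegral_mono fun x => dens_le hc hγ hL t x
    _ = _ := by
        rw [lintegral_tsum]
        · refine tsum_congr fun m => ?_
          rw [lintegral_const_mul, lintegral_indicator (near_meas L (m + 1) t)]
          exact ((ef_meas hβ _ _).mul (bf_meas hβ)).indicator (near_meas L (m + 1) t)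
        · intro m
          exact (((((ef_meas hβ _ _).mul (bf_meas hβ)).indicator
            (near_meas L (m + 1) t))).const_mul _).aemeasurable

/-- grouping according to the level -/
lemma group {b L : ℝ} {u : ℂ → ℝ} {U : ℝ → ℝ} (hβ : Measurable (bv b u))
    (T : Finset (ℤ × ℤ × ℝ)) (m : ℕ) (q : ℝ) :
    ∑ t ∈ T, ∫⁻ x in near L m t, ef b u q (lev L u t) x * bf b u x ∂(wm U) =
      ∑ l ∈ T.image (lev L u), ∫⁻ x, (mult L m (T.filter fun t => lev L u t = l) x : ℝ≥0∞) *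
        (ef b u q l x * bf b u x) ∂(wm U) := by
  classical
  rw [← Finset.sum_fiberwise_of_maps_to (s := T) (t := T.image (lev L u)) (g := lev L u)
    (fun t ht => Finset.mem_image_of_mem _ ht)]
  refine Finset.sum_congr rfl fun l _ => ?_
  have h1 : ∀ t ∈ T.filter (fun t => lev L u t = l),
      ∫⁻ x in near L m t, ef b u q (lev L u t) x * bf b u x ∂(wm U) =
      ∫⁻ x, (near L m t).indicator (fun _ => (1 : ℝ≥0∞)) x * (ef b u q l x * bf b u x)
        ∂(wm U) := by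
    intro t ht
    rw [(Finset.mem_filter.1 ht).2, ← lintegral_indicator (near_meas L m t)]
    refine lintegral_congr fun x => ?_
    by_cases hx : x ∈ near L m t
    · rw [Set.indicator_of_mem hx, Set.indicator_of_mem hx, one_mul]
    · rw [Set.indicator_of_notMem hx, Set.indicator_of_notMem hx, zero_mul]
  rw [Finset.sum_congr rfl h1, ← lintegral_finsetSum]
  · refine lintegral_congr fun x => ?_
    rw [mult_eq, Finset.sum_mul]
  · intro t _
    exact (measurable_const.indicator (near_meas L m t)).mul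
      ((ef_meas hβ _ _).mul (bf_meas hβ))


/-- the sum over the levels -/
lemma level_sum {b L : ℝ} {u : ℂ → ℝ} {U : ℝ → ℝ} (hU : IsWeight U) (hβ : Measurable (bv b u))
    (T : Finset (ℤ × ℤ × ℝ)) (m NT n0 : ℕ) (q κ A : ℝ) (hq : 0 < q) (hκ : 0 < κ)
    (hNT : T.card ≤ NT)
    (hA : ∀ l ∈ T.image (lev L u), ∀ x, mult L m (T.filter fun t => lev L u t = l) x ≠ 0 →
      -A ≤ -(l : ℝ) - bv b u x) :
    ∑ l ∈ T.image (lev L u), ∫⁻ x, (mult L m (T.filter fun t => lev L u t = l) x : ℝ≥0∞) *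
      (ef b u q l x * bf b u x) ∂(wm U) ≤
    ENNReal.ofReal ((n0 + 1 + 2 / (κ * q)) * (Real.exp (q / 2 * A) * (1 + 1 / (q / 2)))) *
      XX b u U +
    ∑ n ∈ Finset.range NT, if n0 ≤ n then ∑ l ∈ T.image (lev L u),
      ENNReal.ofReal (Real.exp (l + κ * n)) *
        wm U {x | n < mult L m (T.filter fun t => lev L u t = l) x} else 0 := by
  classical
  set Λ := T.image (lev L u) with hΛ
  set N : ℤ → ℝ → ℕ := fun l x => mult L m (T.filter fun t => lev L u t = l) x with hN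
  have hNm : ∀ l, Measurable (N l) := fun l => mult_meas L m _
  have hset : ∀ (l : ℤ) (n : ℕ), MeasurableSet {x | n < N l x} := fun l n =>
    (hNm l) (measurableSet_Ioi (a := n))
  set S1 := (n0 + 1 + 2 / (κ * q)) * (Real.exp (q / 2 * A) * (1 + 1 / (q / 2))) with hS1
  have hpt : ∀ x, ∑ l ∈ Λ, ((N l x : ℕ) : ℝ≥0∞) * (ef b u q l x * bf b u x) ≤
      ENNReal.ofReal S1 * bf b u x + ∑ n ∈ Finset.range NT, if n0 ≤ n then ∑ l ∈ Λ,
        {x | n < N l x}.indicator (fun _ => ENNReal.ofReal (Real.exp (l + κ * n))) x else 0 := by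
    intro x
    have h1 : ∀ l ∈ Λ, ((N l x : ℕ) : ℝ≥0∞) * (ef b u q l x * bf b u x) ≤
        (if N l x = 0 then 0 else ENNReal.ofReal ((n0 + 1 + 2 / (κ * q)) *
          Real.exp (-(q / 2 * max (-(l : ℝ) - bv b u x) 0)))) * bf b u x +
        ∑ n ∈ Finset.range NT, if n0 ≤ n then {x | n < N l x}.indicator
          (fun _ => ENNReal.ofReal (Real.exp (l + κ * n))) x else 0 := by
      intro l _
      have h2 := count (N l x) n0 NT (-(l : ℝ) - bv b u x) q κ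
        ((Finset.card_filter_le _ _).trans ((Finset.card_filter_le _ _).trans hNT)) hκ hq
      rw [← mul_assoc]
      refine (mul_le_mul_left h2 _).trans ?_
      rw [add_mul]
      refine add_le_add le_rfl ?_
      rw [Finset.sum_mul]
      refine Finset.sum_le_sum fun n _ => ?_
      by_cases h3 : n0 ≤ n ∧ n < N l x ∧ -(l : ℝ) - bv b u x ≤ κ * n
      · rw [if_pos h3, if_pos h3.1, Set.indicator_of_mem (show x ∈ {x | n < N l x} from h3.2.1),
          one_mul, bf]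
        exact ENNReal.ofReal_le_ofReal (Real.exp_le_exp.2 (by linarith [h3.2.2]))
      · rw [if_neg h3, zero_mul]
        exact bot_le
    refine (Finset.sum_le_sum h1).trans ?_
    rw [Finset.sum_add_distrib]
    refine add_le_add ?_ ?_
    · rw [← Finset.sum_mul]
      refine mul_le_mul_left ?_ _
      have h4 : ∑ l ∈ Λ, (if N l x = 0 then (0 : ℝ≥0∞) else
          ENNReal.ofReal ((n0 + 1 + 2 / (κ * q)) *
          Real.exp (-(q / 2 * max (-(l : ℝ) - bv b u x) 0)))) =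
          ∑ l ∈ Λ.filter (fun l => N l x ≠ 0), ENNReal.ofReal ((n0 + 1 + 2 / (κ * q)) *
          Real.exp (-(q / 2 * max (-(l : ℝ) - bv b u x) 0))) := by
        rw [Finset.sum_filter]
        refine Finset.sum_congr rfl fun l _ => ?_
        by_cases h5 : N l x = 0
        · rw [if_pos h5, if_neg (not_not.2 h5)]
        · rw [if_neg h5, if_pos h5]
      rw [h4, ← ENNReal.ofReal_sum_of_nonneg (fun l _ => by positivity)]
      apply ENNReal.ofReal_le_ofReal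
      rw [← Finset.mul_sum, hS1]
      refine mul_le_mul_of_nonneg_left ?_ (by positivity)
      refine geo (q / 2) A (bv b u x) (by linarith) _ ?_
      intro l hl
      rw [Finset.mem_filter] at hl
      exact hA l hl.1 x hl.2
    · rw [Finset.sum_comm]
      refine Finset.sum_le_sum fun n _ => ?_
      by_cases h5 : n0 ≤ n
      · simp only [if_pos h5]
        exact le_rfl
      · simp only [if_neg h5]
        rw [Finset.sum_const_zero]
  have hmeas1 : Measurable (fun x => ENNReal.ofReal S1 * bf b u x) :=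
    (bf_meas hβ).const_mul _
  calc ∑ l ∈ Λ, ∫⁻ x, ((N l x : ℕ) : ℝ≥0∞) * (ef b u q l x * bf b u x) ∂(wm U)
      = ∫⁻ x, ∑ l ∈ Λ, ((N l x : ℕ) : ℝ≥0∞) * (ef b u q l x * bf b u x) ∂(wm U) := by
        rw [lintegral_finsetSum]
        intro l _
        refine Measurable.mul ?_ ((ef_meas hβ _ _).mul (bf_meas hβ))
        exact (measurable_from_top (f := fun n : ℕ => (n : ℝ≥0∞))).comp (hNm l)
    _ ≤ ∫⁻ x, (ENNReal.ofReal S1 * bf b u x + ∑ n ∈ Finset.range NT, if n0 ≤ n then ∑ l ∈ Λ,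
        {x | n < N l x}.indicator (fun _ => ENNReal.ofReal (Real.exp (l + κ * n))) x else 0)
        ∂(wm U) := lintegral_mono hpt
    _ = ENNReal.ofReal S1 * XX b u U + ∑ n ∈ Finset.range NT, if n0 ≤ n then ∑ l ∈ Λ,
        ENNReal.ofReal (Real.exp (l + κ * n)) * wm U {x | n < N l x} else 0 := by
        rw [lintegral_add_left hmeas1, lintegral_const_mul _ (bf_meas hβ)]
        congr 1
        · rw [XX, lintegral_mul_weight_univ hU]
          rfl
        · rw [lintegral_finsetSum]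
          · refine Finset.sum_congr rfl fun n _ => ?_
            by_cases h5 : n0 ≤ n
            · simp only [if_pos h5]
              rw [lintegral_finsetSum]
              · refine Finset.sum_congr rfl fun l _ => ?_
                rw [lintegral_indicator_const (hset l n)]
              · intro l _
                exact measurable_const.indicator (hset l n)
            · simp only [if_neg h5]
              rw [lintegral_zero]
          · intro n _
            by_cases h5 : n0 ≤ n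
            · simp only [if_pos h5]
              exact Finset.measurable_sum _ fun l _ => measurable_const.indicator (hset l n)
            · simp only [if_neg h5]
              exact measurable_const

/-- the mass of a set covered by flat tops -/
lemma cover {lam b M c γ Cw ε L X V : ℝ} {k : ℕ} {u : ℂ → ℝ} {U : ℝ → ℝ} (hCw : 0 < Cw)
    (hε : 0 < ε) (hL : 1 ≤ L) (hlL : 1 ≤ lam * L) (hX : 0 ≤ X)
    (hW : Wp lam b M k c γ Cw ε u U) (S : Set ℝ) (hS : MeasurableSet S)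
    (T' : Finset (ℤ × ℤ × ℝ))
    (h1 : ∀ t ∈ T', t.2.2 ∈ dy t.1 t.2.1 ∧ Fl M u t.2.2 (L * (2 : ℝ) ^ t.1))
    (h2 : S ⊆ ⋃ t ∈ T', dy t.1 t.2.1)
    (h3 : ∀ t ∈ T', u ((t.2.2 : ℂ) + ((L * (2 : ℝ) ^ t.1 : ℝ) : ℂ) * I) ≤ V)
    (h4 : ∀ t ∈ T', volume.real (S ∩ dy t.1 t.2.1) ≤ X * (2 : ℝ) ^ t.1) :
    wm U S ≤ ENNReal.ofReal (Cw * X ^ ε * Real.exp V) * ∑ t ∈ T', kt k c γ b L u U t := by
  have hSU : S ⊆ ⋃ t ∈ T', (S ∩ dy t.1 t.2.1) := by
    intro x hx
    have := h2 hx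
    simp only [mem_iUnion] at this ⊢
    obtain ⟨t, ht, hxt⟩ := this
    exact ⟨t, ht, hx, hxt⟩
  calc wm U S ≤ wm U (⋃ t ∈ T', (S ∩ dy t.1 t.2.1)) := measure_mono hSU
    _ ≤ ∑ t ∈ T', wm U (S ∩ dy t.1 t.2.1) := measure_biUnion_finset_le _ _
    _ ≤ ∑ t ∈ T', ENNReal.ofReal (Cw * X ^ ε * Real.exp V) * kt k c γ b L u U t := by
        refine Finset.sum_le_sum fun t ht => ?_
        obtain ⟨h5, h6⟩ := h1 t ht
        have h2j : (0 : ℝ) < (2 : ℝ) ^ t.1 := by positivity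
        have hy : 0 < L * (2 : ℝ) ^ t.1 := by positivity
        have hmd : MeasurableSet (dy t.1 t.2.1) := measurableSet_Ico
        refine (hW t.2.2 (L * (2 : ℝ) ^ t.1) hy h6 (S ∩ dy t.1 t.2.1) (hS.inter hmd) ?_).trans ?_
        · intro x hx
          have h7 := hx.2
          rw [dy, mem_Ico] at h7 h5
          have h8 : (2 : ℝ) ^ t.1 ≤ lam * (L * (2 : ℝ) ^ t.1) := by
            rw [← mul_assoc]
            exact le_mul_of_one_le_left h2j.le hlL
          constructor <;> nlinarith [h7.1, h7.2, h5.1, h5.2]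
        · rw [kt]
          refine mul_le_mul_left (ENNReal.ofReal_le_ofReal ?_) _
          have h9 : (volume.real (S ∩ dy t.1 t.2.1) / (L * (2 : ℝ) ^ t.1)) ^ ε ≤ X ^ ε := by
            refine Real.rpow_le_rpow (by positivity) ?_ hε.le
            rw [div_le_iff₀ hy]
            calc volume.real (S ∩ dy t.1 t.2.1) ≤ X * (2 : ℝ) ^ t.1 := h4 t ht
              _ ≤ X * (L * (2 : ℝ) ^ t.1) :=
                mul_le_mul_of_nonneg_left (le_mul_of_one_le_left h2j.le hL) hX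
          have h10 := Real.exp_le_exp.2 (h3 t ht)
          refine mul_le_mul (mul_le_mul_of_nonneg_left h9 hCw.le) h10 (Real.exp_pos _).le
            (by positivity)
    _ = _ := by rw [Finset.mul_sum]

/-- the sum over the levels of the costs of the covering tops -/
lemma classes {k : ℕ} {c γ b L M : ℝ} {u : ℂ → ℝ} {U : ℝ → ℝ} {R : ℕ} (Λ : Finset ℤ)
    (T' : ℤ → Finset (ℤ × ℤ × ℝ)) (H : ℝ) (P : ℕ) (hP : H < P) (hP0 : 0 < P) (Z : ℝ≥0∞)
    (h1 : ∀ l ∈ Λ, ∀ t ∈ T' l, -(R : ℤ) ≤ t.1 ∧ t.1 ≤ R ∧ t.2.2 ∈ dy t.1 t.2.1 ∧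
      Fl M u t.2.2 (L * (2 : ℝ) ^ t.1))
    (h2 : ∀ l ∈ Λ, ∀ t ∈ T' l, ∀ t' ∈ T' l, t ≠ t' →
      Disjoint (dy t.1 t.2.1) (dy t'.1 t'.2.1))
    (h3 : ∀ l ∈ Λ, ∀ t ∈ T' l, -(l : ℝ) ≤ u ((t.2.2 : ℂ) + ((L * (2 : ℝ) ^ t.1 : ℝ) : ℂ) * I) ∧
      u ((t.2.2 : ℂ) + ((L * (2 : ℝ) ^ t.1 : ℝ) : ℂ) * I) ≤ -(l : ℝ) + H)
    (hZ : ∀ T'' : Finset (ℤ × ℤ × ℝ), Fam L M R u T'' → ∑ t ∈ T'', kt k c γ b L u U t ≤ Z) :
    ∑ l ∈ Λ, ∑ t ∈ T' l, kt k c γ b L u U t ≤ P * Z := by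
  classical
  have hlev : ∀ l ∈ Λ, ∀ t ∈ T' l, (l : ℝ) - H ≤ lev L u t ∧ (lev L u t : ℝ) ≤ l := by
    intro l hl t ht
    obtain ⟨h4, h5⟩ := h3 l hl t ht
    constructor
    · have := Int.le_ceil (-u ((t.2.2 : ℂ) + ((L * (2 : ℝ) ^ t.1 : ℝ) : ℂ) * I))
      rw [lev]
      linarith
    · have : lev L u t ≤ l := Int.ceil_le.2 (by linarith)
      exact_mod_cast this
  have key : ∀ l ∈ Λ, ∀ l' ∈ Λ, l % (P : ℤ) = l' % (P : ℤ) → ∀ t ∈ T' l, ∀ t' ∈ T' l',
      lev L u t = lev L u t' → l = l' := by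
    intro l hl l' hl' hmod t ht t' ht' hll
    obtain ⟨h4, h5⟩ := hlev l hl t ht
    obtain ⟨h6, h7⟩ := hlev l' hl' t' ht'
    rw [hll] at h4 h5
    have h8 : |l - l'| < (P : ℤ) := by
      have : |(l : ℝ) - l'| < P := by
        rw [abs_lt]
        constructor <;> linarith
      exact_mod_cast this
    have h9 : (P : ℤ) ∣ l - l' := Int.ModEq.dvd (show Int.ModEq (P : ℤ) l' l from hmod.symm)
    have h10 := Int.eq_zero_of_abs_lt_dvd h9 h8
    linarith
  rw [← Finset.sum_fiberwise_of_maps_to (s := Λ) (t := Λ.image (fun l => l % (P : ℤ)))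
    (g := fun l => l % (P : ℤ)) (fun l hl => Finset.mem_image_of_mem _ hl)]
  have hcard : (Λ.image (fun l => l % (P : ℤ))).card ≤ P := by
    have h4 : Λ.image (fun l => l % (P : ℤ)) ⊆ Finset.Ico (0 : ℤ) P := by
      intro r hr
      obtain ⟨l, _, rfl⟩ := Finset.mem_image.1 hr
      have hP' : (0 : ℤ) < P := by exact_mod_cast hP0
      exact Finset.mem_Ico.2 ⟨Int.emod_nonneg _ hP'.ne', Int.emod_lt_of_pos _ hP'⟩
    calc _ ≤ (Finset.Ico (0 : ℤ) P).card := Finset.card_le_card h4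
      _ = P := by simp
  have hin : ∀ r ∈ Λ.image (fun l => l % (P : ℤ)),
      ∑ l ∈ Λ.filter (fun l => l % (P : ℤ) = r), ∑ t ∈ T' l, kt k c γ b L u U t ≤ Z := by
    intro r _
    rw [← Finset.sum_biUnion]
    · refine hZ _ ⟨?_, ?_⟩
      · intro t ht
        obtain ⟨l, hl, hlt⟩ := Finset.mem_biUnion.1 ht
        exact h1 l (Finset.mem_filter.1 hl).1 t hlt
      · intro t ht t' ht' hne hll
        obtain ⟨l, hl, hlt⟩ := Finset.mem_biUnion.1 ht
        obtain ⟨l', hl', hlt'⟩ := Finset.mem_biUnion.1 ht'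
        rw [Finset.mem_filter] at hl hl'
        have h4 := key l hl.1 l' hl'.1 (hl.2.trans hl'.2.symm) t hlt t' hlt' hll
        subst h4
        exact h2 l hl.1 t hlt t' hlt' hne
    · intro l hl l' hl' hne
      rw [Finset.mem_coe, Finset.mem_filter] at hl hl'
      rw [Function.onFun, Finset.disjoint_left]
      intro t ht ht'
      exact hne (key l hl.1 l' hl'.1 (hl.2.trans hl'.2.symm) t ht t ht' rfl)
  calc _ ≤ ∑ r ∈ Λ.image (fun l => l % (P : ℤ)), Z := Finset.sum_le_sum hin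
    _ = ((Λ.image (fun l => l % (P : ℤ))).card : ℝ≥0∞) * Z := by
        rw [Finset.sum_const, nsmul_eq_mul]
    _ ≤ _ := by
        refine mul_le_mul_left ?_ _
        exact_mod_cast hcard


lemma tail (r : ℝ) (hr0 : 0 ≤ r) (hr1 : r < 1) (NT n0 : ℕ) :
    ∑ n ∈ Finset.range NT, (if n0 ≤ n then r ^ n else 0) ≤ r ^ n0 * (1 - r)⁻¹ := by
  rw [← Finset.sum_filter]
  have h1 : (Finset.range NT).filter (fun n => n0 ≤ n) = Finset.Ico n0 NT := by
    ext n
    simp only [Finset.mem_filter, Finset.mem_range, Finset.mem_Ico]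
    tauto
  rw [h1, Finset.sum_Ico_eq_sum_range]
  simp only [pow_add]
  rw [← Finset.mul_sum]
  refine mul_le_mul_of_nonneg_left ?_ (pow_nonneg hr0 _)
  rw [← tsum_geometric_of_lt_one hr0 hr1]
  exact (summable_geometric_of_lt_one hr0 hr1).sum_le_tsum _ (fun n _ => pow_nonneg hr0 n)

/-- the scalar inequality for the main term -/
lemma scal1 {a c κ0 A0 B : ℝ} (ha : 1 ≤ a) (hc : 0 < c) (hκ : 0 < κ0) (hA : 0 ≤ A0)
    (hB : 0 ≤ B) (m : ℕ) :
    ((⌈B * (8 * a) ^ m⌉₊ : ℝ) + 1 + 2 / (κ0 / 4 ^ (m + 1) * (c * ((2 * a) ^ (m + 1))⁻¹))) *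
      (Real.exp (c * ((2 * a) ^ (m + 1))⁻¹ / 2 * (A0 * a ^ m)) *
        (1 + 1 / (c * ((2 * a) ^ (m + 1))⁻¹ / 2))) ≤
    ((B + 2 + 16 * a / (κ0 * c)) * (Real.exp (c * A0 / 2) * (1 + 4 * a / c))) *
      (16 * a ^ 2) ^ m := by
  have ha0 : 0 < a := by linarith
  have h8 : 1 ≤ (8 * a) ^ m := one_le_pow₀ (by linarith)
  have h2 : 1 ≤ (2 * a) ^ m := one_le_pow₀ (by linarith)
  have e1 : 2 / (κ0 / 4 ^ (m + 1) * (c * ((2 * a) ^ (m + 1))⁻¹)) =
      16 * a / (κ0 * c) * (8 * a) ^ m := by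
    have : (8 * a) ^ m = 4 ^ m * (2 * a) ^ m := by
      rw [← mul_pow]
      congr 1
      ring
    rw [this, pow_succ, pow_succ]
    field_simp
    ring
  have e2 : 1 / (c * ((2 * a) ^ (m + 1))⁻¹ / 2) = 4 * a / c * (2 * a) ^ m := by
    rw [pow_succ]
    field_simp
    ring
  have e3 : c * ((2 * a) ^ (m + 1))⁻¹ / 2 * (A0 * a ^ m) ≤ c * A0 / 2 := by
    have h3 : ((2 * a) ^ (m + 1))⁻¹ * a ^ m ≤ 1 := by
      rw [inv_mul_le_iff₀ (by positivity), mul_one]
      calc a ^ m ≤ (2 * a) ^ m := pow_le_pow_left₀ ha0.le (by linarith) m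
        _ ≤ (2 * a) ^ (m + 1) := pow_le_pow_right₀ (by linarith) (Nat.le_succ m)
    calc c * ((2 * a) ^ (m + 1))⁻¹ / 2 * (A0 * a ^ m) =
        c * A0 / 2 * (((2 * a) ^ (m + 1))⁻¹ * a ^ m) := by ring
      _ ≤ c * A0 / 2 * 1 := mul_le_mul_of_nonneg_left h3 (by positivity)
      _ = _ := mul_one _
  rw [e1, e2]
  have e4 : (16 * a ^ 2) ^ m = (8 * a) ^ m * (2 * a) ^ m := by
    rw [← mul_pow]
    congr 1
    ring
  have h4 : (⌈B * (8 * a) ^ m⌉₊ : ℝ) + 1 + 16 * a / (κ0 * c) * (8 * a) ^ m ≤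
      (B + 2 + 16 * a / (κ0 * c)) * (8 * a) ^ m := by
    have h5 := (Nat.ceil_lt_add_one (by positivity : 0 ≤ B * (8 * a) ^ m)).le
    nlinarith
  have h6 : 1 + 4 * a / c * (2 * a) ^ m ≤ (1 + 4 * a / c) * (2 * a) ^ m := by
    nlinarith
  calc _ ≤ ((B + 2 + 16 * a / (κ0 * c)) * (8 * a) ^ m) *
        (Real.exp (c * A0 / 2) * ((1 + 4 * a / c) * (2 * a) ^ m)) := by
        refine mul_le_mul h4 ?_ (by positivity) (by positivity)
        exact mul_le_mul (Real.exp_le_exp.2 e3) h6 (by positivity) (Real.exp_pos _).le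
    _ = _ := by rw [e4]; ring

/-- the scalar inequality for the remainder -/
lemma scal2 {a C1 κ0 D : ℝ} (ha : 1 ≤ a) (hC : 1 ≤ C1) (hκ : 0 < κ0) (hD : 0 < D) :
    ∃ B : ℝ, 0 ≤ B ∧ C1 * (8 * a) ≤ B ∧ ∀ m : ℕ,
      D * Real.exp (C1 * a ^ (m + 1)) * (Real.exp (-(κ0 / 4 ^ (m + 1))) ^ ⌈B * (8 * a) ^ m⌉₊ *
        (1 + 1 / (κ0 / 4 ^ (m + 1)))) * ((⌈C1 * a ^ (m + 1)⌉₊ + 1 : ℕ) : ℝ) ≤ 1 / 4 := by
  have ha0 : 0 < a := by linarith
  set W := 24 * D * (1 + 4 / κ0) * (C1 * a + 2) + 1 with hW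
  have hW0 : 0 < 24 * D * (1 + 4 / κ0) * (C1 * a + 2) := by positivity
  have hW1 : 1 ≤ W := by linarith
  have hlogW : 0 ≤ Real.log W := Real.log_nonneg hW1
  refine ⟨max (C1 * (8 * a)) (4 / κ0 * (C1 * a + 1 + Real.log W)),
    le_max_of_le_left (by positivity), le_max_left _ _, ?_⟩
  intro m
  set B := max (C1 * (8 * a)) (4 / κ0 * (C1 * a + 1 + Real.log W)) with hB
  have hB2 : 4 / κ0 * (C1 * a + 1 + Real.log W) ≤ B := le_max_right _ _
  set s := (2 * a) ^ m with hs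
  have hs1 : 1 ≤ s := one_le_pow₀ (by linarith)
  have has : a ^ m ≤ s := pow_le_pow_left₀ ha0.le (by linarith) m
  have ha1 : 1 ≤ a ^ m := one_le_pow₀ ha
  have h1 : Real.exp (C1 * a ^ (m + 1)) ≤ Real.exp (C1 * a * s) := by
    apply Real.exp_le_exp.2
    rw [pow_succ]
    have : C1 * (a ^ m * a) = C1 * a * a ^ m := by ring
    rw [this]
    exact mul_le_mul_of_nonneg_left has (by positivity)
  have h2 : Real.exp (-(κ0 / 4 ^ (m + 1))) ^ ⌈B * (8 * a) ^ m⌉₊ ≤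
      Real.exp (-((C1 * a + 1 + Real.log W) * s)) := by
    rw [← Real.exp_nat_mul]
    apply Real.exp_le_exp.2
    have h3 := Nat.le_ceil (B * (8 * a) ^ m)
    have h4 : (C1 * a + 1 + Real.log W) * s ≤ κ0 / 4 ^ (m + 1) * (B * (8 * a) ^ m) := by
      have e1 : (8 * a) ^ m = 4 ^ m * s := by
        rw [hs, ← mul_pow]
        congr 1
        ring
      have e2 : κ0 / 4 ^ (m + 1) * (B * (8 * a) ^ m) = κ0 / 4 * B * s := by
        rw [e1, pow_succ]
        field_simp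
      rw [e2]
      refine mul_le_mul_of_nonneg_right ?_ (by linarith)
      calc C1 * a + 1 + Real.log W = κ0 / 4 * (4 / κ0 * (C1 * a + 1 + Real.log W)) := by
            field_simp
        _ ≤ κ0 / 4 * B := mul_le_mul_of_nonneg_left hB2 (by positivity)
    have h5 : κ0 / 4 ^ (m + 1) * (B * (8 * a) ^ m) ≤
        κ0 / 4 ^ (m + 1) * (⌈B * (8 * a) ^ m⌉₊ : ℝ) :=
      mul_le_mul_of_nonneg_left h3 (by positivity)
    linarith
  have h3 : 1 + 1 / (κ0 / 4 ^ (m + 1)) ≤ (1 + 4 / κ0) * s ^ 2 := by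
    have h4 : (4 : ℝ) ^ m ≤ s ^ 2 := by
      rw [hs, ← pow_mul, mul_comm m 2, pow_mul]
      refine pow_le_pow_left₀ (by norm_num) ?_ m
      nlinarith
    have h5 : 1 / (κ0 / 4 ^ (m + 1)) = 4 / κ0 * 4 ^ m := by
      rw [pow_succ]
      field_simp
    rw [h5]
    have h6 : 4 / κ0 * 4 ^ m ≤ 4 / κ0 * s ^ 2 := mul_le_mul_of_nonneg_left h4 (by positivity)
    have h7 : 1 ≤ s ^ 2 := one_le_pow₀ hs1
    linarith
  have h4 : ((⌈C1 * a ^ (m + 1)⌉₊ + 1 : ℕ) : ℝ) ≤ (C1 * a + 2) * s := by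
    have h5 := (Nat.ceil_lt_add_one (by positivity : 0 ≤ C1 * a ^ (m + 1))).le
    push_cast
    have h6 : C1 * a ^ (m + 1) ≤ C1 * a * s := by
      rw [pow_succ]
      have : C1 * (a ^ m * a) = C1 * a * a ^ m := by ring
      rw [this]
      exact mul_le_mul_of_nonneg_left has (by positivity)
    linarith
  have hs3 : s ^ 3 ≤ 6 * Real.exp s := by
    have := Real.pow_div_factorial_le_exp s (by linarith) 3
    have h5 : ((Nat.factorial 3 : ℕ) : ℝ) = 6 := by norm_num [Nat.factorial]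
    rw [h5, div_le_iff₀ (by norm_num)] at this
    linarith
  have hs0 : 0 < s := by linarith
  calc D * Real.exp (C1 * a ^ (m + 1)) * (Real.exp (-(κ0 / 4 ^ (m + 1))) ^ ⌈B * (8 * a) ^ m⌉₊ *
        (1 + 1 / (κ0 / 4 ^ (m + 1)))) * ((⌈C1 * a ^ (m + 1)⌉₊ + 1 : ℕ) : ℝ)
      ≤ D * Real.exp (C1 * a * s) * (Real.exp (-((C1 * a + 1 + Real.log W) * s)) *
        ((1 + 4 / κ0) * s ^ 2)) * ((C1 * a + 2) * s) := by
        refine mul_le_mul ?_ h4 (by positivity) (by positivity)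
        refine mul_le_mul (mul_le_mul_of_nonneg_left h1 hD.le) ?_ (by positivity) (by positivity)
        exact mul_le_mul h2 h3 (by positivity) (Real.exp_pos _).le
    _ = (D * (1 + 4 / κ0) * (C1 * a + 2)) * (s ^ 3 *
        (Real.exp (C1 * a * s) * Real.exp (-((C1 * a + 1 + Real.log W) * s)))) := by ring
    _ ≤ (D * (1 + 4 / κ0) * (C1 * a + 2)) * ((6 * Real.exp s) *
        (Real.exp (C1 * a * s) * Real.exp (-((C1 * a + 1 + Real.log W) * s)))) := by
        refine mul_le_mul_of_nonneg_left ?_ (by positivity)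
        exact mul_le_mul_of_nonneg_right hs3 (by positivity)
    _ = (6 * (D * (1 + 4 / κ0) * (C1 * a + 2))) * (Real.exp s *
        (Real.exp (C1 * a * s) * Real.exp (-((C1 * a + 1 + Real.log W) * s)))) := by ring
    _ = (6 * (D * (1 + 4 / κ0) * (C1 * a + 2))) * Real.exp (-(Real.log W * s)) := by
        rw [← Real.exp_add, ← Real.exp_add]
        congr 2
        ring
    _ ≤ (6 * (D * (1 + 4 / κ0) * (C1 * a + 2))) * Real.exp (-(Real.log W)) := by
        refine mul_le_mul_of_nonneg_left (Real.exp_le_exp.2 ?_) (by positivity)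
        nlinarith
    _ = (6 * (D * (1 + 4 / κ0) * (C1 * a + 2))) / W := by
        rw [Real.exp_neg, Real.exp_log (by linarith)]
        rfl
    _ ≤ 1 / 4 := by
        rw [div_le_div_iff₀ (by linarith) (by norm_num)]
        nlinarith


/-- the estimate for one shell -/
lemma one_level {lam b M γ c Cw ε L c1 C1 κ A q H : ℝ} {k R : ℕ} {u : ℂ → ℝ} {U : ℝ → ℝ}
    (hU : IsWeight U) (hβ : Measurable (bv b u)) (hCw : 0 < Cw) (hε : 0 < ε) (hL : 1 ≤ L)
    (hlL : 1 ≤ lam * L) (hC1 : 1 ≤ C1) (hq : 0 < q) (hκ : 0 < κ)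
    (hW : Wp lam b M k c γ Cw ε u U) (T : Finset (ℤ × ℤ × ℝ)) (m n0 P : ℕ) (hP : H < P)
    (hP0 : 0 < P) (hκ2 : ε * (c1 / 4 ^ m) = 2 * κ)
    (hA : ∀ l ∈ T.image (lev L u), ∀ x, mult L m (T.filter fun t => lev L u t = l) x ≠ 0 →
      -A ≤ -(l : ℝ) - bv b u x)
    (hcv : ∀ l ∈ T.image (lev L u), ∀ n : ℕ, n0 ≤ n → ∃ T' : Finset (ℤ × ℤ × ℝ),
      (∀ t ∈ T', -(R : ℤ) ≤ t.1 ∧ t.1 ≤ R ∧ t.2.2 ∈ dy t.1 t.2.1 ∧
        Fl M u t.2.2 (L * (2 : ℝ) ^ t.1)) ∧
      (∀ t ∈ T', ∀ t' ∈ T', t ≠ t' → Disjoint (dy t.1 t.2.1) (dy t'.1 t'.2.1)) ∧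
      {x : ℝ | n < mult L m (T.filter fun t => lev L u t = l) x} ⊆ ⋃ t ∈ T', dy t.1 t.2.1 ∧
      (∀ t ∈ T', -(l : ℝ) ≤ u ((t.2.2 : ℂ) + ((L * (2 : ℝ) ^ t.1 : ℝ) : ℂ) * I) ∧
        u ((t.2.2 : ℂ) + ((L * (2 : ℝ) ^ t.1 : ℝ) : ℂ) * I) ≤ -(l : ℝ) + H) ∧
      ∀ t ∈ T', volume.real ({x : ℝ | n < mult L m (T.filter fun t => lev L u t = l) x} ∩
        dy t.1 t.2.1) ≤ C1 * Real.exp (-(c1 * n / 4 ^ m)) * (2 : ℝ) ^ t.1)
    (Z : ℝ≥0∞)
    (hZ : ∀ T'' : Finset (ℤ × ℤ × ℝ), Fam L M R u T'' → ∑ t ∈ T'', kt k c γ b L u U t ≤ Z) :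
    ∑ t ∈ T, ∫⁻ x in near L m t, ef b u q (lev L u t) x * bf b u x ∂(wm U) ≤
      ENNReal.ofReal ((n0 + 1 + 2 / (κ * q)) * (Real.exp (q / 2 * A) * (1 + 1 / (q / 2)))) *
        XX b u U +
      ENNReal.ofReal (Cw * C1 ^ ε * Real.exp H * (Real.exp (-κ) ^ n0 * (1 + 1 / κ)) * (P : ℝ)) *
        Z := by
  rw [group hβ T m q]
  refine (level_sum hU hβ T m T.card n0 q κ A hq hκ le_rfl hA).trans ?_
  refine add_le_add le_rfl ?_
  have hC10 : 0 < C1 := by linarith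
  have hD : 0 < Cw * C1 ^ ε * Real.exp H := by positivity
  set D := Cw * C1 ^ ε * Real.exp H with hDdef
  set r := Real.exp (-κ) with hr
  have hr0 : 0 ≤ r := (Real.exp_pos _).le
  have hr1 : r < 1 := Real.exp_lt_one_iff.2 (by linarith)
  have hstep : ∀ n ∈ Finset.range T.card,
      (if n0 ≤ n then ∑ l ∈ T.image (lev L u), ENNReal.ofReal (Real.exp (l + κ * n)) *
        wm U {x | n < mult L m (T.filter fun t => lev L u t = l) x} else 0) ≤
      ENNReal.ofReal (D * (if n0 ≤ n then r ^ n else 0)) * (P * Z) := by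
    intro n _
    by_cases hn : n0 ≤ n
    · rw [if_pos hn, if_pos hn]
      have hch : ∀ l : ℤ, ∃ T' : Finset (ℤ × ℤ × ℝ), l ∈ T.image (lev L u) →
          (∀ t ∈ T', -(R : ℤ) ≤ t.1 ∧ t.1 ≤ R ∧ t.2.2 ∈ dy t.1 t.2.1 ∧
            Fl M u t.2.2 (L * (2 : ℝ) ^ t.1)) ∧
          (∀ t ∈ T', ∀ t' ∈ T', t ≠ t' → Disjoint (dy t.1 t.2.1) (dy t'.1 t'.2.1)) ∧
          {x : ℝ | n < mult L m (T.filter fun t => lev L u t = l) x} ⊆ ⋃ t ∈ T', dy t.1 t.2.1 ∧
          (∀ t ∈ T', -(l : ℝ) ≤ u ((t.2.2 : ℂ) + ((L * (2 : ℝ) ^ t.1 : ℝ) : ℂ) * I) ∧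
            u ((t.2.2 : ℂ) + ((L * (2 : ℝ) ^ t.1 : ℝ) : ℂ) * I) ≤ -(l : ℝ) + H) ∧
          ∀ t ∈ T', volume.real ({x : ℝ | n < mult L m (T.filter fun t => lev L u t = l) x} ∩
            dy t.1 t.2.1) ≤ C1 * Real.exp (-(c1 * n / 4 ^ m)) * (2 : ℝ) ^ t.1 := by
        intro l
        by_cases hl : l ∈ T.image (lev L u)
        · obtain ⟨T', h⟩ := hcv l hl n hn
          exact ⟨T', fun _ => h⟩
        · exact ⟨∅, fun h => absurd h hl⟩
      choose T' hT' using hch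
      have hl : ∀ l ∈ T.image (lev L u), ENNReal.ofReal (Real.exp (l + κ * n)) *
          wm U {x | n < mult L m (T.filter fun t => lev L u t = l) x} ≤
          ENNReal.ofReal (D * r ^ n) * ∑ t ∈ T' l, kt k c γ b L u U t := by
        intro l hl
        obtain ⟨h1, h2, h3, h4, h5⟩ := hT' l hl
        have hms : MeasurableSet {x | n < mult L m (T.filter fun t => lev L u t = l) x} :=
          (mult_meas L m _) (measurableSet_Ioi (a := n))
        have hcov := cover (V := -(l : ℝ) + H) (X := C1 * Real.exp (-(c1 * n / 4 ^ m)))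
          hCw hε hL hlL (by positivity) hW _ hms (T' l) (fun t ht => (h1 t ht).2.2) h3
          (fun t ht => (h4 t ht).2) h5
        refine (mul_le_mul_right hcov _).trans ?_
        rw [← mul_assoc, ← ENNReal.ofReal_mul (Real.exp_pos _).le]
        refine mul_le_mul_left (le_of_eq ?_) _
        congr 1
        rw [Real.mul_rpow hC10.le (Real.exp_pos _).le, ← Real.exp_mul, hr, ← Real.exp_nat_mul,
          hDdef]
        have e1 : Real.exp (l + κ * n) * (Cw * (C1 ^ ε * Real.exp (-(c1 * n / 4 ^ m) * ε)) *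
            Real.exp (-l + H)) = Cw * C1 ^ ε * (Real.exp (l + κ * n) *
            Real.exp (-(c1 * n / 4 ^ m) * ε) * Real.exp (-l + H)) := by ring
        have e2 : Cw * C1 ^ ε * Real.exp H * Real.exp (n * -κ) =
            Cw * C1 ^ ε * (Real.exp H * Real.exp (n * -κ)) := by ring
        rw [e1, e2, ← Real.exp_add, ← Real.exp_add, ← Real.exp_add]
        congr 2
        have e3 : -(c1 * n / 4 ^ m) * ε = -(ε * (c1 / 4 ^ m)) * n := by ring
        rw [e3, hκ2]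
        ring
      calc _ ≤ ∑ l ∈ T.image (lev L u), ENNReal.ofReal (D * r ^ n) *
            ∑ t ∈ T' l, kt k c γ b L u U t := Finset.sum_le_sum hl
        _ = ENNReal.ofReal (D * r ^ n) * ∑ l ∈ T.image (lev L u),
            ∑ t ∈ T' l, kt k c γ b L u U t := by rw [Finset.mul_sum]
        _ ≤ _ := by
            refine mul_le_mul_right ?_ _
            exact classes (M := M) (R := R) (T.image (lev L u)) T' H P hP hP0 Z
              (fun l hl => (hT' l hl).1) (fun l hl => (hT' l hl).2.1)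
              (fun l hl => (hT' l hl).2.2.2.1) hZ
    · rw [if_neg hn]
      exact bot_le
  refine (Finset.sum_le_sum hstep).trans ?_
  rw [← Finset.sum_mul, ← ENNReal.ofReal_sum_of_nonneg (fun n _ => by
    refine mul_nonneg hD.le ?_
    split_ifs
    · exact pow_nonneg hr0 _
    · exact le_rfl), ← Finset.mul_sum]
  have htail := tail r hr0 hr1 T.card n0
  have hinv := inv_one_sub_exp hκ
  have hfin : D * ∑ n ∈ Finset.range T.card, (if n0 ≤ n then r ^ n else 0) ≤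
      D * (r ^ n0 * (1 + 1 / κ)) := by
    refine mul_le_mul_of_nonneg_left (htail.trans ?_) hD.le
    exact mul_le_mul_of_nonneg_left hinv (pow_nonneg hr0 _)
  calc _ ≤ ENNReal.ofReal (D * (r ^ n0 * (1 + 1 / κ))) * (P * Z) :=
        mul_le_mul_left (ENNReal.ofReal_le_ofReal hfin) _
    _ = _ := by
        rw [← mul_assoc, ← ENNReal.ofReal_natCast, ← ENNReal.ofReal_mul (by positivity)]

/-- the sum over the shells -/
lemma sum_shells {k : ℕ} {a C' : ℝ} (ha1 : 1 ≤ a) (hC'p : 0 < C')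
    (h2k : 64 * a ^ 2 ≤ (2 : ℝ) ^ k) (X Z : ℝ≥0∞) :
    ∑' m : ℕ, ENNReal.ofReal ((((2 : ℝ) ^ k)⁻¹) ^ m) *
      (ENNReal.ofReal (C' * (16 * a ^ 2) ^ m) * X + ENNReal.ofReal (1 / 4) * Z) ≤
    ENNReal.ofReal (2 * C') * X + Z / 2 := by
  have hterm : ∀ m : ℕ, ENNReal.ofReal ((((2 : ℝ) ^ k)⁻¹) ^ m) *
      (ENNReal.ofReal (C' * (16 * a ^ 2) ^ m) * X + ENNReal.ofReal (1 / 4) * Z) ≤
      ENNReal.ofReal (C' * (1 / 4) ^ m) * X +
        ENNReal.ofReal (1 / 4 * (1 / 4) ^ m) * Z := by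
    intro m
    rw [mul_add, ← mul_assoc, ← mul_assoc, ← ENNReal.ofReal_mul (by positivity),
      ← ENNReal.ofReal_mul (by positivity)]
    refine add_le_add ?_ ?_
    · refine mul_le_mul_left (ENNReal.ofReal_le_ofReal ?_) _
      have h1 : ((2 : ℝ) ^ k)⁻¹ * (16 * a ^ 2) ≤ 1 / 4 := by
        rw [inv_mul_le_iff₀ (by positivity)]
        linarith
      have h2 : (((2 : ℝ) ^ k)⁻¹) ^ m * (16 * a ^ 2) ^ m ≤ (1 / 4) ^ m := by
        rw [← mul_pow]
        exact pow_le_pow_left₀ (by positivity) h1 m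
      calc (((2 : ℝ) ^ k)⁻¹) ^ m * (C' * (16 * a ^ 2) ^ m) =
          C' * ((((2 : ℝ) ^ k)⁻¹) ^ m * (16 * a ^ 2) ^ m) := by ring
        _ ≤ C' * (1 / 4) ^ m := mul_le_mul_of_nonneg_left h2 hC'p.le
    · refine mul_le_mul_left (ENNReal.ofReal_le_ofReal ?_) _
      rw [mul_comm]
      refine mul_le_mul_of_nonneg_left ?_ (by norm_num)
      refine pow_le_pow_left₀ (by positivity) ?_ m
      have h3 : (4 : ℝ) ≤ 2 ^ k := by nlinarith
      rw [one_div]
      exact inv_anti₀ (by norm_num) h3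
  refine (ENNReal.tsum_le_tsum hterm).trans ?_
  rw [ENNReal.tsum_add, ENNReal.tsum_mul_right, ENNReal.tsum_mul_right]
  have hs : Summable fun m : ℕ => (1 / 4 : ℝ) ^ m :=
    summable_geometric_of_lt_one (by norm_num) (by norm_num)
  rw [← ENNReal.ofReal_tsum_of_nonneg (fun m => by positivity) (hs.mul_left C'),
    ← ENNReal.ofReal_tsum_of_nonneg (fun m => by positivity) (hs.mul_left (1 / 4)),
    tsum_mul_left, tsum_mul_left, tsum_geometric_of_lt_one (by norm_num) (by norm_num)]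
  refine add_le_add ?_ ?_
  · refine mul_le_mul_left (ENNReal.ofReal_le_ofReal ?_) _
    have : (1 - 1 / 4 : ℝ)⁻¹ = 4 / 3 := by norm_num
    rw [this]
    linarith
  · rw [ENNReal.div_eq_inv_mul]
    refine mul_le_mul_left ?_ _
    have h1 : (1 / 4 : ℝ) * (1 - 1 / 4 : ℝ)⁻¹ ≤ 1 / 2 := by norm_num
    refine (ENNReal.ofReal_le_ofReal h1).trans (le_of_eq ?_)
    rw [one_div, ENNReal.ofReal_inv_of_pos (by norm_num)]
    simp

/-- the range of the levels -/
lemma level_range {b γ K L : ℝ} {μ R : ℕ} {u : ℂ → ℝ} (hb : 0 < b) (hγ : 0 < γ) (hK : 1 ≤ K)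
    (hL : 1 ≤ L) (hGro : Gro (2 ^ μ) γ K u)
    (hβ1 : ∀ (x : ℝ), ∀ z ∈ uhp, |x - z.re| ≤ b * z.im → bv b u x ≤ u z)
    (T : Finset (ℤ × ℤ × ℝ)) (hT : Fam L (2 ^ μ) R u T) (m : ℕ) (l : ℤ) (x : ℝ)
    (hx : mult L (m + 1) (T.filter fun t => lev L u t = l) x ≠ 0) :
    -((1 + K * (1 + 2 / b) ^ γ) * ((2 : ℝ) ^ γ) ^ m) ≤ -(l : ℝ) - bv b u x := by
  have hne : ((T.filter fun t => lev L u t = l).filter
      fun t => |x - t.2.2| < 2 ^ (m + 1) * (L * (2 : ℝ) ^ t.1)).Nonempty :=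
    Finset.card_ne_zero.1 hx
  obtain ⟨t, ht⟩ := hne
  rw [Finset.mem_filter, Finset.mem_filter] at ht
  obtain ⟨⟨htT, htl⟩, htx⟩ := ht
  have hy : 0 < L * (2 : ℝ) ^ t.1 := by positivity
  set y := L * (2 : ℝ) ^ t.1 with hydef
  have hfl := (hT.1 t htT).2.2.2
  have hg := hGro t.2.2 y (2 ^ (m + 1) * y / b) hy (by positivity) hfl
  have hz : (0 : ℝ) < y + 2 ^ (m + 1) * y / b := by positivity
  have him : ∀ x s : ℝ, ((x : ℂ) + (s : ℂ) * I).im = s := by intro x s; simp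
  have hre : ∀ x s : ℝ, ((x : ℂ) + (s : ℂ) * I).re = x := by intro x s; simp
  have hzim := him t.2.2 (y + 2 ^ (m + 1) * y / b)
  have hzre := hre t.2.2 (y + 2 ^ (m + 1) * y / b)
  have h1 := hβ1 x ((t.2.2 : ℂ) + ((y + 2 ^ (m + 1) * y / b : ℝ) : ℂ) * I)
    (by show 0 < Complex.im _; rw [hzim]; exact hz) (by
      rw [hzre, hzim]
      have e1 : b * (y + 2 ^ (m + 1) * y / b) = b * y + 2 ^ (m + 1) * y := by
        field_simp
      rw [e1]
      nlinarith)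
  have h2 := (lev_spec L u t).2
  rw [htl, ← hydef] at h2
  have h3 : (1 + 2 ^ (m + 1) * y / b / y) ^ γ ≤ (1 + 2 / b) ^ γ * ((2 : ℝ) ^ γ) ^ m := by
    have e1 : 1 + 2 ^ (m + 1) * y / b / y = 1 + 2 / b * 2 ^ m := by
      rw [pow_succ]
      field_simp
    have e2 : ((2 : ℝ) ^ γ) ^ m = ((2 : ℝ) ^ m) ^ γ := by
      rw [← Real.rpow_natCast, ← Real.rpow_natCast, ← Real.rpow_mul (by norm_num),
        ← Real.rpow_mul (by norm_num), mul_comm]
    rw [e1, e2, ← Real.mul_rpow (by positivity) (by positivity)]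
    refine Real.rpow_le_rpow (by positivity) ?_ hγ.le
    have h4 : (1 : ℝ) ≤ 2 ^ m := one_le_pow₀ (by norm_num)
    have h5 : 0 < 2 / b := by positivity
    nlinarith
  have h4 : (1 : ℝ) ≤ ((2 : ℝ) ^ γ) ^ m := one_le_pow₀ (Real.one_le_rpow (by norm_num) hγ.le)
  have h5 : 1 + K * (1 + 2 ^ (m + 1) * y / b / y) ^ γ ≤ (1 + K * (1 + 2 / b) ^ γ) * ((2 : ℝ) ^ γ) ^ m := by
    rw [add_mul, one_mul]
    have : K * (1 + 2 ^ (m + 1) * y / b / y) ^ γ ≤ K * ((1 + 2 / b) ^ γ * ((2 : ℝ) ^ γ) ^ m) :=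
      mul_le_mul_of_nonneg_left h3 (by linarith)
    linarith
  linarith
end Ksu

open Ksu in
theorem stKsu (hBv : StBv) (hFin : StFin) (hCvr : StCvr) : StKsu := by
  intro lam b γ K c μ hlam hlb hγ hK hc hμ
  have hb : 0 < b := hlam.trans hlb
  set k := ⌈2 * γ + 6⌉₊ with hk
  have hk6 : 2 * γ + 6 ≤ (k : ℝ) := Nat.le_ceil _
  have hk2 : 2 ≤ k := by
    have : (2 : ℝ) ≤ k := by linarith
    exact_mod_cast this
  refine ⟨k, hk2, ?_⟩
  intro L Cw ε hL hlL hCw hε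
  obtain ⟨c1, C1, hc1, hC1, hcvr⟩ := hCvr b γ K L μ hb hγ hK hL hμ
  obtain ⟨CF, hCF, hfin⟩ := hFin b γ K c L μ k hb hγ hK hc hL hμ hk2
  set a := (2 : ℝ) ^ γ with ha
  have ha1 : 1 ≤ a := Real.one_le_rpow (by norm_num) hγ.le
  have ha0 : 0 < a := by linarith
  set κ0 := c1 * ε / 2 with hκ0
  have hκ0p : 0 < κ0 := by positivity
  set A0 := 1 + K * (1 + 2 / b) ^ γ with hA0
  have hA0p : 0 < A0 := by positivity
  have hC10 : 0 < C1 := by linarith
  obtain ⟨B, hB0, hB1, hB2⟩ := scal2 (D := Cw * C1 ^ ε) ha1 hC1 hκ0p (by positivity)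
  set C' := (B + 2 + 16 * a / (κ0 * c)) * (Real.exp (c * A0 / 2) * (1 + 4 * a / c)) with hC'
  have hC'p : 0 < C' := by positivity
  refine ⟨4 * C', by positivity, ?_⟩
  intro u U hU hSH hGro hW hXX R T hT
  obtain ⟨hβ, hβ1, -⟩ := hBv b u hb hSH
  -- the supremum
  set Z : ℝ≥0∞ := ⨆ (T' : Finset (ℤ × ℤ × ℝ)) (_ : Fam L (2 ^ μ) R u T'),
    ∑ t ∈ T', kt k c γ b L u U t with hZdef
  have hZle : ∀ T' : Finset (ℤ × ℤ × ℝ), Fam L (2 ^ μ) R u T' →
      ∑ t ∈ T', kt k c γ b L u U t ≤ Z := fun T' hT' => le_iSup₂ (f := fun T' _ =>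
        ∑ t ∈ T', kt k c γ b L u U t) T' hT'
  have hZfin : Z ≠ ∞ := by
    have : Z ≤ ENNReal.ofReal (CF * (2 * R + 1)) * XX b u U :=
      iSup₂_le fun T' hT' => hfin u U hSH hGro R T' hT'
    exact ne_top_of_le_ne_top (ENNReal.mul_ne_top ENNReal.ofReal_ne_top hXX) this
  -- conversion of powers
  have hpow1 : ∀ m : ℕ, (2 : ℝ) ^ ((γ + 3) * (m : ℝ)) = (8 * a) ^ m := by
    intro m
    rw [Real.rpow_mul (by norm_num), Real.rpow_natCast]
    congr 1
    rw [Real.rpow_add (by norm_num), ← ha, mul_comm]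
    congr 1
    norm_num
  have hpow2 : ∀ m : ℕ, (2 : ℝ) ^ (γ * (m : ℝ)) = a ^ m := by
    intro m
    rw [Real.rpow_mul (by norm_num), Real.rpow_natCast]
  -- one family
  have main : ∀ T' : Finset (ℤ × ℤ × ℝ), Fam L (2 ^ μ) R u T' →
      ∑ t ∈ T', kt k c γ b L u U t ≤ ENNReal.ofReal (2 * C') * XX b u U + Z / 2 := by
    intro T hT
    have hlev : ∀ m : ℕ, ∑ t ∈ T, ∫⁻ x in near L (m + 1) t,
        ef b u (c * ((2 * a) ^ (m + 1))⁻¹) (lev L u t) x * bf b u x ∂(wm U) ≤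
        ENNReal.ofReal (C' * (16 * a ^ 2) ^ m) * XX b u U + ENNReal.ofReal (1 / 4) * Z := by
      intro m
      have hκ : 0 < κ0 / 4 ^ (m + 1) := by positivity
      have hq : 0 < c * ((2 * a) ^ (m + 1))⁻¹ := by positivity
      have hP : C1 * a ^ (m + 1) < ((⌈C1 * a ^ (m + 1)⌉₊ + 1 : ℕ) : ℝ) := by
        have := Nat.le_ceil (C1 * a ^ (m + 1))
        push_cast
        linarith
      have h := one_level (M := 2 ^ μ) (R := R) (c1 := c1) (C1 := C1) (A := A0 * a ^ m)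
        (H := C1 * a ^ (m + 1)) hU hβ hCw hε hL hlL hC1 hq hκ hW T (m + 1)
        ⌈B * (8 * a) ^ m⌉₊ (⌈C1 * a ^ (m + 1)⌉₊ + 1) hP (Nat.succ_pos _)
        (by rw [hκ0]; ring) ?_ ?_ Z hZle
      · refine h.trans (add_le_add ?_ ?_)
        · refine mul_le_mul_left (ENNReal.ofReal_le_ofReal ?_) _
          exact scal1 ha1 hc hκ0p hA0p.le hB0 m
        · refine mul_le_mul_left (ENNReal.ofReal_le_ofReal ?_) _
          exact hB2 m
      · intro l hl x hx
        exact level_range hb hγ hK hL hGro hβ1 T hT m l x hx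
      · intro l hl n hn
        have hn' : C1 * (2 : ℝ) ^ ((γ + 3) * ((m + 1 : ℕ) : ℝ)) ≤ (n : ℝ) := by
          rw [hpow1]
          have h1 := Nat.le_ceil (B * (8 * a) ^ m)
          have h2 : ((⌈B * (8 * a) ^ m⌉₊ : ℕ) : ℝ) ≤ n := by exact_mod_cast hn
          have h3 : C1 * (8 * a) * (8 * a) ^ m ≤ B * (8 * a) ^ m :=
            mul_le_mul_of_nonneg_right hB1 (by positivity)
          rw [pow_succ]
          linarith
        obtain ⟨T', h1, h2, h3, h4, h5⟩ := hcvr u hSH.mono hSH.bdd hGro R l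
          (T.filter fun t => lev L u t = l)
          ⟨fun t ht => hT.1 t (Finset.mem_filter.1 ht).1, fun t ht t' ht' =>
            hT.2 t (Finset.mem_filter.1 ht).1 t' (Finset.mem_filter.1 ht').1⟩
          (fun t ht => (Finset.mem_filter.1 ht).2) (m + 1) n hn'
        refine ⟨T', h1, h2, h3, ?_, h5⟩
        rw [hpow2] at h4
        exact h4
    have hsum : ∑ t ∈ T, kt k c γ b L u U t ≤ ∑' m : ℕ, ENNReal.ofReal ((((2 : ℝ) ^ k)⁻¹) ^ m) *
        (ENNReal.ofReal (C' * (16 * a ^ 2) ^ m) * XX b u U + ENNReal.ofReal (1 / 4) * Z) := by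
      calc ∑ t ∈ T, kt k c γ b L u U t ≤ ∑ t ∈ T, ∑' m : ℕ,
            ENNReal.ofReal ((((2 : ℝ) ^ k)⁻¹) ^ m) * ∫⁻ x in near L (m + 1) t,
            ef b u (c * ((2 * a) ^ (m + 1))⁻¹) (lev L u t) x * bf b u x ∂(wm U) :=
            Finset.sum_le_sum fun t _ => kt_le hU hβ hc hγ hL t
        _ = ∑' m : ℕ, ∑ t ∈ T,
            ENNReal.ofReal ((((2 : ℝ) ^ k)⁻¹) ^ m) * ∫⁻ x in near L (m + 1) t,
            ef b u (c * ((2 * a) ^ (m + 1))⁻¹) (lev L u t) x * bf b u x ∂(wm U) :=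
            (Summable.tsum_finsetSum fun t _ => ENNReal.summable).symm
        _ ≤ _ := by
            refine ENNReal.tsum_le_tsum fun m => ?_
            rw [← Finset.mul_sum]
            exact mul_le_mul_right (hlev m) _
    refine hsum.trans ?_
    have h2k : 64 * a ^ 2 ≤ (2 : ℝ) ^ k := by
      have h1 : (2 : ℝ) ^ (2 * γ + 6) ≤ (2 : ℝ) ^ (k : ℝ) :=
        Real.rpow_le_rpow_of_exponent_le (by norm_num) hk6
      rw [Real.rpow_natCast] at h1
      have h2 : (2 : ℝ) ^ (2 * γ + 6) = 64 * a ^ 2 := by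
        rw [Real.rpow_add (by norm_num), mul_comm 2 γ, Real.rpow_mul (by norm_num), ← ha,
          mul_comm]
        congr 1
        · norm_num
        · norm_num
      linarith
    exact sum_shells ha1 hC'p h2k _ _
  have hZ2 : Z ≤ ENNReal.ofReal (2 * C') * XX b u U + Z / 2 := iSup₂_le main
  have hZh : Z / 2 ≠ ∞ := ENNReal.div_ne_top hZfin (by norm_num)
  have h3 : Z / 2 ≤ ENNReal.ofReal (2 * C') * XX b u U := by
    have h4 : Z / 2 + Z / 2 ≤ ENNReal.ofReal (2 * C') * XX b u U + Z / 2 := by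
      rw [ENNReal.add_halves]
      exact hZ2
    exact (ENNReal.add_le_add_iff_right hZh).1 h4
  calc ∑ t ∈ T, kt k c γ b L u U t ≤ Z := hZle T hT
    _ = Z / 2 + Z / 2 := (ENNReal.add_halves Z).symm
    _ ≤ ENNReal.ofReal (2 * C') * XX b u U + ENNReal.ofReal (2 * C') * XX b u U :=
        add_le_add h3 h3
    _ = _ := by
        rw [← add_mul, ← ENNReal.ofReal_add (by positivity) (by positivity)]
        congr 2
        ring

end Pool.Agent.Work.MP_055a27_an.Wd
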