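import Pool.Agent.Work.MP_055a27_an.Wd.Stmts

/-!
# The exponential estimate
-/

set_option autoImplicit false

open MeasureTheory Set Filter Topology Complex Metric
open scoped ENNReal NNReal

namespace Pool.Agent.Work.MP_055a27_an.Wd

namespace LE

/-- The region of integration. -/
def Rg (lam τ Λ R : ℝ) (u : ℂ → ℝ) (l j : ℤ) (x : ℝ) : Set (ℝ × ℝ) :=
  cone lam x ∩ Bx R ∩ {q : ℝ × ℝ | -(l : ℝ) ≤ ut τ u q ∧ q.2 ≤ Λ * (2 : ℝ) ^ j}

theorem measurableSet_Bx (R : ℝ) : MeasurableSet (Bx R) := by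
  have e : Bx R = {q : ℝ × ℝ | |q.1| ≤ R} ∩ ({q : ℝ × ℝ | 1 / R ≤ q.2} ∩
      {q : ℝ × ℝ | q.2 ≤ R}) := rfl
  rw [e]
  exact (measurableSet_le (by fun_prop) (by fun_prop)).inter
    ((measurableSet_le (by fun_prop) (by fun_prop)).inter
      (measurableSet_le (by fun_prop) (by fun_prop)))

theorem measurableSet_ut {τ : ℝ} (hτ : τ < 1) {u : ℂ → ℝ}
    (hu : UpperSemicontinuousOn u uhp) (m : ℝ) :
    MeasurableSet ({q : ℝ × ℝ | 0 < q.2} ∩ {q : ℝ × ℝ | m ≤ ut τ u q}) := by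
  have hm : Measurable (fun q : ℝ × ℝ => (q.1 : ℂ) + (((1 - τ) * q.2 : ℝ) : ℂ) * I) := by fun_prop
  have h1 : MeasurableSet (uhp ∩ u ⁻¹' (Ici m)) := by
    obtain ⟨v, hv, hv2⟩ := (upperSemicontinuousOn_iff_preimage_Ici.1 hu) m
    rw [hv2]
    exact isOpen_uhp.measurableSet.inter hv.measurableSet
  have e : ({q : ℝ × ℝ | 0 < q.2} ∩ {q : ℝ × ℝ | m ≤ ut τ u q}) =
      (fun q : ℝ × ℝ => (q.1 : ℂ) + (((1 - τ) * q.2 : ℝ) : ℂ) * I) ⁻¹' (uhp ∩ u ⁻¹' (Ici m)) := by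
    ext q
    simp only [mem_inter_iff, mem_preimage, mem_Ici]
    have h2 : ((q.1 : ℂ) + (((1 - τ) * q.2 : ℝ) : ℂ) * I) ∈ uhp ↔ 0 < q.2 := by
      show 0 < ((q.1 : ℂ) + (((1 - τ) * q.2 : ℝ) : ℂ) * I).im ↔ _
      have h3 : ((q.1 : ℂ) + (((1 - τ) * q.2 : ℝ) : ℂ) * I).im = (1 - τ) * q.2 := by simp
      rw [h3, mul_pos_iff_of_pos_left (by linarith)]
    rw [h2]
    rfl
  rw [e]
  exact hm h1

theorem measurableSet_Rg {τ : ℝ} (hτ : τ < 1) {u : ℂ → ℝ}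
    (hu : UpperSemicontinuousOn u uhp) (lam Λ R : ℝ) (l j : ℤ) :
    MeasurableSet {p : ℝ × (ℝ × ℝ) | p.2 ∈ Rg lam τ Λ R u l j p.1} := by
  have e : {p : ℝ × (ℝ × ℝ) | p.2 ∈ Rg lam τ Λ R u l j p.1} =
      ({p : ℝ × (ℝ × ℝ) | |p.1 - p.2.1| ≤ lam * p.2.2} ∩
        {p : ℝ × (ℝ × ℝ) | p.2.2 ≤ Λ * (2 : ℝ) ^ j}) ∩
      (Prod.snd ⁻¹' (Bx R) ∩ Prod.snd ⁻¹' ({q : ℝ × ℝ | 0 < q.2} ∩
        {q : ℝ × ℝ | -(l : ℝ) ≤ ut τ u q})) := by
    ext p
    simp only [Rg, cone, mem_inter_iff, mem_preimage, mem_ofPred_eq]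
    tauto
  rw [e]
  exact ((measurableSet_le (by fun_prop) (by fun_prop)).inter
    (measurableSet_le (by fun_prop) (by fun_prop))).inter
    ((measurable_snd (measurableSet_Bx R)).inter (measurable_snd (measurableSet_ut hτ hu _)))

theorem measurableSet_Rg' {τ : ℝ} (hτ : τ < 1) {u : ℂ → ℝ}
    (hu : UpperSemicontinuousOn u uhp) (lam Λ R : ℝ) (l j : ℤ) (x : ℝ) :
    MeasurableSet (Rg lam τ Λ R u l j x) :=
  measurable_prodMk_left (x := x) (measurableSet_Rg hτ hu lam Λ R l j)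

theorem measurable_int {τ : ℝ} (hτ : τ < 1) {u : ℂ → ℝ}
    (hu : UpperSemicontinuousOn u uhp) (lam Λ R : ℝ) (l j : ℤ) (F : ℂ → ℂ) :
    Measurable fun x => ∫⁻ q in Rg lam τ Λ R u l j x, ENNReal.ofReal (gsq F q) := by
  have e : (fun x => ∫⁻ q in Rg lam τ Λ R u l j x, ENNReal.ofReal (gsq F q)) =
      fun x => ∫⁻ q, {p : ℝ × (ℝ × ℝ) | p.2 ∈ Rg lam τ Λ R u l j p.1}.indicator
        (fun p => ENNReal.ofReal (gsq F p.2)) (x, q) := by
    funext x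
    rw [← lintegral_indicator (measurableSet_Rg' hτ hu lam Λ R l j x)]
    rfl
  rw [e]
  apply Measurable.lintegral_prod_right'
  exact ((measurable_gsq F).comp measurable_snd).ennreal_ofReal.indicator
    (measurableSet_Rg hτ hu lam Λ R l j)

theorem dy_step {j' k' : ℤ} {x x' : ℝ} (hx : x ∈ dy j' k') (hx' : x' ∈ dy (j' + 1) (k' / 2)) :
    |x' - x| ≤ 2 * (2 : ℝ) ^ j' := by
  have h2 : (0 : ℝ) < (2 : ℝ) ^ j' := by positivity
  have h3 : (2 : ℝ) ^ (j' + 1) = 2 * (2 : ℝ) ^ j' := by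
    rw [zpow_add_one₀ (by norm_num)]
    ring
  obtain ⟨a1, a2⟩ := hx
  obtain ⟨b1, b2⟩ := hx'
  rw [h3] at b1 b2
  have c1 : ((2 * (k' / 2) : ℤ) : ℝ) ≤ (k' : ℝ) := by exact_mod_cast (by omega : 2 * (k' / 2) ≤ k')
  have c2 : (k' : ℝ) + 1 ≤ ((2 * (k' / 2) + 2 : ℤ) : ℝ) := by
    exact_mod_cast (by omega : k' + 1 ≤ 2 * (k' / 2) + 2)
  push_cast at c1 c2
  have d1 : 2 * ((k' / 2 : ℤ) : ℝ) * 2 ^ j' ≤ k' * 2 ^ j' := mul_le_mul_of_nonneg_right c1 h2.le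
  have d2 : (k' + 1) * (2 : ℝ) ^ j' ≤ (2 * ((k' / 2 : ℤ) : ℝ) + 2) * 2 ^ j' :=
    mul_le_mul_of_nonneg_right c2 h2.le
  rw [abs_le]
  constructor <;> nlinarith

theorem Bx_mono {R R' : ℝ} (hR : 0 < R) (h : R ≤ R') : Bx R ⊆ Bx R' := by
  rintro q ⟨h1, h2, h3⟩
  exact ⟨h1.trans h, (one_div_le_one_div_of_le hR h).trans h2, h3.trans h⟩

/-- The part of the region between two heights. -/
def Md (lam τ R s t : ℝ) (u : ℂ → ℝ) (l : ℤ) (x : ℝ) : Set (ℝ × ℝ) :=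
  cone lam x ∩ Bx R ∩ {q : ℝ × ℝ | -(l : ℝ) ≤ ut τ u q ∧ s < q.2 ∧ q.2 ≤ t}

theorem mid_le {lam τ p C8 R s t : ℝ} {u : ℂ → ℝ} {F : ℂ → ℂ} (hlam : 0 < lam) (hp : 0 < p)
    (hC8 : 0 < C8) (hs : 0 < s) (ht : 0 < t) (hH : HB τ p C8 R u F) (l : ℤ) (x : ℝ) :
    ∫⁻ q in Md lam τ R s t u l x, ENNReal.ofReal (gsq F q) ≤
      ENNReal.ofReal (C8 ^ 2 * (2 * lam * t ^ 2 / s ^ 2) * Real.exp (2 * l / p)) := by
  have hpt : ∀ q ∈ Md lam τ R s t u l x, ENNReal.ofReal (gsq F q) ≤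
      ENNReal.ofReal (C8 ^ 2 * Real.exp (2 * l / p) / s ^ 2) := by
    rintro q ⟨⟨⟨_, hq0⟩, hqB⟩, hq1, hq2, _⟩
    apply ENNReal.ofReal_le_ofReal
    have h1 := hH q hqB
    have h2 : Real.exp (-ut τ u q / p) ≤ Real.exp (l / p) := by
      apply Real.exp_le_exp.2
      apply div_le_div_of_nonneg_right _ hp.le
      linarith
    have h3 : s * ‖deriv F ((q.1 : ℂ) + (q.2 : ℂ) * I)‖ ≤ C8 * Real.exp (l / p) := by
      calc s * ‖deriv F ((q.1 : ℂ) + (q.2 : ℂ) * I)‖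
          ≤ q.2 * ‖deriv F ((q.1 : ℂ) + (q.2 : ℂ) * I)‖ := by gcongr
        _ ≤ C8 * Real.exp (-ut τ u q / p) := by
            have := abs_nonneg (F ((q.1 : ℂ) + (q.2 : ℂ) * I)).re
            linarith
        _ ≤ C8 * Real.exp (l / p) := by gcongr
    have h4 : Real.exp (2 * l / p) = Real.exp (l / p) ^ 2 := by
      rw [← Real.exp_nat_mul]
      congr 1
      push_cast
      ring
    rw [le_div_iff₀ (by positivity), gsq, h4, ← mul_pow, ← mul_pow, mul_comm _ s]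
    exact pow_le_pow_left₀ (by positivity) h3 2
  have hvol : volume (Md lam τ R s t u l x) ≤ ENNReal.ofReal (2 * lam * t * t) := by
    have hsub : Md lam τ R s t u l x ⊆ Icc (x - lam * t) (x + lam * t) ×ˢ Icc 0 t := by
      rintro q ⟨⟨⟨hq, hq0⟩, _⟩, _, _, hqt⟩
      have h1 : |x - q.1| ≤ lam * t := hq.trans (mul_le_mul_of_nonneg_left hqt hlam.le)
      rw [abs_le] at h1
      exact ⟨⟨by linarith, by linarith⟩, ⟨hq0.le, hqt⟩⟩
    refine (measure_mono hsub).trans ?_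
    rw [Measure.volume_eq_prod, Measure.prod_prod, Real.volume_Icc, Real.volume_Icc,
      ← ENNReal.ofReal_mul (by nlinarith [mul_pos hlam ht])]
    apply ENNReal.ofReal_le_ofReal
    apply le_of_eq
    ring
  calc ∫⁻ q in Md lam τ R s t u l x, ENNReal.ofReal (gsq F q)
      ≤ ∫⁻ _ in Md lam τ R s t u l x, ENNReal.ofReal (C8 ^ 2 * Real.exp (2 * l / p) / s ^ 2) :=
        setLIntegral_mono measurable_const hpt
    _ = ENNReal.ofReal (C8 ^ 2 * Real.exp (2 * l / p) / s ^ 2) *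
        volume (Md lam τ R s t u l x) := setLIntegral_const _ _
    _ ≤ ENNReal.ofReal (C8 ^ 2 * Real.exp (2 * l / p) / s ^ 2) *
        ENNReal.ofReal (2 * lam * t * t) := by gcongr
    _ = ENNReal.ofReal (C8 ^ 2 * (2 * lam * t ^ 2 / s ^ 2) * Real.exp (2 * l / p)) := by
        rw [← ENNReal.ofReal_mul (by positivity)]
        congr 1
        field_simp

theorem Rg_subset {lam lam' τ Λ Λ1 R : ℝ} {u : ℂ → ℝ} {l j j' k' : ℤ} {x x' : ℝ}
    (hlam : lam < lam') (hΛ1 : 2 / (lam' - lam) ≤ Λ1)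
    (hx : x ∈ dy j' k') (hx' : x' ∈ dy (j' + 1) (k' / 2)) :
    Rg lam τ Λ R u l j x ⊆ Rg lam' τ Λ R u l j x' ∪ (Rg lam τ Λ R u l j' x ∪
      Md lam τ R (Λ * (2 : ℝ) ^ j') (Λ1 * (2 : ℝ) ^ j') u l x) := by
  rintro q ⟨⟨⟨hq, hq0⟩, hqB⟩, hq1, hq2⟩
  rcases le_or_gt q.2 (Λ * (2 : ℝ) ^ j') with h | h
  · exact Or.inr (Or.inl ⟨⟨⟨hq, hq0⟩, hqB⟩, hq1, h⟩)
  rcases le_or_gt q.2 (Λ1 * (2 : ℝ) ^ j') with h' | h'
  · exact Or.inr (Or.inr ⟨⟨⟨hq, hq0⟩, hqB⟩, hq1, h, h'⟩)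
  left
  refine ⟨⟨⟨?_, hq0⟩, hqB⟩, hq1, hq2⟩
  have h1 := dy_step hx hx'
  have h2 : (0 : ℝ) < (2 : ℝ) ^ j' := by positivity
  have h3 : 0 < lam' - lam := by linarith
  have h4 : 2 ≤ Λ1 * (lam' - lam) := by
    rwa [div_le_iff₀ h3] at hΛ1
  have h5 : 2 * (2 : ℝ) ^ j' ≤ (lam' - lam) * q.2 := by
    calc 2 * (2 : ℝ) ^ j' ≤ Λ1 * (lam' - lam) * (2 : ℝ) ^ j' := by gcongr
      _ = (lam' - lam) * (Λ1 * (2 : ℝ) ^ j') := by ring
      _ ≤ (lam' - lam) * q.2 := by gcongr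
  calc |x' - q.1| = |(x' - x) + (x - q.1)| := by ring_nf
    _ ≤ |x' - x| + |x - q.1| := abs_add_le _ _
    _ ≤ lam' * q.2 := by linarith

end LE

open Pool.Agent.Work.MP_055a27_an.Wd.LE in
theorem stLE (hLE2 : StLE2) (hJN : StJN) : StLE := by
  intro lam b τ p C8 Λ hlam hτ hτ1 hlb hp hC8 hΛ
  set lam' : ℝ := (lam + b * (1 - τ)) / 2 with hlam'
  have hl1 : lam < lam' := by rw [hlam']; linarith
  have hl2 : lam' < b * (1 - τ) := by rw [hlam']; linarith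
  obtain ⟨Cb, C, hCb, hC, h2⟩ := hLE2 lam' b τ p C8 Λ (hlam.trans hl1) hτ hτ1 hl2 hp hC8 hΛ
  set Λ1 : ℝ := max Λ (2 / (lam' - lam)) with hΛ1
  have hΛ0 : 0 < Λ := by linarith
  have hΛ10 : 0 < Λ1 := lt_of_lt_of_le hΛ0 (le_max_left _ _)
  set A0 : ℝ := C8 ^ 2 * (2 * lam * Λ1 ^ 2 / Λ ^ 2) with hA0
  set A : ℝ := max C A0 with hA
  have hApos : 0 < A := lt_of_lt_of_le (by linarith) (le_max_left C A0)
  refine ⟨Cb, 2, 1 / (8 * A), hCb, by norm_num, by positivity, ?_⟩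
  intro u F R hu husc hF hR hH l j k a ha
  have hHR : HB τ p C8 R u F := fun q hq => hH q (Bx_mono (by linarith) (by nlinarith) hq)
  set E : ℝ≥0∞ := ENNReal.ofReal (Real.exp (-(2 * l / p))) with hE
  have hE0 : E ≠ 0 := by
    rw [hE, Ne, ENNReal.ofReal_eq_zero, not_le]
    exact Real.exp_pos _
  have hEt : E ≠ ∞ := ENNReal.ofReal_ne_top
  have hEmul : ∀ c : ℝ, 0 ≤ c → E * ENNReal.ofReal (c * Real.exp (2 * l / p)) =
      ENNReal.ofReal c := by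
    intro c _
    rw [hE, ← ENNReal.ofReal_mul (Real.exp_pos _).le]
    congr 1
    rw [Real.exp_neg]
    have := (Real.exp_pos (2 * l / p)).ne'
    field_simp
  have key := hJN A (fun j k x => E * ∫⁻ q in Rg lam τ Λ R u l j x, ENNReal.ofReal (gsq F q))
    (fun j k x => E * ∫⁻ q in Rg lam' τ Λ R u l j x, ENNReal.ofReal (gsq F q)) hApos
    (fun j k => (measurable_int hτ1 husc lam' Λ R l j F).const_mul _)
    (fun j k x => by
      gcongr
      rintro q ⟨⟨⟨hq, hq0⟩, hqB⟩, hq1⟩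
      exact ⟨⟨⟨hq.trans (mul_le_mul_of_nonneg_right hl1.le hq0.le), hq0⟩, hqB⟩, hq1⟩)
    (fun j k => by
      rw [lintegral_const_mul' _ _ hEt]
      calc E * ∫⁻ x in dy j k, ∫⁻ q in Rg lam' τ Λ R u l j x, ENNReal.ofReal (gsq F q)
          ≤ E * (ENNReal.ofReal (C * Real.exp (2 * l / p)) * volume (dy j k)) := by
            gcongr
            exact h2 u F R hu husc hF hR hH l j k
        _ = ENNReal.ofReal C * volume (dy j k) := by
            rw [← mul_assoc, hEmul C (by linarith)]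
        _ ≤ ENNReal.ofReal A * volume (dy j k) := by
            gcongr
            exact le_max_left _ _)
    (fun j k j' k' x x' hjj hsub hx hx' => by
      have h3 := Rg_subset (τ := τ) (Λ := Λ) (R := R) (u := u) (l := l) (j := j) hl1
        (le_max_right Λ (2 / (lam' - lam))) hx hx'
      rw [← hΛ1] at h3
      have h4 : ∫⁻ q in Md lam τ R (Λ * (2 : ℝ) ^ j') (Λ1 * (2 : ℝ) ^ j') u l x,
          ENNReal.ofReal (gsq F q) ≤ ENNReal.ofReal (A0 * Real.exp (2 * l / p)) := by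
        refine (mid_le hlam hp (by linarith) (by positivity) (by positivity) hHR l x).trans
          (le_of_eq ?_)
        rw [hA0]
        congr 3
        have : ((2 : ℝ) ^ j') ≠ 0 := by positivity
        field_simp
      calc E * ∫⁻ q in Rg lam τ Λ R u l j x, ENNReal.ofReal (gsq F q)
          ≤ E * ((∫⁻ q in Rg lam' τ Λ R u l j x', ENNReal.ofReal (gsq F q)) +
            ((∫⁻ q in Rg lam τ Λ R u l j' x, ENNReal.ofReal (gsq F q)) +
              ENNReal.ofReal (A0 * Real.exp (2 * l / p)))) := by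
            gcongr
            refine (lintegral_mono_set h3).trans ((lintegral_union_le _ _ _).trans ?_)
            gcongr
            refine (lintegral_union_le _ _ _).trans ?_
            gcongr
        _ = E * (∫⁻ q in Rg lam' τ Λ R u l j x', ENNReal.ofReal (gsq F q)) +
            E * (∫⁻ q in Rg lam τ Λ R u l j' x, ENNReal.ofReal (gsq F q)) +
              ENNReal.ofReal A0 := by
            rw [mul_add, mul_add, hEmul A0 (by positivity), add_assoc]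
        _ ≤ _ := by
            gcongr
            exact le_max_right _ _)
    j k a ha
  have e1 : -(a / (8 * A)) = -(1 / (8 * A) * a) := by ring
  rw [← e1]
  refine (measure_mono ?_).trans key
  rintro x ⟨hx, hx2⟩
  refine ⟨hx, ?_⟩
  show ENNReal.ofReal a < E * ∫⁻ q in Rg lam τ Λ R u l j x, ENNReal.ofReal (gsq F q)
  rw [← hEmul a ha]
  exact (ENNReal.mul_lt_mul_iff_right hE0 hEt).2 hx2

end Pool.Agent.Work.MP_055a27_an.Wd
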