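import Pool.Agent.Work.MP_055a27_an.Wd.Stmts
import Pool.Agent.Work.MP_055a27_an.Bd.B01

/-!
# Wide cones, item LE2: the quadratic estimate in the region `-l ≤ ut`
-/

set_option autoImplicit false

open MeasureTheory Set Filter Topology Complex Metric
open scoped ENNReal NNReal

namespace Pool.Agent.Work.MP_055a27_an.Wd

namespace LE2

/-- the region -/
def Om (τ : ℝ) (u : ℂ → ℝ) (l : ℤ) : Set (ℝ × ℝ) := {q | 0 < q.2 ∧ -(l : ℝ) ≤ ut τ u q}

lemma Om_add {b τ : ℝ} {u : ℂ → ℝ} {l : ℤ} (hb : 0 < b) (hτ : τ < 1) (hu : MonoC b u)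
    {q q' : ℝ × ℝ} (hq : q ∈ Om τ u l) (h : |q'.1 - q.1| ≤ b * (1 - τ) * (q'.2 - q.2)) :
    q' ∈ Om τ u l := by
  have h1 : 0 < 1 - τ := by linarith
  have h2 : 0 < b * (1 - τ) := by positivity
  have h3 : q.2 ≤ q'.2 := by
    by_contra hc
    push Not at hc
    have h4 := (abs_nonneg _).trans h
    nlinarith
  refine ⟨lt_of_lt_of_le hq.1 h3, hq.2.trans ?_⟩
  unfold ut
  have h4 := hu ((q.1 : ℂ) + (((1 - τ) * q.2 : ℝ) : ℂ) * I) (by
    apply mem_uhp
    exact mul_pos h1 hq.1)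
    (((q'.1 - q.1 : ℝ) : ℂ) + (((1 - τ) * (q'.2 - q.2) : ℝ) : ℂ) * I) (by
    show |Complex.re _| ≤ b * Complex.im _
    rw [Complex.add_re, Complex.add_im, Complex.ofReal_re, Complex.ofReal_im, Complex.re_ofReal_mul,
      Complex.im_ofReal_mul, Complex.I_re, Complex.I_im, mul_zero, add_zero, mul_one, zero_add]
    calc |q'.1 - q.1| ≤ b * (1 - τ) * (q'.2 - q.2) := h
      _ = b * ((1 - τ) * (q'.2 - q.2)) := by ring)
  have h5 : (q.1 : ℂ) + (((1 - τ) * q.2 : ℝ) : ℂ) * I +
      (((q'.1 - q.1 : ℝ) : ℂ) + (((1 - τ) * (q'.2 - q.2) : ℝ) : ℂ) * I) =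
      (q'.1 : ℂ) + (((1 - τ) * q'.2 : ℝ) : ℂ) * I := by
    push_cast
    ring
  rw [h5] at h4
  exact h4

/-- the lower boundary of the region -/
noncomputable def Y (τ : ℝ) (u : ℂ → ℝ) (l : ℤ) (z : ℝ) : ℝ := sInf {y | (z, y) ∈ Om τ u l}

section

variable {b τ : ℝ} {u : ℂ → ℝ} {l : ℤ}

lemma bdd (z : ℝ) : BddBelow {y | (z, y) ∈ Om τ u l} :=
  ⟨0, fun _ hy => (hy : _ ∈ Om τ u l).1.le⟩

lemma nonempty_sec (hb : 0 < b) (hτ : τ < 1) (hu : MonoC b u) (hne : (Om τ u l).Nonempty)
    (z : ℝ) : {y | (z, y) ∈ Om τ u l}.Nonempty := by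
  obtain ⟨q, hq⟩ := hne
  have h1 : 0 < 1 - τ := by linarith
  have h2 : 0 < b * (1 - τ) := by positivity
  refine ⟨q.2 + |z - q.1| / (b * (1 - τ)), ?_⟩
  refine Om_add hb hτ hu hq ?_
  show |z - q.1| ≤ b * (1 - τ) * (q.2 + |z - q.1| / (b * (1 - τ)) - q.2)
  rw [add_sub_cancel_left, mul_div_cancel₀ _ h2.ne']

lemma Y_nonneg (z : ℝ) : 0 ≤ Y τ u l z :=
  Real.sInf_nonneg (fun _ hy => (hy : _ ∈ Om τ u l).1.le)

lemma Y_le {z y : ℝ} (h : (z, y) ∈ Om τ u l) : Y τ u l z ≤ y := csInf_le (bdd z) h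

lemma mem_of_lt (hb : 0 < b) (hτ : τ < 1) (hu : MonoC b u) (hne : (Om τ u l).Nonempty)
    {z y : ℝ} (h : Y τ u l z < y) : (z, y) ∈ Om τ u l := by
  obtain ⟨y', hy', hlt⟩ := (csInf_lt_iff (bdd z) (nonempty_sec hb hτ hu hne z)).1 h
  refine Om_add hb hτ hu hy' ?_
  have h1 : 0 < 1 - τ := by linarith
  have h2 : 0 < b * (1 - τ) := by positivity
  show |z - z| ≤ b * (1 - τ) * (y - y')
  rw [sub_self, abs_zero]
  have : 0 < y - y' := by linarith
  positivity

lemma Y_lip (hb : 0 < b) (hτ : τ < 1) (hu : MonoC b u) (hne : (Om τ u l).Nonempty)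
    (z z' : ℝ) : Y τ u l z ≤ Y τ u l z' + |z - z'| / (b * (1 - τ)) := by
  have h1 : 0 < 1 - τ := by linarith
  have h2 : 0 < b * (1 - τ) := by positivity
  refine le_of_forall_pos_lt_add (fun ε hε => ?_)
  have h3 : (z', Y τ u l z' + ε / 2) ∈ Om τ u l := mem_of_lt hb hτ hu hne (by linarith)
  have h4 : (z, Y τ u l z' + ε / 2 + |z - z'| / (b * (1 - τ))) ∈ Om τ u l := by
    refine Om_add hb hτ hu h3 ?_
    show |z - z'| ≤ b * (1 - τ) * (Y τ u l z' + ε / 2 + |z - z'| / (b * (1 - τ)) -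
      (Y τ u l z' + ε / 2))
    rw [add_sub_cancel_left, mul_div_cancel₀ _ h2.ne']
  have h5 := Y_le h4
  linarith

lemma Y_cont (hb : 0 < b) (hτ : τ < 1) (hu : MonoC b u) (hne : (Om τ u l).Nonempty) :
    Continuous (Y τ u l) := by
  have h1 : 0 < 1 - τ := by linarith
  have h2 : 0 < b * (1 - τ) := by positivity
  have h3 : LipschitzWith (Real.toNNReal (1 / (b * (1 - τ)))) (Y τ u l) := by
    refine LipschitzWith.of_le_add_mul' _ (fun x y => ?_)
    rw [Real.dist_eq]
    have := Y_lip hb hτ hu hne x y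
    rw [div_eq_mul_one_div, mul_comm] at this
    exact this
  exact h3.continuous

end

/-- Tonelli -/
lemma tonelli {lam : ℝ} (hlam : 0 < lam) (F : ℂ → ℂ) {W : Set (ℝ × ℝ)} (hW : MeasurableSet W)
    (hW0 : ∀ q ∈ W, 0 < q.2) (I : Set ℝ) :
    ∫⁻ x in I, ∫⁻ q in cone lam x ∩ W, ENNReal.ofReal (gsq F q) ≤
      ENNReal.ofReal (2 * lam) * ∫⁻ q in W, ENNReal.ofReal (q.2 * gsq F q) := by
  set S : Set (ℝ × (ℝ × ℝ)) := {w | |w.1 - w.2.1| ≤ lam * w.2.2} ∩ {w | w.2 ∈ W} with hS
  have hSm : MeasurableSet S :=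
    (measurableSet_le (by fun_prop) (by fun_prop)).inter (measurable_snd hW)
  have hG : Measurable (fun w : ℝ × (ℝ × ℝ) => S.indicator (fun w => ENNReal.ofReal (gsq F w.2)) w) :=
    (((measurable_gsq F).comp measurable_snd).ennreal_ofReal).indicator hSm
  calc ∫⁻ x in I, ∫⁻ q in cone lam x ∩ W, ENNReal.ofReal (gsq F q)
      ≤ ∫⁻ x, ∫⁻ q in cone lam x ∩ W, ENNReal.ofReal (gsq F q) := setLIntegral_le_lintegral _ _
    _ = ∫⁻ x, ∫⁻ q, S.indicator (fun w => ENNReal.ofReal (gsq F w.2)) (x, q) := by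
        apply lintegral_congr
        intro x
        rw [← lintegral_indicator ((measurableSet_cone lam x).inter hW)]
        apply lintegral_congr
        intro q
        by_cases hq : q ∈ cone lam x ∩ W
        · have h' : ((x, q) : ℝ × (ℝ × ℝ)) ∈ S := ⟨hq.1.1, hq.2⟩
          rw [indicator_of_mem hq, indicator_of_mem h']
        · have h' : ((x, q) : ℝ × (ℝ × ℝ)) ∉ S := fun h' => hq ⟨⟨h'.1, hW0 q h'.2⟩, h'.2⟩
          rw [indicator_of_notMem hq, indicator_of_notMem h']
    _ = ∫⁻ q, ∫⁻ x, S.indicator (fun w => ENNReal.ofReal (gsq F w.2)) (x, q) :=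
        lintegral_lintegral_swap hG.aemeasurable
    _ ≤ ∫⁻ q, W.indicator (fun q => ENNReal.ofReal (2 * lam) *
          ENNReal.ofReal (q.2 * gsq F q)) q := by
        refine lintegral_mono (fun q => ?_)
        by_cases hq : q ∈ W
        · rw [indicator_of_mem hq]
          have hq0 : 0 < q.2 := hW0 q hq
          calc ∫⁻ t, S.indicator (fun w => ENNReal.ofReal (gsq F w.2)) (t, q)
              ≤ ∫⁻ t, (Icc (q.1 - lam * q.2) (q.1 + lam * q.2)).indicator
                  (fun _ => ENNReal.ofReal (gsq F q)) t := by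
                apply lintegral_mono
                intro t
                simp only
                by_cases h : ((t, q) : ℝ × (ℝ × ℝ)) ∈ S
                · have h1 : |t - q.1| ≤ lam * q.2 := h.1
                  have h1 := abs_le.1 h1
                  have h2 : t ∈ Icc (q.1 - lam * q.2) (q.1 + lam * q.2) :=
                    ⟨by linarith [h1.1], by linarith [h1.2]⟩
                  rw [indicator_of_mem h, indicator_of_mem h2]
                · rw [indicator_of_notMem h]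
                  exact bot_le
            _ = ENNReal.ofReal (2 * lam) * ENNReal.ofReal (q.2 * gsq F q) := by
                rw [lintegral_indicator_const measurableSet_Icc, Real.volume_Icc,
                  ← ENNReal.ofReal_mul (gsq_nonneg F q), ← ENNReal.ofReal_mul (by positivity)]
                congr 1
                ring
        · rw [indicator_of_notMem hq]
          apply le_of_eq
          have : ∀ t : ℝ, S.indicator (fun w => ENNReal.ofReal (gsq F w.2)) (t, q) = 0 :=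
            fun t => indicator_of_notMem (fun h => hq h.2) _
          simp [this]
    _ = ENNReal.ofReal (2 * lam) * ∫⁻ q in W, ENNReal.ofReal (q.2 * gsq F q) := by
        rw [lintegral_indicator hW, lintegral_const_mul' _ _ ENNReal.ofReal_ne_top]

lemma meas_Bx (R : ℝ) : MeasurableSet (Bx R) := by
  have m1 : MeasurableSet {q : ℝ × ℝ | |q.1| ≤ R} :=
    measurableSet_le (by fun_prop) measurable_const
  have m2 : MeasurableSet {q : ℝ × ℝ | 1 / R ≤ q.2} :=
    measurableSet_le measurable_const measurable_snd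
  have m3 : MeasurableSet {q : ℝ × ℝ | q.2 ≤ R} :=
    measurableSet_le measurable_snd measurable_const
  exact m1.inter (m2.inter m3)

lemma deriv_cont {F : ℂ → ℂ} (hF : DifferentiableOn ℂ F uhp) : ContinuousOn (deriv F) uhp :=
  (hF.deriv isOpen_uhp).continuousOn

/-- the part near the boundary of the region -/
lemma near {Yf : ℝ → ℝ} (hY : Continuous Yf) (hY0 : ∀ z, 0 ≤ Yf z) (F : ℂ → ℂ) {xc r σ : ℝ}
    {W : Set (ℝ × ℝ)} (hW : MeasurableSet W)
    (hWsub : ∀ q ∈ W, |q.1 - xc| ≤ r ∧ 0 < q.2 ∧ Yf q.1 ≤ q.2 ∧ q.2 < 2 * Yf q.1 ∧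
      q.2 * ‖deriv F ((q.1 : ℂ) + (q.2 : ℂ) * I)‖ ≤ σ) :
    ∫⁻ q in W, ENNReal.ofReal (q.2 * gsq F q) ≤ ENNReal.ofReal (σ ^ 2 * (2 * r)) := by
  set V : Set (ℝ × ℝ) := {q | |q.1 - xc| ≤ r} ∩ ({q | Yf q.1 ≤ q.2} ∩ {q | q.2 < 2 * Yf q.1})
    with hV
  have hVm : MeasurableSet V := by
    refine (measurableSet_le (by fun_prop) measurable_const).inter
      ((measurableSet_le ?_ measurable_snd).inter (measurableSet_lt measurable_snd ?_))
    · exact hY.measurable.comp measurable_fst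
    · exact (hY.measurable.comp measurable_fst).const_mul 2
  have hfm : Measurable (fun q : ℝ × ℝ => ENNReal.ofReal (σ ^ 2 / Yf q.1)) :=
    ((hY.measurable.comp measurable_fst).const_div (σ ^ 2)).ennreal_ofReal
  calc ∫⁻ q in W, ENNReal.ofReal (q.2 * gsq F q)
      ≤ ∫⁻ q in W, ENNReal.ofReal (σ ^ 2 / Yf q.1) := by
        refine setLIntegral_mono' hW (fun q hq => ?_)
        obtain ⟨h1, h2, h3, h4, h5⟩ := hWsub q hq
        apply ENNReal.ofReal_le_ofReal
        have h6 : 0 < Yf q.1 := by linarith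
        rw [le_div_iff₀ h6]
        unfold gsq
        set D := ‖deriv F ((q.1 : ℂ) + (q.2 : ℂ) * I)‖ with hD
        have h7 : 0 ≤ D := norm_nonneg _
        calc q.2 * D ^ 2 * Yf q.1 ≤ q.2 * D ^ 2 * q.2 := by gcongr
          _ = (q.2 * D) ^ 2 := by ring
          _ ≤ σ ^ 2 := by gcongr
    _ ≤ ∫⁻ q in V, ENNReal.ofReal (σ ^ 2 / Yf q.1) := by
        refine lintegral_mono_set (fun q hq => ?_)
        obtain ⟨h1, h2, h3, h4, h5⟩ := hWsub q hq
        exact ⟨h1, h3, h4⟩
    _ = ∫⁻ q, V.indicator (fun q => ENNReal.ofReal (σ ^ 2 / Yf q.1)) q :=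
        (lintegral_indicator hVm _).symm
    _ = ∫⁻ z, ∫⁻ y, V.indicator (fun q => ENNReal.ofReal (σ ^ 2 / Yf q.1)) (z, y) := by
        rw [Measure.volume_eq_prod]
        exact lintegral_prod _ (hfm.indicator hVm).aemeasurable
    _ ≤ ∫⁻ z, (Icc (xc - r) (xc + r)).indicator (fun _ => ENNReal.ofReal (σ ^ 2)) z := by
        refine lintegral_mono (fun z => ?_)
        simp only
        by_cases hz : z ∈ Icc (xc - r) (xc + r)
        · rw [indicator_of_mem hz]
          calc ∫⁻ y, V.indicator (fun q => ENNReal.ofReal (σ ^ 2 / Yf q.1)) (z, y)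
              ≤ ∫⁻ y, (Ico (Yf z) (2 * Yf z)).indicator
                  (fun _ => ENNReal.ofReal (σ ^ 2 / Yf z)) y := by
                refine lintegral_mono (fun y => ?_)
                simp only
                by_cases h : ((z, y) : ℝ × ℝ) ∈ V
                · have h2 : y ∈ Ico (Yf z) (2 * Yf z) := h.2
                  rw [indicator_of_mem h, indicator_of_mem h2]
                · rw [indicator_of_notMem h]
                  exact bot_le
            _ ≤ ENNReal.ofReal (σ ^ 2) := by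
                rw [lintegral_indicator_const measurableSet_Ico, Real.volume_Ico,
                  ← ENNReal.ofReal_mul (div_nonneg (sq_nonneg _) (hY0 z))]
                apply ENNReal.ofReal_le_ofReal
                rcases (hY0 z).eq_or_lt with h0 | h0
                · rw [← h0]
                  simp only [div_zero, zero_mul]
                  positivity
                · apply le_of_eq
                  field_simp
                  ring
        · rw [indicator_of_notMem hz]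
          apply le_of_eq
          have : ∀ y : ℝ, V.indicator (fun q => ENNReal.ofReal (σ ^ 2 / Yf q.1)) (z, y) = 0 := by
            intro y
            apply indicator_of_notMem
            intro h
            apply hz
            have h1 : |z - xc| ≤ r := h.1
            have h1 := abs_le.1 h1
            exact ⟨by linarith [h1.1], by linarith [h1.2]⟩
          simp [this]
    _ = ENNReal.ofReal (σ ^ 2 * (2 * r)) := by
        rw [lintegral_indicator_const measurableSet_Icc, Real.volume_Icc,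
          ← ENNReal.ofReal_mul (sq_nonneg _)]
        congr 1
        ring

end LE2

theorem stLE2 (hSawG : StSawG) : StLE2 := by
  intro lam b τ p C8 Λ hlam hτ0 hτ1 hlb hp hC8 hΛ
  have hτ' : 0 < 1 - τ := by linarith
  have hb' : 0 < b * (1 - τ) := hlam.trans hlb
  have hb : 0 < b := by
    by_contra hc
    push Not at hc
    nlinarith
  obtain ⟨K, M, hK, hM, hsaw⟩ := hSawG (b * (1 - τ) / 2) (b * (1 - τ)) (by positivity)
    (by linarith)
  set C1 : ℝ := 3 + lam * Λ + 2 * Λ with hC1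
  have hC1pos : 3 ≤ C1 := by rw [hC1]; have : 0 < lam * Λ := by positivity
                             linarith
  set Cb : ℝ := 2 + C1 + M * C1 with hCb
  set CC : ℝ := 1 + 2 * lam * (2 + K) * C1 * C8 ^ 2 with hCC
  have hCb2 : 2 ≤ Cb := by rw [hCb]; nlinarith
  refine ⟨Cb, CC, by linarith, by rw [hCC]; have : 0 < 2 * lam * (2 + K) * C1 * C8 ^ 2 := by positivity
                                  linarith, ?_⟩
  intro u F R hu husc hF hR hHB l j k
  set σ : ℝ := C8 * Real.exp (l / p) with hσ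
  have hσ0 : 0 < σ := by positivity
  have h2j : (0 : ℝ) < (2 : ℝ) ^ j := by positivity
  -- the bound in the region
  have hbd : ∀ q ∈ Bx (Cb * R), q ∈ LE2.Om τ u l →
      |(F ((q.1 : ℂ) + (q.2 : ℂ) * I)).re| + q.2 * ‖deriv F ((q.1 : ℂ) + (q.2 : ℂ) * I)‖ ≤ σ := by
    intro q hq hq'
    refine (hHB q hq).trans ?_
    rw [hσ]
    have h1 : -ut τ u q / p ≤ l / p := by
      apply div_le_div_of_nonneg_right _ hp.le
      linarith [hq'.2]
    gcongr
  by_cases hne : (LE2.Om τ u l).Nonempty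
  swap
  · -- empty region
    have hz : ∀ x : ℝ, cone lam x ∩ Bx R ∩
        {q : ℝ × ℝ | -(l : ℝ) ≤ ut τ u q ∧ q.2 ≤ Λ * (2 : ℝ) ^ j} = ∅ := by
      intro x
      ext q
      simp only [mem_inter_iff, mem_ofPred_eq, mem_empty_iff_false, iff_false]
      rintro ⟨⟨h1, h2⟩, h3, h4⟩
      exact hne ⟨q, h1.2, h3⟩
    simp only [hz, Measure.restrict_empty, lintegral_zero_measure, lintegral_zero]
    exact bot_le
  have hYc := LE2.Y_cont hb hτ1 hu hne
  set Yf := LE2.Y τ u l with hYf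
  -- the Lipschitz function
  set d : ℝ → ℝ := fun z => b * (1 - τ) * max (Yf z) (1 / (2 * R)) with hd
  have hR0 : 0 < R := by linarith
  have hd1 : LipschitzWith 1 d := by
    refine LipschitzWith.of_le_add (fun x y => ?_)
    rw [Real.dist_eq, hd]
    simp only
    have h1 := LE2.Y_lip hb hτ1 hu hne x y
    have h2 : max (Yf x) (1 / (2 * R)) ≤ max (Yf y) (1 / (2 * R)) + |x - y| / (b * (1 - τ)) := by
      have h3 : 0 ≤ |x - y| / (b * (1 - τ)) := by positivity
      apply max_le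
      · linarith [le_max_left (Yf y) (1 / (2 * R))]
      · linarith [le_max_right (Yf y) (1 / (2 * R))]
    calc b * (1 - τ) * max (Yf x) (1 / (2 * R))
        ≤ b * (1 - τ) * (max (Yf y) (1 / (2 * R)) + |x - y| / (b * (1 - τ))) := by gcongr
      _ = _ := by rw [mul_add, mul_div_cancel₀ _ hb'.ne']
  have hd0 : ∀ z, 0 ≤ d z := by
    intro z
    rw [hd]
    have : 0 ≤ max (Yf z) (1 / (2 * R)) := le_max_of_le_left (LE2.Y_nonneg z)
    positivity
  -- the core estimate
  have core : ∀ xc r T : ℝ, 0 < r → 0 < T → |xc| + M * (r + T) ≤ Cb * R →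
      ∫⁻ q in {q : ℝ × ℝ | |q.1 - xc| ≤ r} ∩ ({q | q.2 < T} ∩ (Bx R ∩ {q | Yf q.1 ≤ q.2})),
        ENNReal.ofReal (q.2 * gsq F q) ≤ ENNReal.ofReal (σ ^ 2 * ((2 + K) * (r + T))) := by
    intro xc r T hr hT hxc
    have mBx : MeasurableSet (Bx R) := LE2.meas_Bx R
    have mW : MeasurableSet ({q : ℝ × ℝ | |q.1 - xc| ≤ r} ∩ ({q | q.2 < T} ∩
        (Bx R ∩ {q | Yf q.1 ≤ q.2}))) := by
      refine (measurableSet_le (by fun_prop) measurable_const).inter
        ((measurableSet_lt measurable_snd measurable_const).inter (mBx.inter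
          (measurableSet_le (hYc.measurable.comp measurable_fst) measurable_snd)))
    set W := {q : ℝ × ℝ | |q.1 - xc| ≤ r} ∩ ({q | q.2 < T} ∩ (Bx R ∩ {q | Yf q.1 ≤ q.2})) with hW
    set W1 := W ∩ {q | q.2 < 2 * Yf q.1} with hW1
    set W2 := W ∩ {q | 2 * Yf q.1 ≤ q.2} with hW2
    have mW1 : MeasurableSet W1 := mW.inter
      (measurableSet_lt measurable_snd ((hYc.measurable.comp measurable_fst).const_mul 2))
    have hsub : W ⊆ W1 ∪ W2 := by
      intro q hq
      by_cases h : q.2 < 2 * Yf q.1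
      · exact Or.inl ⟨hq, h⟩
      · exact Or.inr ⟨hq, not_lt.1 h⟩
    have hpos : ∀ q ∈ W, 0 < q.2 := by
      intro q hq
      have h1 : 1 / R ≤ q.2 := hq.2.2.1.2.1
      have h2 : 0 < 1 / R := by positivity
      linarith
    have e1 : ∫⁻ q in W1, ENNReal.ofReal (q.2 * gsq F q) ≤ ENNReal.ofReal (σ ^ 2 * (2 * r)) := by
      refine LE2.near (xc := xc) hYc (fun z => LE2.Y_nonneg z) F mW1 ?_
      intro q hq
      have hq0 := hpos q hq.1
      refine ⟨hq.1.1, hq0, hq.1.2.2.2, hq.2, ?_⟩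
      -- limit argument
      have hcont : ContinuousAt (fun s : ℝ => (q.2 + s) *
          ‖deriv F ((q.1 : ℂ) + ((q.2 + s : ℝ) : ℂ) * I)‖) 0 := by
        have h1 : ContinuousAt (deriv F) ((q.1 : ℂ) + ((q.2 + 0 : ℝ) : ℂ) * I) :=
          (LE2.deriv_cont hF).continuousAt (isOpen_uhp.mem_nhds (by
            rw [add_zero]; exact mem_uhp hq0))
        have h2 : ContinuousAt (fun s : ℝ => (q.1 : ℂ) + ((q.2 + s : ℝ) : ℂ) * I) 0 := by
          fun_prop
        exact (by fun_prop : ContinuousAt (fun s : ℝ => q.2 + s) 0).mul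
          (ContinuousAt.comp (f := fun s : ℝ => (q.1 : ℂ) + ((q.2 + s : ℝ) : ℂ) * I)
            (g := deriv F) h1 h2).norm
      have hlim : Tendsto (fun s : ℝ => (q.2 + s) *
          ‖deriv F ((q.1 : ℂ) + ((q.2 + s : ℝ) : ℂ) * I)‖) (𝓝[>] 0)
          (𝓝 ((q.2 + 0) * ‖deriv F ((q.1 : ℂ) + ((q.2 + 0 : ℝ) : ℂ) * I)‖)) :=
        hcont.tendsto.mono_left nhdsWithin_le_nhds
      rw [add_zero] at hlim
      refine le_of_tendsto hlim ?_
      have hev : ∀ᶠ s : ℝ in 𝓝[>] 0, s ∈ Ioc (0 : ℝ) 1 :=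
        Ioc_mem_nhdsGT one_pos
      filter_upwards [hev] with s hs
      have hmem : ((q.1, q.2 + s) : ℝ × ℝ) ∈ LE2.Om τ u l := by
        refine LE2.mem_of_lt hb hτ1 hu hne ?_
        have : Yf q.1 ≤ q.2 := hq.1.2.2.2
        have := hs.1
        show Yf q.1 < q.2 + s
        linarith
      have hBx : ((q.1, q.2 + s) : ℝ × ℝ) ∈ Bx (Cb * R) := by
        obtain ⟨h1, h2, h3⟩ := hq.1.2.2.1
        refine ⟨?_, ?_, ?_⟩
        · show |q.1| ≤ Cb * R
          nlinarith
        · show 1 / (Cb * R) ≤ q.2 + s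
          have h4 : 1 / (Cb * R) ≤ 1 / R := by
            apply one_div_le_one_div_of_le hR0
            nlinarith
          linarith [hs.1]
        · show q.2 + s ≤ Cb * R
          have := hs.2
          nlinarith
      have h5 := hbd _ hBx hmem
      have h6 := abs_nonneg (F (((q.1, q.2 + s) : ℝ × ℝ).1 +
        ((((q.1, q.2 + s) : ℝ × ℝ).2 : ℝ) : ℂ) * I)).re
      simp only at h5 h6
      linarith
    have e2 : ∫⁻ q in W2, ENNReal.ofReal (q.2 * gsq F q) ≤
        ENNReal.ofReal (K * σ ^ 2 * (r + T)) := by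
      refine le_trans (lintegral_mono_set ?_) (hsaw F hF d xc r T σ hd1 hd0 hr hT hσ0.le ?_)
      · intro q hq
        have hq0 := hpos q hq.1
        refine ⟨hq0, hq.1.2.1, hq.1.1, ?_⟩
        have h1 : 2 * Yf q.1 ≤ q.2 := hq.2
        have h2 : 1 / R ≤ q.2 := hq.1.2.2.1.2.1
        have h3 : 1 / (2 * R) = 1 / R / 2 := by field_simp
        rw [hd]
        simp only
        have h4 : max (Yf q.1) (1 / (2 * R)) ≤ q.2 / 2 := by
          apply max_le
          · linarith
          · rw [h3]; linarith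
        calc b * (1 - τ) * max (Yf q.1) (1 / (2 * R)) ≤ b * (1 - τ) * (q.2 / 2) := by gcongr
          _ = b * (1 - τ) / 2 * q.2 := by ring
      · intro z y hy hyT hz hdz
        have h1 : max (Yf z) (1 / (2 * R)) < y := by
          rw [hd] at hdz
          simp only at hdz
          exact lt_of_mul_lt_mul_left hdz hb'.le
        have h2 : Yf z < y := (le_max_left _ _).trans_lt h1
        have h3 : 1 / (2 * R) < y := (le_max_right _ _).trans_lt h1
        have hmem : ((z, y) : ℝ × ℝ) ∈ LE2.Om τ u l := LE2.mem_of_lt hb hτ1 hu hne h2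
        have hBx : ((z, y) : ℝ × ℝ) ∈ Bx (Cb * R) := by
          refine ⟨?_, ?_, ?_⟩
          · show |z| ≤ Cb * R
            have : |z| ≤ |z - xc| + |xc| := by
              have := abs_add_le (z - xc) xc
              simpa using this
            linarith
          · show 1 / (Cb * R) ≤ y
            have h4 : 1 / (Cb * R) ≤ 1 / (2 * R) := by
              apply one_div_le_one_div_of_le (by positivity)
              nlinarith
            linarith
          · show y ≤ Cb * R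
            linarith [abs_nonneg xc]
        have h5 := hbd _ hBx hmem
        have h6 : 0 ≤ y * ‖deriv F ((z : ℂ) + (y : ℂ) * I)‖ := by positivity
        simp only at h5
        linarith
    calc ∫⁻ q in W, ENNReal.ofReal (q.2 * gsq F q)
        ≤ ∫⁻ q in W1 ∪ W2, ENNReal.ofReal (q.2 * gsq F q) := lintegral_mono_set hsub
      _ ≤ (∫⁻ q in W1, ENNReal.ofReal (q.2 * gsq F q)) +
            ∫⁻ q in W2, ENNReal.ofReal (q.2 * gsq F q) :=
          lintegral_union_le _ _ _
      _ ≤ ENNReal.ofReal (σ ^ 2 * (2 * r)) + ENNReal.ofReal (K * σ ^ 2 * (r + T)) :=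
          add_le_add e1 e2
      _ = ENNReal.ofReal (σ ^ 2 * (2 * r) + K * σ ^ 2 * (r + T)) :=
          (ENNReal.ofReal_add (by positivity) (by positivity)).symm
      _ ≤ ENNReal.ofReal (σ ^ 2 * ((2 + K) * (r + T))) := by
          apply ENNReal.ofReal_le_ofReal
          have : 0 ≤ σ ^ 2 * (2 * T) := by positivity
          nlinarith
  -- the reduction
  have red : ∀ xc r T : ℝ, 0 < r → 0 < T → |xc| + M * (r + T) ≤ Cb * R →
      r + T ≤ C1 * (2 : ℝ) ^ j →
      (∀ x ∈ dy j k, ∀ q ∈ cone lam x ∩ Bx R ∩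
        {q : ℝ × ℝ | -(l : ℝ) ≤ ut τ u q ∧ q.2 ≤ Λ * (2 : ℝ) ^ j}, |q.1 - xc| ≤ r ∧ q.2 < T) →
      ∫⁻ x in dy j k, (∫⁻ q in cone lam x ∩ Bx R ∩
        {q : ℝ × ℝ | -(l : ℝ) ≤ ut τ u q ∧ q.2 ≤ Λ * (2 : ℝ) ^ j}, ENNReal.ofReal (gsq F q)) ≤
      ENNReal.ofReal (CC * Real.exp (2 * l / p)) * volume (dy j k) := by
    intro xc r T hr hT hxc hrT hcov
    have mdy : MeasurableSet (dy j k) := measurableSet_Ico
    have hvol : volume (dy j k) = ENNReal.ofReal ((2 : ℝ) ^ j) := by
      unfold dy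
      rw [Real.volume_Ico]
      congr 1
      ring
    have mBx : MeasurableSet (Bx R) := LE2.meas_Bx R
    have mW : MeasurableSet ({q : ℝ × ℝ | |q.1 - xc| ≤ r} ∩ ({q | q.2 < T} ∩
        (Bx R ∩ {q | Yf q.1 ≤ q.2}))) := by
      refine (measurableSet_le (by fun_prop) measurable_const).inter
        ((measurableSet_lt measurable_snd measurable_const).inter (mBx.inter
          (measurableSet_le (hYc.measurable.comp measurable_fst) measurable_snd)))
    calc ∫⁻ x in dy j k, (∫⁻ q in cone lam x ∩ Bx R ∩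
          {q : ℝ × ℝ | -(l : ℝ) ≤ ut τ u q ∧ q.2 ≤ Λ * (2 : ℝ) ^ j}, ENNReal.ofReal (gsq F q))
        ≤ ∫⁻ x in dy j k, ∫⁻ q in cone lam x ∩ ({q : ℝ × ℝ | |q.1 - xc| ≤ r} ∩ ({q | q.2 < T} ∩
            (Bx R ∩ {q | Yf q.1 ≤ q.2}))), ENNReal.ofReal (gsq F q) := by
          refine setLIntegral_mono' mdy (fun x hx => ?_)
          refine lintegral_mono_set (fun q hq => ?_)
          obtain ⟨h1, h2⟩ := hcov x hx q hq
          refine ⟨hq.1.1, h1, h2, hq.1.2, ?_⟩
          exact LE2.Y_le (show ((q.1, q.2) : ℝ × ℝ) ∈ LE2.Om τ u l from ⟨hq.1.1.2, hq.2.1⟩)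
      _ ≤ ENNReal.ofReal (2 * lam) * ∫⁻ q in ({q : ℝ × ℝ | |q.1 - xc| ≤ r} ∩ ({q | q.2 < T} ∩
            (Bx R ∩ {q | Yf q.1 ≤ q.2}))), ENNReal.ofReal (q.2 * gsq F q) := by
          refine LE2.tonelli hlam F mW (fun q hq => ?_) _
          have h1 : 1 / R ≤ q.2 := hq.2.2.1.2.1
          have h2 : 0 < 1 / R := by positivity
          linarith
      _ ≤ ENNReal.ofReal (2 * lam) * ENNReal.ofReal (σ ^ 2 * ((2 + K) * (r + T))) := by
          gcongr
          exact core xc r T hr hT hxc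
      _ ≤ ENNReal.ofReal (CC * Real.exp (2 * l / p)) * volume (dy j k) := by
          rw [hvol, ← ENNReal.ofReal_mul (by positivity), ← ENNReal.ofReal_mul (by positivity)]
          apply ENNReal.ofReal_le_ofReal
          have hσ2 : σ ^ 2 = C8 ^ 2 * Real.exp (2 * l / p) := by
            rw [hσ, mul_pow, ← Real.exp_nat_mul]
            congr 2
            push_cast
            ring
          rw [hσ2]
          set e := Real.exp (2 * l / p) with he
          have he0 : 0 < e := Real.exp_pos _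
          calc 2 * lam * (C8 ^ 2 * e * ((2 + K) * (r + T)))
              ≤ 2 * lam * (C8 ^ 2 * e * ((2 + K) * (C1 * (2 : ℝ) ^ j))) := by gcongr
            _ = (2 * lam * (2 + K) * C1 * C8 ^ 2) * e * (2 : ℝ) ^ j := by ring
            _ ≤ CC * e * (2 : ℝ) ^ j := by
                rw [hCC]
                gcongr
                linarith
  by_cases hjR : (2 : ℝ) ^ j ≤ R
  · -- case `2 ^ j ≤ R`
    by_cases hA : ∃ x ∈ dy j k, ∃ q ∈ cone lam x ∩ Bx R ∩
        {q : ℝ × ℝ | -(l : ℝ) ≤ ut τ u q ∧ q.2 ≤ Λ * (2 : ℝ) ^ j}, True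
    · have hgeo : ∀ x ∈ dy j k, ∀ q ∈ cone lam x ∩ Bx R ∩
          {q : ℝ × ℝ | -(l : ℝ) ≤ ut τ u q ∧ q.2 ≤ Λ * (2 : ℝ) ^ j},
          |q.1 - ((k : ℝ) + 1 / 2) * (2 : ℝ) ^ j| ≤ (1 / 2 + lam * Λ) * (2 : ℝ) ^ j ∧
            q.2 < 2 * Λ * (2 : ℝ) ^ j := by
        intro x hx q hq
        have h1 : |x - q.1| ≤ lam * q.2 := hq.1.1.1
        have h2 : q.2 ≤ Λ * (2 : ℝ) ^ j := hq.2.2
        have h3 : |x - ((k : ℝ) + 1 / 2) * (2 : ℝ) ^ j| ≤ 1 / 2 * (2 : ℝ) ^ j := by
          have h4 : (k : ℝ) * (2 : ℝ) ^ j ≤ x := hx.1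
          have h5 : x < ((k : ℝ) + 1) * (2 : ℝ) ^ j := hx.2
          rw [abs_le]
          constructor <;> linarith
        have h6 : lam * q.2 ≤ lam * (Λ * (2 : ℝ) ^ j) := by gcongr
        constructor
        · have h7 := abs_le.1 h1
          have h8 := abs_le.1 h3
          rw [abs_le]
          constructor <;> linarith
        · have : 0 < Λ * (2 : ℝ) ^ j := by positivity
          linarith
      obtain ⟨x0, hx0, q0, hq0, -⟩ := hA
      have h1 := (hgeo x0 hx0 q0 hq0).1
      have h2 : |q0.1| ≤ R := hq0.1.2.1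
      refine red _ _ _ (by positivity) (by positivity) ?_ ?_ hgeo
      · have h3 : |((k : ℝ) + 1 / 2) * (2 : ℝ) ^ j| ≤ R + (1 / 2 + lam * Λ) * (2 : ℝ) ^ j := by
          have h4 := abs_le.1 h1
          have h5 := abs_le.1 h2
          rw [abs_le]
          constructor <;> linarith
        have h6 : (1 / 2 + lam * Λ) * (2 : ℝ) ^ j ≤ C1 * R := by
          have : 1 / 2 + lam * Λ ≤ C1 := by rw [hC1]; linarith
          have h0 : 0 < 1 / 2 + lam * Λ := by positivity
          calc (1 / 2 + lam * Λ) * (2 : ℝ) ^ j ≤ C1 * (2 : ℝ) ^ j := by gcongr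
            _ ≤ C1 * R := by gcongr
        have h7 : (1 / 2 + lam * Λ) * (2 : ℝ) ^ j + 2 * Λ * (2 : ℝ) ^ j ≤ C1 * R := by
          have : 1 / 2 + lam * Λ + 2 * Λ ≤ C1 := by rw [hC1]; linarith
          calc (1 / 2 + lam * Λ) * (2 : ℝ) ^ j + 2 * Λ * (2 : ℝ) ^ j
              = (1 / 2 + lam * Λ + 2 * Λ) * (2 : ℝ) ^ j := by ring
            _ ≤ C1 * (2 : ℝ) ^ j := by gcongr
            _ ≤ C1 * R := by gcongr
        have h8 : M * ((1 / 2 + lam * Λ) * (2 : ℝ) ^ j + 2 * Λ * (2 : ℝ) ^ j) ≤ M * (C1 * R) := by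
          gcongr
        rw [hCb]
        linarith
      · have : 1 / 2 + lam * Λ + 2 * Λ ≤ C1 := by rw [hC1]; linarith
        calc (1 / 2 + lam * Λ) * (2 : ℝ) ^ j + 2 * Λ * (2 : ℝ) ^ j
            = (1 / 2 + lam * Λ + 2 * Λ) * (2 : ℝ) ^ j := by ring
          _ ≤ C1 * (2 : ℝ) ^ j := by gcongr
    · -- no points
      have h0 : ∫⁻ x in dy j k, (∫⁻ q in cone lam x ∩ Bx R ∩
          {q : ℝ × ℝ | -(l : ℝ) ≤ ut τ u q ∧ q.2 ≤ Λ * (2 : ℝ) ^ j}, ENNReal.ofReal (gsq F q)) ≤
          ∫⁻ x in dy j k, 0 := by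
        refine setLIntegral_mono' measurableSet_Ico (fun x hx => ?_)
        have : cone lam x ∩ Bx R ∩
            {q : ℝ × ℝ | -(l : ℝ) ≤ ut τ u q ∧ q.2 ≤ Λ * (2 : ℝ) ^ j} = ∅ := by
          ext q
          simp only [mem_empty_iff_false, iff_false]
          intro hq
          exact hA ⟨x, hx, q, hq, trivial⟩
        rw [this]
        simp
      rw [lintegral_zero] at h0
      exact h0.trans bot_le
  · push Not at hjR
    refine red 0 R (2 * R) hR0 (by positivity) ?_ ?_ ?_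
    · rw [abs_zero, zero_add, hCb]
      have h1 : M * (R + 2 * R) ≤ M * C1 * R := by
        have : R + 2 * R ≤ C1 * R := by nlinarith
        calc M * (R + 2 * R) ≤ M * (C1 * R) := by gcongr
          _ = M * C1 * R := by ring
      nlinarith
    · have : R + 2 * R = 3 * R := by ring
      rw [this]
      have h0 : 0 ≤ C1 := by linarith
      calc 3 * R ≤ C1 * R := by gcongr
        _ ≤ C1 * (2 : ℝ) ^ j := by gcongr
    · intro x hx q hq
      refine ⟨?_, ?_⟩
      · rw [sub_zero]; exact hq.1.2.1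
      · have : q.2 ≤ R := hq.1.2.2.2
        linarith

end Pool.Agent.Work.MP_055a27_an.Wd
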