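import Pool.Agent.Work.MP_055a27_an.Wd.Stmts

/-!
# Item Pk: the peak exponent
-/

set_option autoImplicit false

open MeasureTheory Set Filter Topology Complex Metric
open scoped ENNReal NNReal

namespace Pool.Agent.Work.MP_055a27_an.Wd

namespace Pk

open InnerProductSpace in
/-- logarithms of positive harmonic functions are superharmonic -/
theorem laplacian_log {g : ℂ → ℝ} {z : ℂ} (hg : HarmonicAt g z) (hpos : 0 < g z) (c : ℝ)
    (hc : 0 ≤ c) : Laplacian.laplacian (fun w => c * Real.log (g w)) z ≤ 0 := by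
  have h1 := hg.1
  have hd : ∀ᶠ w in 𝓝 z, DifferentiableAt ℝ g w :=
    (h1.eventually (by simp)).mono fun w hw => hw.differentiableAt (by norm_num)
  have hp : ∀ᶠ w in 𝓝 z, 0 < g w := h1.continuousAt.eventually (lt_mem_nhds hpos)
  have he : fderiv ℝ (fun w => c * Real.log (g w)) =ᶠ[𝓝 z]
      fun w => (c * (g w)⁻¹) • fderiv ℝ g w := by
    filter_upwards [hd, hp] with w hw hw0
    have := ((hw.hasFDerivAt.log hw0.ne').const_mul c).fderiv
    rw [this, smul_smul]
  have hD : DifferentiableAt ℝ (fderiv ℝ g) z :=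
    (h1.fderiv_right (m := 1) (by norm_num)).differentiableAt (by norm_num)
  have hinv : HasFDerivAt (fun w => c * (g w)⁻¹) (c • ((-(g z ^ 2)⁻¹) • fderiv ℝ g z)) z :=
    ((hasDerivAt_inv hpos.ne').comp_hasFDerivAt z (h1.differentiableAt
      (by norm_num)).hasFDerivAt).const_mul c
  have hF := hinv.smul hD.hasFDerivAt
  have h2 := he.fderiv_eq.trans hF.fderiv
  have h0 : Laplacian.laplacian g z = 0 := hg.2.self_of_nhds
  rw [laplacian_eq_iteratedFDeriv_complexPlane] at h0 ⊢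
  simp only [iteratedFDeriv_two_apply, Matrix.cons_val_zero, Matrix.cons_val_one] at h0 ⊢
  rw [h2]
  simp only [_root_.add_apply, _root_.smul_apply,
    ContinuousLinearMap.smulRight_apply, smul_eq_mul]
  have h3 : c * (g z)⁻¹ * (fderiv ℝ (fderiv ℝ g) z 1) 1 + c * (-(g z ^ 2)⁻¹ *
      (fderiv ℝ g z) 1) * (fderiv ℝ g z) 1 + (c * (g z)⁻¹ * (fderiv ℝ (fderiv ℝ g) z I) I +
      c * (-(g z ^ 2)⁻¹ * (fderiv ℝ g z) I) * (fderiv ℝ g z) I) =
      c * (g z)⁻¹ * ((fderiv ℝ (fderiv ℝ g) z 1) 1 + (fderiv ℝ (fderiv ℝ g) z I) I) -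
      c * (g z ^ 2)⁻¹ * (((fderiv ℝ g z) 1) ^ 2 + ((fderiv ℝ g z) I) ^ 2) := by ring
  rw [h3, h0, mul_zero, zero_sub, neg_nonpos]
  positivity

/-- the exponent -/
noncomputable def be (b : ℝ) : ℝ := 2 / Real.pi * Real.arctan b

theorem be_half (b : ℝ) : be b * (Real.pi / 2) = Real.arctan b := by
  unfold be
  have := Real.pi_pos
  field_simp

theorem be_pos {b : ℝ} (hb : 0 < b) : 0 < be b := by
  unfold be
  have h1 := Real.pi_pos
  have h2 := Real.arctan_pos.2 hb
  positivity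

theorem be_lt {b : ℝ} : be b < 1 := by
  have h1 := Real.pi_pos
  have h2 := Real.arctan_lt_pi_div_two b
  have h3 := be_half b
  by_contra h
  have h4 : 1 ≤ be b := not_lt.1 h
  nlinarith

/-- the variable -/
noncomputable def ze (x0 y : ℝ) (z : ℂ) : ℂ := 1 + (z - x0) / (y * I)

theorem div_yI {y : ℝ} (hy : 0 < y) (e : ℂ) :
    e / (y * I) = ((e.im / y : ℝ) : ℂ) - ((e.re / y : ℝ) : ℂ) * I := by
  have hy' : (y : ℂ) ≠ 0 := by exact_mod_cast hy.ne'
  rw [div_eq_iff (mul_ne_zero hy' I_ne_zero)]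
  apply Complex.ext
  · simp
    field_simp
  · simp
    field_simp

theorem ze_re {x0 y : ℝ} (hy : 0 < y) (z : ℂ) : (ze x0 y z).re = 1 + z.im / y := by
  unfold ze
  rw [div_yI hy]
  simp

theorem ze_im {x0 y : ℝ} (hy : 0 < y) (z : ℂ) : (ze x0 y z).im = -((z.re - x0) / y) := by
  unfold ze
  rw [div_yI hy]
  simp

theorem ze_re_pos {x0 y : ℝ} (hy : 0 < y) {z : ℂ} (hz : z ∈ uhp) : 1 < (ze x0 y z).re := by
  rw [ze_re hy]
  have : 0 < z.im / y := div_pos hz hy
  linarith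

theorem ze_slit {x0 y : ℝ} (hy : 0 < y) {z : ℂ} (hz : z ∈ uhp) : ze x0 y z ∈ slitPlane :=
  Or.inl (one_pos.trans (ze_re_pos hy hz))

/-- the positive harmonic function -/
noncomputable def gg (b x0 y : ℝ) (z : ℂ) : ℝ := ((ze x0 y z) ^ ((be b : ℝ) : ℂ)).re

theorem cpow_re {ζ : ℂ} (h : ζ ≠ 0) (t : ℝ) :
    (ζ ^ (t : ℂ)).re = Real.exp (t * Real.log ‖ζ‖) * Real.cos (t * ζ.arg) := by
  rw [cpow_def_of_ne_zero h, exp_re]
  congr 2
  · rw [re_mul_ofReal, log_re, mul_comm]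
  · rw [im_mul_ofReal, log_im, mul_comm]

theorem cpow_im {ζ : ℂ} (h : ζ ≠ 0) (t : ℝ) :
    (ζ ^ (t : ℂ)).im = Real.exp (t * Real.log ‖ζ‖) * Real.sin (t * ζ.arg) := by
  rw [cpow_def_of_ne_zero h, exp_im]
  congr 2
  · rw [re_mul_ofReal, log_re, mul_comm]
  · rw [im_mul_ofReal, log_im, mul_comm]

theorem abs_arg_ze {x0 y : ℝ} (hy : 0 < y) {z : ℂ} (hz : z ∈ uhp) :
    |(ze x0 y z).arg| < Real.pi / 2 :=
  abs_arg_lt_pi_div_two_iff.2 (Or.inl (one_pos.trans (ze_re_pos hy hz)))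

theorem cos_bd {b x0 y : ℝ} (hb : 0 < b) (hy : 0 < y) {z : ℂ} (hz : z ∈ uhp) :
    Real.cos (Real.arctan b) ≤ Real.cos (be b * (ze x0 y z).arg) := by
  rw [← Real.cos_abs (be b * (ze x0 y z).arg), abs_mul, abs_of_pos (be_pos hb)]
  have h1 := Real.arctan_lt_pi_div_two b
  have h2 := be_half b
  have h3 := be_pos hb
  have h4 := abs_arg_ze (x0 := x0) hy hz
  refine Real.cos_le_cos_of_nonneg_of_le_pi (by positivity) (by linarith [Real.pi_pos]) ?_
  rw [← h2]
  exact mul_le_mul_of_nonneg_left h4.le h3.le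

theorem gg_eq {b x0 y : ℝ} (hy : 0 < y) {z : ℂ} (hz : z ∈ uhp) :
    gg b x0 y z = Real.exp (be b * Real.log ‖ze x0 y z‖) *
      Real.cos (be b * (ze x0 y z).arg) :=
  cpow_re (slitPlane_ne_zero (ze_slit hy hz)) _

theorem gg_pos {b x0 y : ℝ} (hb : 0 < b) (hy : 0 < y) {z : ℂ} (hz : z ∈ uhp) :
    0 < gg b x0 y z := by
  rw [gg_eq hy hz]
  exact mul_pos (Real.exp_pos _) ((Real.cos_arctan_pos b).trans_le (cos_bd hb hy hz))

theorem pk_eq (b x0 y : ℝ) (z : ℂ) : pk b x0 y z =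
    (Real.pi / (2 * Real.arctan b)) * Real.log (gg b x0 y z) := rfl

theorem be_inv (b : ℝ) : Real.pi / (2 * Real.arctan b) = (be b)⁻¹ := by
  unfold be
  rw [mul_inv, inv_div, div_eq_mul_inv, mul_inv, div_eq_mul_inv]
  ring

theorem pk_log {b x0 y : ℝ} (hb : 0 < b) (hy : 0 < y) {z : ℂ} (hz : z ∈ uhp) :
    pk b x0 y z = Real.log ‖ze x0 y z‖ +
      (be b)⁻¹ * Real.log (Real.cos (be b * (ze x0 y z).arg)) := by
  have h1 := be_pos hb
  rw [pk_eq, be_inv, gg_eq hy hz, Real.log_mul (Real.exp_pos _).ne'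
    ((Real.cos_arctan_pos b).trans_le (cos_bd hb hy hz)).ne', Real.log_exp, mul_add,
    inv_mul_cancel_left₀ h1.ne']

/-- the constant -/
noncomputable def c1 (b : ℝ) : ℝ := -((be b)⁻¹ * Real.log (Real.cos (Real.arctan b)))

theorem c1_nonneg {b : ℝ} (hb : 0 < b) : 0 ≤ c1 b := by
  unfold c1
  have h1 := be_pos hb
  have h2 : Real.log (Real.cos (Real.arctan b)) ≤ 0 :=
    Real.log_nonpos (Real.cos_arctan_pos b).le (Real.cos_le_one _)
  have h3 : (be b)⁻¹ * Real.log (Real.cos (Real.arctan b)) ≤ 0 :=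
    mul_nonpos_of_nonneg_of_nonpos (by positivity) h2
  linarith

theorem pk_le {b x0 y : ℝ} (hb : 0 < b) (hy : 0 < y) {z : ℂ} (hz : z ∈ uhp) :
    pk b x0 y z ≤ Real.log ‖ze x0 y z‖ := by
  rw [pk_log hb hy hz]
  have h1 := be_pos hb
  have h2 : Real.log (Real.cos (be b * (ze x0 y z).arg)) ≤ 0 :=
    Real.log_nonpos ((Real.cos_arctan_pos b).trans_le (cos_bd hb hy hz)).le (Real.cos_le_one _)
  have h3 : (be b)⁻¹ * Real.log (Real.cos (be b * (ze x0 y z).arg)) ≤ 0 :=
    mul_nonpos_of_nonneg_of_nonpos (by positivity) h2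
  linarith

theorem le_pk {b x0 y : ℝ} (hb : 0 < b) (hy : 0 < y) {z : ℂ} (hz : z ∈ uhp) :
    Real.log ‖ze x0 y z‖ - c1 b ≤ pk b x0 y z := by
  rw [pk_log hb hy hz]
  have h1 := be_pos hb
  have h2 := Real.log_le_log (Real.cos_arctan_pos b) (cos_bd (x0 := x0) hb hy hz)
  have h3 := mul_le_mul_of_nonneg_left h2 (inv_pos.2 h1).le
  unfold c1
  linarith

theorem cpow_hasDerivAt {b x0 y : ℝ} (hy : 0 < y) {z : ℂ} (hz : z ∈ uhp) :
    HasDerivAt (fun w => (ze x0 y w) ^ ((be b : ℝ) : ℂ))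
      (((be b : ℝ) : ℂ) * (ze x0 y z) ^ (((be b : ℝ) : ℂ) - 1) * (1 / (y * I))) z := by
  have h1 : HasDerivAt (ze x0 y) (1 / (y * I)) z := by
    unfold ze
    exact (((hasDerivAt_id z).sub_const (x0 : ℂ)).div_const (y * I)).const_add 1
  exact h1.cpow_const (ze_slit hy hz)

theorem gg_harm {b x0 y : ℝ} (hy : 0 < y) {z : ℂ} (hz : z ∈ uhp) :
    InnerProductSpace.HarmonicAt (gg b x0 y) z := by
  have h1 : DifferentiableOn ℂ (fun w => (ze x0 y w) ^ ((be b : ℝ) : ℂ)) uhp :=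
    fun w hw => (cpow_hasDerivAt hy hw).differentiableAt.differentiableWithinAt
  exact (h1.analyticAt (isOpen_uhp.mem_nhds hz)).harmonicAt_re

theorem gg_c2 {b x0 y : ℝ} (hy : 0 < y) : ContDiffOn ℝ 2 (gg b x0 y) uhp :=
  fun _ hz => (gg_harm hy hz).1.contDiffWithinAt

theorem pk_c2 {b x0 y : ℝ} (hb : 0 < b) (hy : 0 < y) : ContDiffOn ℝ 2 (pk b x0 y) uhp := by
  have h1 : ContDiffOn ℝ 2 (fun z => (Real.pi / (2 * Real.arctan b)) *
      Real.log (gg b x0 y z)) uhp :=
    contDiffOn_const.mul ((gg_c2 hy).log fun _ hz => (gg_pos hb hy hz).ne')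
  exact h1

/-- the sign of the derivative in the directions of the cone -/
theorem key {b θ p q : ℝ} (hb : 0 < b) (hθ : |θ| ≤ Real.pi / 2 - Real.arctan b)
    (h : |p| ≤ b * q) : 0 ≤ Real.cos θ * q + Real.sin θ * p := by
  set α := Real.arctan b with hα
  have hα0 : 0 < α := Real.arctan_pos.2 hb
  have hα1 : α < Real.pi / 2 := Real.arctan_lt_pi_div_two b
  have hcos : 0 < Real.cos α := Real.cos_arctan_pos b
  have hsin : Real.sin α = b * Real.cos α := by
    have h1 := Real.tan_arctan b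
    rw [← hα, Real.tan_eq_sin_div_cos, div_eq_iff hcos.ne'] at h1
    exact h1
  have hθ' := abs_le.1 hθ
  have hq : 0 ≤ q := by
    have := (abs_nonneg p).trans h
    exact nonneg_of_mul_nonneg_right this hb
  have h1 : 0 ≤ Real.cos (θ - α) :=
    Real.cos_nonneg_of_mem_Icc ⟨by linarith, by linarith⟩
  have h2 : 0 ≤ Real.cos (θ + α) :=
    Real.cos_nonneg_of_mem_Icc ⟨by linarith, by linarith⟩
  rw [Real.cos_sub, hsin] at h1
  rw [Real.cos_add, hsin] at h2
  have h3 : 0 ≤ Real.cos θ + b * Real.sin θ := by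
    have : 0 ≤ Real.cos α * (Real.cos θ + b * Real.sin θ) := by linarith
    exact nonneg_of_mul_nonneg_right this hcos
  have h4 : 0 ≤ Real.cos θ - b * Real.sin θ := by
    have : 0 ≤ Real.cos α * (Real.cos θ - b * Real.sin θ) := by linarith
    exact nonneg_of_mul_nonneg_right this hcos
  have hp := abs_le.1 h
  rcases le_total 0 (Real.sin θ) with hs | hs
  · have h5 : Real.sin θ * (-(b * q)) ≤ Real.sin θ * p :=
      mul_le_mul_of_nonneg_left hp.1 hs
    have h6 : 0 ≤ (Real.cos θ - b * Real.sin θ) * q := mul_nonneg h4 hq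
    linarith
  · have h5 : Real.sin θ * (b * q) ≤ Real.sin θ * p :=
      mul_le_mul_of_nonpos_left hp.2 hs
    have h6 : 0 ≤ (Real.cos θ + b * Real.sin θ) * q := mul_nonneg h3 hq
    linarith

theorem gg_mono {b x0 y : ℝ} (hb : 0 < b) (hy : 0 < y) : MonoC b (gg b x0 y) := by
  intro z hz e he
  have he' : |e.re| ≤ b * e.im := he
  have heim : 0 ≤ e.im := nonneg_of_mul_nonneg_right ((abs_nonneg _).trans he') hb
  have hmem : ∀ s : ℝ, 0 ≤ s → z + s * e ∈ uhp := by
    intro s hs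
    have h1 : 0 < z.im := hz
    show 0 < (z + s * e).im
    rw [add_im, im_ofReal_mul]
    have := mul_nonneg hs heim
    linarith
  have hder : ∀ s : ℝ, 0 ≤ s → HasDerivAt (fun t : ℝ => gg b x0 y (z + t * e))
      (((be b : ℝ) : ℂ) * (ze x0 y (z + s * e)) ^ (((be b : ℝ) : ℂ) - 1) * (1 / (y * I)) *
        e).re s := by
    intro s hs
    have h1 : HasDerivAt (fun w : ℂ => z + w * e) e (s : ℂ) := by
      have := ((hasDerivAt_id (s : ℂ)).mul_const e).const_add z
      simpa using this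
    have h2 := (cpow_hasDerivAt (b := b) (x0 := x0) hy (hmem s hs)).comp (s : ℂ) h1
    exact h2.real_of_complex
  have hnn : ∀ s : ℝ, 0 ≤ s → 0 ≤ (((be b : ℝ) : ℂ) * (ze x0 y (z + s * e)) ^
      (((be b : ℝ) : ℂ) - 1) * (1 / (y * I)) * e).re := by
    intro s hs
    set ζ := ze x0 y (z + s * e) with hζ
    have hζ0 : ζ ≠ 0 := slitPlane_ne_zero (ze_slit hy (hmem s hs))
    have e1 : ((be b : ℝ) : ℂ) - 1 = ((be b - 1 : ℝ) : ℂ) := by push_cast; ring
    have e2 : ((be b : ℝ) : ℂ) * ζ ^ (((be b : ℝ) : ℂ) - 1) * (1 / (y * I)) * e =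
        ((be b : ℝ) : ℂ) * (ζ ^ ((be b - 1 : ℝ) : ℂ) * (e / (y * I))) := by
      rw [e1]
      ring
    have e3 : (ζ ^ ((be b - 1 : ℝ) : ℂ) * (e / (y * I))).re =
        Real.exp ((be b - 1) * Real.log ‖ζ‖) *
          (Real.cos ((be b - 1) * ζ.arg) * (e.im / y) +
            Real.sin ((be b - 1) * ζ.arg) * (e.re / y)) := by
      rw [div_yI hy, mul_re, cpow_re hζ0, cpow_im hζ0]
      simp
      ring
    rw [e2, re_ofReal_mul, e3]
    refine mul_nonneg (be_pos hb).le (mul_nonneg (Real.exp_pos _).le (key hb ?_ ?_))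
    · rw [abs_mul, abs_of_neg (by linarith [be_lt (b := b)] : be b - 1 < 0), ← be_half b]
      have h1 := abs_arg_ze (x0 := x0) hy (hmem s hs)
      have h2 : -(be b - 1) * |ζ.arg| ≤ -(be b - 1) * (Real.pi / 2) :=
        mul_le_mul_of_nonneg_left h1.le (by linarith [be_lt (b := b)])
      linarith
    · rw [abs_div, abs_of_pos hy, ← mul_div_assoc]
      exact div_le_div_of_nonneg_right he' hy.le
  have hmono : MonotoneOn (fun t : ℝ => gg b x0 y (z + t * e)) (Icc 0 1) := by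
    refine monotoneOn_of_deriv_nonneg (convex_Icc 0 1) ?_ ?_ ?_
    · intro s hs
      exact (hder s hs.1).continuousAt.continuousWithinAt
    · intro s hs
      exact (hder s (interior_subset hs).1).differentiableAt.differentiableWithinAt
    · intro s hs
      rw [(hder s (interior_subset hs).1).deriv]
      exact hnn s (interior_subset hs).1
  have h := hmono (left_mem_Icc.2 zero_le_one) (right_mem_Icc.2 zero_le_one) zero_le_one
  simpa using h

theorem co_uhp {b : ℝ} (hb : 0 < b) {z e : ℂ} (hz : z ∈ uhp) (he : e ∈ Co b) : z + e ∈ uhp := by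
  have he' : |e.re| ≤ b * e.im := he
  have heim : 0 ≤ e.im := nonneg_of_mul_nonneg_right ((abs_nonneg _).trans he') hb
  have h1 : 0 < z.im := hz
  show 0 < (z + e).im
  rw [add_im]
  linarith

theorem coef_nonneg {b : ℝ} (hb : 0 < b) : 0 ≤ Real.pi / (2 * Real.arctan b) := by
  have h1 := Real.arctan_pos.2 hb
  have h2 := Real.pi_pos
  positivity

theorem pk_mono {b x0 y : ℝ} (hb : 0 < b) (hy : 0 < y) : MonoC b (pk b x0 y) := by
  intro z hz e he
  rw [pk_eq, pk_eq]
  exact mul_le_mul_of_nonneg_left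
    (Real.log_le_log (gg_pos hb hy hz) (gg_mono hb hy z hz e he)) (coef_nonneg hb)

theorem one_le_norm {x0 y : ℝ} (hy : 0 < y) {z : ℂ} (hz : z ∈ uhp) : 1 ≤ ‖ze x0 y z‖ :=
  (ze_re_pos hy hz).le.trans ((le_abs_self _).trans (abs_re_le_norm _))

theorem norm_bd {x0 y : ℝ} (hy : 0 < y) {z : ℂ} (hz : z ∈ uhp) :
    ‖z - (x0 + y * I)‖ / y ≤ ‖ze x0 y z‖ := by
  have h1 : 0 < z.im := hz
  have h2 : ze x0 y z = (z - (x0 - y * I)) / (y * I) := by
    unfold ze
    have hy' : (y : ℂ) ≠ 0 := by exact_mod_cast hy.ne'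
    have hI := I_ne_zero
    field_simp
    ring
  have h3 : ‖(y : ℂ) * I‖ = y := by
    rw [norm_mul, norm_I, mul_one, norm_real, Real.norm_of_nonneg hy.le]
  rw [h2, norm_div, h3]
  refine div_le_div_of_nonneg_right ?_ hy.le
  rw [← Real.sqrt_sq (norm_nonneg (z - (x0 + y * I))),
    ← Real.sqrt_sq (norm_nonneg (z - (x0 - y * I)))]
  refine Real.sqrt_le_sqrt ?_
  rw [← normSq_eq_norm_sq, ← normSq_eq_norm_sq, normSq_apply, normSq_apply]
  simp
  nlinarith

end Pk

open Pk in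
theorem stPk (hLapN : StLapN) : StPk := by
  intro b hb
  have hc1 := c1_nonneg hb
  have hl : 0 ≤ Real.log (2 + b) := Real.log_nonneg (by linarith)
  refine ⟨c1 b + Real.log (2 + b) + 1, by linarith, fun x0 y hy => ?_⟩
  refine ⟨⟨pk_c2 hb hy, fun z hz => laplacian_log (gg_harm hy hz) (gg_pos hb hy hz) _
    (coef_nonneg hb)⟩, pk_mono hb hy, (pk_c2 hb hy).continuousOn, ?_, ?_, ?_, ?_⟩
  · intro z hz
    have h1 := le_pk (x0 := x0) hb hy hz
    have h2 := one_le_norm (x0 := x0) hy hz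
    have h3 := norm_bd (x0 := x0) hy hz
    have h4 : Real.log (1 + ‖z - (x0 + y * I)‖ / y) ≤ Real.log ((2 + b) * ‖ze x0 y z‖) := by
      refine Real.log_le_log ?_ ?_
      · have : 0 ≤ ‖z - (x0 + y * I)‖ / y := by positivity
        linarith
      · have : 0 ≤ b * ‖ze x0 y z‖ := by positivity
        linarith
    rw [Real.log_mul (by linarith) (by linarith)] at h4
    linarith
  · intro s hs
    have hz : (x0 + s * I : ℂ) ∈ uhp := by
      show 0 < (x0 + s * I : ℂ).im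
      simpa using hs
    have h1 := pk_le (b := b) (x0 := x0) hb hy hz
    have h2 : ze x0 y (x0 + s * I) = ((1 + s / y : ℝ) : ℂ) := by
      apply Complex.ext
      · rw [ze_re hy]
        simp
      · rw [ze_im hy]
        simp
    have h3 : 0 ≤ 1 + s / y := by positivity
    rw [h2, norm_real, Real.norm_of_nonneg h3] at h1
    exact h1
  · intro z hz
    have h1 := le_pk (x0 := x0) hb hy hz
    have h2 := Real.log_nonneg (one_le_norm (x0 := x0) hy hz)
    linarith
  · intro x z hz hx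
    have h1 := le_pk (x0 := x0) hb hy hz
    have h2 := one_le_norm (x0 := x0) hy hz
    have hz0 : 0 < z.im := hz
    have h5 : |x - x0| ≤ b * z.im + |z.re - x0| := by
      have : x - x0 = (x - z.re) + (z.re - x0) := by ring
      rw [this]
      exact (abs_add_le _ _).trans (by linarith)
    have h6 : 1 + z.im / y ≤ ‖ze x0 y z‖ := by
      rw [← ze_re hy (x0 := x0)]
      exact (le_abs_self _).trans (abs_re_le_norm _)
    have h7 : |z.re - x0| / y ≤ ‖ze x0 y z‖ := by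
      have := abs_im_le_norm (ze x0 y z)
      rwa [ze_im hy, abs_neg, abs_div, abs_of_pos hy] at this
    have h8 : |x - x0| / y ≤ b * (z.im / y) + |z.re - x0| / y := by
      rw [← mul_div_assoc, ← add_div]
      exact div_le_div_of_nonneg_right h5 hy.le
    have h9 : b * (z.im / y) ≤ b * (‖ze x0 y z‖ - 1) :=
      mul_le_mul_of_nonneg_left (by linarith) hb.le
    have h4 : Real.log (1 + |x - x0| / y) ≤ Real.log ((2 + b) * ‖ze x0 y z‖) := by
      refine Real.log_le_log (by positivity) ?_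
      linarith
    rw [Real.log_mul (by linarith) (by linarith)] at h4
    linarith

end Pool.Agent.Work.MP_055a27_an.Wd
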