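import Pool.Agent.Work.MP_055a27_an.Wd.Stmts

/-!
# Wide cones: item SlM, measurability and finiteness of the levels
-/

open MeasureTheory Set Filter Topology Complex Metric
open scoped ENNReal NNReal

namespace Pool.Agent.Work.MP_055a27_an.Wd

namespace SlM

/-- the point slightly below `q` -/
noncomputable def pt (τ : ℝ) (q : ℝ × ℝ) : ℂ :=
  (q.1 : ℂ) + (((1 - τ) * q.2 : ℝ) : ℂ) * I

lemma pt_re (τ : ℝ) (q : ℝ × ℝ) : (pt τ q).re = q.1 := by
  unfold pt; simp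

lemma pt_im (τ : ℝ) (q : ℝ × ℝ) : (pt τ q).im = (1 - τ) * q.2 := by
  unfold pt; simp

lemma pt_mem {τ : ℝ} (hτ : τ < 1) {q : ℝ × ℝ} (hq : 0 < q.2) : pt τ q ∈ uhp := by
  show 0 < (pt τ q).im
  rw [pt_im]
  exact mul_pos (by linarith) hq

lemma pt_cont (τ : ℝ) : Continuous (pt τ) := by
  unfold pt
  fun_prop

lemma meas_lt {b τ : ℝ} {u : ℂ → ℝ} (hu : SH b u) (hτ : τ < 1) (c : ℝ) :
    MeasurableSet {q : ℝ × ℝ | 0 < q.2 ∧ ut τ u q < c} := by
  have h1 : IsOpen {z : ℂ | z ∈ uhp ∧ u z < c} := by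
    rw [isOpen_iff_mem_nhds]
    rintro z ⟨hz, hzc⟩
    have h2 := hu.usc z hz c hzc
    rw [isOpen_uhp.nhdsWithin_eq hz] at h2
    exact Filter.inter_mem (isOpen_uhp.mem_nhds hz) h2
  have h3 : {q : ℝ × ℝ | 0 < q.2 ∧ ut τ u q < c} =
      {q : ℝ × ℝ | 0 < q.2} ∩ pt τ ⁻¹' {z : ℂ | z ∈ uhp ∧ u z < c} := by
    ext q
    constructor
    · rintro ⟨h, h'⟩
      exact ⟨h, pt_mem hτ h, h'⟩
    · rintro ⟨h, _, h'⟩
      exact ⟨h, h'⟩
  rw [h3]
  exact ((isOpen_lt continuous_const continuous_snd).inter (h1.preimage (pt_cont τ))).measurableSet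

lemma meas_ge {b τ : ℝ} {u : ℂ → ℝ} (hu : SH b u) (hτ : τ < 1) (c : ℝ) :
    MeasurableSet {q : ℝ × ℝ | 0 < q.2 ∧ c ≤ ut τ u q} := by
  have h3 : {q : ℝ × ℝ | 0 < q.2 ∧ c ≤ ut τ u q} =
      {q : ℝ × ℝ | 0 < q.2} \ {q : ℝ × ℝ | 0 < q.2 ∧ ut τ u q < c} := by
    ext q
    constructor
    · rintro ⟨h, h'⟩
      exact ⟨h, fun h2 => absurd h2.2 (not_lt.2 h')⟩
    · rintro ⟨h, h'⟩
      exact ⟨h, not_lt.1 (fun h2 => h' ⟨h, h2⟩)⟩
  rw [h3]
  exact (isOpen_lt continuous_const continuous_snd).measurableSet.diff (meas_lt hu hτ c)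

lemma meas_Bx (R : ℝ) : MeasurableSet (Bx R) := by
  have h : Bx R = {q : ℝ × ℝ | |q.1| ≤ R} ∩ ({q : ℝ × ℝ | 1 / R ≤ q.2} ∩ {q : ℝ × ℝ | q.2 ≤ R}) := by
    ext q; rfl
  rw [h]
  exact (isClosed_le (by fun_prop) continuous_const).measurableSet.inter
    ((isClosed_le continuous_const continuous_snd).measurableSet.inter
      (isClosed_le continuous_snd continuous_const).measurableSet)

lemma meas_coneP (lam : ℝ) : MeasurableSet {r : ℝ × (ℝ × ℝ) | r.2 ∈ cone lam r.1} := by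
  have h : {r : ℝ × (ℝ × ℝ) | r.2 ∈ cone lam r.1} =
      {r : ℝ × (ℝ × ℝ) | |r.1 - r.2.1| ≤ lam * r.2.2} ∩ {r : ℝ × (ℝ × ℝ) | 0 < r.2.2} := by
    ext q; rfl
  rw [h]
  exact (isClosed_le (by fun_prop) (by fun_prop)).measurableSet.inter
    (isOpen_lt continuous_const (by fun_prop)).measurableSet

/-- the level sets, with the condition on the height -/
def lv (τ : ℝ) (u : ℂ → ℝ) (l : ℤ) : Set (ℝ × ℝ) :=
  {q | 0 < q.2 ∧ -(l : ℝ) ≤ ut τ u q} ∩ {q | 0 < q.2 ∧ ut τ u q < -(l : ℝ) + 1}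

lemma meas_lv {b τ : ℝ} {u : ℂ → ℝ} (hu : SH b u) (hτ : τ < 1) (l : ℤ) :
    MeasurableSet (lv τ u l) :=
  (meas_ge hu hτ _).inter (meas_lt hu hτ _)

lemma set_eq (lam τ R x : ℝ) (u : ℂ → ℝ) (l : ℤ) :
    cone lam x ∩ Bx R ∩ {q | -(l : ℝ) ≤ ut τ u q ∧ ut τ u q < -(l : ℝ) + 1} =
      cone lam x ∩ Bx R ∩ lv τ u l := by
  ext q
  constructor
  · rintro ⟨⟨h1, h2⟩, h3, h4⟩
    exact ⟨⟨h1, h2⟩, ⟨h1.2, h3⟩, ⟨h1.2, h4⟩⟩
  · rintro ⟨⟨h1, h2⟩, ⟨_, h3⟩, ⟨_, h4⟩⟩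
    exact ⟨⟨h1, h2⟩, h3, h4⟩

end SlM

open SlM in
theorem stSlM (hBv : StBv) : StSlM := by
  intro lam b τ R u F hlam hτ0 hτ hlb hR hu _
  have hb : 0 < b := by
    by_contra h
    push Not at h
    nlinarith
  have hg : Measurable (fun q : ℝ × ℝ => ENNReal.ofReal (gsq F q)) :=
    (measurable_gsq F).ennreal_ofReal
  refine ⟨fun l => ?_, fun l x hx => ?_, fun x => ?_⟩
  · have hS : MeasurableSet ({r : ℝ × (ℝ × ℝ) | r.2 ∈ cone lam r.1} ∩
        Prod.snd ⁻¹' (Bx R ∩ lv τ u l)) :=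
      (meas_coneP lam).inter (measurable_snd ((meas_Bx R).inter (meas_lv hu hτ l)))
    have h1 : Measurable (fun r : ℝ × (ℝ × ℝ) =>
        ({r : ℝ × (ℝ × ℝ) | r.2 ∈ cone lam r.1} ∩ Prod.snd ⁻¹' (Bx R ∩ lv τ u l)).indicator
          (fun r => ENNReal.ofReal (gsq F r.2)) r) :=
      (hg.comp measurable_snd).indicator hS
    have h2 := h1.lintegral_prod_right' (ν := (volume : Measure (ℝ × ℝ)))
    have h3 : Sl lam τ R u F l = fun x => ∫⁻ q : ℝ × ℝ,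
        ({r : ℝ × (ℝ × ℝ) | r.2 ∈ cone lam r.1} ∩ Prod.snd ⁻¹' (Bx R ∩ lv τ u l)).indicator
          (fun r => ENNReal.ofReal (gsq F r.2)) (x, q) := by
      funext x
      unfold Sl
      rw [set_eq, ← lintegral_indicator
        (((measurableSet_cone lam x).inter (meas_Bx R)).inter (meas_lv hu hτ l))]
      refine lintegral_congr (fun q => ?_)
      by_cases hq : q ∈ cone lam x ∩ Bx R ∩ lv τ u l
      · rw [indicator_of_mem hq, indicator_of_mem]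
        exact ⟨hq.1.1, hq.1.2, hq.2⟩
      · rw [indicator_of_notMem hq, indicator_of_notMem]
        rintro ⟨h4, h5, h6⟩
        exact hq ⟨⟨h4, h5⟩, h6⟩
    rw [h3]
    exact h2
  · have h1 : (cone lam x ∩ Bx R ∩ {q | -(l : ℝ) ≤ ut τ u q ∧ ut τ u q < -(l : ℝ) + 1}).Nonempty := by
      by_contra h
      rw [not_nonempty_iff_eq_empty] at h
      apply hx
      unfold Sl
      rw [h, Measure.restrict_empty, lintegral_zero_measure]
    obtain ⟨q, ⟨hq1, hq2⟩, hq3, hq4⟩ := h1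
    have hz : pt τ q ∈ uhp := pt_mem hτ hq1.2
    have h2 : |x - (pt τ q).re| ≤ b * (pt τ q).im := by
      rw [pt_re, pt_im]
      refine hq1.1.trans ?_
      have := mul_le_mul_of_nonneg_right hlb hq1.2.le
      linarith
    have h3 := (hBv b u hb hu).2.1 x (pt τ q) hz h2
    have h4 : u (pt τ q) = ut τ u q := rfl
    rw [h4] at h3
    linarith
  · have h1 : cone lam x ∩ Bx R = ⋃ l : ℤ, (cone lam x ∩ Bx R ∩
        {q | -(l : ℝ) ≤ ut τ u q ∧ ut τ u q < -(l : ℝ) + 1}) := by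
      ext q
      rw [mem_iUnion]
      constructor
      · intro hq
        refine ⟨⌈-ut τ u q⌉, hq, ?_, ?_⟩
        · have := Int.le_ceil (-ut τ u q)
          linarith
        · have := Int.ceil_lt_add_one (-ut τ u q)
          linarith
      · rintro ⟨l, hl⟩
        exact hl.1
    have hm : ∀ l : ℤ, MeasurableSet (cone lam x ∩ Bx R ∩
        {q | -(l : ℝ) ≤ ut τ u q ∧ ut τ u q < -(l : ℝ) + 1}) := by
      intro l
      rw [set_eq]
      exact ((measurableSet_cone lam x).inter (meas_Bx R)).inter (meas_lv hu hτ l)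
    have hd : Pairwise (Function.onFun Disjoint (fun l : ℤ => cone lam x ∩ Bx R ∩
        {q | -(l : ℝ) ≤ ut τ u q ∧ ut τ u q < -(l : ℝ) + 1})) := by
      intro l l' hll'
      rw [Function.onFun, Set.disjoint_left]
      rintro q ⟨_, h2, h3⟩ ⟨_, h4, h5⟩
      apply hll'
      have h6 : (l : ℝ) < l' + 1 := by linarith
      have h7 : (l' : ℝ) < l + 1 := by linarith
      have h8 : l < l' + 1 := by exact_mod_cast h6
      have h9 : l' < l + 1 := by exact_mod_cast h7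
      omega
    conv_lhs => rw [h1]
    rw [lintegral_iUnion hm hd]
    rfl

end Pool.Agent.Work.MP_055a27_an.Wd
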