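import Pool.Agent.Work.MP_055a27_an.Wd.Stmts
import Pool.Agent.Work.MP_055a27_an.Fn.Core
import Pool.Agent.Work.MP_055a27_an.Bd.B12

/-!
# Wide cones: one step of the estimate for the nested sets
-/

set_option autoImplicit false

open MeasureTheory Set Filter Topology Complex Metric
open scoped ENNReal NNReal

namespace Pool.Agent.Work.MP_055a27_an.Wd

open Crit (NTc Nice NI)
open Fn (StarC)
open Sg (An)

namespace Stp

/-- Positivity of the Poisson integral. -/
lemma poisson_nn {V : ℝ → ℝ} (hV : ∀ t, 0 ≤ V t) {z y : ℝ} (hy : 0 < y) :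
    0 ≤ poisson V z y := by
  rw [poisson_eq_integral]
  have h : 0 ≤ ∫ t : ℝ, y * V t / ((z - t) ^ 2 + y ^ 2) := by
    refine integral_nonneg fun t => ?_
    have := hV t
    show 0 ≤ y * V t / ((z - t) ^ 2 + y ^ 2)
    positivity
  have := Real.pi_pos
  positivity

/-- The analytic factor. -/
noncomputable def HH (G : ℂ → ℂ) (V : ℝ → ℝ) (w : ℂ) : ℂ := G w * Complex.exp (-schw V w)

lemma norm_HH (G : ℂ → ℂ) {V : ℝ → ℝ} (hV : Admissible V) {z y : ℝ} (hy : 0 < y) :
    ‖HH G V (z + y * I)‖ = ‖G (z + y * I)‖ * Real.exp (-poisson V z y) := by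
  rw [HH, norm_mul, Complex.norm_exp, Complex.neg_re, schw_re hV hy]

lemma hasDerivAt_HH {G : ℂ → ℂ} {V : ℝ → ℝ} (hV : Admissible V) {w : ℂ} (hw : 0 < w.im)
    (hG : DifferentiableAt ℂ G w) :
    HasDerivAt (HH G V) ((deriv G w - dschw V w * G w) * Complex.exp (-schw V w)) w := by
  have h0 : HasDerivAt (fun v => -schw V v) (-dschw V w) w := (hasDerivAt_schw hV hw).neg
  have h := hG.hasDerivAt.mul h0.cexp
  unfold HH
  convert! h using 1
  ring

/-- The pointwise bound of the factor and of its derivative. -/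
lemma factor {G : ℂ → ℂ} {V : ℝ → ℝ} (hV : Admissible V) {z y B C r ρ : ℝ} (hy : 0 < y)
    (hB : 1 ≤ B) (hr : 0 < r) (hρ : 0 < ρ) (hρr : ρ ≤ 3 * r)
    (hG : DifferentiableAt ℂ G (z + y * I)) (h1 : 1 / B ≤ ‖G (z + y * I)‖)
    (h2 : ‖deriv G (z + y * I)‖ ≤ B / r) (h3 : poisson V z y ≤ C)
    (h4 : ‖dschw V (z + y * I)‖ ≤ C / ρ) :
    Real.exp (-C) / B ≤ ‖HH G V (z + y * I)‖ ∧
      ‖deriv (HH G V) (z + y * I)‖ ≤ (3 * B ^ 2 + C) / ρ * ‖HH G V (z + y * I)‖ := by
  have hB0 : 0 < B := by linarith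
  have him : 0 < ((z : ℂ) + y * I).im := by simpa using hy
  constructor
  · rw [norm_HH G hV hy]
    calc Real.exp (-C) / B = 1 / B * Real.exp (-C) := by ring
      _ ≤ ‖G (z + y * I)‖ * Real.exp (-poisson V z y) := by
        refine mul_le_mul h1 (Real.exp_le_exp.2 (by linarith)) (Real.exp_pos _).le (norm_nonneg _)
  · rw [(hasDerivAt_HH hV him hG).deriv, norm_mul, Complex.norm_exp, Complex.neg_re,
      schw_re hV hy, norm_HH G hV hy, ← mul_assoc]
    refine mul_le_mul_of_nonneg_right ?_ (Real.exp_pos _).le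
    have h5 : B / r ≤ 3 * B ^ 2 / ρ * ‖G (z + y * I)‖ := by
      have e1 : 1 ≤ B * ‖G (z + y * I)‖ := by
        rw [div_le_iff₀ hB0] at h1
        linarith
      have e2 : B / r ≤ 3 * B / ρ := by
        rw [div_le_div_iff₀ hr hρ]
        nlinarith
      calc B / r ≤ 3 * B / ρ := e2
        _ = 3 * B / ρ * 1 := (mul_one _).symm
        _ ≤ 3 * B / ρ * (B * ‖G (z + y * I)‖) := by gcongr
        _ = _ := by ring
    calc ‖deriv G (z + y * I) - dschw V (z + y * I) * G (z + y * I)‖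
        ≤ ‖deriv G (z + y * I)‖ + ‖dschw V (z + y * I)‖ * ‖G (z + y * I)‖ := by
          rw [← norm_mul]; exact norm_sub_le _ _
      _ ≤ 3 * B ^ 2 / ρ * ‖G (z + y * I)‖ + C / ρ * ‖G (z + y * I)‖ := by
          refine add_le_add (h2.trans h5) ?_
          exact mul_le_mul_of_nonneg_right h4 (norm_nonneg _)
      _ = _ := by ring

/-- The function to which the inequality of the problem is applied. -/
noncomputable def FF (f : ℝ → ℝ) (G : ℂ → ℂ) (V : ℝ → ℝ) (w : ℂ) : ℂ :=
  Complex.exp (schw f w) * HH G V w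

lemma norm_FF {f : ℝ → ℝ} (G : ℂ → ℂ) {V : ℝ → ℝ} (hfm : Measurable f) (hf1 : ∀ t, |f t| ≤ 1)
    (hV : Admissible V) {z y : ℝ} (hy : 0 < y) :
    ‖FF f G V (z + y * I)‖ ≤ Real.exp 1 * (‖G (z + y * I)‖ * Real.exp (-poisson V z y)) := by
  have hfa : Admissible f := admissible_of_bounded hfm.aestronglyMeasurable hf1
  rw [FF, norm_mul, Complex.norm_exp, schw_re hfa hy, norm_HH G hV hy]
  refine mul_le_mul_of_nonneg_right (Real.exp_le_exp.2 ?_) (by positivity)
  exact (abs_le.1 (abs_poisson_le hfm hf1 hy)).2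

lemma ntc_le {F : ℂ → ℂ} {b x : ℝ} {M : ℝ≥0∞}
    (h : ∀ z y : ℝ, 0 < y → |x - z| ≤ b * y → ENNReal.ofReal ‖F (z + y * I)‖ ≤ M) :
    NTc F b x ≤ M := by
  unfold NTc
  exact iSup_le fun z => iSup_le fun y => iSup_le fun hzy => h z y hzy.1 hzy.2

lemma le_ntc {F : ℂ → ℂ} {b x z y : ℝ} (hy : 0 < y) (h : |x - z| ≤ b * y) :
    ENNReal.ofReal ‖F (z + y * I)‖ ≤ NTc F b x := by
  unfold NTc
  exact le_iSup_of_le z (le_iSup_of_le y (le_iSup_of_le ⟨hy, h⟩ le_rfl))

/-- The pointwise bound of the maximal function. -/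
lemma ntc_bound {f : ℝ → ℝ} (G : ℂ → ℂ) {V : ℝ → ℝ} {O : ℕ → Set ℝ} {b p B x0 r : ℝ} (m : ℕ)
    (hp : 0 < p) (hB : 1 ≤ B) (hfm : Measurable f) (hf1 : ∀ t, |f t| ≤ 1)
    (hV : Admissible V) (hV0 : ∀ t, 0 ≤ V t)
    (hO : ∀ j, O j ⊆ Ioo (x0 - 3 * r) (x0 + 3 * r))
    (hG : ∀ x ∈ Icc (x0 - 3 * r) (x0 + 3 * r), ∀ z y : ℝ, 0 < y → |x - z| ≤ b * y →
      ‖G (z + y * I)‖ ≤ B)
    (hVO : ∀ (j : ℕ) (x z y : ℝ), j ≤ m → x ∉ O j → 0 < y → |x - z| ≤ b * y →
      ((m : ℝ) - j) / 2 ≤ poisson V z y) (x : ℝ) :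
    (NTc (FF f G V) b x) ^ p ≤ ENNReal.ofReal ((Real.exp 1 * B) ^ p) *
      ((O m).indicator (fun _ => (1 : ℝ≥0∞)) x + ∑ j ∈ Finset.range m,
        (O j).indicator (fun _ => ENNReal.ofReal (Real.exp (-(p / 2 * ((m : ℝ) - 1 - j))))) x +
        ENNReal.ofReal (Real.exp (-(p / 2 * m))) * (NTc G b x) ^ p) := by
  classical
  have hB0 : 0 < B := by linarith
  have heB : 0 < Real.exp 1 * B := by positivity
  by_cases hx : ∃ j, x ∈ O j ∧ j ≤ m
  · -- the largest index
    set k := Nat.findGreatest (fun j => x ∈ O j) m with hk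
    obtain ⟨j0, hj0, hj0m⟩ := hx
    have hkO : x ∈ O k := Nat.findGreatest_spec (P := fun j => x ∈ O j) hj0m hj0
    have hkm : k ≤ m := Nat.findGreatest_le m
    have hxI : x ∈ Icc (x0 - 3 * r) (x0 + 3 * r) := Ioo_subset_Icc_self (hO k hkO)
    rcases Nat.lt_or_ge k m with hlt | hge
    · have hnot : x ∉ O (k + 1) := Nat.findGreatest_is_greatest (P := fun j => x ∈ O j)
        (Nat.lt_succ_self k) hlt
      have h1 : NTc (FF f G V) b x ≤
          ENNReal.ofReal (Real.exp 1 * B * Real.exp (-(1 / 2 * ((m : ℝ) - 1 - k)))) := by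
        refine ntc_le fun z y hy hzy => ENNReal.ofReal_le_ofReal ?_
        refine (norm_FF G hfm hf1 hV hy).trans ?_
        have h2 := hVO (k + 1) x z y hlt hnot hy hzy
        push_cast at h2
        rw [mul_assoc]
        refine mul_le_mul_of_nonneg_left ?_ (Real.exp_pos _).le
        refine mul_le_mul (hG x hxI z y hy hzy) (Real.exp_le_exp.2 ?_) (Real.exp_pos _).le hB0.le
        linarith
      have h3 : (NTc (FF f G V) b x) ^ p ≤ ENNReal.ofReal ((Real.exp 1 * B) ^ p) *
          ENNReal.ofReal (Real.exp (-(p / 2 * ((m : ℝ) - 1 - k)))) := by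
        refine (ENNReal.rpow_le_rpow h1 hp.le).trans (le_of_eq ?_)
        rw [ENNReal.ofReal_rpow_of_nonneg (by positivity) hp.le,
          Real.mul_rpow heB.le (Real.exp_pos _).le, ENNReal.ofReal_mul (by positivity),
          ← Real.exp_mul]
        congr 3
        ring
      refine h3.trans (mul_le_mul_right ?_ _)
      refine le_trans ?_ (le_trans (le_add_self) (le_self_add))
      refine le_trans (le_of_eq ?_) (Finset.single_le_sum (fun _ _ => zero_le)
        (Finset.mem_range.2 hlt))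
      rw [indicator_of_mem hkO]
    · have hkm' : k = m := le_antisymm hkm hge
      have hOm : x ∈ O m := hkm' ▸ hkO
      have h1 : NTc (FF f G V) b x ≤ ENNReal.ofReal (Real.exp 1 * B) := by
        refine ntc_le fun z y hy hzy => ENNReal.ofReal_le_ofReal ?_
        refine (norm_FF G hfm hf1 hV hy).trans ?_
        refine mul_le_mul_of_nonneg_left ?_ (Real.exp_pos _).le
        calc ‖G (z + y * I)‖ * Real.exp (-poisson V z y) ≤ B * 1 := by
              refine mul_le_mul (hG x hxI z y hy hzy) ?_ (Real.exp_pos _).le hB0.le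
              refine Real.exp_le_one_iff.2 ?_
              have := poisson_nn hV0 (z := z) hy
              linarith
          _ = B := mul_one _
      have h3 : (NTc (FF f G V) b x) ^ p ≤ ENNReal.ofReal ((Real.exp 1 * B) ^ p) * 1 := by
        refine (ENNReal.rpow_le_rpow h1 hp.le).trans (le_of_eq ?_)
        rw [ENNReal.ofReal_rpow_of_nonneg (by positivity) hp.le, mul_one]
      refine h3.trans (mul_le_mul_right ?_ _)
      rw [indicator_of_mem hOm]
      exact le_trans le_self_add le_self_add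
  · push Not at hx
    have h0 : x ∉ O 0 := fun h => absurd (hx 0 h) (by omega)
    have h1 : NTc (FF f G V) b x ≤
        ENNReal.ofReal (Real.exp 1 * Real.exp (-(m / 2 : ℝ))) * NTc G b x := by
      refine ntc_le fun z y hy hzy => ?_
      refine le_trans (ENNReal.ofReal_le_ofReal (norm_FF G hfm hf1 hV hy)) ?_
      have h2 := hVO 0 x z y (Nat.zero_le _) h0 hy hzy
      rw [Nat.cast_zero, sub_zero] at h2
      calc ENNReal.ofReal (Real.exp 1 * (‖G (z + y * I)‖ * Real.exp (-poisson V z y)))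
          ≤ ENNReal.ofReal (Real.exp 1 * Real.exp (-(m / 2 : ℝ)) * ‖G (z + y * I)‖) := by
            refine ENNReal.ofReal_le_ofReal ?_
            rw [mul_assoc]
            refine mul_le_mul_of_nonneg_left ?_ (Real.exp_pos _).le
            rw [mul_comm]
            refine mul_le_mul_of_nonneg_right (Real.exp_le_exp.2 (by linarith)) (norm_nonneg _)
        _ = ENNReal.ofReal (Real.exp 1 * Real.exp (-(m / 2 : ℝ))) *
            ENNReal.ofReal ‖G (z + y * I)‖ := ENNReal.ofReal_mul (by positivity)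
        _ ≤ _ := mul_le_mul_right (le_ntc hy hzy) _
    have h3 : (NTc (FF f G V) b x) ^ p ≤ ENNReal.ofReal ((Real.exp 1 * B) ^ p) *
        (ENNReal.ofReal (Real.exp (-(p / 2 * m))) * (NTc G b x) ^ p) := by
      refine (ENNReal.rpow_le_rpow h1 hp.le).trans ?_
      rw [ENNReal.mul_rpow_of_nonneg _ _ hp.le,
        ENNReal.ofReal_rpow_of_nonneg (by positivity) hp.le, ← mul_assoc,
        ← ENNReal.ofReal_mul (by positivity)]
      refine mul_le_mul_left (ENNReal.ofReal_le_ofReal ?_) _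
      rw [Real.mul_rpow (Real.exp_pos _).le (Real.exp_pos _).le, ← Real.exp_mul (-(m / 2 : ℝ))]
      have e1 : -(m / 2 : ℝ) * p = -(p / 2 * m) := by ring
      rw [e1]
      refine mul_le_mul_of_nonneg_right ?_ (Real.exp_pos _).le
      refine Real.rpow_le_rpow (Real.exp_pos _).le ?_ hp.le
      exact le_mul_of_one_le_right (Real.exp_pos _).le hB
    refine h3.trans (mul_le_mul_right ?_ _)
    exact le_add_self

/-- The upper bound of the integral of the maximal function. -/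
lemma int_bound {f : ℝ → ℝ} (G : ℂ → ℂ) {V U : ℝ → ℝ} {O : ℕ → Set ℝ} {b p B x0 r Z : ℝ} (m : ℕ)
    (hU : IsWeight U)
    (hp : 0 < p) (hB : 1 ≤ B) (hfm : Measurable f) (hf1 : ∀ t, |f t| ≤ 1)
    (hV : Admissible V) (hV0 : ∀ t, 0 ≤ V t) (hOm : ∀ j, MeasurableSet (O j))
    (hO : ∀ j, O j ⊆ Ioo (x0 - 3 * r) (x0 + 3 * r))
    (hG : ∀ x ∈ Icc (x0 - 3 * r) (x0 + 3 * r), ∀ z y : ℝ, 0 < y → |x - z| ≤ b * y →
      ‖G (z + y * I)‖ ≤ B)
    (hVO : ∀ (j : ℕ) (x z y : ℝ), j ≤ m → x ∉ O j → 0 < y → |x - z| ≤ b * y →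
      ((m : ℝ) - j) / 2 ≤ poisson V z y)
    (hZ : NI U G b p ≤ ENNReal.ofReal Z) :
    ∫⁻ x, (NTc (FF f G V) b x) ^ p * ENNReal.ofReal (U x) ≤
      ENNReal.ofReal ((Real.exp 1 * B) ^ p) * (wm U (O m) +
      ∑ j ∈ Finset.range m, ENNReal.ofReal (Real.exp (-(p / 2 * ((m : ℝ) - 1 - j)))) *
        wm U (O j) + ENNReal.ofReal (Real.exp (-(p / 2 * m)) * Z)) := by
  rw [lintegral_mul_weight_univ hU]
  have hm1 : Measurable fun x => (O m).indicator (fun _ => (1 : ℝ≥0∞)) x :=
    measurable_const.indicator (hOm m)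
  have hm2 : Measurable fun x => ∑ j ∈ Finset.range m,
        (O j).indicator (fun _ => ENNReal.ofReal (Real.exp (-(p / 2 * ((m : ℝ) - 1 - j))))) x :=
    Finset.measurable_sum _ fun j _ => measurable_const.indicator (hOm j)
  refine (lintegral_mono (ntc_bound G m hp hB hfm hf1 hV hV0 hO hG hVO)).trans ?_
  rw [lintegral_const_mul' _ _ ENNReal.ofReal_ne_top]
  refine mul_le_mul_right ?_ _
  have hm12 : Measurable fun x => (O m).indicator (fun _ => (1 : ℝ≥0∞)) x +
      ∑ j ∈ Finset.range m,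
        (O j).indicator (fun _ => ENNReal.ofReal (Real.exp (-(p / 2 * ((m : ℝ) - 1 - j))))) x :=
    hm1.add hm2
  rw [lintegral_add_left hm12, lintegral_add_left hm1,
    lintegral_const_mul' _ _ ENNReal.ofReal_ne_top, lintegral_indicator_const (hOm m), one_mul,
    lintegral_finsetSum _ fun j _ => measurable_const.indicator (hOm j)]
  refine add_le_add (add_le_add le_rfl (le_of_eq ?_)) ?_
  · refine Finset.sum_congr rfl fun j _ => ?_
    rw [lintegral_indicator_const (hOm j)]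
  · rw [ENNReal.ofReal_mul (Real.exp_pos _).le]
    refine mul_le_mul_right ?_ _
    rw [← lintegral_mul_weight_univ hU]
    exact hZ

/-- The choice of the number of levels. -/
lemma choose_N {p X t : ℝ} (hp : 0 < p) (ht : 0 < t) (hX : 0 ≤ X) :
    ∃ N : ℕ, 1 ≤ N ∧ Real.exp (-(p / 4)) ≤ (1 / 2) ^ (1 / N : ℝ) ∧ X ≤ (N * t) ^ (p / 2) := by
  obtain ⟨N, hN⟩ := exists_nat_ge (1 + 4 * Real.log 2 / p + X ^ (2 / p) / t)
  have hlog : 0 < Real.log 2 := Real.log_pos (by norm_num)
  have h1 : 0 ≤ 4 * Real.log 2 / p := by positivity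
  have h2 : 0 ≤ X ^ (2 / p) / t := by positivity
  have hN1 : (1 : ℝ) ≤ N := by linarith
  have hN0 : (0 : ℝ) < N := by linarith
  refine ⟨N, by exact_mod_cast hN1, ?_, ?_⟩
  · have h3 : 4 * Real.log 2 / p ≤ N := by linarith
    rw [div_le_iff₀ hp] at h3
    have e : (1 / 2 : ℝ) ^ (1 / N : ℝ) = Real.exp (-(Real.log 2 / N)) := by
      rw [Real.rpow_def_of_pos (by norm_num), one_div, Real.log_inv]
      congr 1
      ring
    rw [e]
    refine Real.exp_le_exp.2 ?_
    have h4 : Real.log 2 / N ≤ p / 4 := by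
      rw [div_le_div_iff₀ hN0 (by norm_num)]
      linarith
    linarith
  · have h3 : X ^ (2 / p) / t ≤ N := by linarith
    rw [div_le_iff₀ ht] at h3
    have e : X = (X ^ (2 / p)) ^ (p / 2) := by
      rw [← Real.rpow_mul hX]
      have : 2 / p * (p / 2) = 1 := by field_simp
      rw [this, Real.rpow_one]
    rw [e]
    exact Real.rpow_le_rpow (by positivity) h3 (by positivity)

end Stp

theorem stStp (hHfu : StHfu) (hSFb : Sg.StSFb) (hAnC : Sg.StAnC) : StStp := by
  have _ := hSFb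
  have _ := hAnC
  intro C0 lam b p B hlam hb hp hB η hη
  obtain ⟨K0, C, hK0, hC, hH⟩ := hHfu lam b hlam hb
  have hB0 : 0 < B := by linarith
  set g : ℝ := Real.exp (-C) / B with hg
  have hg0 : 0 < g := by positivity
  set Bt : ℝ := 3 * B ^ 2 + C with hBt
  have hBt0 : 0 ≤ Bt := by positivity
  -- choice of `A`
  obtain ⟨A, hA16, hAl, hAm⟩ : ∃ A : ℝ, 16 ≤ A ∧ 8 * lam ≤ A ∧
      7 + 5 * Bt ≤ A * Real.exp (-10) / 4 := by
    refine ⟨max (max 16 (8 * lam)) ((7 + 5 * Bt) * 4 * Real.exp 10), ?_, ?_, ?_⟩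
    · exact (le_max_left _ _).trans (le_max_left _ _)
    · exact (le_max_right _ _).trans (le_max_left _ _)
    · have h1 : (7 + 5 * Bt) * 4 * Real.exp 10 ≤
          max (max 16 (8 * lam)) ((7 + 5 * Bt) * 4 * Real.exp 10) := le_max_right _ _
      have h2 : Real.exp 10 * Real.exp (-10) = 1 := by rw [← Real.exp_add]; norm_num
      calc 7 + 5 * Bt = (7 + 5 * Bt) * 4 * (Real.exp 10 * Real.exp (-10)) / 4 := by
            rw [h2]; ring
        _ = ((7 + 5 * Bt) * 4 * Real.exp 10) * Real.exp (-10) / 4 := by ring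
        _ ≤ _ := by gcongr
  have hA0 : 0 < A := by linarith
  set t : ℝ := Real.exp (-22) * lam / 32 * g ^ 2 with ht
  have ht0 : 0 < t := by positivity
  obtain ⟨N, hN1, hNe, hNX⟩ := Stp.choose_N (X := C0 * (Real.exp 1 * B) ^ p / η) hp ht0
    (by positivity)
  set K : ℝ := max K0 (20 * A ^ 2) with hK
  have hKK0 : K0 ≤ K := le_max_left _ _
  have hKA : 20 * A ^ 2 ≤ K := le_max_right _ _
  have hK3 : 3 ≤ K := hK0.trans hKK0
  have hK1 : 1 ≤ K := by linarith
  have hKpos : 0 < K := by linarith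
  refine ⟨K, N, hK3, hN1, hNe, ?_⟩
  intro U G x0 r Z τ E n m hU hS hG hr hZ hGB hGL hNI hE hEsub hτ hvol hn hτn
  -- the sets
  set O : ℕ → Set ℝ := fun j => dset E (τ * K ^ j) with hOdef
  have hOanti : Antitone O := by
    intro l l' hll
    apply dset_anti
    have : K ^ l ≤ K ^ l' := pow_le_pow_right₀ hK1 hll
    gcongr
  have hopen : ∀ l, IsOpen (O l) := fun l => isOpen_dset _ _
  have hEfin : volume E ≠ ∞ := ((measure_mono hEsub).trans_lt measure_Ioo_lt_top).ne
  have hO0 : O 0 ⊆ Ioo (x0 - 3 * r) (x0 + 3 * r) := by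
    intro s hs
    obtain ⟨e, he, hte⟩ := dset_near hEfin (by positivity : 0 < τ * K ^ 0)
      (by simpa using hvol) hs
    have h1 := hEsub he
    rw [abs_lt] at hte
    exact ⟨by linarith [h1.1, hte.1], by linarith [h1.2, hte.2]⟩
  have hbdd : ∀ l, O l ⊆ Ioo (x0 - 3 * r) (x0 + 3 * r) := fun l =>
    (hOanti (Nat.zero_le l)).trans hO0
  have hc : ∀ l, CoUnb (O l) := by
    intro l
    apply coUnb_of_bounded (M := |x0| + 3 * r)
    refine (hbdd l).trans (Ioo_subset_Ioo ?_ ?_)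
    · linarith [neg_abs_le x0]
    · linarith [le_abs_self x0]
  have hτm : τ * K ^ m < 1 := by
    refine lt_of_le_of_lt ?_ hτn
    have : K ^ m ≤ K ^ n := pow_le_pow_right₀ hK1 (by omega)
    gcongr
  obtain ⟨hVa, hV0, hVO, hVd⟩ := hH K τ E m hKK0 hτ hτm hE (isBounded_Ioo _ _ |>.subset hEsub)
  set V : ℝ → ℝ := cnt (fun j => dset E (τ * K ^ j)) m with hVdef
  set O' : ℕ → Set ℝ := fun l => O (m + l) with hO'
  have hO'anti : Antitone O' := fun l l' h => hOanti (by omega)
  have hO'open : ∀ l, IsOpen (O' l) := fun l => hopen _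
  have hO'c : ∀ l, CoUnb (O' l) := fun l => hc _
  set f : ℝ → ℝ := mlf A O' N with hf
  have hfm : Measurable f := measurable_mlf hO'open hO'c N
  have hf1 : ∀ s, |f s| ≤ 1 := abs_mlf_le hO'anti N
  have hfa : Admissible f := admissible_of_bounded hfm.aestronglyMeasurable hf1
  obtain ⟨δ, M, hδ, hGM⟩ := hG
  have hGd : ∀ w : ℂ, 0 < w.im → DifferentiableAt ℂ G w := fun w hw => (hGM w (by linarith)).1
  have hHd : DifferentiableOn ℂ (Stp.HH G V) {w : ℂ | 0 < w.im} := fun w hw =>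
    (Stp.hasDerivAt_HH hVa hw (hGd w hw)).differentiableAt.differentiableWithinAt
  -- the lower bound
  have hlow : ∀ x ∈ O n, ∃ ε0 : ℝ, 0 < ε0 ∧ ∀ ε : ℝ, 0 < ε → ε < ε0 →
      ENNReal.ofReal (N * t) ≤ ∫⁻ q in cone lam x,
        ENNReal.ofReal (‖deriv (Stp.FF f G V) (q.1 + (q.2 + ε : ℝ) * I)‖ ^ 2) := by
    intro x hx
    have hxO : ∀ l ≤ N, x ∈ O' l := fun l hl => hOanti (show m + l ≤ n by omega) hx
    have hxm : x ∈ O m := by simpa [hO'] using hxO 0 (Nat.zero_le _)
    have hxI := hbdd m hxm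
    set ρ : ℝ := rho (O m) x with hρ
    have hρ0 : 0 < ρ := rho_pos (hopen m) (hc m) hxm
    have hρr : ρ ≤ 3 * r := by
      rcases le_total x x0 with h | h
      · have h1 : x0 - 3 * r ∉ O m := fun h => lt_irrefl _ (hbdd m h).1
        refine (rho_le h1).trans ?_
        rw [abs_le]
        constructor <;> linarith [hxI.1, hxI.2]
      · have h1 : x0 + 3 * r ∉ O m := fun h => lt_irrefl _ (hbdd m h).2
        refine (rho_le h1).trans ?_
        rw [abs_le]
        constructor <;> linarith [hxI.1, hxI.2]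
    have hρN : 0 < rho (O' N) x := rho_pos (hO'open N) (hO'c N) (hxO N le_rfl)
    refine ⟨rho (O' N) x / (2 * A), by positivity, fun ε hε hε0 => ?_⟩
    rw [lt_div_iff₀ (by positivity)] at hε0
    refine Fn.Osc.area_lower (G := Stp.HH G V) (r := ρ) (B := Bt) (g := g) hlam hA16 hAl hBt0 hAm
      hO'anti hO'open hO'c hρ0 hε hxO ?_ ?_ (by linarith) hHd hg0.le ?_
    · intro l _
      have h1 : rho (O' l) x ≤ ρ := rho_mono (hopen m) (hc m) (hOanti (by omega)) x
      linarith
    · intro l hl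
      obtain ⟨a0, ha0, hxa⟩ := exists_rho (hO'open l) (hO'c l) x
      have hρl := rho_pos (hO'open l) (hO'c l) (hxO l hl.le)
      have h1 := weak_local (E := E) hE.measurableSet (τ := τ * K ^ (m + l))
        (τ' := τ * K ^ (m + (l + 1))) (x := x) (a0 := a0) (ρ := rho (O' l) x) (by positivity) (by
          rw [← add_assoc, pow_succ]
          have : 0 < τ * K ^ (m + l) := by positivity
          nlinarith) ha0 hρl hxa.le
      refine h1.trans (ENNReal.ofReal_le_ofReal ?_)
      have e : τ * K ^ (m + l) / (τ * K ^ (m + (l + 1))) = 1 / K := by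
        rw [← add_assoc, pow_succ]
        field_simp
      rw [e]
      have h2 : 20 * (1 / K) ≤ 1 / A ^ 2 := by
        rw [mul_one_div, div_le_div_iff₀ hKpos (by positivity)]
        linarith
      calc 20 * (1 / K) * rho (O' l) x ≤ 1 / A ^ 2 * rho (O' l) x := by gcongr
        _ = _ := by ring
    · intro z y hy hyρ hzx
      have hzx' : |x - z| ≤ lam * y := by rw [abs_sub_comm]; exact hzx
      obtain ⟨h1, h2⟩ := hVd x z y hxm hy hzx' hyρ
      have him : (0 : ℝ) ≤ ((z : ℂ) + y * I).im := by simpa using hy.le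
      have hdist : ‖(z : ℂ) + y * I - x0‖ ≤ 10 * (1 + lam) * r := by
        have e1 : (z : ℂ) + y * I - x0 = ((z - x : ℝ) : ℂ) + ((x - x0 : ℝ) : ℂ) + (y : ℂ) * I := by
          push_cast; ring
        have e2 : |x - x0| ≤ 3 * r := by
          rw [abs_le]
          constructor <;> linarith [hxI.1, hxI.2]
        rw [e1]
        calc ‖((z - x : ℝ) : ℂ) + ((x - x0 : ℝ) : ℂ) + (y : ℂ) * I‖
            ≤ ‖((z - x : ℝ) : ℂ)‖ + ‖((x - x0 : ℝ) : ℂ)‖ + ‖(y : ℂ) * I‖ := norm_add₃_le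
          _ = |z - x| + |x - x0| + y := by
              rw [Complex.norm_real, Complex.norm_real, norm_mul, Complex.norm_real,
                Complex.norm_I, mul_one, Real.norm_eq_abs, Real.norm_eq_abs, Real.norm_eq_abs,
                abs_of_pos hy]
          _ ≤ lam * y + 3 * r + y := by linarith
          _ ≤ 10 * (1 + lam) * r := by
              have e3 : y ≤ 3 * r := hyρ.trans hρr
              have e4 : lam * y ≤ lam * (3 * r) := by gcongr
              nlinarith
      obtain ⟨h3, h4⟩ := hGL _ him hdist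
      have him' : (0 : ℝ) < ((z : ℂ) + y * I).im := by simpa using hy
      exact Stp.factor hVa hy hB hr hρ0 hρr (hGd _ him') h3 h4 h1 h2
  -- the bound of the function
  have hFd : ∀ w : ℂ, 0 < w.im → DifferentiableAt ℂ (Stp.FF f G V) w := fun w hw =>
    ((hasDerivAt_schw hfa hw).cexp.mul
      (Stp.hasDerivAt_HH hVa hw (hGd w hw))).differentiableAt
  have hFb : ∀ w : ℂ, 0 < w.im → ‖Stp.FF f G V w‖ ≤ Real.exp 1 * M := by
    intro w hw
    have hwe : (w.re : ℂ) + w.im * I = w := Complex.re_add_im w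
    rw [← hwe]
    refine (Stp.norm_FF G hfm hf1 hVa hw).trans ?_
    refine mul_le_mul_of_nonneg_left ?_ (Real.exp_pos _).le
    have h1 : ‖G (w.re + w.im * I)‖ ≤ M := by
      rw [hwe]; exact (hGM w (by linarith)).2
    have h2 : Real.exp (-poisson V w.re w.im) ≤ 1 := by
      refine Real.exp_le_one_iff.2 ?_
      have := Stp.poisson_nn (fun s => (hV0 s).1) (z := w.re) hw
      linarith
    calc ‖G (w.re + w.im * I)‖ * Real.exp (-poisson V w.re w.im)
        ≤ ‖G (w.re + w.im * I)‖ * 1 := mul_le_mul_of_nonneg_left h2 (norm_nonneg _)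
      _ ≤ M := by rw [mul_one]; exact h1
  have key := Fn.Core.star_lower hb hp hU hS hFd hFb (hopen n).measurableSet
    (Q := N * t) (by positivity) hlow
  have hup := Stp.int_bound (f := f) G m hU hp hB hfm hf1 hVa (fun s => (hV0 s).1)
    (fun j => (hopen j).measurableSet) hbdd hGB hVO hNI
  -- conclusion
  have hNt : 0 < (N : ℝ) * t := by
    have : (0 : ℝ) < N := by exact_mod_cast hN1
    positivity
  have hpos : 0 < ((N : ℝ) * t) ^ (p / 2) := by positivity
  set W := wm U (O m) +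
      ∑ j ∈ Finset.range m, ENNReal.ofReal (Real.exp (-(p / 2 * ((m : ℝ) - 1 - j)))) *
        wm U (O j) + ENNReal.ofReal (Real.exp (-(p / 2 * m)) * Z) with hW
  have h1 : ENNReal.ofReal (((N : ℝ) * t) ^ (p / 2)) * wm U (O n) ≤
      ENNReal.ofReal (((N : ℝ) * t) ^ (p / 2)) * (ENNReal.ofReal η * W) := by
    calc ENNReal.ofReal (((N : ℝ) * t) ^ (p / 2)) * wm U (O n)
        ≤ C0 * (ENNReal.ofReal ((Real.exp 1 * B) ^ p) * W) :=
          key.trans (mul_le_mul_right hup _)
      _ = ENNReal.ofReal (C0 * (Real.exp 1 * B) ^ p) * W := by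
          rw [← mul_assoc, ENNReal.ofReal_mul (by positivity), ENNReal.ofReal_coe_nnreal]
      _ ≤ ENNReal.ofReal (((N : ℝ) * t) ^ (p / 2) * η) * W := by
          refine mul_le_mul_left (ENNReal.ofReal_le_ofReal ?_) _
          rw [div_le_iff₀ hη] at hNX
          exact hNX
      _ = _ := by rw [ENNReal.ofReal_mul hpos.le, mul_assoc]
  exact (ENNReal.mul_le_mul_iff_right (by simpa using hpos) ENNReal.ofReal_ne_top).1 h1

end Pool.Agent.Work.MP_055a27_an.Wd
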