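import Pool.Agent.Work.MP_055a27_an.Wd.Stmts
import Pool.Agent.Work.MP_055a27_an.Bd.B16

open MeasureTheory Set Filter Topology Complex Metric
open scoped ENNReal NNReal

set_option autoImplicit false

namespace Pool.Agent.Work.MP_055a27_an.Wd

namespace Wco

lemma sh_const (b a : ℝ) : SH b (fun _ => a) where
  usc := upperSemicontinuousOn_const
  mono := fun _ _ _ _ => le_rfl
  bdd := ⟨a, fun _ _ => le_rfl⟩
  mean := by
    intro z _ r hr _
    rw [setAverage_const]
    · exact (measure_ball_pos volume z hr).ne'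
    · exact measure_ball_lt_top.ne

lemma sh_smul {b a : ℝ} {u : ℂ → ℝ} (ha : 0 ≤ a) (hu : SH b u) : SH b (fun z => a * u z) where
  usc := by
    rcases ha.eq_or_lt with h | h
    · have : (fun z => a * u z) = fun _ => (0 : ℝ) := by
        funext z
        rw [← h, zero_mul]
      rw [this]
      exact upperSemicontinuousOn_const
    · intro z hz y hy
      have h1 : u z < y / a := by
        rw [lt_div_iff₀ h, mul_comm]
        exact hy
      filter_upwards [hu.usc z hz (y / a) h1] with z' hz'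
      rw [lt_div_iff₀ h, mul_comm] at hz'
      exact hz'
  mono := fun z hz e he => mul_le_mul_of_nonneg_left (hu.mono z hz e he) ha
  bdd := by
    obtain ⟨m, hm⟩ := hu.bdd
    exact ⟨a * m, fun z hz => mul_le_mul_of_nonneg_left (hm z hz) ha⟩
  mean := by
    intro z hz r hr hr'
    have h := hu.mean z hz r hr hr'
    rw [setAverage_eq] at h ⊢
    rw [integral_const_mul, smul_eq_mul] at *
    calc _ = a * ((volume.real (ball z r))⁻¹ * ∫ x in ball z r, u x) := by ring
      _ ≤ _ := mul_le_mul_of_nonneg_left h ha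

lemma sh_int {b : ℝ} (hb : 0 < b) {u : ℂ → ℝ} (hu : SH b u) {z : ℂ} (hz : z ∈ uhp) {r : ℝ}
    (hr : 0 < r) (hr' : r ≤ z.im / 2) : IntegrableOn u (ball z r) := by
  obtain ⟨m, hm⟩ := hu.bdd
  exact Gro.integrable hb hu hz hr hr' m fun z' hz' => hm z' (Up.mem_uhp_of_ball hr' hz hz')

lemma sh_add {b : ℝ} (hb : 0 < b) {u v : ℂ → ℝ} (hu : SH b u) (hv : SH b v) :
    SH b (fun z => u z + v z) where
  usc := hu.usc.add hv.usc
  mono := fun z hz e he => add_le_add (hu.mono z hz e he) (hv.mono z hz e he)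
  bdd := by
    obtain ⟨m, hm⟩ := hu.bdd
    obtain ⟨m', hm'⟩ := hv.bdd
    exact ⟨m + m', fun z hz => add_le_add (hm z hz) (hm' z hz)⟩
  mean := by
    intro z hz r hr hr'
    have h1 := hu.mean z hz r hr hr'
    have h2 := hv.mean z hz r hr hr'
    rw [setAverage_eq] at h1 h2 ⊢
    rw [integral_add (sh_int hb hu hz hr hr') (sh_int hb hv hz hr hr'), smul_add]
    exact add_le_add h1 h2

lemma sh_sum {b : ℝ} (hb : 0 < b) (s : Finset ℕ) (f : ℕ → ℂ → ℝ) (hf : ∀ i, SH b (f i)) :
    SH b (fun z => ∑ i ∈ s, f i z) := by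
  classical
  induction s using Finset.induction_on with
  | empty => simpa using sh_const b 0
  | insert i s hi ih =>
    have : (fun z => ∑ j ∈ insert i s, f j z) = fun z => f i z + ∑ j ∈ s, f j z := by
      funext z
      rw [Finset.sum_insert hi]
    rw [this]
    exact sh_add hb (hf i) ih

lemma shift_mem {z : ℂ} (hz : z ∈ uhp) {s : ℝ} (hs : 0 ≤ s) : z + (s : ℂ) * I ∈ uhp := by
  show 0 < Complex.im _
  have hz' : 0 < z.im := hz
  simp
  linarith

lemma sh_shift {b s : ℝ} {u : ℂ → ℝ} (hs : 0 ≤ s) (hu : SH b u) :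
    SH b (fun z => u (z + (s : ℂ) * I)) where
  usc := by
    have h := hu.usc.comp (g := fun z : ℂ => z + (s : ℂ) * I) (t := uhp) (by fun_prop)
      (fun z hz => shift_mem hz hs)
    exact h
  mono := by
    intro z hz e he
    have h := hu.mono (z + (s : ℂ) * I) (shift_mem hz hs) e he
    have e1 : z + (s : ℂ) * I + e = z + e + (s : ℂ) * I := by ring
    rw [e1] at h
    exact h
  bdd := by
    obtain ⟨m, hm⟩ := hu.bdd
    exact ⟨m, fun z hz => hm _ (shift_mem hz hs)⟩
  mean := by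
    intro z hz r hr hr'
    have h := hu.mean (z + (s : ℂ) * I) (shift_mem hz hs) r hr (by
      have : (z + (s : ℂ) * I).im = z.im + s := by simp
      rw [this]
      linarith)
    rw [setAverage_eq] at h ⊢
    have h1 : ∫ w in ball z r, u (w + (s : ℂ) * I) =
        ∫ w in ball (z + (s : ℂ) * I) r, u w := by
      have h2 := (measurePreserving_add_right (volume : Measure ℂ)
        ((s : ℂ) * I)).setIntegral_preimage_emb (measurableEmbedding_addRight _) u
        (ball (z + (s : ℂ) * I) r)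
      have h3 : (fun w : ℂ => w + (s : ℂ) * I) ⁻¹' ball (z + (s : ℂ) * I) r = ball z r := by
        ext w
        simp [mem_ball]
      rw [h3] at h2
      exact h2
    have h4 : volume.real (ball z r) = volume.real (ball (z + (s : ℂ) * I) r) := by
      rw [Up.volR _ _ hr.le, Up.volR _ _ hr.le]
    rw [h1, h4]
    exact h

lemma sh_of_c2 (hSubM : StSubM) {b : ℝ} {v : ℂ → ℝ} (h : C2S v) (hm : MonoC b v)
    (hc : ContinuousOn v uhp) (hbd : BddB v) : SH b v where
  usc := hc.upperSemicontinuousOn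
  mono := hm
  bdd := hbd
  mean := by
    intro z hz r hr hr'
    have hz' : 0 < z.im := hz
    exact hSubM v h z hz r hr (by linarith)


/-- the weights of the translates -/
noncomputable def dlt (cd a : ℝ) (m : ℕ) : ℝ := cd * ((2 * a)⁻¹) ^ m

/-- the modified function -/
noncomputable def un (cd a b : ℝ) (k N : ℕ) (u : ℂ → ℝ) (x0 y : ℝ) (z : ℂ) : ℝ :=
  (1 - ∑ m ∈ Finset.range N, dlt cd a m) * u z +
    ∑ m ∈ Finset.range N, dlt cd a m * u (z + ((2 ^ m * y : ℝ) : ℂ) * I) +
    (k : ℝ) * pk b x0 y z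

lemma dlt_nonneg {cd a : ℝ} (hcd : 0 < cd) (ha : 1 ≤ a) (m : ℕ) : 0 ≤ dlt cd a m := by
  unfold dlt
  positivity

lemma dlt_sum {cd a : ℝ} (hcd : 0 < cd) (ha : 1 ≤ a) (N : ℕ) :
    ∑ m ∈ Finset.range N, dlt cd a m ≤ 2 * cd := by
  have h1 : ∀ m, dlt cd a m ≤ cd * (1 / 2) ^ m := by
    intro m
    refine mul_le_mul_of_nonneg_left (pow_le_pow_left₀ (by positivity) ?_ m) hcd.le
    rw [one_div]
    exact inv_anti₀ (by norm_num) (by linarith)
  calc ∑ m ∈ Finset.range N, dlt cd a m ≤ ∑ m ∈ Finset.range N, cd * (1 / 2) ^ m :=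
        Finset.sum_le_sum fun m _ => h1 m
    _ ≤ ∑' m : ℕ, cd * (1 / 2) ^ m :=
        ((summable_geometric_of_lt_one (by norm_num) (by norm_num)).mul_left cd).sum_le_tsum _
          (fun m _ => by positivity)
    _ = 2 * cd := by
        rw [tsum_mul_left, tsum_geometric_of_lt_one (by norm_num) (by norm_num)]
        ring

lemma sh_un (hSubM : StSubM) (hPk : StPk) {cd a b : ℝ} (hb : 0 < b) (hcd : 0 < cd)
    (hcd4 : cd ≤ 1 / 4) (ha : 1 ≤ a) (k N : ℕ) {u : ℂ → ℝ} (hu : SH b u) (x0 y : ℝ)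
    (hy : 0 < y) : SH b (un cd a b k N u x0 y) := by
  obtain ⟨C, hC, h⟩ := hPk b hb
  obtain ⟨h1, h2, h3, h4, h5, h6, h7⟩ := h x0 y hy
  have hs := dlt_sum hcd ha N
  refine sh_add hb (sh_add hb (sh_smul (by linarith) hu)
    (sh_sum hb _ _ fun m => sh_smul (dlt_nonneg hcd ha m) (sh_shift (by positivity) hu)))
    (sh_smul (Nat.cast_nonneg k) (sh_of_c2 hSubM h1 h2 h3 ⟨-C, h6⟩))

lemma un_upper (hPk : StPk) {cd a b γ K : ℝ} {μ : ℕ} (hb : 0 < b) (hcd : 0 < cd)
    (hcd4 : cd ≤ 1 / 4) (hγ : 0 < γ) (ha : a = (2 : ℝ) ^ γ) (hK : 1 ≤ K)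
    (hcdK : cd * (K * 4 ^ γ) ≤ 1) (k N : ℕ) {u : ℂ → ℝ} (hG : Gro (2 ^ μ) γ K u) (x0 y : ℝ)
    (hy : 0 < y) (hfl : Fl (2 ^ μ) u x0 y) :
    un cd a b k N u x0 y ((x0 : ℂ) + (y : ℂ) * I + 2 * ((y / 4 : ℝ) : ℂ) * I) ≤
      u ((x0 : ℂ) + (y : ℂ) * I) + (K * (3 / 2) ^ γ + 2 + k * Real.log (5 / 2)) := by
  have ha1 : 1 ≤ a := by
    rw [ha]
    exact Real.one_le_rpow (by norm_num) hγ.le
  have ha0 : 0 < a := by linarith
  have hσ := dlt_sum hcd ha1 N
  have hσ0 : 0 ≤ ∑ m ∈ Finset.range N, dlt cd a m :=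
    Finset.sum_nonneg fun m _ => dlt_nonneg hcd ha1 m
  set w : ℂ := (x0 : ℂ) + (y : ℂ) * I with hw
  set w' : ℂ := w + 2 * ((y / 4 : ℝ) : ℂ) * I with hw'
  have e1 : w' = (x0 : ℂ) + ((y + y / 2 : ℝ) : ℂ) * I := by
    rw [hw', hw]
    push_cast
    ring
  have h1 : u w' ≤ u w + K * (3 / 2) ^ γ := by
    rw [e1]
    have h := hG x0 y (y / 2) hy (by positivity) hfl
    have e2 : 1 + y / 2 / y = 3 / 2 := by
      field_simp
      norm_num
    rw [e2] at h
    exact h
  have h2 : ∀ m : ℕ, dlt cd a m * u (w' + ((2 ^ m * y : ℝ) : ℂ) * I) ≤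
      dlt cd a m * u w + (1 / 2) ^ m := by
    intro m
    have e2 : w' + ((2 ^ m * y : ℝ) : ℂ) * I =
        (x0 : ℂ) + ((y + (y / 2 + 2 ^ m * y) : ℝ) : ℂ) * I := by
      rw [e1]
      push_cast
      ring
    rw [e2]
    have h := hG x0 y (y / 2 + 2 ^ m * y) hy (by positivity) hfl
    have e3 : 1 + (y / 2 + 2 ^ m * y) / y = 3 / 2 + 2 ^ m := by
      field_simp
      ring
    rw [e3] at h
    have h4 : (3 / 2 + (2 : ℝ) ^ m) ^ γ ≤ 4 ^ γ * a ^ m := by
      have e4 : a ^ m = ((2 : ℝ) ^ m) ^ γ := by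
        rw [ha, ← Real.rpow_natCast, ← Real.rpow_natCast, ← Real.rpow_mul (by norm_num),
          ← Real.rpow_mul (by norm_num), mul_comm]
      rw [e4, ← Real.mul_rpow (by norm_num) (by positivity)]
      refine Real.rpow_le_rpow (by positivity) ?_ hγ.le
      have : (1 : ℝ) ≤ 2 ^ m := one_le_pow₀ (by norm_num)
      linarith
    have h5 : dlt cd a m * (K * (3 / 2 + (2 : ℝ) ^ m) ^ γ) ≤ (1 / 2) ^ m := by
      calc dlt cd a m * (K * (3 / 2 + (2 : ℝ) ^ m) ^ γ)
          ≤ dlt cd a m * (K * (4 ^ γ * a ^ m)) :=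
            mul_le_mul_of_nonneg_left (mul_le_mul_of_nonneg_left h4 (by linarith))
              (dlt_nonneg hcd ha1 m)
        _ = (cd * (K * 4 ^ γ)) * (((2 * a)⁻¹) ^ m * a ^ m) := by
            unfold dlt
            ring
        _ = (cd * (K * 4 ^ γ)) * (1 / 2) ^ m := by
            rw [← mul_pow]
            congr 2
            field_simp
        _ ≤ 1 * (1 / 2) ^ m := mul_le_mul_of_nonneg_right hcdK (by positivity)
        _ = _ := one_mul _
    have h6 := mul_le_mul_of_nonneg_left h (dlt_nonneg hcd ha1 m)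
    rw [mul_add] at h6
    linarith
  have h3 : ∑ m ∈ Finset.range N, dlt cd a m * u (w' + ((2 ^ m * y : ℝ) : ℂ) * I) ≤
      (∑ m ∈ Finset.range N, dlt cd a m) * u w + 2 := by
    refine (Finset.sum_le_sum fun m _ => h2 m).trans ?_
    rw [Finset.sum_add_distrib, Finset.sum_mul]
    refine add_le_add le_rfl ?_
    calc ∑ m ∈ Finset.range N, (1 / 2 : ℝ) ^ m ≤ ∑' m : ℕ, (1 / 2 : ℝ) ^ m :=
          (summable_geometric_of_lt_one (by norm_num) (by norm_num)).sum_le_tsum _
            (fun m _ => by positivity)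
      _ = 2 := by
          rw [tsum_geometric_of_lt_one (by norm_num) (by norm_num)]
          norm_num
  obtain ⟨C, hC, h⟩ := hPk b hb
  obtain ⟨-, -, -, -, h5, -, -⟩ := h x0 y hy
  have h6 : pk b x0 y w' ≤ Real.log (5 / 2) := by
    rw [e1]
    have h7 := h5 (y + y / 2) (by positivity)
    have e2 : 1 + (y + y / 2) / y = 5 / 2 := by
      field_simp
      norm_num
    rw [e2] at h7
    exact h7
  have h8 : (1 - ∑ m ∈ Finset.range N, dlt cd a m) * u w' ≤
      (1 - ∑ m ∈ Finset.range N, dlt cd a m) * u w + K * (3 / 2) ^ γ := by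
    have h9 : 0 ≤ 1 - ∑ m ∈ Finset.range N, dlt cd a m := by linarith
    have h10 := mul_le_mul_of_nonneg_left h1 h9
    have h11 : (1 - ∑ m ∈ Finset.range N, dlt cd a m) * (K * (3 / 2) ^ γ) ≤
        1 * (K * (3 / 2) ^ γ) := mul_le_mul_of_nonneg_right (by linarith) (by positivity)
    rw [mul_add] at h10
    linarith
  have h12 := mul_le_mul_of_nonneg_left h6 (Nat.cast_nonneg (α := ℝ) k)
  unfold un
  nlinarith

/-- the lower bound -/
lemma un_lower {cd a b γ : ℝ} (hb : 0 < b) (hcd : 0 < cd)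
    (hcd4 : cd ≤ 1 / 4) (hγ : 0 < γ) (ha : a = (2 : ℝ) ^ γ) (k N : ℕ) {u : ℂ → ℝ} {CP : ℝ}
    (hCP : ∀ x0 y : ℝ, 0 < y → ∀ (x : ℝ), ∀ z ∈ uhp, |x - z.re| ≤ b * z.im →
      Real.log (1 + |x - x0| / y) - CP ≤ pk b x0 y z)
    (hu : SH b u)
    (hβ1 : ∀ (x : ℝ), ∀ z ∈ uhp, |x - z.re| ≤ b * z.im → bv b u x ≤ u z)
    (x0 y x : ℝ) (hy : 0 < y) (z : ℂ) (hz : z ∈ uhp) (hx : |x - z.re| ≤ b * z.im) :
    bv b u x + k * (Real.log (1 + |x - x0| / y) - CP) ≤ un cd a b k N u x0 y z ∧
    ∀ n : ℕ, n + 2 ≤ N → 1 + |x - x0| / (b * y) ≤ 2 ^ n →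
      bv b u x + (cd * (2 * (1 + 1 / b)) ^ (-(γ + 1))) * (1 + |x - x0| / y) ^ (-(γ + 1)) *
        max (u ((x0 : ℂ) + (y : ℂ) * I) - bv b u x) 0 +
        k * (Real.log (1 + |x - x0| / y) - CP) ≤ un cd a b k N u x0 y z := by
  have ha1 : 1 ≤ a := by
    rw [ha]
    exact Real.one_le_rpow (by norm_num) hγ.le
  have ha0 : 0 < a := by linarith
  have hz0 : 0 < z.im := hz
  have hσ := dlt_sum hcd ha1 N
  have h1 : bv b u x ≤ u z := hβ1 x z hz hx
  have h2 : ∀ m : ℕ, bv b u x ≤ u (z + ((2 ^ m * y : ℝ) : ℂ) * I) := by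
    intro m
    refine hβ1 x _ (shift_mem hz (by positivity)) ?_
    have e1 : (z + ((2 ^ m * y : ℝ) : ℂ) * I).re = z.re := by
      rw [Complex.add_re, Complex.mul_re, Complex.ofReal_re, Complex.ofReal_im]
      simp
    have e2 : (z + ((2 ^ m * y : ℝ) : ℂ) * I).im = z.im + 2 ^ m * y := by
      rw [Complex.add_im, Complex.mul_im, Complex.ofReal_re, Complex.ofReal_im]
      simp
    rw [e1, e2]
    have : 0 ≤ b * (2 ^ m * y) := by positivity
    linarith
  have h3 := hCP x0 y hy x z hz hx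
  have h4 := mul_le_mul_of_nonneg_left h3 (Nat.cast_nonneg (α := ℝ) k)
  have h5 : (1 - ∑ m ∈ Finset.range N, dlt cd a m) * bv b u x ≤
      (1 - ∑ m ∈ Finset.range N, dlt cd a m) * u z :=
    mul_le_mul_of_nonneg_left h1 (by linarith)
  refine ⟨?_, ?_⟩
  · have h6 : (∑ m ∈ Finset.range N, dlt cd a m) * bv b u x ≤
        ∑ m ∈ Finset.range N, dlt cd a m * u (z + ((2 ^ m * y : ℝ) : ℂ) * I) := by
      rw [Finset.sum_mul]
      exact Finset.sum_le_sum fun m _ => mul_le_mul_of_nonneg_left (h2 m) (dlt_nonneg hcd ha1 m)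
    unfold un
    linarith
  · intro n hn hxn
    have hr1 : 1 ≤ 1 + |x - x0| / (b * y) := by
      have : 0 ≤ |x - x0| / (b * y) := by positivity
      linarith
    obtain ⟨j, hj1, hj2⟩ := exists_nat_pow_near hr1 (by norm_num : (1 : ℝ) < 2)
    have hjn : j ≤ n := by
      have h6 : (2 : ℝ) ^ j ≤ 2 ^ n := hj1.trans hxn
      exact (pow_le_pow_iff_right₀ (by norm_num)).1 h6
    have hmem : j + 1 ∈ Finset.range N := Finset.mem_range.2 (by omega)
    set w : ℂ := (x0 : ℂ) + (y : ℂ) * I with hw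
    have h6 : u w ≤ u (z + ((2 ^ (j + 1) * y : ℝ) : ℂ) * I) := by
      have hwm : w ∈ uhp := by
        show 0 < Complex.im _
        rw [hw]
        simpa using hy
      refine Up.mono' hu hwm ?_
      have e1 : (z + ((2 ^ (j + 1) * y : ℝ) : ℂ) * I - w).re = z.re - x0 := by
        rw [hw]
        simp only [Complex.sub_re, Complex.add_re, Complex.mul_re, Complex.ofReal_re,
          Complex.ofReal_im, Complex.I_re, Complex.I_im]
        ring
      have e2 : (z + ((2 ^ (j + 1) * y : ℝ) : ℂ) * I - w).im = z.im + 2 ^ (j + 1) * y - y := by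
        rw [hw]
        simp only [Complex.sub_im, Complex.add_im, Complex.mul_im, Complex.ofReal_re,
          Complex.ofReal_im, Complex.I_re, Complex.I_im]
        ring
      rw [e1, e2]
      have h7 : |z.re - x0| ≤ |x - z.re| + |x - x0| := by
        have e3 : z.re - x0 = -(x - z.re) + (x - x0) := by ring
        rw [e3]
        refine (abs_add_le _ _).trans ?_
        rw [abs_neg]
      have h8 : |x - x0| ≤ b * (2 ^ (j + 1) * y - y) := by
        have h9 : |x - x0| / (b * y) ≤ 2 ^ (j + 1) - 1 := by linarith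
        rw [div_le_iff₀ (by positivity)] at h9
        calc |x - x0| ≤ (2 ^ (j + 1) - 1) * (b * y) := h9
          _ = _ := by ring
      have h10 : b * (z.im + 2 ^ (j + 1) * y - y) = b * z.im + b * (2 ^ (j + 1) * y - y) := by
        ring
      linarith
    have h7 : (cd * (2 * (1 + 1 / b)) ^ (-(γ + 1))) * (1 + |x - x0| / y) ^ (-(γ + 1)) ≤
        dlt cd a (j + 1) := by
      have h8 : dlt cd a (j + 1) = cd * ((2 : ℝ) ^ (j + 1)) ^ (-(γ + 1)) := by
        unfold dlt
        congr 1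
        rw [Real.rpow_neg (by positivity), inv_pow]
        congr 1
        rw [← Real.rpow_natCast, ← Real.rpow_natCast 2 (j + 1), ← Real.rpow_mul (by norm_num)]
        have h4 : (2 * a) = (2 : ℝ) ^ (γ + 1) := by
          rw [Real.rpow_add (by norm_num), Real.rpow_one, mul_comm, ha]
        rw [h4, ← Real.rpow_mul (by norm_num), mul_comm]
      rw [h8, mul_assoc, ← Real.mul_rpow (by positivity) (by positivity)]
      refine mul_le_mul_of_nonneg_left ?_ hcd.le
      refine Real.rpow_le_rpow_of_nonpos (by positivity) ?_ (by linarith)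
      have h9 : (2 : ℝ) ^ (j + 1) ≤ 2 * (1 + |x - x0| / (b * y)) := by
        rw [pow_succ]
        linarith
      refine h9.trans ?_
      have h10 : |x - x0| / (b * y) = 1 / b * (|x - x0| / y) := by
        field_simp
      rw [h10]
      have h11 : 0 ≤ |x - x0| / y := by positivity
      have h12 : 0 < 1 / b := by positivity
      nlinarith
    have h8 : (∑ m ∈ Finset.range N, dlt cd a m) * bv b u x +
        dlt cd a (j + 1) * max (u w - bv b u x) 0 ≤
        ∑ m ∈ Finset.range N, dlt cd a m * u (z + ((2 ^ m * y : ℝ) : ℂ) * I) := by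
      have h9 : ∀ m ∈ Finset.range N, dlt cd a m * bv b u x +
          (if m = j + 1 then dlt cd a m * max (u w - bv b u x) 0 else 0) ≤
          dlt cd a m * u (z + ((2 ^ m * y : ℝ) : ℂ) * I) := by
        intro m _
        by_cases hm : m = j + 1
        · rw [if_pos hm, ← mul_add]
          refine mul_le_mul_of_nonneg_left ?_ (dlt_nonneg hcd ha1 m)
          rw [hm]
          rcases le_total 0 (u w - bv b u x) with h10 | h10
          · rw [max_eq_left h10]
            linarith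
          · rw [max_eq_right h10, add_zero]
            exact h2 _
        · rw [if_neg hm, add_zero]
          exact mul_le_mul_of_nonneg_left (h2 m) (dlt_nonneg hcd ha1 m)
      have h10 := Finset.sum_le_sum h9
      rw [Finset.sum_add_distrib, Finset.sum_ite_eq' (Finset.range N) (j + 1), if_pos hmem,
        ← Finset.sum_mul] at h10
      exact h10
    have h9 : (cd * (2 * (1 + 1 / b)) ^ (-(γ + 1))) * (1 + |x - x0| / y) ^ (-(γ + 1)) *
        max (u w - bv b u x) 0 ≤ dlt cd a (j + 1) * max (u w - bv b u x) 0 :=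
      mul_le_mul_of_nonneg_right h7 (le_max_right _ _)
    unfold un
    linarith


/-- the density of the approximate cost -/
noncomputable def Dn (k : ℕ) (c γ b x0 y uw : ℝ) (u : ℂ → ℝ) (n : ℕ) (x : ℝ) : ℝ :=
  if 1 + |x - x0| / (b * y) ≤ 2 ^ n then Dk k c γ x0 y (uw - bv b u x) x
  else (1 + |x - x0| / y) ^ (-(k : ℝ))

lemma dk_pos {k : ℕ} {c γ x0 y d x : ℝ} (hy : 0 < y) : 0 < Dk k c γ x0 y d x := by
  unfold Dk
  have : 0 ≤ |x - x0| / y := by positivity
  positivity

lemma pow_le_one' {k : ℕ} {x0 y x : ℝ} (hy : 0 < y) :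
    (1 + |x - x0| / y) ^ (-(k : ℝ)) ≤ 1 := by
  have h1 : 0 ≤ |x - x0| / y := by positivity
  exact Real.rpow_le_one_of_one_le_of_nonpos (by linarith)
    (by have := Nat.cast_nonneg (α := ℝ) k; linarith)

lemma dk_le {k : ℕ} {c γ x0 y d x : ℝ} (hc : 0 < c) (hy : 0 < y) : Dk k c γ x0 y d x ≤ 1 := by
  unfold Dk
  have h1 : 0 ≤ |x - x0| / y := by positivity
  have h2 := pow_le_one' (k := k) (x0 := x0) (x := x) hy
  have h3 : Real.exp (-(c * (1 + |x - x0| / y) ^ (-(γ + 1)) * max d 0)) ≤ 1 := by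
    rw [Real.exp_le_one_iff]
    have : 0 ≤ c * (1 + |x - x0| / y) ^ (-(γ + 1)) * max d 0 := by positivity
    linarith
  calc _ ≤ (1 : ℝ) * 1 := mul_le_mul h2 h3 (Real.exp_pos _).le zero_le_one
    _ = 1 := one_mul 1

lemma dn_pos {k : ℕ} {c γ b x0 y uw : ℝ} {u : ℂ → ℝ} {n : ℕ} {x : ℝ} (hy : 0 < y) :
    0 < Dn k c γ b x0 y uw u n x := by
  unfold Dn
  split_ifs
  · exact dk_pos hy
  · have : 0 ≤ |x - x0| / y := by positivity
    positivity

lemma dn_le {k : ℕ} {c γ b x0 y uw : ℝ} {u : ℂ → ℝ} {n : ℕ} {x : ℝ} (hc : 0 < c) (hy : 0 < y) :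
    Dn k c γ b x0 y uw u n x ≤ 1 := by
  unfold Dn
  split_ifs
  · exact dk_le hc hy
  · exact pow_le_one' hy

lemma dn_meas {k : ℕ} {c γ b x0 y uw : ℝ} {u : ℂ → ℝ} (hβ : Measurable (bv b u)) (n : ℕ) :
    Measurable (Dn k c γ b x0 y uw u n) := by
  unfold Dn
  refine Measurable.ite (measurableSet_le (by fun_prop) measurable_const) ?_ ?_
  · unfold Dk
    have h1 : Measurable fun x : ℝ => (1 + |x - x0| / y) := by fun_prop
    have h2 : Measurable fun x : ℝ => (1 + |x - x0| / y) ^ (-(k : ℝ)) := h1.pow_const _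
    have h3 : Measurable fun x : ℝ => (1 + |x - x0| / y) ^ (-(γ + 1)) := h1.pow_const _
    have h4 : Measurable fun x : ℝ => max (uw - bv b u x) 0 :=
      (measurable_const.sub hβ).max measurable_const
    exact h2.mul ((((h3.const_mul c).mul h4).neg).exp)
  · have h1 : Measurable fun x : ℝ => (1 + |x - x0| / y) := by fun_prop
    exact h1.pow_const _

/-- the approximate cost -/
noncomputable def kn (k : ℕ) (c γ b x0 y uw : ℝ) (u : ℂ → ℝ) (U : ℝ → ℝ) (n : ℕ) : ℝ≥0∞ :=
  ∫⁻ x : ℝ, ENNReal.ofReal (Real.exp (-bv b u x) * Dn k c γ b x0 y uw u n x) ∂(wm U)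

lemma kn_tendsto {k : ℕ} {c γ b x0 y : ℝ} {u : ℂ → ℝ} {U : ℝ → ℝ} (hU : IsWeight U)
    (hc : 0 < c) (hy : 0 < y) (hβ : Measurable (bv b u)) (hXX : XX b u U ≠ ∞) :
    Tendsto (fun n => kn k c γ b x0 y (u ((x0 : ℂ) + (y : ℂ) * I)) u U n) atTop
      (𝓝 (kap k c γ b u U x0 y)) := by
  rw [kap, lintegral_mul_weight_univ hU]
  unfold kn
  refine tendsto_lintegral_of_dominated_convergence
    (fun x => ENNReal.ofReal (Real.exp (-bv b u x))) (fun n => ?_) (fun n => ?_) ?_ ?_
  · exact ((hβ.neg.exp).mul (dn_meas hβ n)).ennreal_ofReal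
  · refine Eventually.of_forall fun x => ENNReal.ofReal_le_ofReal ?_
    exact mul_le_of_le_one_right (Real.exp_pos _).le (dn_le hc hy)
  · rw [XX, lintegral_mul_weight_univ hU] at hXX
    exact hXX
  · refine Eventually.of_forall fun x => ?_
    refine tendsto_const_nhds.congr' ?_
    obtain ⟨N, hN⟩ := pow_unbounded_of_one_lt (1 + |x - x0| / (b * y))
      (by norm_num : (1 : ℝ) < 2)
    filter_upwards [eventually_ge_atTop N] with n hn
    have h1 : 1 + |x - x0| / (b * y) ≤ 2 ^ n :=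
      hN.le.trans (pow_le_pow_right₀ (by norm_num) hn)
    unfold Dn
    rw [if_pos h1]

/-- adding a constant -/
lemma c2s_add {v : ℂ → ℝ} (h : C2S v) (a : ℝ) : C2S (fun z => v z + a) := by
  refine ⟨h.1.add contDiffOn_const, fun z hz => ?_⟩
  have h1 : ContDiffAt ℝ 2 v z := h.1.contDiffAt (isOpen_uhp.mem_nhds hz)
  have h2 := h1.laplacian_add (f₂ := fun _ => a) contDiffAt_const
  have h3 : Laplacian.laplacian (fun _ : ℂ => a) z = 0 := by
    rw [InnerProductSpace.laplacian_const]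
    rfl
  rw [h3, add_zero] at h2
  have h4 : (v + fun _ => a) = fun z => v z + a := rfl
  rw [h4] at h2
  rw [h2]
  exact h.2 z hz

end Wco

open Wco in
theorem stWco (hSubM : StSubM) (hSmo : StSmo) (hPk : StPk) (hBv : StBv) : StWco := by
  intro lam b γ K μ hlam hlb hγ hK hμ
  have hb : 0 < b := hlam.trans hlb
  set a := (2 : ℝ) ^ γ with ha
  have ha1 : 1 ≤ a := Real.one_le_rpow (by norm_num) hγ.le
  set cd := min (1 / 4 : ℝ) (1 / (K * 4 ^ γ)) with hcd
  have hK0 : 0 < K * (4 : ℝ) ^ γ := by positivity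
  have hcd0 : 0 < cd := lt_min (by norm_num) (by positivity)
  have hcd4 : cd ≤ 1 / 4 := min_le_left _ _
  have hcdK : cd * (K * 4 ^ γ) ≤ 1 := by
    have h1 : cd ≤ 1 / (K * 4 ^ γ) := min_le_right _ _
    rwa [le_div_iff₀ hK0] at h1
  set c := cd * (2 * (1 + 1 / b)) ^ (-(γ + 1)) with hc
  have hc0 : 0 < c := by positivity
  refine ⟨c, hc0, ?_⟩
  intro k U hU hV
  obtain ⟨CV, ε, hCV, hε, hV⟩ := hV
  obtain ⟨CP, hCP, hpk⟩ := hPk b hb
  set C1 := K * (3 / 2) ^ γ + 2 + k * Real.log (5 / 2) with hC1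
  refine ⟨CV * Real.exp (C1 + k * CP), ε, by positivity, hε, ?_⟩
  intro u hu hG hXX x0 y hy hfl E hE hEs
  obtain ⟨hβ, hβ1, -⟩ := hBv b u hb hu
  set w : ℂ := (x0 : ℂ) + (y : ℂ) * I with hw
  have hwim : w.im = y := by rw [hw]; simp
  have hwre : w.re = x0 := by rw [hw]; simp
  have hwm : w ∈ uhp := by
    show 0 < Complex.im _
    rw [hwim]
    exact hy
  -- the estimate with the approximate cost
  have key : ∀ n : ℕ, wm U E ≤ ENNReal.ofReal (CV * Real.exp (C1 + k * CP) *
      (volume.real E / y) ^ ε * Real.exp (u w)) * kn k c γ b x0 y (u w) u U n := by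
    intro n
    set κ := kn k c γ b x0 y (u w) u U n with hκ
    have hκfin : κ ≠ ∞ := by
      refine ne_top_of_le_ne_top hXX ?_
      rw [XX, lintegral_mul_weight_univ hU, hκ, kn]
      refine lintegral_mono fun x => ENNReal.ofReal_le_ofReal ?_
      exact mul_le_of_le_one_right (Real.exp_pos _).le (dn_le hc0 hy)
    by_cases hκ0 : κ = 0
    · -- the weight is zero
      have h1 : (fun x => ENNReal.ofReal (Real.exp (-bv b u x) * Dn k c γ b x0 y (u w) u n x))
          =ᵐ[wm U] 0 := by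
        rw [← lintegral_eq_zero_iff]
        · exact hκ0
        · exact ((hβ.neg.exp).mul (dn_meas hβ n)).ennreal_ofReal
      have h2 : ∀ᵐ _x ∂(wm U), False := by
        filter_upwards [h1] with x hx
        have h3 : 0 < Real.exp (-bv b u x) * Dn k c γ b x0 y (u w) u n x :=
          mul_pos (Real.exp_pos _) (dn_pos hy)
        have h4 := (ENNReal.ofReal_pos.2 h3).ne'
        exact h4 hx
      have h3 : wm U = 0 := by
        rw [← ae_eq_bot, ← Filter.empty_mem_iff_bot]
        filter_upwards [h2] with x hx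
        exact hx.elim
      rw [h3]
      simp
    have hκr : 0 < κ.toReal := ENNReal.toReal_pos hκ0 hκfin
    set N := n + 2 with hN
    have hSH := sh_un hSubM hPk hb hcd0 hcd4 ha1 k N hu x0 y hy
    obtain ⟨v', hv1, hv2, hv3, hv4⟩ := hSmo b (un cd a b k N u x0 y) hb hSH (y / 4)
      (by positivity)
    -- the domination
    have hdom : ∀ z ∈ uhp, wm U (Iv b z) ≤
        ENNReal.ofReal (Real.exp (k * CP) * Real.exp (un cd a b k N u x0 y z)) * κ := by
      intro z hz
      have hpt : ∀ x ∈ Iv b z, (1 : ℝ≥0∞) ≤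
          ENNReal.ofReal (Real.exp (k * CP) * Real.exp (un cd a b k N u x0 y z)) *
          ENNReal.ofReal (Real.exp (-bv b u x) * Dn k c γ b x0 y (u w) u n x) := by
        intro x hx
        rw [Iv, mem_Icc] at hx
        have hxz : |x - z.re| ≤ b * z.im := by
          rw [abs_le]
          constructor <;> linarith [hx.1, hx.2]
        obtain ⟨hl1, hl2⟩ := un_lower (a := a) (γ := γ) (CP := CP) hb hcd0 hcd4 hγ ha k N
          (fun x0 y hy => (hpk x0 y hy).2.2.2.2.2.2) hu hβ1 x0 y x hy z hz hxz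
        rw [← ENNReal.ofReal_mul (by positivity), ← ENNReal.ofReal_one]
        apply ENNReal.ofReal_le_ofReal
        have ht : 0 < 1 + |x - x0| / y := by
          have : 0 ≤ |x - x0| / y := by positivity
          linarith
        have htk : (1 + |x - x0| / y) ^ (-(k : ℝ)) =
            Real.exp (-(k * Real.log (1 + |x - x0| / y))) := by
          rw [Real.rpow_def_of_pos ht]
          congr 1
          ring
        unfold Dn
        split_ifs with hcond
        · have h := hl2 n le_rfl hcond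
          rw [Dk, htk, ← Real.exp_add, ← Real.exp_add, ← Real.exp_add, ← Real.exp_add]
          apply Real.one_le_exp
          rw [← hc, ← hw] at h
          linarith
        · rw [htk, ← Real.exp_add, ← Real.exp_add, ← Real.exp_add]
          apply Real.one_le_exp
          linarith
      calc wm U (Iv b z) = ∫⁻ _x in Iv b z, (1 : ℝ≥0∞) ∂(wm U) := by simp
        _ ≤ ∫⁻ x in Iv b z,
            ENNReal.ofReal (Real.exp (k * CP) * Real.exp (un cd a b k N u x0 y z)) *
            ENNReal.ofReal (Real.exp (-bv b u x) * Dn k c γ b x0 y (u w) u n x) ∂(wm U) :=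
            setLIntegral_mono' measurableSet_Icc hpt
        _ ≤ ∫⁻ x,
            ENNReal.ofReal (Real.exp (k * CP) * Real.exp (un cd a b k N u x0 y z)) *
            ENNReal.ofReal (Real.exp (-bv b u x) * Dn k c γ b x0 y (u w) u n x) ∂(wm U) :=
            setLIntegral_le_lintegral _ _
        _ = _ := by
            rw [lintegral_const_mul]
            · rfl
            · exact ((hβ.neg.exp).mul (dn_meas hβ n)).ennreal_ofReal
    set κl := Real.log (Real.exp (k * CP) * κ.toReal) with hκl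
    have hexp : Real.exp κl = Real.exp (k * CP) * κ.toReal := Real.exp_log (by positivity)
    have hcv := hV (fun z => v' z + κl) (c2s_add hv1 κl)
      (by
        obtain ⟨m, hm⟩ := hSH.bdd
        exact ⟨m + κl, fun z hz => by
          have := hv3 m hm z hz
          linarith⟩)
      (by
        intro z hz
        have hms : MeasurableSet (Iv b z) := measurableSet_Icc
        rw [setIntegral_eq_wm hU hms]
        have h1 := hdom z hz
        have h2 := ENNReal.toReal_mono
          (ENNReal.mul_ne_top ENNReal.ofReal_ne_top hκfin) h1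
        rw [ENNReal.toReal_mul, ENNReal.toReal_ofReal (by positivity)] at h2
        refine h2.trans ?_
        rw [Real.exp_add, hexp]
        have h3 := Real.exp_le_exp.2 (hv4 z hz).1
        calc Real.exp (k * CP) * Real.exp (un cd a b k N u x0 y z) * κ.toReal =
            Real.exp (un cd a b k N u x0 y z) * (Real.exp (k * CP) * κ.toReal) := by ring
          _ ≤ _ := mul_le_mul_of_nonneg_right h3 (by positivity))
      w hwm E hE (by rw [Iv, hwre, hwim]; exact hEs)
    rw [setIntegral_eq_wm hU hE, hwim] at hcv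
    have hupper := un_upper hPk (μ := μ) (γ := γ) (K := K) hb hcd0 hcd4 hγ ha hK hcdK k N hG x0 y
      hy hfl
    rw [← hw, ← hC1] at hupper
    have hv5 : v' w ≤ u w + C1 := ((hv4 w hwm).2).trans hupper
    have hfinE : wm U E ≠ ∞ :=
      ne_top_of_le_ne_top (wm_Icc_lt_top hU _ _).ne (measure_mono hEs)
    rw [← ENNReal.ofReal_toReal hfinE, ← ENNReal.ofReal_toReal hκfin,
      ← ENNReal.ofReal_mul (by positivity)]
    apply ENNReal.ofReal_le_ofReal
    refine hcv.trans ?_
    rw [Real.exp_add, hexp]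
    have h6 := Real.exp_le_exp.2 hv5
    calc CV * (volume.real E / y) ^ ε * (Real.exp (v' w) * (Real.exp (k * CP) * κ.toReal))
        ≤ CV * (volume.real E / y) ^ ε *
          (Real.exp (u w + C1) * (Real.exp (k * CP) * κ.toReal)) := by
          refine mul_le_mul_of_nonneg_left ?_ (by positivity)
          exact mul_le_mul_of_nonneg_right h6 (by positivity)
      _ = _ := by
          rw [Real.exp_add (u w) C1, Real.exp_add C1]
          ring
  have hlim := kn_tendsto (k := k) (γ := γ) (x0 := x0) hU hc0 hy hβ hXX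
  rw [← hw] at hlim
  exact ge_of_tendsto' (ENNReal.Tendsto.const_mul hlim (Or.inr ENNReal.ofReal_ne_top)) key

end Pool.Agent.Work.MP_055a27_an.Wd
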