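import Pool.Agent.Work.MP_055a27_an.Wd.Stmts

/-!
# Wide cones: item 14, Weyl's lemma for the Cauchy Riemann operator
-/

set_option autoImplicit false

open MeasureTheory Set Filter Topology Complex Metric
open scoped ENNReal NNReal ContDiff Convolution

namespace Pool.Agent.Work.MP_055a27_an.Wd

namespace Weyl

/-! ### The profile -/

/-- the profile -/
noncomputable def eta (t : ℝ) : ℝ := Real.smoothTransition (2 - 4 * t)

theorem eta_contDiff : ContDiff ℝ ∞ eta := by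
  have h : ContDiff ℝ ∞ (fun t : ℝ => 2 - 4 * t) := by fun_prop
  exact (Real.smoothTransition.contDiff (n := ⊤)).comp h

theorem eta_continuous : Continuous eta := eta_contDiff.continuous

theorem eta_zero {t : ℝ} (ht : 1 / 2 ≤ t) : eta t = 0 :=
  Real.smoothTransition.zero_of_nonpos (by linarith)

theorem eta_one {t : ℝ} (ht : t ≤ 1 / 4) : eta t = 1 :=
  Real.smoothTransition.one_of_one_le (by linarith)

theorem eta_nonneg (t : ℝ) : 0 ≤ eta t := Real.smoothTransition.nonneg _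

theorem eta_le_one (t : ℝ) : eta t ≤ 1 := Real.smoothTransition.le_one _

/-! ### The kernel -/

/-- The radial kernel at scale `r`. -/
noncomputable def Kq (r : ℝ) (z : ℂ) : ℝ := (r ^ 2)⁻¹ * eta (‖z‖ ^ 2 / r ^ 2)

/-- The radial kernel with complex values. -/
noncomputable def Kr (r : ℝ) (z : ℂ) : ℂ := (Kq r z : ℂ)

/-- The kernel times the conjugate. -/
noncomputable def Kz (r : ℝ) (z : ℂ) : ℂ := starRingEnd ℂ z * Kr r z

/-- Twice the Wirtinger derivative of `Kz`. -/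
noncomputable def Lr (r : ℝ) (z : ℂ) : ℝ :=
  (r ^ 2)⁻¹ * (2 * eta (‖z‖ ^ 2 / r ^ 2) + deriv eta (‖z‖ ^ 2 / r ^ 2) * (2 * ‖z‖ ^ 2 / r ^ 2))

theorem Kq_contDiff (r : ℝ) : ContDiff ℝ ∞ (Kq r) := by
  unfold Kq
  have h : ContDiff ℝ ∞ (fun z : ℂ => ‖z‖ ^ 2 / r ^ 2) := (contDiff_norm_sq ℝ).div_const _
  exact contDiff_const.mul (eta_contDiff.comp h)

theorem Kr_contDiff (r : ℝ) : ContDiff ℝ ∞ (Kr r) :=
  Complex.ofRealCLM.contDiff.comp (Kq_contDiff r)

theorem conj_contDiff : ContDiff ℝ ∞ (fun z : ℂ => starRingEnd ℂ z) :=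
  Complex.conjCLE.contDiff

theorem Kz_contDiff (r : ℝ) : ContDiff ℝ ∞ (Kz r) := conj_contDiff.mul (Kr_contDiff r)

theorem quot_ge {r : ℝ} (hr : 0 < r) {z : ℂ} (hz : r ≤ ‖z‖) : 1 / 2 ≤ ‖z‖ ^ 2 / r ^ 2 := by
  rw [le_div_iff₀ (by positivity)]
  nlinarith

theorem Kq_zero {r : ℝ} (hr : 0 < r) {z : ℂ} (hz : r ≤ ‖z‖) : Kq r z = 0 := by
  unfold Kq
  rw [eta_zero (quot_ge hr hz), mul_zero]

theorem Kr_zero {r : ℝ} (hr : 0 < r) {z : ℂ} (hz : r ≤ ‖z‖) : Kr r z = 0 := by
  unfold Kr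
  rw [Kq_zero hr hz, Complex.ofReal_zero]

theorem Kz_zero {r : ℝ} (hr : 0 < r) {z : ℂ} (hz : r ≤ ‖z‖) : Kz r z = 0 := by
  unfold Kz
  rw [Kr_zero hr hz, mul_zero]

theorem Kr_supp {r : ℝ} (hr : 0 < r) : HasCompactSupport (Kr r) :=
  HasCompactSupport.intro (isCompact_closedBall 0 r) fun z hz =>
    Kr_zero hr (by rw [mem_closedBall_zero_iff] at hz; linarith)

theorem Kq_nonneg {r : ℝ} (z : ℂ) : 0 ≤ Kq r z :=
  mul_nonneg (by positivity) (eta_nonneg _)

theorem Kq_le {r : ℝ} (z : ℂ) : Kq r z ≤ (r ^ 2)⁻¹ := by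
  unfold Kq
  have h : 0 ≤ (r ^ 2)⁻¹ := by positivity
  exact mul_le_of_le_one_right h (eta_le_one _)

theorem Kr_norm {r : ℝ} (z : ℂ) : ‖Kr r z‖ = Kq r z := by
  unfold Kr
  rw [Complex.norm_real, Real.norm_of_nonneg (Kq_nonneg z)]

theorem quot_hasFDerivAt (r : ℝ) (z : ℂ) :
    HasFDerivAt (fun z : ℂ => ‖z‖ ^ 2 / r ^ 2) ((2 / r ^ 2) • innerSL ℝ z) z := by
  have h := ((hasStrictFDerivAt_norm_sq z).hasFDerivAt).mul_const (r ^ 2)⁻¹
  have h2 : (fun z : ℂ => ‖z‖ ^ 2 / r ^ 2) = fun z => ‖z‖ ^ 2 * (r ^ 2)⁻¹ := by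
    funext z; exact div_eq_mul_inv _ _
  rw [h2]
  refine h.congr_fderiv ?_
  ext v
  simp
  ring

/-- the derivative of the kernel in the radial direction -/
noncomputable def dk (r : ℝ) (z : ℂ) : ℝ :=
  (r ^ 2)⁻¹ * (deriv eta (‖z‖ ^ 2 / r ^ 2) * (2 / r ^ 2))

theorem Kq_hasFDerivAt (r : ℝ) (z : ℂ) :
    HasFDerivAt (Kq r) (dk r z • innerSL ℝ z) z := by
  have h0 : HasDerivAt eta (deriv eta (‖z‖ ^ 2 / r ^ 2)) (‖z‖ ^ 2 / r ^ 2) :=
    ((eta_contDiff.differentiable (by norm_num)) _).hasDerivAt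
  have h1 := h0.comp_hasFDerivAt z (quot_hasFDerivAt r z)
  have h2 := h1.const_mul ((r ^ 2)⁻¹)
  refine h2.congr_fderiv ?_
  ext v
  unfold dk
  simp
  ring

theorem Kr_hasFDerivAt (r : ℝ) (z : ℂ) :
    HasFDerivAt (Kr r) (Complex.ofRealCLM.comp (dk r z • innerSL ℝ z)) z :=
  Complex.ofRealCLM.hasFDerivAt.comp z (Kq_hasFDerivAt r z)

theorem Kr_fderiv (r : ℝ) (z v : ℂ) :
    fderiv ℝ (Kr r) z v = ((dk r z * (z.re * v.re + z.im * v.im) : ℝ) : ℂ) := by
  rw [(Kr_hasFDerivAt r z).fderiv]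
  simp [Complex.inner]
  ring

theorem Kz_fderiv (r : ℝ) (z v : ℂ) :
    fderiv ℝ (Kz r) z v = starRingEnd ℂ v * Kr r z +
      starRingEnd ℂ z * ((dk r z * (z.re * v.re + z.im * v.im) : ℝ) : ℂ) := by
  have h1 : HasFDerivAt (fun z : ℂ => starRingEnd ℂ z) (Complex.conjCLE : ℂ →L[ℝ] ℂ) z :=
    Complex.conjCLE.hasFDerivAt
  have h2 := (h1.mul (Kr_hasFDerivAt r z)).fderiv
  have h3 : Kz r = (fun z : ℂ => starRingEnd ℂ z) * Kr r := rfl
  rw [h3, h2]
  have h4 := Kr_fderiv r z v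
  rw [(Kr_hasFDerivAt r z).fderiv] at h4
  rw [_root_.add_apply, _root_.smul_apply,
    _root_.smul_apply, h4]
  simp only [smul_eq_mul]
  show _ + Kr r z * (starRingEnd ℂ v) = _
  ring

theorem dbar_Kz (r : ℝ) (z : ℂ) : dbar (Kz r) z = ((Lr r z / 2 : ℝ) : ℂ) := by
  unfold dbar
  rw [Kz_fderiv, Kz_fderiv]
  have h5 : ‖z‖ ^ 2 = z.re * z.re + z.im * z.im := by
    rw [← Complex.normSq_eq_norm_sq, Complex.normSq_apply]
  have h6 : Lr r z / 2 = Kq r z + dk r z * (z.re * z.re + z.im * z.im) / 2 := by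
    rw [← h5]
    unfold Lr Kq dk
    ring
  rw [h6]
  unfold Kr
  apply Complex.ext
  · simp
    ring
  · simp
    ring

theorem Kq_hasDerivAt {r : ℝ} (hr : 0 < r) (z : ℂ) :
    HasDerivAt (fun r => Kq r z) (-(1 / r) * Lr r z) r := by
  have h1 : HasDerivAt (fun r : ℝ => (r ^ 2)⁻¹) (-(2 / r ^ 3)) r := by
    refine (((hasDerivAt_id r).pow 2).inv (by simp; exact hr.ne')).congr_deriv ?_
    simp
    field_simp
  have h2 : HasDerivAt (fun r : ℝ => ‖z‖ ^ 2 / r ^ 2) (-(2 * ‖z‖ ^ 2 / r ^ 3)) r := by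
    have := h1.const_mul (‖z‖ ^ 2)
    refine (this.congr_deriv ?_).congr_of_eventuallyEq ?_
    · ring
    · filter_upwards with s
      simp [div_eq_mul_inv]
  have h0 : HasDerivAt eta (deriv eta (‖z‖ ^ 2 / r ^ 2)) (‖z‖ ^ 2 / r ^ 2) :=
    ((eta_contDiff.differentiable (by norm_num)) _).hasDerivAt
  have h3 := h1.mul (h0.comp r h2)
  unfold Kq Lr
  refine h3.congr_deriv ?_
  simp only [Function.comp]
  field_simp
  ring

/-! ### Wirtinger derivatives -/

theorem dbar_zero {k : ℂ → ℂ} {z : ℂ} (h : k =ᶠ[𝓝 z] fun _ => 0) : dbar k z = 0 := by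
  unfold dbar
  rw [h.fderiv_eq]
  simp

theorem eventually_zero {k : ℂ → ℂ} {r : ℝ} (hk : ∀ z, r ≤ ‖z‖ → k z = 0) {z : ℂ}
    (hz : r < ‖z‖) : k =ᶠ[𝓝 z] fun _ => 0 := by
  have h : {y : ℂ | r < ‖y‖} ∈ 𝓝 z := (isOpen_lt continuous_const continuous_norm).mem_nhds hz
  filter_upwards [h] with y hy
  exact hk y (le_of_lt hy)

theorem fderiv_refl {k : ℂ → ℂ} (hk : ContDiff ℝ ∞ k) (x t v : ℂ) :
    fderiv ℝ (fun t => k (x - t)) t v = - fderiv ℝ k (x - t) v := by
  have h1 : HasFDerivAt k (fderiv ℝ k (x - t)) (x - t) :=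
    (hk.differentiable (by norm_num) _).hasFDerivAt
  have h2 : HasFDerivAt (fun t : ℂ => x - t) (-(ContinuousLinearMap.id ℝ ℂ)) t :=
    (hasFDerivAt_id t).const_sub x
  have h3 := (h1.comp t h2).fderiv
  have h4 : (fun t => k (x - t)) = k ∘ (fun t : ℂ => x - t) := rfl
  rw [h4, h3]
  simp

theorem dbar_refl {k : ℂ → ℂ} (hk : ContDiff ℝ ∞ k) (x t : ℂ) :
    dbar (fun t => k (x - t)) t = - dbar k (x - t) := by
  unfold dbar
  rw [fderiv_refl hk, fderiv_refl hk]
  ring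

/-- the hypothesis of the lemma -/
def Wk (F : ℂ → ℂ) : Prop := ∀ β : ℂ → ℂ, ContDiff ℝ 2 β → HasCompactSupport β →
  tsupport β ⊆ uhp → ∫ z in uhp, F z * dbar β z = 0

/-- Weak holomorphy against reflected kernels. -/
theorem weak_conv {F f : ℂ → ℂ} {r : ℝ} (hw : Wk F) {k : ℂ → ℂ} (hk : ContDiff ℝ ∞ k)
    (hk0 : ∀ z, r ≤ ‖z‖ → k z = 0) {x : ℂ} (hx : closedBall x r ⊆ uhp)
    (hf : ∀ t ∈ closedBall x r, f t = F t) : ∫ t, f t * dbar k (x - t) = 0 := by
  have hk2 : ContDiff ℝ ∞ (fun t : ℂ => k (x - t)) := hk.comp (by fun_prop)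
  have hz : ∀ t : ℂ, t ∉ closedBall x r → r < ‖x - t‖ := by
    intro t ht
    rw [mem_closedBall, dist_comm, dist_eq_norm] at ht
    exact not_le.1 ht
  have hs : tsupport (fun t : ℂ => k (x - t)) ⊆ closedBall x r := by
    refine closure_minimal (fun t ht => ?_) isClosed_closedBall
    by_contra hc
    exact ht (hk0 _ (hz t hc).le)
  have hcs : HasCompactSupport (fun t : ℂ => k (x - t)) :=
    HasCompactSupport.of_support_subset_isCompact (isCompact_closedBall x r)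
      ((subset_tsupport _).trans hs)
  have h1 := hw _ (contDiff_infty.1 hk2 2) hcs (hs.trans hx)
  rw [setIntegral_eq_integral_of_forall_compl_eq_zero] at h1
  · rw [← neg_eq_zero, ← integral_neg, ← h1]
    refine integral_congr_ae (ae_of_all _ fun t => ?_)
    show -(f t * dbar k (x - t)) = F t * dbar (fun t => k (x - t)) t
    rw [dbar_refl hk]
    by_cases ht : t ∈ closedBall x r
    · rw [hf t ht]; ring
    · rw [dbar_zero (eventually_zero hk0 (hz t ht))]; ring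
  · intro t ht
    have ht' : t ∉ closedBall x r := fun h => ht (hx h)
    rw [dbar_refl hk, dbar_zero (eventually_zero hk0 (hz t ht'))]
    ring

/-! ### Convolutions -/

/-- The convolution of `f` with a kernel. -/
noncomputable def cv (f k : ℂ → ℂ) : ℂ → ℂ :=
  f ⋆[ContinuousLinearMap.mul ℝ ℂ, volume] k

theorem cv_apply (f k : ℂ → ℂ) (x : ℂ) : cv f k x = ∫ t, f t * k (x - t) := rfl

theorem cv_contDiff {f k : ℂ → ℂ} (hf : LocallyIntegrable f) (hk : ContDiff ℝ ∞ k)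
    (hc : HasCompactSupport k) : ContDiff ℝ ∞ (cv f k) :=
  hc.contDiff_convolution_right (n := ⊤) _ hf hk

theorem supp_fderiv {k : ℂ → ℂ} (hc : HasCompactSupport k) (v : ℂ) :
    HasCompactSupport (fun z => fderiv ℝ k z v) := hc.fderiv_apply (𝕜 := ℝ) v

theorem cv_fderiv {f k : ℂ → ℂ} (hf : LocallyIntegrable f) (hk : ContDiff ℝ ∞ k)
    (hc : HasCompactSupport k) (x v : ℂ) :
    fderiv ℝ (cv f k) x v = cv f (fun z => fderiv ℝ k z v) x := by
  have h := (hc.hasFDerivAt_convolution_right (ContinuousLinearMap.mul ℝ ℂ) hf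
    (hk.of_le (by norm_num)) x).fderiv
  unfold cv
  rw [h]
  exact convolution_precompR_apply _ hf (hc.fderiv (𝕜 := ℝ)) (hk.continuous_fderiv (by norm_num))
    x v

theorem cv_dbar {f k : ℂ → ℂ} (hf : LocallyIntegrable f) (hk : ContDiff ℝ ∞ k)
    (hc : HasCompactSupport k) (x : ℂ) : dbar (cv f k) x = ∫ t, f t * dbar k (x - t) := by
  have i1 : ∀ v : ℂ, Integrable (fun t => f t * fderiv ℝ k (x - t) v) := by
    intro v
    have h4 : Continuous (fun z => fderiv ℝ k z v) :=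
      (hk.continuous_fderiv (by norm_num)).clm_apply continuous_const
    exact (supp_fderiv hc v).convolutionExists_right (ContinuousLinearMap.mul ℝ ℂ) hf h4 x
  have e : ∀ t, f t * dbar k (x - t) = (f t * fderiv ℝ k (x - t) 1) / 2 +
      (I * (f t * fderiv ℝ k (x - t) I)) / 2 := by
    intro t
    unfold dbar
    ring
  simp_rw [e]
  rw [integral_add ((i1 1).div_const _) (((i1 I).const_mul _).div_const _), integral_div,
    integral_div, integral_const_mul]
  unfold dbar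
  rw [cv_fderiv hf hk hc, cv_fderiv hf hk hc, cv_apply, cv_apply]
  ring

/-! ### Dependence on the radius -/

theorem Kr_param : ContDiffOn ℝ ∞ (fun p : ℝ × ℂ => Kr p.1 p.2) (Ioi 0 ×ˢ univ) := by
  have h1 : ContDiffOn ℝ ∞ (fun p : ℝ × ℂ => (p.1 ^ 2)⁻¹) (Ioi 0 ×ˢ univ) :=
    (contDiff_fst.pow 2).contDiffOn.inv fun p hp => (pow_pos hp.1 2).ne'
  have h2 : ContDiffOn ℝ ∞ (fun p : ℝ × ℂ => ‖p.2‖ ^ 2 / p.1 ^ 2) (Ioi 0 ×ˢ univ) :=
    (((contDiff_norm_sq ℝ).comp contDiff_snd).contDiffOn).div (contDiff_fst.pow 2).contDiffOn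
      fun p hp => (pow_pos hp.1 2).ne'
  exact Complex.ofRealCLM.contDiff.comp_contDiffOn (h1.mul (eta_contDiff.comp_contDiffOn h2))

theorem Kr_hasDerivAt {r : ℝ} (hr : 0 < r) (z : ℂ) :
    HasDerivAt (fun r => Kr r z) ((-(1 / r) * Lr r z : ℝ) : ℂ) r :=
  (Kq_hasDerivAt hr z).ofReal_comp

theorem Kr_fderiv_param {r : ℝ} (hr : 0 < r) (z : ℂ) :
    fderiv ℝ (fun p : ℝ × ℂ => Kr p.1 p.2) (r, z) (1, 0) = ((-(1 / r) * Lr r z : ℝ) : ℂ) := by
  have hd : DifferentiableAt ℝ (fun p : ℝ × ℂ => Kr p.1 p.2) (r, z) :=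
    (Kr_param.contDiffAt ((isOpen_Ioi.prod isOpen_univ).mem_nhds
      (mk_mem_prod (mem_Ioi.2 hr) (mem_univ _)))).differentiableAt (by norm_num)
  have h1 := hd.hasFDerivAt.comp_hasDerivAt r ((hasDerivAt_id r).prodMk (hasDerivAt_const r z))
  exact h1.unique (Kr_hasDerivAt hr z)

theorem cv_hasDerivAt {f : ℂ → ℂ} (hf : LocallyIntegrable f) {r : ℝ} (hr : 0 < r) (x : ℂ) :
    HasDerivAt (fun s => cv f (Kr s) x) (∫ t, f t * ((-(1 / r) * Lr r (x - t) : ℝ) : ℂ)) r := by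
  have hsub : Ioo 0 (r + 1) ×ˢ (univ : Set ℂ) ⊆ Ioi 0 ×ˢ univ :=
    prod_mono (fun y hy => hy.1) (Subset.refl _)
  have hg : ContDiffOn ℝ 1 (fun p : ℝ × ℂ => Kr p.1 p.2) (Ioo 0 (r + 1) ×ˢ univ) :=
    (Kr_param.mono hsub).of_le (by norm_num)
  have h := hasFDerivAt_convolution_right_with_param (ContinuousLinearMap.mul ℝ ℂ)
    (μ := (volume : Measure ℂ))
    (g := fun (s : ℝ) (z : ℂ) => Kr s z) (s := Ioo 0 (r + 1)) (k := closedBall 0 (r + 1))
    isOpen_Ioo (isCompact_closedBall _ _) (fun p y hp hy => Kr_zero hp.1 (by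
      rw [mem_closedBall_zero_iff] at hy
      linarith [hp.2])) hf hg (r, x) ⟨hr, by simp⟩
  have h' := h.comp_hasDerivAt r ((hasDerivAt_id r).prodMk (hasDerivAt_const r x))
  have hc1 : Continuous (fun z : ℂ => fderiv ℝ (fun p : ℝ × ℂ => Kr p.1 p.2) (r, z)) := by
    have h3 := hg.continuousOn_fderiv_of_isOpen (isOpen_Ioo.prod isOpen_univ) le_rfl
    exact h3.comp_continuous (by fun_prop) fun z => ⟨⟨hr, by simp⟩, mem_univ _⟩
  have hc2 : HasCompactSupport
      (fun z : ℂ => fderiv ℝ (fun p : ℝ × ℂ => Kr p.1 p.2) (r, z)) := by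
    refine HasCompactSupport.intro (isCompact_closedBall 0 (r + 1)) fun z hz => ?_
    rw [mem_closedBall_zero_iff, not_le] at hz
    have h4 : (fun p : ℝ × ℂ => Kr p.1 p.2) =ᶠ[𝓝 (r, z)] fun _ => 0 := by
      have h5 : Ioo 0 (r + 1) ×ˢ {y : ℂ | r + 1 < ‖y‖} ∈ 𝓝 (r, z) :=
        (isOpen_Ioo.prod (isOpen_lt continuous_const continuous_norm)).mem_nhds
          ⟨⟨hr, by simp⟩, hz⟩
      filter_upwards [h5] with p hp
      exact Kr_zero hp.1.1 (by
        have h6 : r + 1 < ‖p.2‖ := hp.2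
        linarith [hp.1.2])
    rw [h4.fderiv_eq]
    simp
  refine h'.congr_deriv ?_
  have h7 := convolution_precompR_apply (ContinuousLinearMap.mul ℝ ℂ) hf hc2 hc1 x
    ((1 : ℝ), (0 : ℂ))
  refine h7.trans ?_
  refine integral_congr_ae (ae_of_all _ fun t => ?_)
  show f t * (fderiv ℝ (fun p : ℝ × ℂ => Kr p.1 p.2) (r, x - t) (1, 0)) = _
  rw [Kr_fderiv_param hr]

theorem cv_const {F f : ℂ → ℂ} {ρ : ℝ} (hw : Wk F) (hf : LocallyIntegrable f) {x : ℂ}
    (hx : closedBall x ρ ⊆ uhp) (hfg : ∀ t ∈ closedBall x ρ, f t = F t) {r₁ r₂ : ℝ}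
    (h₁ : r₁ ∈ Ioo 0 ρ) (h₂ : r₂ ∈ Ioo 0 ρ) : cv f (Kr r₁) x = cv f (Kr r₂) x := by
  have hd : ∀ r ∈ Ioo 0 ρ, HasDerivAt (fun s => cv f (Kr s) x) 0 r := by
    intro r hr
    refine (cv_hasDerivAt hf hr.1 x).congr_deriv ?_
    have h1 : ∀ t, f t * ((-(1 / r) * Lr r (x - t) : ℝ) : ℂ) =
        ((-(2 / r) : ℝ) : ℂ) * (f t * dbar (Kz r) (x - t)) := by
      intro t
      rw [dbar_Kz]
      push_cast
      ring
    simp_rw [h1]
    have hsub : closedBall x r ⊆ closedBall x ρ := closedBall_subset_closedBall hr.2.le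
    rw [integral_const_mul, weak_conv hw (Kz_contDiff r) (fun z hz => Kz_zero hr.1 hz)
      (hsub.trans hx) (fun t ht => hfg t (hsub ht)), mul_zero]
  obtain ⟨a, ha⟩ := isOpen_Ioo.exists_is_const_of_deriv_eq_zero
    (isPreconnected_Ioo (a := (0 : ℝ)) (b := ρ)) (f := fun s => cv f (Kr s) x)
    (fun r hr => (hd r hr).differentiableAt.differentiableWithinAt)
    (fun r hr => (hd r hr).deriv)
  exact (ha r₁ h₁).trans (ha r₂ h₂).symm

/-! ### The limit -/

/-- The mass of the kernel. -/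
noncomputable def mass : ℝ := ∫ z : ℂ, eta (‖z‖ ^ 2)

theorem mass_pos : 0 < mass := by
  have hc : Continuous (fun z : ℂ => eta (‖z‖ ^ 2)) := eta_continuous.comp (by fun_prop)
  have hs : HasCompactSupport (fun z : ℂ => eta (‖z‖ ^ 2)) :=
    HasCompactSupport.intro (isCompact_closedBall 0 1) fun z hz => by
      rw [mem_closedBall_zero_iff, not_le] at hz
      exact eta_zero (by nlinarith)
  refine hc.integral_pos_of_hasCompactSupport_nonneg_nonzero hs (fun z => eta_nonneg _)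
    (x := 0) ?_
  simp [eta_one (t := 0) (by norm_num)]

theorem Kq_integral {r : ℝ} (hr : 0 < r) (x : ℂ) : ∫ t, Kq r (x - t) = mass := by
  rw [integral_sub_left_eq_self (fun z : ℂ => Kq r z) volume x]
  have h1 : ∀ z : ℂ, Kq r z = (r ^ 2)⁻¹ * eta (‖r⁻¹ • z‖ ^ 2) := by
    intro z
    unfold Kq
    rw [norm_smul, Real.norm_eq_abs, abs_of_pos (inv_pos.2 hr)]
    congr 2
    field_simp
  simp_rw [h1]
  rw [integral_const_mul, Measure.integral_comp_inv_smul volume (fun z : ℂ => eta (‖z‖ ^ 2)) r]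
  unfold mass
  rw [smul_eq_mul, Complex.finrank_real_complex, abs_of_pos (pow_pos hr 2), ← mul_assoc,
    inv_mul_cancel₀ (pow_pos hr 2).ne', one_mul]

theorem Kr_integral {r : ℝ} (hr : 0 < r) (x : ℂ) : ∫ t, Kr r (x - t) = (mass : ℂ) := by
  rw [← Kq_integral hr x]
  exact integral_ofReal

theorem cv_sub_le {f : ℂ → ℂ} (hf : LocallyIntegrable f) {r : ℝ} (hr : 0 < r) (x : ℂ) :
    ‖cv f (Kr r) x - mass * f x‖ ≤
      volume.real (ball (0 : ℂ) 1) * ⨍ t in closedBall x r, ‖f t - f x‖ := by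
  have hz : ∀ t : ℂ, t ∉ closedBall x r → Kr r (x - t) = 0 := by
    intro t ht
    rw [mem_closedBall, dist_comm, dist_eq_norm, not_le] at ht
    exact Kr_zero hr ht.le
  have hK : Continuous (fun t : ℂ => Kr r (x - t)) :=
    (Kr_contDiff r).continuous.comp (by fun_prop)
  have i1 : Integrable (fun t => f t * Kr r (x - t)) :=
    (Kr_supp hr).convolutionExists_right (ContinuousLinearMap.mul ℝ ℂ) hf
      (Kr_contDiff r).continuous x
  have hcs : HasCompactSupport (fun t : ℂ => Kr r (x - t)) :=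
    HasCompactSupport.intro (isCompact_closedBall x r) hz
  have i2 : Integrable (fun t => f x * Kr r (x - t)) :=
    (hK.integrable_of_hasCompactSupport hcs).const_mul _
  have e1 : cv f (Kr r) x - mass * f x = ∫ t, (f t - f x) * Kr r (x - t) := by
    rw [cv_apply, ← Kr_integral hr x, mul_comm, ← integral_const_mul, ← integral_sub i1 i2]
    refine integral_congr_ae (ae_of_all _ fun t => ?_)
    show f t * Kr r (x - t) - f x * Kr r (x - t) = _
    ring
  have i3 : IntegrableOn (fun t => ‖f t - f x‖) (closedBall x r) := by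
    have h1 : IntegrableOn f (closedBall x r) := hf.integrableOn_isCompact (isCompact_closedBall x r)
    have h2 : IntegrableOn (fun _ : ℂ => f x) (closedBall x r) :=
      integrableOn_const (by exact (isCompact_closedBall x r).measure_lt_top.ne)
    exact (h1.sub h2).norm
  have e2 : ‖∫ t, (f t - f x) * Kr r (x - t)‖ ≤
      (r ^ 2)⁻¹ * ∫ t in closedBall x r, ‖f t - f x‖ := by
    rw [← integral_const_mul, ← integral_indicator measurableSet_closedBall]
    refine norm_integral_le_of_norm_le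
      ((integrable_indicator_iff measurableSet_closedBall).2 (i3.const_mul _))
      (ae_of_all _ fun t => ?_)
    by_cases ht : t ∈ closedBall x r
    · rw [indicator_of_mem ht, norm_mul, mul_comm, Kr_norm]
      exact mul_le_mul_of_nonneg_right (Kq_le _) (norm_nonneg _)
    · rw [indicator_of_notMem ht, hz t ht, mul_zero, norm_zero]
  rw [e1]
  refine e2.trans (le_of_eq ?_)
  have hV : 0 < volume.real (ball (0 : ℂ) 1) :=
    ENNReal.toReal_pos (measure_ball_pos _ _ one_pos).ne' measure_ball_lt_top.ne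
  rw [setAverage_eq, smul_eq_mul, Measure.addHaar_real_closedBall _ _ hr.le,
    Complex.finrank_real_complex, mul_inv]
  field_simp

theorem cv_tendsto {f : ℂ → ℂ} (hf : LocallyIntegrable f) :
    ∀ᵐ x : ℂ, Tendsto (fun r => cv f (Kr r) x) (𝓝[>] 0) (𝓝 (mass * f x)) := by
  filter_upwards [IsUnifLocDoublingMeasure.ae_tendsto_average_norm_sub volume hf 1] with x hx
  have h1 := hx (fun _ : ℝ => x) (fun r : ℝ => r) (l := 𝓝[>] 0) tendsto_id (by
    filter_upwards [self_mem_nhdsWithin] with r hr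
    exact mem_closedBall_self (by simpa using (le_of_lt hr)))
  have h2 : Tendsto (fun r : ℝ => volume.real (ball (0 : ℂ) 1) *
      ⨍ t in closedBall x r, ‖f t - f x‖) (𝓝[>] 0) (𝓝 0) := by
    have := h1.const_mul (volume.real (ball (0 : ℂ) 1))
    rwa [mul_zero] at this
  rw [tendsto_iff_norm_sub_tendsto_zero]
  refine squeeze_zero' (Eventually.of_forall fun r => norm_nonneg _) ?_ h2
  filter_upwards [self_mem_nhdsWithin] with r hr
  exact cv_sub_le hf hr x

/-! ### Assembly -/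

/-- The mean value, with `F` itself. -/
noncomputable def FF (F : ℂ → ℂ) (r : ℝ) (x : ℂ) : ℂ := ∫ t, F t * Kr r (x - t)

theorem trunc_loc {F : ℂ → ℂ} (hF : LocallyIntegrableOn F uhp) {K : Set ℂ} (hK : IsCompact K)
    (h : K ⊆ uhp) : LocallyIntegrable (indicator K F) := by
  have h1 : IntegrableOn F K := hF.integrableOn_compact_subset h hK
  exact ((integrable_indicator_iff hK.measurableSet).2 h1).locallyIntegrable

theorem FF_eq {F f : ℂ → ℂ} {r : ℝ} {x : ℂ} (hr : 0 < r) (h : ∀ t ∈ closedBall x r, f t = F t) :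
    FF F r x = cv f (Kr r) x := by
  rw [cv_apply]
  unfold FF
  refine integral_congr_ae (ae_of_all _ fun t => ?_)
  show F t * Kr r (x - t) = f t * Kr r (x - t)
  by_cases ht : t ∈ closedBall x r
  · rw [h t ht]
  · rw [mem_closedBall, dist_comm, dist_eq_norm, not_le] at ht
    rw [Kr_zero hr ht.le, mul_zero, mul_zero]

theorem ball_sub {x : ℂ} {ρ : ℝ} (h : ρ < x.im) : closedBall x ρ ⊆ uhp := by
  intro t ht
  rw [mem_closedBall, dist_comm, dist_eq_norm] at ht
  show 0 < t.im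
  have h1 : |(x - t).im| ≤ ‖x - t‖ := Complex.abs_im_le_norm _
  rw [Complex.sub_im] at h1
  have h2 := le_abs_self (x.im - t.im)
  linarith

theorem FF_const {F : ℂ → ℂ} (hF : LocallyIntegrableOn F uhp) (hw : Wk F) {x : ℂ} {r₁ r₂ : ℝ}
    (h₁ : 0 < r₁) (h₂ : 0 < r₂) (h₁' : r₁ < x.im) (h₂' : r₂ < x.im) : FF F r₁ x = FF F r₂ x := by
  obtain ⟨ρ, hρ1, hρ2⟩ : ∃ ρ, max r₁ r₂ < ρ ∧ ρ < x.im :=
    exists_between (max_lt h₁' h₂')
  have hr1 : r₁ < ρ := (le_max_left _ _).trans_lt hρ1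
  have hr2 : r₂ < ρ := (le_max_right _ _).trans_lt hρ1
  have hb := ball_sub hρ2
  have he : ∀ t ∈ closedBall x ρ, indicator (closedBall x ρ) F t = F t := fun t ht =>
    indicator_of_mem ht _
  rw [FF_eq h₁ (f := indicator (closedBall x ρ) F)
    (fun t ht => he t (closedBall_subset_closedBall hr1.le ht)),
    FF_eq h₂ (f := indicator (closedBall x ρ) F)
    (fun t ht => he t (closedBall_subset_closedBall hr2.le ht))]
  exact cv_const hw (trunc_loc hF (isCompact_closedBall _ _) hb) hb he ⟨h₁, hr1⟩ ⟨h₂, hr2⟩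

/-- The candidate (up to the factor `mass`). -/
noncomputable def GG (F : ℂ → ℂ) (x : ℂ) : ℂ := FF F (x.im / 2) x

theorem GG_eventually {F : ℂ → ℂ} (hF : LocallyIntegrableOn F uhp) (hw : Wk F) {x : ℂ}
    (hx : x ∈ uhp) : GG F =ᶠ[𝓝 x] cv (indicator (closedBall x (3 * (x.im / 4))) F)
      (Kr (x.im / 4)) := by
  have hx' : 0 < x.im := hx
  have h1 : ball x (x.im / 4) ∈ 𝓝 x := ball_mem_nhds x (by linarith)
  filter_upwards [h1] with y hy
  rw [mem_ball, dist_eq_norm] at hy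
  have h2 : |(y - x).im| ≤ ‖y - x‖ := Complex.abs_im_le_norm _
  rw [Complex.sub_im] at h2
  have h3 := (abs_le.1 h2).1
  have h4 : 3 * (x.im / 4) < y.im := by linarith
  unfold GG
  rw [FF_const hF hw (r₂ := x.im / 4) (by linarith) (by linarith) (by linarith) (by linarith)]
  refine FF_eq (by linarith) (fun t ht => indicator_of_mem ?_ _)
  rw [mem_closedBall] at ht ⊢
  have h5 : dist t x ≤ dist t y + dist y x := dist_triangle _ _ _
  rw [← dist_eq_norm] at hy
  linarith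

theorem holo {F : ℂ → ℂ} (hF : LocallyIntegrableOn F uhp) (hw : Wk F) :
    DifferentiableOn ℂ (GG F) uhp := by
  intro x hx
  have hx' : 0 < x.im := hx
  have h1 := GG_eventually hF hw hx
  have hb : closedBall x (3 * (x.im / 4)) ⊆ uhp := ball_sub (by linarith)
  have hl := trunc_loc hF (isCompact_closedBall x (3 * (x.im / 4))) hb
  have h2 : DifferentiableAt ℝ (cv (indicator (closedBall x (3 * (x.im / 4))) F)
      (Kr (x.im / 4))) x :=
    (cv_contDiff hl (Kr_contDiff _) (Kr_supp (by linarith))).differentiable (by norm_num) x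
  have h3 : dbar (cv (indicator (closedBall x (3 * (x.im / 4))) F) (Kr (x.im / 4))) x = 0 := by
    rw [cv_dbar hl (Kr_contDiff _) (Kr_supp (by linarith))]
    refine weak_conv hw (Kr_contDiff _) (fun z hz => Kr_zero (by linarith) hz)
      (ball_sub (by linarith)) (fun t ht => indicator_of_mem ?_ _)
    exact closedBall_subset_closedBall (by linarith) ht
  have h4 : DifferentiableAt ℂ (cv (indicator (closedBall x (3 * (x.im / 4))) F)
      (Kr (x.im / 4))) x := by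
    rw [differentiableAt_complex_iff_differentiableAt_real]
    refine ⟨h2, ?_⟩
    unfold dbar at h3
    rw [smul_eq_mul]
    have h5 := (div_eq_zero_iff.1 h3).resolve_right (by norm_num)
    linear_combination (-I) * h5 + (fderiv ℝ (cv (indicator (closedBall x (3 * (x.im / 4))) F)
      (Kr (x.im / 4))) x I) * Complex.I_mul_I
  exact (h4.congr_of_eventuallyEq h1).differentiableWithinAt

/-- compact subsets of the upper half plane -/
def Cm (m : ℕ) : Set ℂ := {z | 1 / ((m : ℝ) + 1) ≤ z.im} ∩ closedBall 0 m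

theorem Cm_compact (m : ℕ) : IsCompact (Cm m) :=
  (isCompact_closedBall _ _).inter_left (isClosed_le continuous_const Complex.continuous_im)

theorem Cm_sub (m : ℕ) : Cm m ⊆ uhp := by
  intro z hz
  have h1 : 1 / ((m : ℝ) + 1) ≤ z.im := hz.1
  have h2 : (0 : ℝ) < 1 / ((m : ℝ) + 1) := by positivity
  show 0 < z.im
  linarith

theorem ae_eq {F : ℂ → ℂ} (hF : LocallyIntegrableOn F uhp) (hw : Wk F) :
    ∀ᵐ x ∂(volume.restrict uhp), GG F x = mass * F x := by
  rw [ae_restrict_iff' isOpen_uhp.measurableSet]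
  have h1 : ∀ m : ℕ, ∀ᵐ x : ℂ, Tendsto (fun r => cv (indicator (Cm m) F) (Kr r) x) (𝓝[>] 0)
      (𝓝 (mass * indicator (Cm m) F x)) := fun m =>
    cv_tendsto (trunc_loc hF (Cm_compact m) (Cm_sub m))
  filter_upwards [ae_all_iff.2 h1] with x hx hxR
  have hx' : 0 < x.im := hxR
  obtain ⟨m1, hm1⟩ := exists_nat_one_div_lt (half_pos hx')
  obtain ⟨m2, hm2⟩ := exists_nat_gt (‖x‖ + x.im / 2)
  set m := max m1 m2 with hm
  have hsub : closedBall x (x.im / 2) ⊆ Cm m := by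
    intro t ht
    rw [mem_closedBall, dist_eq_norm] at ht
    constructor
    · show 1 / ((m : ℝ) + 1) ≤ t.im
      have h2 : |(t - x).im| ≤ ‖t - x‖ := Complex.abs_im_le_norm _
      rw [Complex.sub_im] at h2
      have h3 := (abs_le.1 h2).1
      have h4 : 1 / ((m : ℝ) + 1) ≤ 1 / ((m1 : ℝ) + 1) := by
        apply one_div_le_one_div_of_le (by positivity)
        have : (m1 : ℝ) ≤ m := by exact_mod_cast le_max_left _ _
        linarith
      linarith
    · rw [mem_closedBall_zero_iff]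
      have h5 : ‖t‖ ≤ ‖t - x‖ + ‖x‖ := by
        calc ‖t‖ = ‖(t - x) + x‖ := by rw [sub_add_cancel]
          _ ≤ _ := norm_add_le _ _
      have : (m2 : ℝ) ≤ m := by exact_mod_cast le_max_right _ _
      linarith
  have h2 := hx m
  have h3 : indicator (Cm m) F x = F x :=
    indicator_of_mem (hsub (mem_closedBall_self (by linarith))) _
  rw [h3] at h2
  have h4 : (fun r => cv (indicator (Cm m) F) (Kr r) x) =ᶠ[𝓝[>] 0] fun _ => GG F x := by
    have h5 : Ioo 0 (x.im / 2) ∈ 𝓝[>] (0 : ℝ) := Ioo_mem_nhdsGT (by linarith)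
    filter_upwards [h5] with r hr
    rw [← FF_eq hr.1 (F := F) (fun t ht => indicator_of_mem
      (hsub (closedBall_subset_closedBall hr.2.le ht)) _)]
    unfold GG
    exact FF_const hF hw hr.1 (by linarith) (by linarith [hr.2]) (by linarith)
  exact tendsto_nhds_unique (tendsto_const_nhds.congr' h4.symm) h2

end Weyl

/-- 14 Weyl: weakly holomorphic functions are holomorphic. -/
theorem stWeyl : StWeyl := by
  intro F hF hw
  have hm : (Weyl.mass : ℂ) ≠ 0 := by exact_mod_cast Weyl.mass_pos.ne'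
  refine ⟨fun z => (Weyl.mass : ℂ)⁻¹ * Weyl.GG F z, (Weyl.holo hF hw).const_mul _, ?_⟩
  filter_upwards [Weyl.ae_eq hF hw] with x hx
  rw [hx, ← mul_assoc, inv_mul_cancel₀ hm, one_mul]

end Pool.Agent.Work.MP_055a27_an.Wd
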