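import Pool.Agent.Work.MP_055a27_an.Wd.Stmts

set_option autoImplicit false

open MeasureTheory Set Filter Topology Complex Metric
open scoped ENNReal NNReal

namespace Pool.Agent.Work.MP_055a27_an.Wd

namespace Zb

/-- the weights of the pieces -/
noncomputable def cc (b : ℝ) (i : ℤ) : ℝ := (1 + max (|(i : ℝ)| - 1) 0 * b) ^ (-(2 : ℝ))

lemma cc_nonneg {b : ℝ} (hb : 0 < b) (i : ℤ) : 0 ≤ cc b i := by
  unfold cc
  have : 0 ≤ max (|(i : ℝ)| - 1) 0 := le_max_right _ _
  positivity

lemma cc_le_one {b : ℝ} (hb : 0 < b) (i : ℤ) : cc b i ≤ 1 := by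
  unfold cc
  have : 0 ≤ max (|(i : ℝ)| - 1) 0 := le_max_right _ _
  apply Real.rpow_le_one_of_one_le_of_nonpos
  · nlinarith [mul_nonneg this hb.le]
  · norm_num

lemma cc_summable {b : ℝ} (hb : 0 < b) : Summable (cc b) := by
  set β : ℝ := min (b / 2) 1 with hβ
  have hβ0 : 0 < β := lt_min (by positivity) one_pos
  have h1 : Summable fun i : ℤ => (β ^ 2)⁻¹ * (1 / (i : ℝ) ^ 2) :=
    (Real.summable_one_div_int_pow.2 (by norm_num)).mul_left _
  have h2 : Summable fun i : ℤ => if i = 0 then (1 : ℝ) else 0 :=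
    summable_of_ne_finset_zero (s := {0}) (by
      intro i hi
      simp only [Finset.mem_singleton] at hi
      rw [if_neg hi])
  refine Summable.of_nonneg_of_le (cc_nonneg hb) (fun i => ?_) (h1.add h2)
  rcases eq_or_ne i 0 with h | h
  · subst h
    simpa using cc_le_one hb 0
  · rw [if_neg h, add_zero]
    have hi0 : (0 : ℝ) < |(i : ℝ)| := abs_pos.2 (by exact_mod_cast h)
    have hi1 : (1 : ℝ) ≤ |(i : ℝ)| := by
      have := Int.one_le_abs h
      exact_mod_cast this
    have key : β * |(i : ℝ)| ≤ 1 + max (|(i : ℝ)| - 1) 0 * b := by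
      rw [max_eq_left (by linarith)]
      have b1 : β ≤ b / 2 := min_le_left _ _
      have b2 : β ≤ 1 := min_le_right _ _
      rcases eq_or_lt_of_le (Int.one_le_abs h) with h3 | h3
      · have h4 : |(i : ℝ)| = 1 := by
          have : ((|i| : ℤ) : ℝ) = 1 := by rw [← h3]; norm_num
          rwa [Int.cast_abs] at this
        rw [h4]; linarith
      · have h4 : (2 : ℝ) ≤ |(i : ℝ)| := by
          have : (2 : ℤ) ≤ |i| := by omega
          have h5 : ((2 : ℤ) : ℝ) ≤ ((|i| : ℤ) : ℝ) := by exact_mod_cast this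
          rw [Int.cast_abs] at h5
          simpa using h5
        have h6 : β * |(i : ℝ)| ≤ b / 2 * |(i : ℝ)| := mul_le_mul_of_nonneg_right b1 hi0.le
        nlinarith
    unfold cc
    rw [Real.rpow_neg (by have := le_max_right (|(i : ℝ)| - 1) 0; positivity)]
    have h7 : (0 : ℝ) < β * |(i : ℝ)| := by positivity
    have h8 : (β * |(i : ℝ)|) ^ 2 ≤ (1 + max (|(i : ℝ)| - 1) 0 * b) ^ (2 : ℝ) := by
      rw [← Real.rpow_natCast]
      exact Real.rpow_le_rpow h7.le key (by norm_num)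
    have h9 : (β ^ 2)⁻¹ * (1 / (i : ℝ) ^ 2) = ((β * |(i : ℝ)|) ^ 2)⁻¹ := by
      rw [mul_pow, sq_abs, mul_inv]; ring
    rw [h9]
    exact inv_anti₀ (by positivity) h8

lemma piece {b : ℝ} (hb : 0 < b) {U : ℝ → ℝ} {v : ℂ → ℝ} (hU : IsWeight U)
    (hm : MonoC b v) (hd : Dom b U v) {η r x0 : ℝ} (hr : 0 < r) (hη : r ≤ η) (i : ℤ) :
    ∫⁻ x in Ico (x0 + i • (b * η)) (x0 + (i + 1) • (b * η)),
      ENNReal.ofReal (Real.exp (-v (x + η * I)) * (1 + |x - x0| / r) ^ (-(2 : ℝ))) *
      ENNReal.ofReal (U x) ≤ ENNReal.ofReal (cc b i) := by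
  have hη0 : 0 < η := hr.trans_le hη
  set c : ℝ := x0 + ((i : ℝ) + 1 / 2) * (b * η) with hc
  set z : ℂ := (c : ℂ) + ((η / 2 : ℝ) : ℂ) * I with hz
  have hzre : z.re = c := by simp [hz]
  have hzim : z.im = η / 2 := by simp [hz]
  have hzu : z ∈ uhp := by
    change 0 < z.im
    rw [hzim]; positivity
  have hmem : ∀ x ∈ Ico (x0 + i • (b * η)) (x0 + (i + 1) • (b * η)),
      x0 + i * (b * η) ≤ x ∧ x ≤ x0 + (i + 1) * (b * η) := by
    intro x hx
    rw [zsmul_eq_mul, zsmul_eq_mul] at hx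
    push_cast at hx
    exact ⟨hx.1, hx.2.le⟩
  have h1 : ∀ x ∈ Ico (x0 + i • (b * η)) (x0 + (i + 1) • (b * η)),
      ENNReal.ofReal (Real.exp (-v (x + η * I)) * (1 + |x - x0| / r) ^ (-(2 : ℝ))) *
      ENNReal.ofReal (U x) ≤ ENNReal.ofReal (Real.exp (-v z) * cc b i) * ENNReal.ofReal (U x) := by
    intro x hx
    obtain ⟨a1, a2⟩ := hmem x hx
    refine mul_le_mul' (ENNReal.ofReal_le_ofReal ?_) le_rfl
    have hv : v z ≤ v (x + η * I) := by
      have h := hm z hzu (((x - c : ℝ) : ℂ) + ((η / 2 : ℝ) : ℂ) * I) (by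
        simp only [Co, mem_ofPred_eq]
        simp only [add_re, add_im, ofReal_re, ofReal_im, mul_re, mul_im, I_re, I_im]
        rw [abs_le]
        constructor <;> (rw [hc]; ring_nf; ring_nf at a1 a2; nlinarith))
      have e : z + (((x - c : ℝ) : ℂ) + ((η / 2 : ℝ) : ℂ) * I) = (x : ℂ) + η * I := by
        rw [hz]; push_cast; ring
      rwa [e] at h
    refine mul_le_mul (Real.exp_le_exp.2 (neg_le_neg hv)) ?_ (by positivity) (by positivity)
    unfold cc
    have hbη : 0 < b * η := by positivity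
    have hmax : max (|(i : ℝ)| - 1) 0 * b ≤ |x - x0| / r := by
      rw [le_div_iff₀ hr]
      rcases le_total (|(i : ℝ)| - 1) 0 with h | h
      · rw [max_eq_right h]; simp
      · rw [max_eq_left h]
        have h2 : (|(i : ℝ)| - 1) * (b * η) ≤ |x - x0| := by
          rcases le_total 0 (i : ℝ) with h3 | h3
          · rw [abs_of_nonneg h3]
            refine le_trans ?_ (le_abs_self _)
            nlinarith
          · rw [abs_of_nonpos h3]
            refine le_trans ?_ (neg_le_abs _)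
            nlinarith
        refine le_trans ?_ h2
        have : (|(i : ℝ)| - 1) * b * r ≤ (|(i : ℝ)| - 1) * b * η :=
          mul_le_mul_of_nonneg_left hη (by positivity)
        linarith
    have hpos : 0 < 1 + max (|(i : ℝ)| - 1) 0 * b := by
      have := le_max_right (|(i : ℝ)| - 1) 0
      positivity
    exact Real.rpow_le_rpow_of_nonpos hpos (by linarith) (by norm_num)
  have h2 : ∫⁻ x in Ico (x0 + i • (b * η)) (x0 + (i + 1) • (b * η)), ENNReal.ofReal (U x) ≤
      ENNReal.ofReal (Real.exp (v z)) := by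
    have hsub : Ico (x0 + i • (b * η)) (x0 + (i + 1) • (b * η)) ⊆ Iv b z := by
      intro x hx
      obtain ⟨a1, a2⟩ := hmem x hx
      simp only [Iv, mem_Icc, hzre, hzim, hc]
      constructor <;> nlinarith
    refine (lintegral_mono_set hsub).trans ?_
    have h3 : ∫⁻ x in Iv b z, ENNReal.ofReal (U x) = ENNReal.ofReal (∫ x in Iv b z, U x) := by
      unfold Iv
      rw [ofReal_integral_eq_lintegral_ofReal (hU.2.integrableOn_isCompact isCompact_Icc)
        (Eventually.of_forall fun x => hU.1 x)]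
    rw [h3]
    exact ENNReal.ofReal_le_ofReal (hd z hzu)
  calc ∫⁻ x in Ico (x0 + i • (b * η)) (x0 + (i + 1) • (b * η)),
      ENNReal.ofReal (Real.exp (-v (x + η * I)) * (1 + |x - x0| / r) ^ (-(2 : ℝ))) *
      ENNReal.ofReal (U x)
      ≤ ∫⁻ x in Ico (x0 + i • (b * η)) (x0 + (i + 1) • (b * η)),
        ENNReal.ofReal (Real.exp (-v z) * cc b i) * ENNReal.ofReal (U x) :=
        setLIntegral_mono' measurableSet_Ico h1
    _ = ENNReal.ofReal (Real.exp (-v z) * cc b i) *
        ∫⁻ x in Ico (x0 + i • (b * η)) (x0 + (i + 1) • (b * η)), ENNReal.ofReal (U x) :=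
        lintegral_const_mul' _ _ ENNReal.ofReal_ne_top
    _ ≤ ENNReal.ofReal (Real.exp (-v z) * cc b i) * ENNReal.ofReal (Real.exp (v z)) :=
        mul_le_mul' le_rfl h2
    _ = ENNReal.ofReal (cc b i) := by
        rw [← ENNReal.ofReal_mul (mul_nonneg (Real.exp_pos _).le (cc_nonneg hb i))]
        congr 1
        rw [mul_right_comm, ← Real.exp_add, neg_add_cancel, Real.exp_zero, one_mul]

end Zb

open Zb in
theorem stZb : StZb := by
  intro b hb
  refine ⟨∑' i, cc b i + 1, ?_, ?_⟩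
  · have : 0 ≤ ∑' i, cc b i := tsum_nonneg (cc_nonneg hb)
    linarith
  intro U v hU hm _ hd η r x0 hr hη
  have hη0 : 0 < η := hr.trans_le hη
  have hp : 0 < b * η := by positivity
  rw [← setLIntegral_univ, ← iUnion_Ico_add_zsmul hp x0]
  refine (lintegral_iUnion_le _ _).trans ?_
  refine (ENNReal.tsum_le_tsum fun i => piece hb hU hm hd hr hη i).trans ?_
  rw [← ENNReal.ofReal_tsum_of_nonneg (cc_nonneg hb) (cc_summable hb)]
  exact ENNReal.ofReal_le_ofReal (by linarith)

end Pool.Agent.Work.MP_055a27_an.Wd
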