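import Pool.Agent.Work.MP_055a27_an.Wd.SubM
import Pool.Agent.Work.MP_055a27_an.Bd.B15
import Pool.Agent.Work.MP_055a27_an.Bd.B16
import Pool.Agent.Work.MP_055a27_an.Wd.Pk
import Pool.Agent.Work.MP_055a27_an.Wd.HorE
import Pool.Agent.Work.MP_055a27_an.Wd.Weyl
import Pool.Agent.Work.MP_055a27_an.Wd.Hor
import Pool.Agent.Work.MP_055a27_an.Wd.Zb
import Pool.Agent.Work.MP_055a27_an.Bd.B14
import Pool.Agent.Work.MP_055a27_an.Wd.Stp
import Pool.Agent.Work.MP_055a27_an.Bd.B13
import Pool.Agent.Work.MP_055a27_an.Bd.B12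
import Pool.Agent.Work.MP_055a27_an.Wd.HK
import Pool.Agent.Work.MP_055a27_an.Wd.Wco
import Pool.Agent.Work.MP_055a27_an.Wd.Cvr
import Pool.Agent.Work.MP_055a27_an.Wd.Ksu
import Pool.Agent.Work.MP_055a27_an.Wd.LE2
import Pool.Agent.Work.MP_055a27_an.Wd.LE
import Pool.Agent.Work.MP_055a27_an.Wd.SlM
import Pool.Agent.Work.MP_055a27_an.Bd.B05
import Pool.Agent.Work.MP_055a27_an.Bd.B04

/-!
# Wide cones `lam < b`: the main theorem
-/

set_option autoImplicit false

open MeasureTheory Set Filter Topology Complex Metric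
open scoped ENNReal NNReal

namespace Pool.Agent.Work.MP_055a27_an.Wd

theorem tSmo : StSmo := stSmo stLapN

theorem tVst : StVst := stVst stSubM

theorem tPk : StPk := stPk stLapN

theorem tHor : StHor := stHor stSubM stUp (stHorE stHorI) stWeyl

theorem tDec : StDec := stDec (stStp stHfu Sg.stSFb Sg.stAnC)

theorem tNec : StNec := stNec tVst tSmo (stNecM (stLoc tHor stZb tDec))

theorem tGR : StGR := stGR stSubL

theorem tHK : StHK :=
  stHK tGR stGRb (stSlo tGR Thr.stGrow) (stGlu tPk stSubM) Thr.stGrow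

theorem tWco : StWco := stWco stSubM tSmo tPk stBv

theorem tKsu : StKsu := stKsu stBv (stFin stBv) (stCvr (stJNc stJN))

theorem tLE : StLE := stLE (stLE2 stSawG) stJN

theorem tSuf : StSuf :=
  stSuf tHK (stSuE stGro stBv tWco tKsu stCvE tLE (stSlM stBv) stInt)

/-- The main theorem. -/
theorem stMainW : StMainW := fun lam b p U hlam hlb hp hU =>
  ⟨tNec lam b p U hlam hlb hp hU, tSuf lam b p U hlam hlb hp hU⟩

/-- The main theorem with the condition independent of `lam`. -/
theorem main_half {lam b p : ℝ} {U : ℝ → ℝ} (hlam : 0 < lam) (hlb : lam < b) (hp : 0 < p)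
    (hU : IsWeight U) : Star lam b p U ↔ CondV (b / 2) b U := by
  have hb : 0 < b := hlam.trans hlb
  rw [stMainW lam b p U hlam hlb hp hU]
  exact condV_iff tVst tSmo hlam hlb (by linarith) (by linarith) hU

end Pool.Agent.Work.MP_055a27_an.Wd
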