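import Pool.Agent.Work.MP_055a27_an.Wd.Stmts

/-!
# The mean value inequality for superharmonic functions of class `C ^ 2`

For `w` in the unit disc `v (z + r w) - v z = ∫ s in 0..r, Dv (z + s w) w`. The integral of
`Dv (z + s w) w` over the unit disc is `s ∫ (1 - |w| ^ 2) / 2 * Δ v (z + s w) ≤ 0`, by partial
integration in the two coordinate directions.
-/

set_option autoImplicit false

open MeasureTheory Set Filter Topology Complex Metric
open scoped ENNReal NNReal

namespace Pool.Agent.Work.MP_055a27_an.Wd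

namespace SubM

/-- The open unit disc. -/
def D : Set (ℝ × ℝ) := {p | p.1 ^ 2 + p.2 ^ 2 < 1}

/-- The closed unit disc. -/
def Dc : Set (ℝ × ℝ) := {p | p.1 ^ 2 + p.2 ^ 2 ≤ 1}

lemma D_sub : D ⊆ Dc := by
  intro p h
  have h' : p.1 ^ 2 + p.2 ^ 2 < 1 := h
  exact h'.le

lemma isOpen_D : IsOpen D :=
  isOpen_lt (by fun_prop) continuous_const

lemma isCompact_Dc : IsCompact Dc := by
  refine Metric.isCompact_of_isClosed_isBounded (isClosed_le (by fun_prop) continuous_const) ?_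
  refine (isBounded_Icc (-1 : ℝ) 1).prod (isBounded_Icc (-1 : ℝ) 1) |>.subset ?_
  intro p hp
  have h : p.1 ^ 2 + p.2 ^ 2 ≤ 1 := hp
  have h1 : |p.1| ≤ 1 := abs_le_of_sq_le_sq (by nlinarith [sq_nonneg p.2]) (by norm_num)
  have h2 : |p.2| ≤ 1 := abs_le_of_sq_le_sq (by nlinarith [sq_nonneg p.1]) (by norm_num)
  exact ⟨abs_le.1 h1, abs_le.1 h2⟩

/-- Partial integration on a slice of the disc. -/
lemma slice (y : ℝ) (H H' : ℝ → ℝ) (hd : ∀ x, x ^ 2 + y ^ 2 ≤ 1 → HasDerivAt H (H' x) x)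
    (hc : ContinuousOn H' {x | x ^ 2 + y ^ 2 ≤ 1}) :
    ∫ x in {x | x ^ 2 + y ^ 2 < 1}, x * H x =
      ∫ x in {x | x ^ 2 + y ^ 2 < 1}, (1 - x ^ 2 - y ^ 2) / 2 * H' x := by
  by_cases hy : y ^ 2 < 1
  · have hρ0 : 0 < Real.sqrt (1 - y ^ 2) := Real.sqrt_pos.2 (by linarith)
    have hρ2 : Real.sqrt (1 - y ^ 2) ^ 2 = 1 - y ^ 2 := Real.sq_sqrt (by linarith)
    set ρ := Real.sqrt (1 - y ^ 2) with hρ
    have hset : {x : ℝ | x ^ 2 + y ^ 2 < 1} = Ioo (-ρ) ρ := by
      ext x
      rw [mem_ofPred_eq, mem_Ioo, ← abs_lt]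
      constructor
      · intro h
        exact abs_lt_of_sq_lt_sq (by linarith) hρ0.le
      · intro h
        have := sq_lt_sq' (abs_lt.1 h).1 (abs_lt.1 h).2
        linarith
    have hsub : ∀ x ∈ uIcc (-ρ) ρ, x ^ 2 + y ^ 2 ≤ 1 := by
      intro x hx
      rw [uIcc_of_le (by linarith)] at hx
      have := sq_le_sq' hx.1 hx.2
      linarith
    have hle : -ρ ≤ ρ := by linarith
    rw [hset, ← integral_Ioc_eq_integral_Ioo, ← integral_Ioc_eq_integral_Ioo,
      ← intervalIntegral.integral_of_le hle, ← intervalIntegral.integral_of_le hle]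
    have hint : IntervalIntegrable H' volume (-ρ) ρ :=
      (hc.mono fun x hx => hsub x hx).intervalIntegrable
    have h1 := intervalIntegral.integral_mul_deriv_eq_deriv_mul (u := H) (u' := H')
      (v := fun x => -((1 - x ^ 2 - y ^ 2) / 2)) (v' := fun x => x) (a := -ρ) (b := ρ)
      (fun x hx => hd x (hsub x hx)) (fun x _ => by
        have h2 : HasDerivAt (fun x : ℝ => -((1 - x ^ 2 - y ^ 2) / 2))
            (-((0 - (2 : ℕ) * x ^ (2 - 1) - 0) / 2)) x :=
          ((((hasDerivAt_const x (1 : ℝ)).sub (hasDerivAt_pow 2 x)).sub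
            (hasDerivAt_const x (y ^ 2))).div_const 2).neg
        exact h2.congr_deriv (by push_cast; ring)) hint (continuous_id.intervalIntegrable _ _)
    have h3 : (∫ x in (-ρ)..ρ, x * H x) = ∫ x in (-ρ)..ρ, H x * x := by
      congr 1
      ext x
      ring
    rw [h3, h1]
    have e1 : 1 - ρ ^ 2 - y ^ 2 = 0 := by linarith
    have e2 : 1 - (-ρ) ^ 2 - y ^ 2 = 0 := by nlinarith
    rw [e1, e2]
    simp only [zero_div, neg_zero, mul_zero, sub_zero, zero_sub]
    rw [← intervalIntegral.integral_neg]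
    congr 1
    ext x
    ring
  · have hset : {x : ℝ | x ^ 2 + y ^ 2 < 1} = ∅ := by
      ext x
      simp only [mem_ofPred_eq, mem_empty_iff_false, iff_false, not_lt]
      nlinarith [sq_nonneg x]
    rw [hset]
    simp

/-- Partial integration on the disc, first coordinate. -/
lemma byparts (H H' : ℝ × ℝ → ℝ)
    (hd : ∀ p ∈ Dc, HasDerivAt (fun t => H (t, p.2)) (H' p) p.1)
    (hH : ContinuousOn H Dc) (hH' : ContinuousOn H' Dc) :
    ∫ p in D, p.1 * H p = ∫ p in D, (1 - p.1 ^ 2 - p.2 ^ 2) / 2 * H' p := by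
  have hm : MeasurableSet D := isOpen_D.measurableSet
  have key : ∀ f : ℝ × ℝ → ℝ, ContinuousOn f Dc →
      ∫ p in D, f p = ∫ y, ∫ x in {x | x ^ 2 + y ^ 2 < 1}, f (x, y) := by
    intro f hf
    have hi : IntegrableOn f D := (hf.integrableOn_compact isCompact_Dc).mono_set D_sub
    rw [← integral_indicator hm, Measure.volume_eq_prod, integral_prod_symm]
    · congr 1
      ext y
      rw [← integral_indicator (isOpen_lt (by fun_prop) continuous_const).measurableSet]
      rfl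
    · rw [← Measure.volume_eq_prod]
      exact hi.integrable_indicator hm
  rw [key (fun p => p.1 * H p) (continuousOn_fst.mul hH),
    key (fun p => (1 - p.1 ^ 2 - p.2 ^ 2) / 2 * H' p) (ContinuousOn.mul (by fun_prop) hH')]
  congr 1
  ext y
  exact slice y (fun x => H (x, y)) (fun x => H' (x, y)) (fun x hx => hd (x, y) hx)
    (hH'.comp (by fun_prop) fun x hx => hx)

/-- The complex number with given coordinates. -/
noncomputable def P (p : ℝ × ℝ) : ℂ := (p.1 : ℂ) + p.2 * I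

lemma continuous_P : Continuous P := by
  unfold P
  fun_prop

lemma norm_P (p : ℝ × ℝ) : ‖P p‖ ^ 2 = p.1 ^ 2 + p.2 ^ 2 := by
  rw [← Complex.normSq_eq_norm_sq]
  unfold P
  rw [Complex.normSq_add_mul_I]

lemma norm_P_le {p : ℝ × ℝ} (hp : p ∈ Dc) : ‖P p‖ ≤ 1 := by
  have h : p.1 ^ 2 + p.2 ^ 2 ≤ 1 := hp
  rw [← norm_P] at h
  exact (sq_le_one_iff₀ (norm_nonneg _)).1 h

/-- Integrals over the unit disc. -/
lemma integral_ball (f : ℂ → ℝ) : ∫ w in ball (0 : ℂ) 1, f w = ∫ p in D, f (P p) := by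
  have h := (Complex.volume_preserving_equiv_real_prod.symm
    Complex.measurableEquivRealProd).setIntegral_preimage_emb
      Complex.measurableEquivRealProd.symm.measurableEmbedding f (ball (0 : ℂ) 1)
  rw [← h]
  have e : ∀ p : ℝ × ℝ, Complex.measurableEquivRealProd.symm p = P p := by
    intro p
    rw [Complex.measurableEquivRealProd_symm_apply]
    exact Complex.mk_eq_add_mul_I _ _
  have hs : Complex.measurableEquivRealProd.symm ⁻¹' ball (0 : ℂ) 1 = D := by
    ext p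
    rw [mem_preimage, e, mem_ball_zero_iff]
    show ‖P p‖ < 1 ↔ p.1 ^ 2 + p.2 ^ 2 < 1
    rw [← norm_P, sq_lt_one_iff₀ (norm_nonneg _)]
  rw [hs]
  congr 1
  ext p
  rw [e]

lemma swap_D (f : ℝ × ℝ → ℝ) : ∫ p in D, f p.swap = ∫ p in D, f p := by
  have h := (Measure.measurePreserving_swap (μ := (volume : Measure ℝ))
    (ν := (volume : Measure ℝ))).setIntegral_preimage_emb
      (MeasurableEquiv.prodComm (α := ℝ) (β := ℝ)).measurableEmbedding f D
  have hs : Prod.swap ⁻¹' D = D := by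
    ext p
    show p.2 ^ 2 + p.1 ^ 2 < 1 ↔ p.1 ^ 2 + p.2 ^ 2 < 1
    rw [add_comm]
  rw [hs] at h
  exact h

lemma swap_Dc {p : ℝ × ℝ} (hp : p ∈ Dc) : p.swap ∈ Dc := by
  have h : p.1 ^ 2 + p.2 ^ 2 ≤ 1 := hp
  show p.2 ^ 2 + p.1 ^ 2 ≤ 1
  linarith

/-- The second derivatives. -/
lemma lap {v : ℂ → ℝ} {q : ℂ} (h : ContDiffAt ℝ 2 v q) :
    fderiv ℝ (fun w => fderiv ℝ v w 1) q 1 + fderiv ℝ (fun w => fderiv ℝ v w I) q I =
      Laplacian.laplacian v q := by
  have h1 : DifferentiableAt ℝ (fderiv ℝ v) q :=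
    (h.fderiv_right (m := 1) (by norm_num)).differentiableAt (by norm_num)
  have h2 : ∀ e : ℂ, fderiv ℝ (fun w => fderiv ℝ v w e) q e = fderiv ℝ (fderiv ℝ v) q e e := by
    intro e
    have h3 := h1.hasFDerivAt.clm_apply (hasFDerivAt_const e q)
    rw [h3.fderiv]
    simp
  rw [InnerProductSpace.laplacian_eq_iteratedFDeriv_complexPlane]
  show _ = iteratedFDeriv ℝ 2 v q ![1, 1] + iteratedFDeriv ℝ 2 v q ![I, I]
  rw [iteratedFDeriv_two_apply, iteratedFDeriv_two_apply, h2, h2]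
  rfl

lemma mem_uhp {z : ℂ} {r s : ℝ} (hz : closedBall z r ⊆ uhp) (hs : 0 ≤ s) (hsr : s ≤ r)
    {p : ℝ × ℝ} (hp : p ∈ Dc) : z + s * P p ∈ uhp := by
  apply hz
  rw [mem_closedBall, dist_eq_norm, add_sub_cancel_left, norm_mul, Complex.norm_real,
    Real.norm_of_nonneg hs]
  calc s * ‖P p‖ ≤ s * 1 := mul_le_mul_of_nonneg_left (norm_P_le hp) hs
    _ ≤ r := by linarith

/-- One of the two directions. -/
lemma dir {v : ℂ → ℝ} (hv : ContDiffOn ℝ 2 v uhp) (hU : IsOpen uhp) {z : ℂ} {s : ℝ}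
    (e : ℂ) (γ : ℝ × ℝ → ℂ)
    (hγc : Continuous γ) (hγ : ∀ p ∈ Dc, z + s * γ p ∈ uhp)
    (hγd : ∀ p : ℝ × ℝ, HasDerivAt (fun t : ℝ => γ (t, p.2)) e p.1) :
    ∫ p in D, p.1 * fderiv ℝ v (z + s * γ p) e = ∫ p in D, (1 - p.1 ^ 2 - p.2 ^ 2) / 2 *
      (s * fderiv ℝ (fun w => fderiv ℝ v w e) (z + s * γ p) e) := by
  have h1 : ContDiffOn ℝ 1 (fun w => fderiv ℝ v w e) uhp :=
    (hv.fderiv_of_isOpen hU (m := 1) (by norm_num)).clm_apply contDiffOn_const
  have h2 : ContinuousOn (fun w => fderiv ℝ (fun w => fderiv ℝ v w e) w e) uhp :=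
    ((h1.fderiv_of_isOpen hU (m := 0) (by norm_num)).clm_apply contDiffOn_const).continuousOn
  have hc : ContinuousOn (fun p : ℝ × ℝ => z + s * γ p) Dc := by fun_prop
  refine byparts (fun p => fderiv ℝ v (z + s * γ p) e)
    (fun p => s * fderiv ℝ (fun w => fderiv ℝ v w e) (z + s * γ p) e) ?_ ?_ ?_
  · intro p hp
    have h3 : HasFDerivAt (fun w => fderiv ℝ v w e)
        (fderiv ℝ (fun w => fderiv ℝ v w e) (z + s * γ p)) (z + s * γ p) :=
      ((h1.contDiffAt (hU.mem_nhds (hγ p hp))).differentiableAt (by norm_num)).hasFDerivAt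
    have h4 : HasDerivAt (fun t : ℝ => z + s * γ (t, p.2)) (s * e) p.1 :=
      ((hγd p).const_mul (s : ℂ)).const_add z
    have h5 := HasFDerivAt.comp_hasDerivAt p.1 (f := fun t : ℝ => z + s * γ (t, p.2)) h3 h4
    refine h5.congr_deriv ?_
    have : (s : ℂ) * e = s • e := by simp
    rw [this, map_smul]
    rfl
  · exact h1.continuousOn.comp hc hγ
  · exact continuousOn_const.mul (h2.comp hc hγ)

lemma P_swap (p : ℝ × ℝ) : P p.swap = (p.2 : ℂ) + p.1 * I := rfl

/-- The radial derivative. -/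
noncomputable def G (v : ℂ → ℝ) (z : ℂ) (s : ℝ) (p : ℝ × ℝ) : ℝ :=
  p.1 * fderiv ℝ v (z + s * P p) 1 + p.2 * fderiv ℝ v (z + s * P p) I

lemma contG {v : ℂ → ℝ} (hv : ContDiffOn ℝ 2 v uhp) {z : ℂ} {r : ℝ}
    (hz : closedBall z r ⊆ uhp) :
    ContinuousOn (fun x : ℝ × (ℝ × ℝ) => G v z x.1 x.2) (Icc 0 r ×ˢ Dc) := by
  have h1 : ∀ e : ℂ, ContinuousOn (fun w => fderiv ℝ v w e) uhp := fun e =>
    ((hv.fderiv_of_isOpen isOpen_uhp (m := 1) (by norm_num)).clm_apply
      contDiffOn_const).continuousOn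
  have hc : ContinuousOn (fun x : ℝ × (ℝ × ℝ) => z + x.1 * P x.2) (Icc 0 r ×ˢ Dc) := by
    have := continuous_P
    fun_prop
  have hm : MapsTo (fun x : ℝ × (ℝ × ℝ) => z + x.1 * P x.2) (Icc 0 r ×ˢ Dc) uhp :=
    fun x hx => mem_uhp hz hx.1.1 hx.1.2 hx.2
  refine ContinuousOn.add (ContinuousOn.mul (by fun_prop) ((h1 1).comp hc hm))
    (ContinuousOn.mul (by fun_prop) ((h1 I).comp hc hm))

lemma intG {v : ℂ → ℝ} (hv : C2S v) {z : ℂ} {r s : ℝ}
    (hz : closedBall z r ⊆ uhp) (hs : 0 ≤ s) (hsr : s ≤ r) : ∫ p in D, G v z s p ≤ 0 := by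
  have h1 : ∀ e : ℂ, ContinuousOn (fun w => fderiv ℝ v w e) uhp := fun e =>
    ((hv.1.fderiv_of_isOpen isOpen_uhp (m := 1) (by norm_num)).clm_apply
      contDiffOn_const).continuousOn
  have h2 : ∀ e : ℂ, ContinuousOn (fun w => fderiv ℝ (fun w => fderiv ℝ v w e) w e) uhp :=
    fun e => ((((hv.1.fderiv_of_isOpen isOpen_uhp (m := 1) (by norm_num)).clm_apply
      contDiffOn_const).fderiv_of_isOpen isOpen_uhp (m := 0)
        (by norm_num)).clm_apply contDiffOn_const).continuousOn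
  have hP := continuous_P
  have hc : ContinuousOn (fun p : ℝ × ℝ => z + s * P p) Dc := by fun_prop
  have hm : MapsTo (fun p : ℝ × ℝ => z + s * P p) Dc uhp := fun p hp => mem_uhp hz hs hsr hp
  have hint : ∀ f : ℝ × ℝ → ℝ, ContinuousOn f Dc → IntegrableOn f D := fun f hf =>
    (hf.integrableOn_compact isCompact_Dc).mono_set D_sub
  have hx := dir hv.1 isOpen_uhp 1 P hP hm (fun p => by
    have : HasDerivAt (fun t : ℝ => (t : ℂ) + p.2 * I) 1 p.1 :=
      (Complex.ofRealCLM.hasDerivAt (x := p.1)).add_const _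
    exact this)
  have hPs : Continuous fun p : ℝ × ℝ => P p.swap := by fun_prop
  have hy := dir hv.1 isOpen_uhp I (fun p => P p.swap) hPs
    (fun p hp => mem_uhp hz hs hsr (swap_Dc hp)) (fun p => by
    have : HasDerivAt (fun t : ℝ => (p.2 : ℂ) + t * I) (1 * I) p.1 :=
      ((Complex.ofRealCLM.hasDerivAt (x := p.1)).mul_const I).const_add _
    rw [one_mul] at this
    exact this)
  have hy1 : ∫ p in D, p.2 * fderiv ℝ v (z + s * P p) I =
      ∫ p in D, p.1 * fderiv ℝ v (z + s * P p.swap) I :=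
    (swap_D fun p => p.2 * fderiv ℝ v (z + s * P p) I).symm
  have hy2 : ∫ p in D, (1 - p.1 ^ 2 - p.2 ^ 2) / 2 *
      (s * fderiv ℝ (fun w => fderiv ℝ v w I) (z + s * P p.swap) I) =
      ∫ p in D, (1 - p.1 ^ 2 - p.2 ^ 2) / 2 *
      (s * fderiv ℝ (fun w => fderiv ℝ v w I) (z + s * P p) I) := by
    rw [← swap_D fun p => (1 - p.1 ^ 2 - p.2 ^ 2) / 2 *
      (s * fderiv ℝ (fun w => fderiv ℝ v w I) (z + s * P p) I)]
    congr 1
    ext p
    show _ = (1 - p.2 ^ 2 - p.1 ^ 2) / 2 * _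
    ring
  have hsum : ∫ p in D, G v z s p = ∫ p in D, ((1 - p.1 ^ 2 - p.2 ^ 2) / 2 *
      (s * Laplacian.laplacian v (z + s * P p))) := by
    have i1 : IntegrableOn (fun p : ℝ × ℝ => p.1 * fderiv ℝ v (z + s * P p) 1) D :=
      hint _ (continuousOn_fst.mul ((h1 1).comp hc hm))
    have i2 : IntegrableOn (fun p : ℝ × ℝ => p.2 * fderiv ℝ v (z + s * P p) I) D :=
      hint _ (continuousOn_snd.mul ((h1 I).comp hc hm))
    have hφ : ContinuousOn (fun p : ℝ × ℝ => (1 - p.1 ^ 2 - p.2 ^ 2) / 2) Dc := by fun_prop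
    have i3 : IntegrableOn (fun p : ℝ × ℝ => (1 - p.1 ^ 2 - p.2 ^ 2) / 2 *
        (s * fderiv ℝ (fun w => fderiv ℝ v w 1) (z + s * P p) 1)) D :=
      hint _ (hφ.mul (continuousOn_const.mul ((h2 1).comp hc hm)))
    have i4 : IntegrableOn (fun p : ℝ × ℝ => (1 - p.1 ^ 2 - p.2 ^ 2) / 2 *
        (s * fderiv ℝ (fun w => fderiv ℝ v w I) (z + s * P p) I)) D :=
      hint _ (hφ.mul (continuousOn_const.mul ((h2 I).comp hc hm)))
    have e1 : ∫ p in D, G v z s p = (∫ p in D, p.1 * fderiv ℝ v (z + s * P p) 1) +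
        ∫ p in D, p.2 * fderiv ℝ v (z + s * P p) I := integral_add i1 i2
    rw [e1, hy1, hx, hy, hy2, ← integral_add i3 i4]
    refine setIntegral_congr_fun isOpen_D.measurableSet fun p hp => ?_
    have h3 := lap (hv.1.contDiffAt (isOpen_uhp.mem_nhds (hm (D_sub hp))))
    show (1 - p.1 ^ 2 - p.2 ^ 2) / 2 *
        (s * fderiv ℝ (fun w => fderiv ℝ v w 1) (z + s * P p) 1) +
      (1 - p.1 ^ 2 - p.2 ^ 2) / 2 *
        (s * fderiv ℝ (fun w => fderiv ℝ v w I) (z + s * P p) I) =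
      (1 - p.1 ^ 2 - p.2 ^ 2) / 2 * (s * Laplacian.laplacian v (z + s * P p))
    rw [← h3]
    ring
  rw [hsum]
  refine setIntegral_nonpos isOpen_D.measurableSet fun p hp => ?_
  have h4 : p.1 ^ 2 + p.2 ^ 2 < 1 := hp
  exact mul_nonpos_of_nonneg_of_nonpos (by linarith)
    (mul_nonpos_of_nonneg_of_nonpos hs (hv.2 _ (hm (D_sub hp))))

/-- The integral over the disc. -/
lemma disc {v : ℂ → ℝ} (hv : C2S v) {z : ℂ} {r : ℝ} (hr : 0 ≤ r)
    (hz : closedBall z r ⊆ uhp) : ∫ p in D, (v (z + r * P p) - v z) ≤ 0 := by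
  have h1 : ∀ p ∈ D, v (z + r * P p) - v z = ∫ s in (0 : ℝ)..r, G v z s p := by
    intro p hp
    have h2 : ∀ s ∈ uIcc 0 r, HasDerivAt (fun s : ℝ => v (z + s * P p)) (G v z s p) s := by
      intro s hs
      rw [uIcc_of_le hr] at hs
      have h3 : HasFDerivAt v (fderiv ℝ v (z + s * P p)) (z + s * P p) :=
        ((hv.1.contDiffAt (isOpen_uhp.mem_nhds
          (mem_uhp hz hs.1 hs.2 (D_sub hp)))).differentiableAt (by norm_num)).hasFDerivAt
      have h4 : HasDerivAt (fun s : ℝ => z + s * P p) (1 * P p) s :=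
        ((Complex.ofRealCLM.hasDerivAt (x := s)).mul_const (P p)).const_add z
      have h5 := HasFDerivAt.comp_hasDerivAt s (f := fun s : ℝ => z + s * P p) h3 h4
      refine h5.congr_deriv ?_
      have e : (1 * P p : ℂ) = p.1 • (1 : ℂ) + p.2 • I := by
        unfold P
        simp
      rw [e, map_add, map_smul, map_smul]
      rfl
    have h6 : IntervalIntegrable (fun s => G v z s p) volume 0 r := by
      refine ContinuousOn.intervalIntegrable ?_
      rw [uIcc_of_le hr]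
      exact (contG hv.1 hz).comp (f := fun s : ℝ => (s, p)) (by fun_prop)
        fun s hs => ⟨hs, D_sub hp⟩
    rw [intervalIntegral.integral_eq_sub_of_hasDerivAt h2 h6]
    simp
  have hint : Integrable (Function.uncurry fun s p => G v z s p)
      ((volume.restrict (uIoc 0 r)).prod (volume.restrict D)) := by
    rw [uIoc_of_le hr, Measure.prod_restrict]
    have h2 : IntegrableOn (fun x : ℝ × (ℝ × ℝ) => G v z x.1 x.2) (Icc 0 r ×ˢ Dc) :=
      (contG hv.1 hz).integrableOn_compact (isCompact_Icc.prod isCompact_Dc)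
    exact h2.mono_set (prod_mono Ioc_subset_Icc_self D_sub)
  rw [setIntegral_congr_fun isOpen_D.measurableSet h1, ← intervalIntegral_integral_swap hint]
  have h3 : 0 ≤ ∫ s in (0 : ℝ)..r, -∫ p in D, G v z s p :=
    intervalIntegral.integral_nonneg hr fun s hs =>
      neg_nonneg.2 (intG hv hz hs.1 hs.2)
  rw [intervalIntegral.integral_neg] at h3
  linarith

/-- Integrals over a disc. -/
lemma integral_ball' (g : ℂ → ℝ) (z : ℂ) {r : ℝ} (hr : 0 < r) :
    ∫ w in ball z r, g w = r ^ 2 * ∫ p in D, g (z + r * P p) := by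
  have h1 := Measure.setIntegral_comp_smul_of_pos (volume : Measure ℂ) (fun x => g (z + x))
    (ball (0 : ℂ) 1) hr
  rw [smul_unitBall_of_pos hr, Complex.finrank_real_complex] at h1
  have h2 := (measurePreserving_add_left (volume : Measure ℂ) z).setIntegral_preimage_emb
    (measurableEmbedding_addLeft z) g (ball z r)
  have h3 : (z + ·) ⁻¹' ball z r = ball (0 : ℂ) r := by
    ext x
    simp [dist_eq_norm]
  rw [h3] at h2
  rw [h2, smul_eq_mul] at h1
  have h4 : ∫ x in ball (0 : ℂ) 1, g (z + r • x) = ∫ p in D, g (z + r * P p) := by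
    rw [integral_ball fun x => g (z + r • x)]
    simp
  have h5 : r ^ 2 ≠ 0 := by positivity
  rw [← h4, h1, mul_inv_cancel_left₀ h5]

end SubM

open SubM

/-- The mean value inequality. -/
theorem stSubM : StSubM := by
  intro v hv z hz r hr hrz
  have hsub : closedBall z r ⊆ uhp := by
    intro w hw
    rw [mem_closedBall, dist_eq_norm] at hw
    have h1 : |(w - z).im| ≤ ‖w - z‖ := Complex.abs_im_le_norm _
    rw [Complex.sub_im] at h1
    have h2 := (abs_le.1 (h1.trans hw)).1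
    show 0 < w.im
    linarith
  have h1 := disc hv hr.le hsub
  have h2 : ∫ w in ball z r, (v w - v z) ≤ 0 := by
    rw [integral_ball' (fun w => v w - v z) z hr]
    exact mul_nonpos_of_nonneg_of_nonpos (by positivity) h1
  have hi : IntegrableOn v (ball z r) :=
    ((hv.1.continuousOn.mono hsub).integrableOn_compact
      (isCompact_closedBall z r)).mono_set ball_subset_closedBall
  have hfin : volume (ball z r) ≠ ⊤ := measure_ball_lt_top.ne
  have hic : IntegrableOn (fun _ : ℂ => v z) (ball z r) := integrableOn_const hfin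
  have h3 : ∫ w in ball z r, (v w - v z) = (∫ w in ball z r, v w) -
      volume.real (ball z r) * v z := by
    rw [integral_sub hi hic, setIntegral_const, smul_eq_mul]
  have hpos : 0 < volume.real (ball z r) :=
    ENNReal.toReal_pos (measure_ball_pos volume z hr).ne' hfin
  rw [setAverage_eq, smul_eq_mul, inv_mul_le_iff₀ hpos]
  linarith

end Pool.Agent.Work.MP_055a27_an.Wd
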